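/-!
Packed vectors (fields of 20 and of 64 bits), definitions for kernel computations. This file and the
files of the certificates use only the core library.
-/

set_option autoImplicit false

namespace Pool.Agent.Lib.MP_67d80e_pr_all

/-- the `i`-th field -/
def fl (v i : Nat) : Nat := Nat.mod (Nat.shiftRight v (Nat.mul 20 i)) 1048576

end Pool.Agent.Lib.MP_67d80e_pr_all

namespace Pool.Agent.Lib.MP_67d80e_pr_g3

/-- the `i`-th field -/
def w64 (v i : Nat) : Nat := Nat.mod (Nat.shiftRight v (Nat.mul 64 i)) 18446744073709551616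

/-- `k` fields, from the field `L` on -/
def s64 (v L k : Nat) : Nat := Nat.mod (Nat.shiftRight v (Nat.mul 64 L)) (Nat.pow 2 (Nat.mul 64 k))

/-- the vector with all fields `1` -/
def u64 (k : Nat) : Nat := Nat.div (Nat.sub (Nat.pow 2 (Nat.mul 64 k)) 1) 18446744073709551615

/-- the comparison of two packed vectors -/
def le64 (A C U : Nat) : Bool :=
  Nat.beq (Nat.land (Nat.sub (Nat.add A (Nat.mul 9223372036854775808 U)) C) (Nat.mul 9223372036854775808 U))
    (Nat.mul 9223372036854775808 U)

/-- all fields are `< 2 ^ j` -/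
def bd64 (v j k : Nat) : Bool :=
  Nat.beq (Nat.land v (Nat.mul (Nat.sub 18446744073709551616 (Nat.pow 2 j)) (u64 k))) 0

end Pool.Agent.Lib.MP_67d80e_pr_g3
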