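import Pool.Agent.Lib.MP_67d80e_pr_g3.Lay

/-!
The drift inequality in a box from the drift inequality at the corners.
-/

set_option autoImplicit false

open scoped BigOperators
open Finset

namespace Pool.Agent.Lib.MP_67d80e_pr_g3

/-- linear interpolation -/
def lin (t a b : ℝ) : ℝ := (1 - t) * a + t * b

lemma le_lin {t a b c : ℝ} (t0 : 0 ≤ t) (t1 : t ≤ 1) (ha : c ≤ a) (hb : c ≤ b) : c ≤ lin t a b := by
  unfold lin
  nlinarith

lemma lin_le {t a b c : ℝ} (t0 : 0 ≤ t) (t1 : t ≤ 1) (ha : a ≤ c) (hb : b ≤ c) : lin t a b ≤ c := by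
  unfold lin
  nlinarith

lemma lin_mono {t a b a' b' : ℝ} (t0 : 0 ≤ t) (t1 : t ≤ 1) (ha : a ≤ a') (hb : b ≤ b') :
    lin t a b ≤ lin t a' b' := by
  unfold lin
  nlinarith

/-- bilinear interpolation -/
def bil (y z : ℝ) (v : Bool → Bool → ℝ) : ℝ :=
  lin y (lin z (v false false) (v false true)) (lin z (v true false) (v true true))

/-- trilinear interpolation -/
def tri (x y z : ℝ) (v : Bool → Bool → Bool → ℝ) : ℝ :=
  lin x (bil y z (v false)) (bil y z (v true))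

lemma bil_le {y z c : ℝ} {v : Bool → Bool → ℝ} (y0 : 0 ≤ y) (y1 : y ≤ 1) (z0 : 0 ≤ z)
    (z1 : z ≤ 1) (h : ∀ f l, v f l ≤ c) : bil y z v ≤ c :=
  lin_le y0 y1 (lin_le z0 z1 (h _ _) (h _ _)) (lin_le z0 z1 (h _ _) (h _ _))

lemma le_bil {y z c : ℝ} {v : Bool → Bool → ℝ} (y0 : 0 ≤ y) (y1 : y ≤ 1) (z0 : 0 ≤ z)
    (z1 : z ≤ 1) (h : ∀ f l, c ≤ v f l) : c ≤ bil y z v :=
  le_lin y0 y1 (le_lin z0 z1 (h _ _) (h _ _)) (le_lin z0 z1 (h _ _) (h _ _))

lemma le_tri {x y z c : ℝ} {v : Bool → Bool → Bool → ℝ} (x0 : 0 ≤ x) (x1 : x ≤ 1) (y0 : 0 ≤ y)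
    (y1 : y ≤ 1) (z0 : 0 ≤ z) (z1 : z ≤ 1) (h : ∀ e f l, c ≤ v e f l) : c ≤ tri x y z v :=
  le_lin x0 x1 (le_bil y0 y1 z0 z1 (h _)) (le_bil y0 y1 z0 z1 (h _))

/-- the indicator -/
def br (b : Bool) : ℝ := if b then 1 else 0

@[simp] lemma br_true : br true = 1 := rfl
@[simp] lemma br_false : br false = 0 := rfl

lemma quad_le {x q ε : ℝ} (x0 : 0 ≤ x) (x1 : x ≤ 1) (hε : 0 ≤ ε)
    (hq : x = 0 ∨ x = 1 ∨ q ≤ ε) : x * (1 - x) * q ≤ ε / 4 := by
  rcases hq with h | h | hq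
  · subst h; simp; linarith
  · subst h; simp; linarith
  have h1 : 0 ≤ x * (1 - x) := mul_nonneg x0 (by linarith)
  have h2 : x * (1 - x) ≤ 1 / 4 := by nlinarith [sq_nonneg (x - 1 / 2)]
  calc x * (1 - x) * q ≤ x * (1 - x) * ε := mul_le_mul_of_nonneg_left hq h1
    _ ≤ 1 / 4 * ε := mul_le_mul_of_nonneg_right h2 hε
    _ = ε / 4 := by ring

theorem tri_lower {ι : Type} (S : Finset ι) (p q r t : ι → ℝ) (V : ι → Bool → Bool → Bool → ℝ)
    {x y z c ε0 ε1 : ℝ} (x0 : 0 ≤ x) (x1 : x ≤ 1) (y0 : 0 ≤ y) (y1 : y ≤ 1) (z0 : 0 ≤ z)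
    (z1 : z ≤ 1) (e0 : 0 ≤ ε0) (e1 : 0 ≤ ε1)
    (hc : ∀ e f l, c + (ε0 + ε1) / 4 ≤
      ∑ k ∈ S, (p k + br e * q k + br f * r k + br l * t k) * V k e f l)
    (h0 : x = 0 ∨ x = 1 ∨ ∀ f l, ∑ k ∈ S, q k * (V k true f l - V k false f l) ≤ ε0)
    (h1 : y = 0 ∨ y = 1 ∨ ∀ e l, ∑ k ∈ S, r k * (V k e true l - V k e false l) ≤ ε1)
    (h2 : ∀ e f, ∑ k ∈ S, t k * (V k e f true - V k e f false) ≤ 0) :
    c ≤ ∑ k ∈ S, (p k + x * q k + y * r k + z * t k) * tri x y z (V k) := by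
  have key : ∀ k, (p k + x * q k + y * r k + z * t k) * tri x y z (V k) =
      tri x y z (fun e f l => (p k + br e * q k + br f * r k + br l * t k) * V k e f l)
      - x * (1 - x) * bil y z (fun f l => q k * (V k true f l - V k false f l))
      - y * (1 - y) * bil x z (fun e l => r k * (V k e true l - V k e false l))
      - z * (1 - z) * bil x y (fun e f => t k * (V k e f true - V k e f false)) := by
    intro k
    simp only [tri, bil, lin, br_true, br_false]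
    ring
  have hb : ∀ (y z : ℝ) (F : ι → Bool → Bool → ℝ),
      ∑ k ∈ S, bil y z (F k) = bil y z (fun f l => ∑ k ∈ S, F k f l) := by
    intro y z F
    simp only [bil, lin, Finset.sum_add_distrib, ← Finset.mul_sum]
  have ht : ∀ (F : ι → Bool → Bool → Bool → ℝ),
      ∑ k ∈ S, tri x y z (F k) = tri x y z (fun e f l => ∑ k ∈ S, F k e f l) := by
    intro F
    simp only [tri, bil, lin, Finset.sum_add_distrib, ← Finset.mul_sum]
  rw [Finset.sum_congr rfl fun k _ => key k]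
  rw [Finset.sum_sub_distrib, Finset.sum_sub_distrib, Finset.sum_sub_distrib, ← Finset.mul_sum,
    ← Finset.mul_sum, ← Finset.mul_sum, ht, hb, hb, hb]
  have a := le_tri x0 x1 y0 y1 z0 z1 hc
  have b0 := quad_le (q := bil y z fun f l => ∑ k ∈ S, q k * (V k true f l - V k false f l))
    x0 x1 e0 (h0.imp id (Or.imp id fun h => bil_le y0 y1 z0 z1 h))
  have b1 := quad_le (q := bil x z fun e l => ∑ k ∈ S, r k * (V k e true l - V k e false l))
    y0 y1 e1 (h1.imp id (Or.imp id fun h => bil_le x0 x1 z0 z1 h))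
  have b2 := quad_le (q := bil x y fun e f => ∑ k ∈ S, t k * (V k e f true - V k e f false))
    z0 z1 le_rfl (Or.inr (Or.inr (bil_le x0 x1 y0 y1 h2)))
  linarith

/-- one of two points -/
def pt (b : Bool) (x0 x1 : ℝ) : ℝ := if b then x1 else x0

@[simp] lemma pt_true (x0 x1 : ℝ) : pt true x0 x1 = x1 := rfl
@[simp] lemma pt_false (x0 x1 : ℝ) : pt false x0 x1 = x0 := rfl

lemma pt_add (b : Bool) (x0 x1 a : ℝ) : pt b (x0 + a) (x1 + a) = pt b x0 x1 + a := by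
  cases b <;> rfl

lemma lin_add' (t x0 x1 a : ℝ) : lin t (x0 + a) (x1 + a) = lin t x0 x1 + a := by
  unfold lin
  ring

lemma le_pt {b : Bool} {L x0 x1 : ℝ} (h0 : L ≤ x0) (h : x0 ≤ x1) : L ≤ pt b x0 x1 := by
  cases b
  · exact h0
  · exact h0.trans h

/-- a separately concave function lies above the interpolation of its corner values -/
lemma tri_le {L : ℝ} {F : ℝ → ℝ → ℝ → ℝ}
    (hx : ∀ x x' y z t, L ≤ x → L ≤ x' → 0 ≤ t → t ≤ 1 →
      (1 - t) * F x y z + t * F x' y z ≤ F ((1 - t) * x + t * x') y z)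
    (hy : ∀ x y y' z t, L ≤ y → L ≤ y' → 0 ≤ t → t ≤ 1 →
      (1 - t) * F x y z + t * F x y' z ≤ F x ((1 - t) * y + t * y') z)
    (hz : ∀ x y z z' t, L ≤ z → L ≤ z' → 0 ≤ t → t ≤ 1 →
      (1 - t) * F x y z + t * F x y z' ≤ F x y ((1 - t) * z + t * z'))
    {x0 x1 y0 y1 z0 z1 ξ υ ζ : ℝ} (hx0 : L ≤ x0) (hx1 : L ≤ x1) (hy0 : L ≤ y0) (hy1 : L ≤ y1)
    (hz0 : L ≤ z0) (hz1 : L ≤ z1) (ξ0 : 0 ≤ ξ) (ξ1 : ξ ≤ 1) (υ0 : 0 ≤ υ) (υ1 : υ ≤ 1)
    (ζ0 : 0 ≤ ζ) (ζ1 : ζ ≤ 1) :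
    tri ξ υ ζ (fun e f l => F (pt e x0 x1) (pt f y0 y1) (pt l z0 z1)) ≤
      F (lin ξ x0 x1) (lin υ y0 y1) (lin ζ z0 z1) := by
  have c1 : ∀ x y, lin ζ (F x y z0) (F x y z1) ≤ F x y (lin ζ z0 z1) :=
    fun x y => hz x y z0 z1 ζ hz0 hz1 ζ0 ζ1
  have c2 : ∀ x, bil υ ζ (fun f l => F x (pt f y0 y1) (pt l z0 z1)) ≤
      F x (lin υ y0 y1) (lin ζ z0 z1) := by
    intro x
    refine (lin_mono υ0 υ1 (c1 x y0) (c1 x y1)).trans ?_
    exact hy x y0 y1 _ υ hy0 hy1 υ0 υ1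
  refine (lin_mono ξ0 ξ1 (c2 x0) (c2 x1)).trans ?_
  exact hx x0 x1 _ _ ξ hx0 hx1 ξ0 ξ1

/-- increments of a concave function over shifted intervals -/
lemma shift_le {L : ℝ} {F : ℝ → ℝ}
    (hF : ∀ x x' t, L ≤ x → L ≤ x' → 0 ≤ t → t ≤ 1 →
      (1 - t) * F x + t * F x' ≤ F ((1 - t) * x + t * x'))
    {x x' s : ℝ} (hx : L ≤ x) (hxx : x ≤ x') (hs : 0 ≤ s) :
    F (x' + s) - F (x + s) ≤ F x' - F x := by
  rcases (show 0 ≤ x' - x + s by linarith).eq_or_lt with h | h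
  · have h1 : s = 0 := by linarith
    subst h1
    simp
  · have h1 := hF x (x' + s) (s / (x' - x + s)) hx (by linarith) (by positivity)
      (by rw [div_le_one h]; linarith)
    have h2 := hF x (x' + s) ((x' - x) / (x' - x + s)) hx (by linarith)
      (div_nonneg (by linarith) h.le) (by rw [div_le_one h]; linarith)
    have e1 : (1 - s / (x' - x + s)) * x + s / (x' - x + s) * (x' + s) = x + s := by
      field_simp
      ring
    have e2 : (1 - (x' - x) / (x' - x + s)) * x + (x' - x) / (x' - x + s) * (x' + s) = x' := by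
      field_simp
      ring
    rw [e1] at h1
    rw [e2] at h2
    have e3 : (1 - s / (x' - x + s)) * F x + s / (x' - x + s) * F (x' + s) +
        ((1 - (x' - x) / (x' - x + s)) * F x + (x' - x) / (x' - x + s) * F (x' + s)) =
        F x + F (x' + s) := by
      field_simp
      ring
    linarith

end Pool.Agent.Lib.MP_67d80e_pr_g3
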