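import Pool.Agent.Lib.MP_67d80e_pr_g3.Inc

/-!
The two inequalities between increments which make the multipliers nonnegative.
-/

set_option autoImplicit false

open scoped BigOperators
open Finset

namespace Pool.Agent.Lib.MP_67d80e_pr_g3

/-- slope in the third index, zero above the last node -/
noncomputable def sZ' (G : ℕ → ℝ) (K3 : ℕ) (T : ℕ → ℕ → ℕ → ℝ) (i j l : ℕ) : ℝ :=
  if l < K3 then sZ G T i j l else 0

/-- conditions at the caps -/
structure CapOk (G : ℕ → ℝ) (m : ℝ) (K1 K2 K3 b : ℕ) (T : ℕ → ℕ → ℕ → ℝ) : Prop where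
  g1 : m ≤ G K1 - G (K1 - 1)
  g2 : m ≤ G K2 - G (K2 - 1)
  c1 : ∀ j l, K1 - 1 ≤ j → j ≤ K2 → K1 - 1 ≤ l → l ≤ K3 → T K1 j l = T K1 K1 K1
  c1' : ∀ j l, K1 - 1 ≤ j → j ≤ K2 → K1 - 1 ≤ l → l ≤ K3 → T (K1 - 1) j l = T (K1 - 1) j (K1 - 1)
  c2 : ∀ i l, b ≤ i → i ≤ K1 → K2 - 1 ≤ l → l ≤ K3 → T i K2 l = T i K2 K2

lemma cell_exists {Gn : ℕ → ℕ} {a K x : ℕ} (h1 : Gn a ≤ x) (h2 : x < Gn K) (haK : a ≤ K) :
    ∃ i, a ≤ i ∧ i < K ∧ Gn i ≤ x ∧ x < Gn (i + 1) := by
  induction K, haK using Nat.le_induction with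
  | base => omega
  | succ K hK ih =>
    rcases lt_or_ge x (Gn K) with h | h
    · obtain ⟨i, p, q, r, s⟩ := ih h
      exact ⟨i, p, by omega, r, s⟩
    · exact ⟨K, hK, by omega, h, h2⟩

section
variable {G : ℕ → ℝ} {K1 K2 K3 b : ℕ} {T : ℕ → ℕ → ℕ → ℝ}
variable (hg : ∀ i, G i < G (i + 1)) (hT : TabOk G K1 K2 K3 b T)
include hg hT

lemma sZ'_nonneg {i j l : ℕ} (hi : b ≤ i) (hi' : i ≤ K1) (hj : b ≤ j) (hj' : j ≤ K2) (hl : b ≤ l) :
    0 ≤ sZ' G K3 T i j l := by
  unfold sZ'
  split_ifs with h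
  · exact sZ_nonneg hg hT hi hi' hj hj' hl h
  · exact le_rfl

lemma incW_upper {m : ℝ} (hm : 0 ≤ m) {i j l : ℕ} (hi : b ≤ i) (hi' : i ≤ K1) (hj : b ≤ j)
    (hj' : j < K2) (hl : b ≤ l) (hl' : l ≤ K3) {x y z : ℝ} (hx : G i ≤ x) (hy : G j ≤ y)
    (hz : G l ≤ z) : F3 G K1 K2 K3 T x (y + m) (z + m) - F3 G K1 K2 K3 T x y z ≤
      m * (sY G T i j l + sZ' G K3 T i j l) := by
  have h1 := incY_upper hg hT hi hi' hj hj' hl hl' hx hy hz (show y ≤ y + m by linarith)
  have e : y + m - y = m := by ring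
  rw [e] at h1
  have h2 : F3 G K1 K2 K3 T x (y + m) (z + m) - F3 G K1 K2 K3 T x (y + m) z ≤
      m * sZ' G K3 T i j l := by
    unfold sZ'
    split_ifs with h
    · have h2 := incZ_upper hg hT hi hi' hj hj'.le hl h hx (show G j ≤ y + m by linarith) hz
        (show z ≤ z + m by linarith)
      have e : z + m - z = m := by ring
      rw [e] at h2
      linarith
    · have hK : l = K3 := by omega
      subst hK
      rw [F3_capZ hg T (show G l ≤ z + m by linarith), F3_capZ hg T hz]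
      simp
  linarith

lemma capX_const {m : ℝ} (hc : CapOk G m K1 K2 K3 b T) (h12 : K1 ≤ K2) (h23 : K2 ≤ K3)
    {x y z : ℝ} (hx : G K1 ≤ x) (hy : G (K1 - 1) ≤ y) (hz : G (K1 - 1) ≤ z) :
    F3 G K1 K2 K3 T x y z = T K1 K1 K1 := by
  rw [F3_indZ hg (a := K1) (b := K1 - 1) (c := K1 - 1) le_rfl (by omega) (by omega)
    (v := fun _ _ => T K1 K1 K1) (fun i j l p q r s t u => by
      have : i = K1 := le_antisymm q p
      subst this
      exact hc.c1 j l r s t u) hx hy hz]
  unfold e2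
  simp only [hat_const]

lemma incW_taper {m : ℝ} (hm : 0 ≤ m) (hc : CapOk G m K1 K2 K3 b T) (h12 : K1 ≤ K2)
    (h23 : K2 ≤ K3) {i j l : ℕ} (hi : b ≤ i)
    (hi' : i < K1) (hj : b ≤ j) (hj' : j < K2) (hl : b ≤ l) (hl' : l ≤ K3) {x y z : ℝ}
    (hx : G i ≤ x) (hy : G j ≤ y) (hz : G l ≤ z) (hxK : x ≤ G K1)
    (hxy : G (K1 - 1) < x → G (K1 - 1) ≤ y ∧ G (K1 - 1) ≤ z) :
    F3 G K1 K2 K3 T x (y + m) (z + m) - F3 G K1 K2 K3 T x y z ≤
      min m (G K1 - x) * (sY G T i j l + sZ' G K3 T i j l) := by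
  have s0 : 0 ≤ sY G T i j l + sZ' G K3 T i j l :=
    add_nonneg (sY_nonneg hg hT hi hi'.le hj hj' hl hl') (sZ'_nonneg hg hT hi hi'.le hj hj'.le hl)
  have hk : K1 - 1 + 1 = K1 := by omega
  have hgap := hc.g1
  rcases le_or_gt x (G (K1 - 1)) with h | h
  · rw [min_eq_left (by linarith)]
    exact incW_upper hg hT hm hi hi'.le hj hj' hl hl' hx hy hz
  · set J := K1 - 1 with hJ
    have hJi : i ≤ J := by omega
    have hgJ := hg J
    rw [hk] at hgJ
    set t := (x - G J) / (G K1 - G J) with ht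
    have t0 : 0 ≤ t := div_nonneg (by linarith) (by linarith)
    have t1 : t ≤ 1 := by rw [ht, div_le_one (by linarith)]; linarith
    have ex : x = lin t (G J) (G (J + 1)) := by
      rw [hk, ht]
      unfold lin
      have h0 : G K1 - G J ≠ 0 := by linarith
      field_simp
      ring
    obtain ⟨hyJ, hzJ⟩ := hxy h
    have h2 : F3 G K1 K2 K3 T (G (J + 1)) (y + m) (z + m) = F3 G K1 K2 K3 T (G (J + 1)) y z := by
      rw [hk, capX_const hg hT hc h12 h23 le_rfl (by linarith) (by linarith),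
        capX_const hg hT hc h12 h23 le_rfl hyJ hzJ]
    have h4 : F3 G K1 K2 K3 T x (y + m) (z + m) - F3 G K1 K2 K3 T x y z =
        (1 - t) * (F3 G K1 K2 K3 T (G J) (y + m) (z + m) - F3 G K1 K2 K3 T (G J) y z) := by
      rw [ex, F3_linX hg T (by omega) t0 t1, F3_linX hg T (by omega) t0 t1, h2]
      unfold lin
      ring
    rw [h4]
    have h5 := incW_upper hg hT hm hi (by omega) hj hj' hl hl' (x := G J)
      ((g_mono hg).monotone hJi) hy hz
    have h8 : (1 - t) * m ≤ min m (G K1 - x) := by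
      refine le_min (by nlinarith) ?_
      have e1 : (1 - t) * (G K1 - G J) = G K1 - x := by
        rw [ht]
        have h0 : G K1 - G J ≠ 0 := by linarith
        field_simp
        ring
      calc (1 - t) * m ≤ (1 - t) * (G K1 - G J) :=
            mul_le_mul_of_nonneg_left hgap (by linarith)
        _ = G K1 - x := e1
    calc (1 - t) * (F3 G K1 K2 K3 T (G J) (y + m) (z + m) - F3 G K1 K2 K3 T (G J) y z) ≤
          (1 - t) * (m * (sY G T i j l + sZ' G K3 T i j l)) :=
            mul_le_mul_of_nonneg_left h5 (by linarith)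
      _ = (1 - t) * m * (sY G T i j l + sZ' G K3 T i j l) := by ring
      _ ≤ min m (G K1 - x) * (sY G T i j l + sZ' G K3 T i j l) :=
            mul_le_mul_of_nonneg_right h8 s0

end

section
variable {G : ℕ → ℝ} {Gn : ℕ → ℕ} {m K1 K2 K3 a b : ℕ} {T : ℕ → ℕ → ℕ → ℝ}

/-- the next indices of cells and nodes after a step `m` -/
structure StepOk (Gn : ℕ → ℕ) (m a K : ℕ) (js ls : ℕ → ℕ) : Prop where
  /-- cells -/
  cell : ∀ j, a ≤ j → j < K → j ≤ js j ∧ js j < K ∧ (Gn (j + 1) + m ≤ Gn (js j + 1) + 1 ∨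
      js j + 1 = K)
  /-- nodes -/
  node : ∀ l, a ≤ l → l < K → l ≤ ls l ∧ ls l ≤ K ∧ (Gn (l + 1) + m ≤ Gn (ls l) + 1 ∨ ls l = K)

/-- the second multiplier is nonnegative -/
theorem pos2 (hGn : ∀ i, G i = (Gn i : ℝ)) (hg : ∀ i, Gn i < Gn (i + 1)) (hm : 1 ≤ m)
    (hT : TabOk G K1 K2 K3 b T)
    (hc : CapOk G m K1 K2 K3 b T) (hba : b ≤ a) (ha : a + 1 ≤ K1)
    (h12 : K1 ≤ K2) (h23 : K2 ≤ K3) {js js' ls ls' : ℕ → ℕ}
    (hjs : StepOk Gn m a K2 js js') (hls : StepOk Gn m a K3 ls' ls)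
    (hB : ∀ i j l, a ≤ i → i + 2 ≤ K1 → i ≤ j → j < K2 → j ≤ l → l < K3 →
      sZ G T i j l ≤ sY G T (i + 1) (js j) (ls l))
    {x y z : ℕ} (hx : Gn a ≤ x) (hxy : x ≤ y) (hyz : y ≤ z) :
    F3 G K1 K2 K3 T x (y + 1) (z + m) - F3 G K1 K2 K3 T x (y + 1) z ≤
    F3 G K1 K2 K3 T (x + 1) (y + m) (z + m) - F3 G K1 K2 K3 T (x + 1) y z := by
  have hgr : ∀ i, G i < G (i + 1) := fun i => by rw [hGn, hGn]; exact_mod_cast hg i
  have gm := (g_mono hgr).monotone
  have gmn : Monotone Gn := monotone_nat_of_le_succ fun i => (hg i).le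
  have hb : G b ≤ (x : ℝ) := (gm hba).trans (by rw [hGn]; exact_mod_cast hx)
  have hxy' : (x : ℝ) ≤ y := by exact_mod_cast hxy
  have hyz' : (y : ℝ) ≤ z := by exact_mod_cast hyz
  have hm1 : (1 : ℝ) ≤ m := by exact_mod_cast hm
  have hrhs : 0 ≤ F3 G K1 K2 K3 T (x + 1) (y + m) (z + m) - F3 G K1 K2 K3 T (x + 1) y z :=
    sub_nonneg.2 (hT.mono hgr (by omega) (by omega) (by omega) (by linarith) (by linarith)
      (by linarith) le_rfl (by linarith) (by linarith))
  -- the left side vanishes above the caps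
  rcases le_or_gt (Gn (K1 - 1)) x with h1 | h1
  · have h : F3 G K1 K2 K3 T x (y + 1) (z + m) = F3 G K1 K2 K3 T x (y + 1) z := by
      have hx1 : G (K1 - 1) ≤ (x : ℝ) := by rw [hGn]; exact_mod_cast h1
      have h3 := fun w (hw : G (K1 - 1) ≤ w) => F3_indZ hgr (a := K1 - 1) (b := K1 - 1)
        (c := K1 - 1) (K1 := K1) (K2 := K2) (K3 := K3) (by omega) (by omega) (by omega) (T := T)
        (v := fun i j => T i j (K1 - 1)) (fun i j l p q r s t u => by
          rcases (show i = K1 - 1 ∨ i = K1 by omega) with e | e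
          · rw [e]; exact hc.c1' j l r s t u
          · rw [e, hc.c1 j l r s t u, hc.c1 j (K1 - 1) r s le_rfl (by omega)])
        (x := x) (y := y + 1) (z := w) hx1 (by linarith) hw
      rw [h3 (z + m) (by linarith), h3 z (by linarith)]
    rw [h, sub_self]
    exact hrhs
  rcases le_or_gt (Gn K2) (y + 1) with h2 | h2
  · have h : F3 G K1 K2 K3 T x (y + 1) (z + m) = F3 G K1 K2 K3 T x (y + 1) z := by
      have hy1 : G K2 ≤ (y : ℝ) + 1 := by rw [hGn]; exact_mod_cast h2
      have hy2 : G (K2 - 1) ≤ (z : ℝ) := by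
        have h3 := hg (K2 - 1)
        rw [show K2 - 1 + 1 = K2 by omega] at h3
        have h4 : Gn (K2 - 1) ≤ z := by omega
        rw [hGn]
        exact_mod_cast h4
      have h3 := fun w (hw : G (K2 - 1) ≤ w) => F3_indZ hgr (a := b) (b := K2)
        (c := K2 - 1) (K1 := K1) (K2 := K2) (K3 := K3) (by omega) le_rfl (by omega) (T := T)
        (v := fun i _ => T i K2 K2) (fun i j l p q r s t u => by
          have : j = K2 := le_antisymm s r
          rw [this]
          exact hc.c2 i l p q t u) (x := x) (y := y + 1) (z := w) hb hy1 hw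
      rw [h3 (z + m) (by linarith), h3 z hy2]
    rw [h, sub_self]
    exact hrhs
  rcases le_or_gt (Gn K3) z with h3 | h3
  · have h : F3 G K1 K2 K3 T x (y + 1) (z + m) = F3 G K1 K2 K3 T x (y + 1) z := by
      have hz1 : G K3 ≤ (z : ℝ) := by rw [hGn]; exact_mod_cast h3
      rw [F3_capZ hgr T (show G K3 ≤ (z : ℝ) + m by linarith), F3_capZ hgr T hz1]
    rw [h, sub_self]
    exact hrhs
  -- the cells
  obtain ⟨i, ai, iK, i1, i2⟩ := cell_exists hx (show x < Gn K1 from
    lt_of_lt_of_le h1 (gmn (Nat.sub_le _ _))) (by omega)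
  have iK2 : i + 2 ≤ K1 := by
    by_contra hcon
    have : i = K1 - 1 := by omega
    rw [this] at i1
    omega
  obtain ⟨j, aj, jK, j1, j2⟩ := cell_exists (hx.trans hxy) (show y < Gn K2 by omega) (by omega)
  obtain ⟨l, al, lK, l1, l2⟩ := cell_exists ((hx.trans hxy).trans hyz) h3 (by omega)
  have hij : i ≤ j := by
    by_contra hcon
    have := gmn (show j + 1 ≤ i by omega)
    omega
  have hjl : j ≤ l := by
    by_contra hcon
    have := gmn (show l + 1 ≤ j by omega)
    omega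
  have hxi : G i ≤ (x : ℝ) := by rw [hGn]; exact_mod_cast i1
  have hyj : G j ≤ (y : ℝ) := by rw [hGn]; exact_mod_cast j1
  have hzl : G l ≤ (z : ℝ) := by rw [hGn]; exact_mod_cast l1
  have hx1 : (x : ℝ) + 1 ≤ G (i + 1) := by rw [hGn]; exact_mod_cast i2
  have hyK : (y : ℝ) + 1 ≤ G K2 := by rw [hGn]; exact_mod_cast h2.le
  obtain ⟨js1, js2, js3⟩ := hjs.cell j aj jK
  obtain ⟨ls1, ls2, ls3⟩ := hls.node l al lK
  have s0 := sZ_nonneg hgr hT (i := i) (j := j) (l := l) (by omega) (by omega) (by omega)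
    (by omega) (by omega) lK
  have u0 := incZ_taper hgr hT (m := m) (by linarith) (by omega) (by omega) hc.g2 hc.c2
    (i := i) (j := j) (l := l) (by omega) (by omega) (by omega) jK (by omega) lK hxi
    (y := y + 1) (by linarith) hzl hyK (fun h => by
      have h5 : Gn (K2 - 1) < y + 1 := by rw [hGn] at h; exact_mod_cast h
      rw [hGn]
      exact_mod_cast (show Gn (K2 - 1) ≤ z by omega))
  have hB' := hB i j l ai iK2 hij jK hjl lK
  have v0 : min (m : ℝ) (G K2 - y) * sY G T (i + 1) (js j) (ls l) ≤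
      F3 G K1 K2 K3 T (x + 1) (y + m) (z + m) - F3 G K1 K2 K3 T (x + 1) y z := by
    have w0 : F3 G K1 K2 K3 T (x + 1) y z ≤ F3 G K1 K2 K3 T (x + 1) y (z + m) :=
      hT.mono hgr (by omega) (by omega) (by omega) (by linarith) (by linarith)
      (by linarith) le_rfl le_rfl (by linarith)
    have w1 : (z : ℝ) + m ≤ G (ls l) ∨ ls l = K3 := by
      refine ls3.imp (fun h => ?_) id
      rw [hGn]
      exact_mod_cast (show z + m ≤ Gn (ls l) by omega)
    rcases le_or_gt ((y : ℝ) + m) (G K2) with h | h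
    · have h6 : (y : ℝ) + m ≤ G (js j + 1) := by
        rcases js3 with h7 | h7
        · rw [hGn]
          exact_mod_cast (show y + m ≤ Gn (js j + 1) by omega)
        · rw [h7]; exact h
      have w2 := incY_lower hgr hT (i := i + 1) (j := js j) (l := ls l) (by omega) (by omega)
        (by omega) js2 (by omega) ls2 (x := x + 1) (y := y) (y' := y + m) (z := z + m)
        (by linarith) (by linarith) (by linarith) (by linarith) (Or.inl hx1) h6 w1
      rw [min_eq_left (by linarith)]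
      have e : (y : ℝ) + m - y = m := by ring
      rw [e] at w2
      linarith
    · have h6 : js j + 1 = K2 := by
        rcases js3 with h7 | h7
        · exfalso
          have h8 : y + m ≤ Gn (js j + 1) := by omega
          have h9 : Gn (js j + 1) ≤ Gn K2 := gmn (by omega)
          have h10 : (y : ℝ) + m ≤ G K2 := by rw [hGn]; exact_mod_cast h8.trans h9
          linarith
        · exact h7
      have w2 := incY_lower hgr hT (i := i + 1) (j := js j) (l := ls l) (by omega) (by omega)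
        (by omega) js2 (by omega) ls2 (x := x + 1) (y := y) (y' := G K2) (z := z + m)
        (by linarith) (by linarith) (by linarith) (by linarith) (Or.inl hx1) (by rw [h6]) w1
      rw [F3_capY hgr T h.le, min_eq_right (by linarith)]
      linarith
  refine u0.trans (le_trans ?_ v0)
  have h7 : min (m : ℝ) (G K2 - (y + 1)) ≤ min (m : ℝ) (G K2 - y) :=
    min_le_min le_rfl (by linarith)
  have h8 : 0 ≤ min (m : ℝ) (G K2 - (y + 1)) := le_min (by linarith) (by linarith)
  exact (mul_le_mul_of_nonneg_right h7 s0).trans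
    (mul_le_mul_of_nonneg_left hB' (h8.trans h7))

/-- the first multiplier is nonnegative -/
theorem pos1 {b' : ℕ} {T' : ℕ → ℕ → ℕ → ℝ} (hGn : ∀ i, G i = (Gn i : ℝ))
    (hg : ∀ i, Gn i < Gn (i + 1)) (hm : 1 ≤ m) (hT : TabOk G K1 K2 K3 b T)
    (hc : CapOk G m K1 K2 K3 b T) (hT' : TabOk G K1 K2 K3 b' T') (hba : b ≤ a) (hba' : b' ≤ a)
    (ha : a + 1 ≤ K1) (h12 : K1 ≤ K2) (h23 : K2 ≤ K3) {is is' js js' ls ls' : ℕ → ℕ}
    (his : StepOk Gn m a K1 is is') (hjs : StepOk Gn m a K2 js js')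
    (hls : StepOk Gn m a K3 ls' ls)
    (hB : ∀ i j l, a ≤ i → i < K1 → i ≤ j → j < K2 → j ≤ l → l ≤ K3 →
      sY G T i j l + sZ' G K3 T i j l ≤ sX G T' (is i) (js' j) (if l < K3 then ls l else K3))
    {x y z : ℕ} (hx : Gn a ≤ x) (hxy : x ≤ y) (hyz : y ≤ z) :
    F3 G K1 K2 K3 T (x + 1) (y + m) (z + m) - F3 G K1 K2 K3 T (x + 1) y z ≤
    F3 G K1 K2 K3 T' (x + m) (y + m) (z + m) - F3 G K1 K2 K3 T' x y z := by
  have hgr : ∀ i, G i < G (i + 1) := fun i => by rw [hGn, hGn]; exact_mod_cast hg i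
  have gm := (g_mono hgr).monotone
  have gmn : Monotone Gn := monotone_nat_of_le_succ fun i => (hg i).le
  have hxa : G a ≤ (x : ℝ) := by rw [hGn]; exact_mod_cast hx
  have hb : G b ≤ (x : ℝ) := (gm hba).trans hxa
  have hb' : G b' ≤ (x : ℝ) := (gm hba').trans hxa
  have hxy' : (x : ℝ) ≤ y := by exact_mod_cast hxy
  have hyz' : (y : ℝ) ≤ z := by exact_mod_cast hyz
  have hm1 : (1 : ℝ) ≤ m := by exact_mod_cast hm
  have hrhs : 0 ≤ F3 G K1 K2 K3 T' (x + m) (y + m) (z + m) - F3 G K1 K2 K3 T' x y z :=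
    sub_nonneg.2 (hT'.mono hgr (by omega) (by omega) (by omega) (by linarith) (by linarith)
      (by linarith) (by linarith) (by linarith) (by linarith))
  rcases le_or_gt (Gn K1) (x + 1) with h1 | h1
  · have hx1 : G K1 ≤ (x : ℝ) + 1 := by rw [hGn]; exact_mod_cast h1
    have hy1 : G (K1 - 1) ≤ (y : ℝ) := by
      have h3 := hg (K1 - 1)
      rw [show K1 - 1 + 1 = K1 by omega] at h3
      rw [hGn]
      exact_mod_cast (show Gn (K1 - 1) ≤ y by omega)
    rw [capX_const hgr hT hc h12 h23 hx1 (by linarith) (by linarith),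
      capX_const hgr hT hc h12 h23 hx1 hy1 (by linarith), sub_self]
    exact hrhs
  rcases le_or_gt (Gn K2) y with h2 | h2
  · have hy1 : G K2 ≤ (y : ℝ) := by rw [hGn]; exact_mod_cast h2
    have h3 := fun v w (hv : G K2 ≤ v) (hw : G (K2 - 1) ≤ w) => F3_indZ hgr (a := b) (b := K2)
        (c := K2 - 1) (K1 := K1) (K2 := K2) (K3 := K3) (by omega) le_rfl (by omega) (T := T)
        (v := fun i _ => T i K2 K2) (fun i j l p q r s t u => by
          have : j = K2 := le_antisymm s r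
          rw [this]
          exact hc.c2 i l p q t u) (x := x + 1) (y := v) (z := w) (by linarith) hv hw
    have hz1 : G (K2 - 1) ≤ (z : ℝ) := (gm (Nat.sub_le _ _)).trans (by linarith)
    rw [F3_capY hgr T (show G K2 ≤ (y : ℝ) + m by linarith), F3_capY hgr T hy1,
      h3 _ _ le_rfl (show G (K2 - 1) ≤ (z : ℝ) + m by linarith), h3 _ _ le_rfl hz1, sub_self]
    exact hrhs
  -- the cells
  obtain ⟨i, ai, iK, i1, i2⟩ := cell_exists hx (show x < Gn K1 by omega) (by omega)
  obtain ⟨j, aj, jK, j1, j2⟩ := cell_exists (hx.trans hxy) h2 (by omega)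
  have hij : i ≤ j := by
    by_contra hcon
    have := gmn (show j + 1 ≤ i by omega)
    omega
  obtain ⟨l, al, lK, l1, l2⟩ : ∃ l, a ≤ l ∧ l ≤ K3 ∧ Gn l ≤ z ∧ (l < K3 → z < Gn (l + 1)) := by
    rcases le_or_gt (Gn K3) z with h3 | h3
    · exact ⟨K3, by omega, le_rfl, h3, fun h => absurd h (lt_irrefl _)⟩
    · obtain ⟨l, p, q, r, s⟩ := cell_exists ((hx.trans hxy).trans hyz) h3 (by omega)
      exact ⟨l, p, q.le, r, fun _ => s⟩
  have hjl : j ≤ l := by
    by_contra hcon
    have h4 := l2 (by omega)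
    have := gmn (show l + 1 ≤ j by omega)
    omega
  have hxi : G i ≤ (x : ℝ) := by rw [hGn]; exact_mod_cast i1
  have hyj : G j ≤ (y : ℝ) := by rw [hGn]; exact_mod_cast j1
  have hzl : G l ≤ (z : ℝ) := by rw [hGn]; exact_mod_cast l1
  have hxK : (x : ℝ) + 1 ≤ G K1 := by rw [hGn]; exact_mod_cast h1.le
  obtain ⟨is1, is2, is3⟩ := his.cell i ai iK
  obtain ⟨js1, js2, js3⟩ := hjs.node j aj jK
  have s0 : 0 ≤ sY G T i j l + sZ' G K3 T i j l :=
    add_nonneg (sY_nonneg hgr hT (by omega) (by omega) (by omega) jK (by omega) lK)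
      (sZ'_nonneg hgr hT (by omega) (by omega) (by omega) (by omega) (by omega))
  have u0 := incW_taper hgr hT (m := m) (by linarith) hc h12 h23
    (i := i) (j := j) (l := l) (by omega) iK (by omega) jK (by omega) lK
    (x := x + 1) (by linarith) hyj hzl hxK (fun h => by
      have h5 : Gn (K1 - 1) < x + 1 := by rw [hGn] at h; exact_mod_cast h
      constructor
      · rw [hGn]
        exact_mod_cast (show Gn (K1 - 1) ≤ y by omega)
      · rw [hGn]
        exact_mod_cast (show Gn (K1 - 1) ≤ z by omega))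
  have hB' := hB i j l ai iK hij jK hjl lK
  set l' := if l < K3 then ls l else K3 with hl'
  have hl1 : a ≤ l' ∧ l' ≤ K3 ∧ ((z : ℝ) + m ≤ G l' ∨ l' = K3) := by
    rw [hl']
    split_ifs with h
    · obtain ⟨ls1, ls2, ls3⟩ := hls.node l al h
      refine ⟨by omega, ls2, ls3.imp (fun h5 => ?_) id⟩
      have h6 := l2 h
      rw [hGn]
      exact_mod_cast (show z + m ≤ Gn (ls l) by omega)
    · exact ⟨by omega, le_rfl, Or.inr rfl⟩
  obtain ⟨l3, l4, l5⟩ := hl1
  have hyk : (y : ℝ) + m ≤ G (js' j) ∨ js' j = K2 := by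
    refine js3.imp (fun h => ?_) id
    rw [hGn]
    exact_mod_cast (show y + m ≤ Gn (js' j) by omega)
  have v0 : min (m : ℝ) (G K1 - x) * sX G T' (is i) (js' j) l' ≤
      F3 G K1 K2 K3 T' (x + m) (y + m) (z + m) - F3 G K1 K2 K3 T' x y z := by
    have w0 : F3 G K1 K2 K3 T' x y z ≤ F3 G K1 K2 K3 T' x (y + m) (z + m) :=
      hT'.mono hgr (by omega) (by omega) (by omega) (by linarith) (by linarith)
      (by linarith) le_rfl (by linarith) (by linarith)
    rcases le_or_gt ((x : ℝ) + m) (G K1) with h | h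
    · have h6 : (x : ℝ) + m ≤ G (is i + 1) := by
        rcases is3 with h7 | h7
        · rw [hGn]
          exact_mod_cast (show x + m ≤ Gn (is i + 1) by omega)
        · rw [h7]; exact h
      have w2 := incX_lower hgr hT' (i := is i) (j := js' j) (l := l') (by omega) is2
        (by omega) js2 (by omega) l4 (x := x) (x' := x + m) (y := y + m) (z := z + m)
        (by linarith) (by linarith) (by linarith) (by linarith) h6 hyk l5
      rw [min_eq_left (by linarith)]
      have e : (x : ℝ) + m - x = m := by ring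
      rw [e] at w2
      linarith
    · have h6 : is i + 1 = K1 := by
        rcases is3 with h7 | h7
        · exfalso
          have h8 : x + m ≤ Gn (is i + 1) := by omega
          have h9 : Gn (is i + 1) ≤ Gn K1 := gmn (by omega)
          have h10 : (x : ℝ) + m ≤ G K1 := by rw [hGn]; exact_mod_cast h8.trans h9
          linarith
        · exact h7
      have w2 := incX_lower hgr hT' (i := is i) (j := js' j) (l := l') (by omega) is2
        (by omega) js2 (by omega) l4 (x := x) (x' := G K1) (y := y + m) (z := z + m)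
        (by linarith) (by linarith) (by linarith) (by linarith) (by rw [h6]) hyk l5
      rw [F3_capX hgr T' h.le, min_eq_right (by linarith)]
      linarith
  refine u0.trans (le_trans ?_ v0)
  have h7 : min (m : ℝ) (G K1 - (x + 1)) ≤ min (m : ℝ) (G K1 - x) :=
    min_le_min le_rfl (by linarith)
  have h8 : 0 ≤ min (m : ℝ) (G K1 - (x + 1)) := le_min (by linarith) (by linarith)
  exact (mul_le_mul_of_nonneg_right h7 s0).trans
    (mul_le_mul_of_nonneg_left hB' (h8.trans h7))

end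

end Pool.Agent.Lib.MP_67d80e_pr_g3
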