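import Pool.Agent.Lib.MP_67d80e_pr_g3.Lay

/-!
The state inequality from the drift inequality.
-/

set_option autoImplicit false

open scoped BigOperators
open Pool.Agent.Lib.MP_67d80e_pr
open Pool.Agent.Lib.MP_67d80e_pr_all

namespace Pool.Agent.Lib.MP_67d80e_pr_g3

/-- the function of the state -/
noncomputable def phi5 (N0 : ℕ) (f : ℕ → ℝ → ℝ → ℝ → ℝ) (η : ℕ → ℝ) (E : ℕ → ℕ)
    (n e a b c : ℕ) : ℝ :=
  if n ≤ N0 then f n a b c + η n * ((E n : ℝ) - ((min e (E n) : ℕ) : ℝ)) else 0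

/-- the contribution of the linear term -/
noncomputable def cst (m : ℝ) (N0 : ℕ) (η : ℕ → ℝ) (E : ℕ → ℕ) (n : ℕ) (e x : ℝ) : ℝ :=
  if n < N0 then (x - n) * (η (n + 1) * (E (n + 1) - e) - η n * (E n - e))
    - η (n + 1) * (m * n - 2 * e) - n * (η n * (E n - e))
  else - (n * (η n * (E n - e)))

/-- the contribution of the highest set -/
noncomputable def topU (m : ℝ) (N0 : ℕ) (f : ℝ → ℝ → ℝ → ℝ) (η : ℕ → ℝ) (E : ℕ → ℕ) (n : ℕ)
    (e x y : ℝ) : ℝ :=
  n * (1 + f (n + m) x y)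
    - 2 * e * ((f (n + m) x y - f (max (m + 1) n) x y) / (n + m - max (m + 1) n))
    + cst m N0 η E n e x

theorem stateOk0_of_drift {m N0 : ℕ} (hm : 1 ≤ m) {f : ℕ → ℝ → ℝ → ℝ → ℝ} {η : ℕ → ℝ} {E : ℕ → ℕ}
    {L : ℝ} {n0 e0 n1 n2 n3 : ℕ} (l1 : Lay (m + 1) (f 1)) (lf : Lay L (f n0))
    (lg : Lay L (f (min (n0 + 1) N0))) (hfg : Nxt L (f n0) (f (min (n0 + 1) N0)))
    (hη : ∀ n, 0 ≤ η n) {O : ℕ → ℕ → ℝ} {c : ℝ} {Adm : ℕ → ℕ → ℕ → Prop}
    (h0 : 1 ≤ n0) (h0N : n0 ≤ N0) (hn1 : L ≤ n1) (h12 : n1 ≤ n2) (h23 : n2 ≤ n3)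
    (he : e0 ≤ E n0)
    (hB2 : f n0 n1 (n2 + 1) (n3 + m) - f n0 n1 (n2 + 1) n3 ≤
      f n0 (n1 + 1) (n2 + m) (n3 + m) - f n0 (n1 + 1) n2 n3)
    (hB1 : f n0 (n1 + 1) (n2 + m) (n3 + m) - f n0 (n1 + 1) n2 n3 ≤
      f (min (n0 + 1) N0) (n1 + m) (n2 + m) (n3 + m) - f (min (n0 + 1) N0) n1 n2 n3)
    (hD : c ≤ drift m (topU m N0 (f 1) η E n0 e0 n1 n2) (O n0 n1) (O n0 n2) (O n0 n3)
      (f (min (n0 + 1) N0) n1 n2 n3) (f (min (n0 + 1) N0) (n1 + m) (n2 + m) (n3 + m))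
      (f n0 (n1 + 1) n2 n3) (f n0 (n1 + 1) (n2 + m) (n3 + m))
      (f n0 n1 (n2 + 1) n3) (f n0 n1 (n2 + 1) (n3 + m)) (f n0 n1 n2 n3) n0 n1 n2 n3) :
    StateOk0 m N0 Adm (fun t _ n => O t n) (phi5 N0 f η E) c n0 e0 n1 n2 n3 := by
  have hm0 : (0 : ℝ) < m := by exact_mod_cast hm
  have hm1 : (1 : ℝ) ≤ m := by exact_mod_cast hm
  have hn0 : (1 : ℝ) ≤ n0 := by exact_mod_cast h0
  have h12' : (n1 : ℝ) ≤ n2 := by exact_mod_cast h12
  have h23' : (n2 : ℝ) ≤ n3 := by exact_mod_cast h23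
  have hn2 : L ≤ n2 := hn1.trans h12'
  have hn3 : L ≤ n3 := hn2.trans h23'
  have hN0 : 1 ≤ N0 := h0.trans h0N
  set g := f (min (n0 + 1) N0) with hg
  set V0 : ℝ := g n1 n2 n3 with hV0
  set V1 : ℝ := g (n1 + m) (n2 + m) (n3 + m) with hV1
  set W0 : ℝ := f n0 (n1 + 1) n2 n3 with hW0
  set W1 : ℝ := f n0 (n1 + 1) (n2 + m) (n3 + m) with hW1
  set X0 : ℝ := f n0 n1 (n2 + 1) n3 with hX0
  set X1 : ℝ := f n0 n1 (n2 + 1) (n3 + m) with hX1
  set P : ℝ := f n0 n1 n2 n3 with hP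
  set s : ℝ := η n0 * ((E n0 : ℝ) - e0) with hs
  set hi : ℝ := f 1 (n0 + m) n1 n2 with hhi
  set lo : ℝ := f 1 (max ((m : ℝ) + 1) n0) n1 n2 with hlo
  set q : ℝ := (hi - lo) / (n0 + m - max ((m : ℝ) + 1) n0) with hq
  have hX : 0 ≤ X1 - X0 := sub_nonneg.2 (lf.mono _ _ _ _ _ _ le_rfl le_rfl (by linarith))
  -- increments
  have hw3 : ∀ x y z : ℝ, (n1 : ℝ) ≤ x → (n2 : ℝ) + 1 ≤ y → z = n3 →
      g x y (z + m) - g x y z ≤ X1 - X0 := by
    intro x y z hx hy hz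
    subst hz
    exact lf.incZ_le hfg (x := n1) (y := n2 + 1) hn1 (by linarith) hn3 hx hy (by linarith)
  have hphiE : ∀ a b c : ℕ, phi5 N0 f η E n0 e0 a b c = f n0 a b c + s := by
    intro a b c
    unfold phi5
    rw [if_pos h0N, min_eq_left he]
  set A1 : ℝ := if n0 < N0 then V0 + η (n0 + 1) * ((E (n0 + 1) : ℝ) - e0) else V0 + s with hA1
  set aa : ℝ := if n0 < N0 then - η (n0 + 1) else 0 with haa
  refine ⟨1, 1 + hi - q * m, A1, W0 + s, X0 + s, q, aa, (V1 - V0 - (W1 - W0)) / m,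
    (W1 - W0 - (X1 - X0)) / m, (X1 - X0) / m, zero_le_one, le_rfl,
    div_nonneg (by linarith) hm0.le, div_nonneg (by linarith) hm0.le, div_nonneg hX hm0.le,
    ?_, ?_, ?_, ?_, ?_⟩
  · -- the highest set
    intro k hk hk2
    have hk1 : (k : ℝ) ≤ m := by exact_mod_cast hk
    have hk3 : (m : ℝ) + 1 ≤ n0 + k := by exact_mod_cast hk2
    have hk0 : (0 : ℝ) ≤ k := Nat.cast_nonneg _
    have hphi : f 1 (n0 + k) n1 n2 ≤ phi5 N0 f η E 1 0 (n0 + k) n1 n2 := by
      unfold phi5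
      rw [if_pos hN0]
      push_cast
      have : 0 ≤ η 1 * ((E 1 : ℝ) - ((min 0 (E 1) : ℕ) : ℝ)) := by
        refine mul_nonneg (hη 1) ?_
        simp
      push_cast at this
      linarith
    have hmain : hi - q * (m - k) ≤ f 1 (n0 + k) n1 n2 := by
      set lo' : ℝ := max ((m : ℝ) + 1) n0 with hlo'
      have hl1 : (m : ℝ) + 1 ≤ lo' := le_max_left _ _
      have hl2 : lo' ≤ n0 + k := max_le hk3 (by linarith)
      rcases (show lo' ≤ n0 + m by linarith).eq_or_lt with h | h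
      · have : (k : ℝ) = m := by linarith
        rw [hhi, this]
        linarith
      · have hpos : 0 < (n0 : ℝ) + m - lo' := by linarith
        have a1 := l1.conX (n0 + m) lo' n1 n2 ((m - k) / (n0 + m - lo')) (by linarith) hl1
          (div_nonneg (by linarith) hpos.le) (by rw [div_le_one hpos]; linarith)
        have e1 : (1 - (m - k) / ((n0 : ℝ) + m - lo')) * (n0 + m) +
            (m - k) / (n0 + m - lo') * lo' = n0 + k := by
          field_simp
          ring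
        rw [e1] at a1
        have e2 : (1 - (m - k) / ((n0 : ℝ) + m - lo')) * f 1 (n0 + m) n1 n2 +
            (m - k) / (n0 + m - lo') * f 1 lo' n1 n2 = hi - q * (m - k) := by
          rw [hq, hhi, hlo]
          field_simp
          ring
        rw [e2] at a1
        exact a1
    have : 1 + hi - q * m + q * k = 1 + (hi - q * (m - k)) := by ring
    rw [this]
    linarith
  · -- the first difference
    intro δ hδ j1 hj1 j2 hj2 j3 hj3 _ _ _
    have q1 : (j1 : ℝ) ≤ m := by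
      have : j1 ≤ m := by omega
      exact_mod_cast this
    have q2 : (j2 : ℝ) ≤ j1 := by exact_mod_cast hj2
    have q3 : (j3 : ℝ) ≤ j2 := by exact_mod_cast hj3
    have q0 : (0 : ℝ) ≤ j3 := Nat.cast_nonneg _
    have hδ0 : (0 : ℝ) ≤ δ := Nat.cast_nonneg _
    have key : V0 + (V1 - V0 - (W1 - W0)) / m * j1 + (W1 - W0 - (X1 - X0)) / m * j2 +
        (X1 - X0) / m * j3 ≤ g (n1 + j1) (n2 + j2) (n3 + j3) := by
      have a1 := lg.tetra (x := n1) (y := n2) (z := n3) (m := m) (r := j1) (s := j2) (t := j3)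
        hn1 hn2 hn3 hm0 q0 q3 q2 q1
      -- the increments of the last two variables
      have a2 : g (n1 + m) (n2 + m) (n3 + m) - g (n1 + m) n2 n3 ≤ W1 - W0 := by
        have b1 := lf.incZ_le hfg (x := n1 + 1) (x' := n1 + m) (y := (n2 : ℝ) + m)
          (y' := (n2 : ℝ) + m) (z := n3) (z' := n3 + m) (by linarith) (by linarith) hn3
          (by linarith) le_rfl (by linarith)
        have b2 := lf.incY_le hfg (x := n1 + 1) (x' := n1 + m) (y := (n2 : ℝ))
          (y' := (n2 : ℝ) + m) (z := n3) (z' := n3) (by linarith) hn2 hn3 (by linarith)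
          (by linarith) le_rfl
        rw [hW1, hW0]
        linarith
      have a3 : g (n1 + j1) (n2 + m) (n3 + m) - g (n1 + j1) (n2 + m) n3 ≤ X1 - X0 :=
        hw3 _ _ _ (by linarith) (by linarith) rfl
      have a4 := mul_le_mul_of_nonneg_left a2 (div_nonneg (sub_nonneg.2 q2) hm0.le)
      have a5 := mul_le_mul_of_nonneg_left a3 (div_nonneg (sub_nonneg.2 q3) hm0.le)
      have e1 : V0 + (V1 - V0 - (W1 - W0)) / m * j1 + (W1 - W0 - (X1 - X0)) / m * j2 +
        (X1 - X0) / m * j3 = V0 + j1 / m * (V1 - V0) - (j1 - j2) / m * (W1 - W0)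
          - (j2 - j3) / m * (X1 - X0) := by
        field_simp
        ring
      rw [e1]
      rw [← hV0, ← hV1] at a1
      linarith
    by_cases hlt : n0 < N0
    · rw [if_pos hlt, hA1, haa, if_pos hlt, if_pos hlt]
      have hmin : min (n0 + 1) N0 = n0 + 1 := min_eq_left (by omega)
      have hphi : g (n1 + j1) (n2 + j2) (n3 + j3) + η (n0 + 1) * ((E (n0 + 1) : ℝ) - (e0 + δ)) ≤
          phi5 N0 f η E (n0 + 1) (e0 + δ) (n1 + j1) (n2 + j2) (n3 + j3) := by
        unfold phi5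
        rw [if_pos (by omega), hg, hmin]
        push_cast
        have h1 : min ((e0 : ℝ) + δ) (E (n0 + 1)) ≤ e0 + δ := min_le_left _ _
        have h2 := mul_le_mul_of_nonneg_left h1 (hη (n0 + 1))
        linarith
      refine le_trans ?_ hphi
      linarith
    · rw [if_neg hlt, hA1, haa, if_neg hlt, if_neg hlt, hphiE]
      have hmin : min (n0 + 1) N0 = n0 := by omega
      have : f n0 ((n1 + j1 : ℕ) : ℝ) ((n2 + j2 : ℕ) : ℝ) ((n3 + j3 : ℕ) : ℝ) =
          g (n1 + j1) (n2 + j2) (n3 + j3) := by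
        rw [hg, hmin]
        push_cast
        rfl
      rw [this]
      linarith
  · -- the second difference
    intro j2 hj2 j3 hj3 _
    have q2 : (j2 : ℝ) ≤ m := by exact_mod_cast hj2
    have q3 : (j3 : ℝ) ≤ j2 := by exact_mod_cast hj3
    have q0 : (0 : ℝ) ≤ j3 := Nat.cast_nonneg _
    rw [hphiE]
    have a1 := lf.triYZ (x := n1 + 1) (y := n2) (z := n3) (m := m) (r := j2) (s := j3)
      hn2 hn3 hm0 q0 q3 q2
    have a3 : W1 - f n0 (n1 + 1) (n2 + m) n3 ≤ X1 - X0 := by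
      rw [hW1]
      exact lf.incZ_le (Nxt.rfl' _ _) (x := n1) (y := n2 + 1) hn1 (by linarith) hn3
        (by linarith) (by linarith) (by linarith)
    have a5 := mul_le_mul_of_nonneg_left a3 (div_nonneg (sub_nonneg.2 q3) hm0.le)
    have e1 : W0 + s + (W1 - W0 - (X1 - X0)) / m * j2 + (X1 - X0) / m * j3 =
        W0 + j2 / m * (W1 - W0) - (j2 - j3) / m * (X1 - X0) + s := by
      field_simp
      ring
    rw [e1]
    push_cast
    rw [← hW0, ← hW1] at a1
    linarith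
  · -- the third difference
    intro j3 hj3
    have q3 : (j3 : ℝ) ≤ m := by exact_mod_cast hj3
    rw [hphiE]
    have a1 := lf.conZ n1 (n2 + 1) n3 (n3 + m) (j3 / m) hn3 (by linarith) (by positivity)
      (by rw [div_le_one hm0]; exact q3)
    have e1 : (1 - (j3 : ℝ) / m) * n3 + j3 / m * (n3 + m) = n3 + j3 := by field_simp; ring
    rw [e1] at a1
    have e2 : X0 + s + (X1 - X0) / m * j3 = (1 - (j3 : ℝ) / m) * X0 + j3 / m * X1 + s := by ring
    rw [e2]
    push_cast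
    rw [hX0, hX1]
    linarith
  · -- the drift
    rw [hphiE]
    refine hD.trans (le_of_eq ?_)
    have e2 : ∀ A B : ℝ, A / m * B = B / m * A := by
      intro A B
      ring
    have e3 : topU m N0 (f 1) η E n0 e0 n1 n2 = n0 * (1 + hi) - 2 * e0 * q
        + cst m N0 η E n0 e0 n1 := by
      unfold topU
      rw [hq, hhi, hlo]
    rw [e3]
    unfold drift cst
    rw [hA1, haa]
    by_cases hlt : n0 < N0
    · rw [if_pos hlt, if_pos hlt, if_pos hlt, hs]
      rw [e2 (V1 - V0 - (W1 - W0)), e2 (W1 - W0 - (X1 - X0)), e2 (X1 - X0)]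
      ring
    · rw [if_neg hlt, if_neg hlt, if_neg hlt, hs]
      rw [e2 (V1 - V0 - (W1 - W0)), e2 (W1 - W0 - (X1 - X0)), e2 (X1 - X0)]
      ring

end Pool.Agent.Lib.MP_67d80e_pr_g3
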