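import Pool.Agent.Lib.MP_67d80e_pr_g3.Cell
import Pool.Agent.Lib.MP_67d80e_pr_g3.Sta

/-!
States above the caps, and the contribution of the highest set.
-/

set_option autoImplicit false

open scoped BigOperators
open Finset

namespace Pool.Agent.Lib.MP_67d80e_pr_g3

lemma dr_capZ {m n C3 : ℝ} {f g : ℝ → ℝ → ℝ → ℝ} {U : ℝ → ℝ → ℝ} {O : ℝ → ℝ} (hm : 0 ≤ m)
    (hf : ∀ x y z, C3 ≤ z → f x y z = f x y C3) (hg : ∀ x y z, C3 ≤ z → g x y z = g x y C3)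
    (hO : ∀ z, C3 ≤ z → O z = O C3) (hmono : ∀ x y z, f x y z ≤ f x (y + 1) z)
    {x y z : ℝ} (hz : C3 ≤ z) : dr m n f g U O x y C3 ≤ dr m n f g U O x y z := by
  unfold dr drift
  have hz' : C3 ≤ z + m := by linarith
  have hz'' : C3 ≤ C3 + m := by linarith
  rw [hO z hz, hg x y z hz, hg (x + m) (y + m) (z + m) hz', hg (x + m) (y + m) (C3 + m) hz'',
    hf (x + 1) y z hz, hf (x + 1) (y + m) (z + m) hz', hf (x + 1) (y + m) (C3 + m) hz'',
    hf x (y + 1) z hz, hf x (y + 1) (z + m) hz', hf x (y + 1) (C3 + m) hz'', hf x y z hz]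
  have h1 := mul_le_mul_of_nonneg_left (hmono x y C3) (sub_nonneg.2 hz)
  linarith

lemma dr_capY {m n L C2 : ℝ} {f g : ℝ → ℝ → ℝ → ℝ} {U : ℝ → ℝ → ℝ} {O : ℝ → ℝ} (hm : 0 ≤ m)
    (hf : ∀ x y z, L ≤ x → C2 ≤ y → C2 ≤ z → f x y z = f x C2 C2)
    (hg : ∀ x y z, L ≤ x → C2 ≤ y → C2 ≤ z → g x y z = g x C2 C2)
    (hmono : ∀ x y z, f x y z ≤ f (x + 1) y z) {x y z : ℝ} (hx : L ≤ x) (hy : C2 ≤ y)
    (hyz : y ≤ z) (hU : U x C2 ≤ U x y) : dr m n f g U O x C2 C2 ≤ dr m n f g U O x y z := by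
  unfold dr drift
  have hz : C2 ≤ z := hy.trans hyz
  have hz' : C2 ≤ z + m := by linarith
  have hy' : C2 ≤ y + m := by linarith
  have h1 : C2 ≤ C2 + m := by linarith
  have h2 : C2 ≤ C2 + 1 := by linarith
  have h3 : C2 ≤ y + 1 := by linarith
  have x1 : L ≤ x + 1 := by linarith
  have x2 : L ≤ x + m := by linarith
  rw [hg x y z hx hy hz, hg (x + m) (y + m) (z + m) x2 hy' hz', hg (x + m) (C2 + m) (C2 + m) x2 h1 h1,
    hf (x + 1) y z x1 hy hz, hf (x + 1) (y + m) (z + m) x1 hy' hz',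
    hf (x + 1) (C2 + m) (C2 + m) x1 h1 h1, hf x (y + 1) z hx h3 hz,
    hf x (y + 1) (z + m) hx h3 hz', hf x (C2 + 1) C2 hx h2 le_rfl,
    hf x (C2 + 1) (C2 + m) hx h2 h1, hf x y z hx hy hz]
  have h4 := mul_le_mul_of_nonneg_left (hmono x C2 C2) (sub_nonneg.2 hy)
  linarith

lemma dr_capX {m n C1 κ κ' : ℝ} {f g : ℝ → ℝ → ℝ → ℝ} {U : ℝ → ℝ → ℝ} {O : ℝ → ℝ} (hm : 0 ≤ m)
    (hf : ∀ x y z, C1 ≤ x → C1 ≤ y → C1 ≤ z → f x y z = κ)
    (hg : ∀ x y z, C1 ≤ x → C1 ≤ y → C1 ≤ z → g x y z = κ') {x y z : ℝ} (hx : C1 ≤ x)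
    (hxy : x ≤ y) (hyz : y ≤ z) (hU : U C1 C1 ≤ U x y + (x - C1) * (κ' - κ)) :
    dr m n f g U O C1 C1 C1 ≤ dr m n f g U O x y z := by
  unfold dr drift
  have hy : C1 ≤ y := hx.trans hxy
  have hz : C1 ≤ z := hy.trans hyz
  have h0 : C1 ≤ C1 + m := by linarith
  have h1 : C1 ≤ C1 + 1 := by linarith
  have x1 : C1 ≤ x + 1 := by linarith
  have x2 : C1 ≤ x + m := by linarith
  have y1 : C1 ≤ y + 1 := by linarith
  have y2 : C1 ≤ y + m := by linarith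
  have z2 : C1 ≤ z + m := by linarith
  rw [hg x y z hx hy hz, hg _ _ _ x2 y2 z2, hf _ _ _ x1 hy hz, hf _ _ _ x1 y2 z2,
    hf _ _ _ hx y1 hz, hf _ _ _ hx y1 z2, hf x y z hx hy hz,
    hg _ _ _ le_rfl le_rfl le_rfl, hg _ _ _ h0 h0 h0, hf _ _ _ h1 le_rfl le_rfl,
    hf _ _ _ h1 h0 h0, hf _ _ _ le_rfl h1 le_rfl, hf _ _ _ le_rfl h1 h0,
    hf _ _ _ le_rfl le_rfl le_rfl]
  linarith

section
variable {m : ℝ} {N0 n : ℕ} {h : ℝ → ℝ → ℝ → ℝ} {η : ℕ → ℝ} {E : ℕ → ℕ} {e : ℝ}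

/-- the contribution of the highest set with nonnegative weights -/
lemma topU_eq (he : 0 ≤ e) (hE : 2 * e ≤ n * (n + m - max (m + 1) n)) (hA : max (m + 1) n ≤ n + m) :
    ∃ M : ℝ, 0 ≤ M ∧ M ≤ n ∧ ∀ x y, topU m N0 h η E n e x y =
      n + (n - M) * h (n + m) x y + M * h (max (m + 1) n) x y + cst m N0 η E n e x := by
  set A : ℝ := n + m - max (m + 1) n with hAd
  rcases (show 0 ≤ A by linarith).eq_or_lt with h0 | h0
  · refine ⟨0, le_rfl, Nat.cast_nonneg _, fun x y => ?_⟩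
    rw [← h0, mul_zero] at hE
    have : e = 0 := by linarith
    subst this
    unfold topU
    ring
  · refine ⟨2 * e / A, by positivity, by rw [div_le_iff₀ h0]; linarith, fun x y => ?_⟩
    unfold topU
    rw [← hAd]
    field_simp
    ring

lemma topU_mono (he : 0 ≤ e) (hE : 2 * e ≤ n * (n + m - max (m + 1) n))
    (hA : max (m + 1) n ≤ n + m)
    (hm : ∀ a x x' y y', x ≤ x' → y ≤ y' → h a x y ≤ h a x' y') {x x' y y' : ℝ} (hx : x ≤ x')
    (hy : y ≤ y') : topU m N0 h η E n e x y - cst m N0 η E n e x ≤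
      topU m N0 h η E n e x' y' - cst m N0 η E n e x' := by
  obtain ⟨M, M0, M1, hM⟩ := topU_eq (N0 := N0) (h := h) (η := η) (E := E) he hE hA
  rw [hM, hM]
  have a1 := mul_le_mul_of_nonneg_left (hm (n + m) x x' y y' hx hy) (sub_nonneg.2 M1)
  have a2 := mul_le_mul_of_nonneg_left (hm (max (m + 1) n) x x' y y' hx hy) M0
  linarith

lemma cst_affine (x x' t : ℝ) : (1 - t) * cst m N0 η E n e x + t * cst m N0 η E n e x' =
    cst m N0 η E n e ((1 - t) * x + t * x') := by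
  unfold cst
  split_ifs
  · ring
  · ring

lemma topU_conX {L : ℝ} (lh : Lay L h) (he : 0 ≤ e) (hE : 2 * e ≤ n * (n + m - max (m + 1) n))
    (hA : max (m + 1) n ≤ n + m) {x x' y t : ℝ} (hx : L ≤ x) (hx' : L ≤ x') (t0 : 0 ≤ t)
    (t1 : t ≤ 1) : (1 - t) * topU m N0 h η E n e x y + t * topU m N0 h η E n e x' y ≤
      topU m N0 h η E n e ((1 - t) * x + t * x') y := by
  obtain ⟨M, M0, M1, hM⟩ := topU_eq (N0 := N0) (h := h) (η := η) (E := E) he hE hA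
  rw [hM, hM, hM, ← cst_affine]
  have a1 := mul_le_mul_of_nonneg_left (lh.conY (n + m) x x' y t hx hx' t0 t1) (sub_nonneg.2 M1)
  have a2 := mul_le_mul_of_nonneg_left (lh.conY (max (m + 1) n) x x' y t hx hx' t0 t1) M0
  linarith

lemma topU_conY {L : ℝ} (lh : Lay L h) (he : 0 ≤ e) (hE : 2 * e ≤ n * (n + m - max (m + 1) n))
    (hA : max (m + 1) n ≤ n + m) {x y y' t : ℝ} (hy : L ≤ y) (hy' : L ≤ y') (t0 : 0 ≤ t)
    (t1 : t ≤ 1) : (1 - t) * topU m N0 h η E n e x y + t * topU m N0 h η E n e x y' ≤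
      topU m N0 h η E n e x ((1 - t) * y + t * y') := by
  obtain ⟨M, M0, M1, hM⟩ := topU_eq (N0 := N0) (h := h) (η := η) (E := E) he hE hA
  rw [hM, hM, hM]
  have a1 := mul_le_mul_of_nonneg_left (lh.conZ (n + m) x y y' t hy hy' t0 t1) (sub_nonneg.2 M1)
  have a2 := mul_le_mul_of_nonneg_left (lh.conZ (max (m + 1) n) x y y' t hy hy' t0 t1) M0
  linarith

/-- the drift is an affine function of the number of edges -/
lemma topU_affine (x y e' t : ℝ) :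
    topU m N0 h η E n ((1 - t) * e + t * e') x y =
      (1 - t) * topU m N0 h η E n e x y + t * topU m N0 h η E n e' x y := by
  unfold topU cst
  split_ifs
  · ring
  · ring

end

end Pool.Agent.Lib.MP_67d80e_pr_g3
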