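import Pool.Agent.Lib.MP_67d80e_pr_g3.Box

/-!
The drift inequality in a box from the drift inequality at the corners.
-/

set_option autoImplicit false

open scoped BigOperators
open Finset

namespace Pool.Agent.Lib.MP_67d80e_pr_g3

/-- the drift of the functions at a point -/
noncomputable def dr (m n : ℝ) (f g : ℝ → ℝ → ℝ → ℝ) (U : ℝ → ℝ → ℝ) (O : ℝ → ℝ)
    (x y z : ℝ) : ℝ :=
  drift m (U x y) (O x) (O y) (O z) (g x y z) (g (x + m) (y + m) (z + m))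
    (f (x + 1) y z) (f (x + 1) (y + m) (z + m)) (f x (y + 1) z) (f x (y + 1) (z + m))
    (f x y z) n x y z

theorem box_lower {L m n c εx εy : ℝ} {f g : ℝ → ℝ → ℝ → ℝ} {U : ℝ → ℝ → ℝ} {O : ℝ → ℝ}
    (hm : 1 ≤ m) (lf : Lay L f) (lg : Lay L g)
    (hUx : ∀ x x' y t, L ≤ x → L ≤ x' → 0 ≤ t → t ≤ 1 →
      (1 - t) * U x y + t * U x' y ≤ U ((1 - t) * x + t * x') y)
    (hUy : ∀ x y y' t, L ≤ y → L ≤ y' → 0 ≤ t → t ≤ 1 →
      (1 - t) * U x y + t * U x y' ≤ U x ((1 - t) * y + t * y'))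
    {x0 x1 y0 y1 z0 z1 ξ υ ζ : ℝ} (hx0 : L ≤ x0) (hx : x0 ≤ x1) (hy0 : L ≤ y0) (hy : y0 ≤ y1)
    (hz0 : L ≤ z0) (hz : z0 ≤ z1) (ξ0 : 0 ≤ ξ) (ξ1 : ξ ≤ 1) (υ0 : 0 ≤ υ) (υ1 : υ ≤ 1)
    (ζ0 : 0 ≤ ζ) (ζ1 : ζ ≤ 1) (e0 : 0 ≤ εx) (e1 : 0 ≤ εy)
    (hOx : O (lin ξ x0 x1) = lin ξ (O x0) (O x1)) (hOy : O (lin υ y0 y1) = lin υ (O y0) (O y1))
    (hOz : O (lin ζ z0 z1) = lin ζ (O z0) (O z1))
    (sx0 : 0 ≤ O x1 - O x0) (sx1 : O x1 - O x0 ≤ m * (x1 - x0))
    (sy0 : 0 ≤ O y1 - O y0) (sy1 : O y1 - O y0 ≤ m * (y1 - y0))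
    (sz0 : 0 ≤ O z1 - O z0) (sz1 : O z1 - O z0 ≤ m * (z1 - z0))
    (m0 : 0 ≤ O (lin ξ x0 x1)) (m1 : O (lin ξ x0 x1) ≤ m * (lin ξ x0 x1 - n))
    (m2 : O (lin ξ x0 x1) ≤ O (lin υ y0 y1))
    (m3 : O (lin υ y0 y1) - O (lin ξ x0 x1) ≤ m * (lin υ y0 y1 - lin ξ x0 x1))
    (m4 : O (lin υ y0 y1) ≤ O (lin ζ z0 z1))
    (m5 : O (lin ζ z0 z1) - O (lin υ y0 y1) ≤ m * (lin ζ z0 z1 - lin υ y0 y1))
    (hf : f (lin ξ x0 x1) (lin υ y0 y1) (lin ζ z0 z1) =
      tri ξ υ ζ (fun e k l => f (pt e x0 x1) (pt k y0 y1) (pt l z0 z1)))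
    (hc : ∀ e k l, c + (εx + εy) / 4 ≤ dr m n f g U O (pt e x0 x1) (pt k y0 y1) (pt l z0 z1))
    (hex : ξ = 0 ∨ ξ = 1 ∨ ∀ k l,
      g (x1 + m) (pt k y0 y1 + m) (pt l z0 z1 + m) - g (x0 + m) (pt k y0 y1 + m) (pt l z0 z1 + m) ≤
        f (x1 + 1) (pt k y0 y1 + m) (pt l z0 z1 + m)
          - f (x0 + 1) (pt k y0 y1 + m) (pt l z0 z1 + m) ∧
      (x1 - x0) * ((g x1 (pt k y0 y1) (pt l z0 z1) - g x0 (pt k y0 y1) (pt l z0 z1)) -
        (f (x1 + 1) (pt k y0 y1) (pt l z0 z1) - f (x0 + 1) (pt k y0 y1) (pt l z0 z1))) ≤ εx)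
    (hey : υ = 0 ∨ υ = 1 ∨ ∀ e l,
      (y1 - y0) * ((f (pt e x0 x1 + 1) y1 (pt l z0 z1) - f (pt e x0 x1 + 1) y0 (pt l z0 z1)) -
        (f (pt e x0 x1) (y1 + 1) (pt l z0 z1) - f (pt e x0 x1) (y0 + 1) (pt l z0 z1))) ≤ εy) :
    c ≤ dr m n f g U O (lin ξ x0 x1) (lin υ y0 y1) (lin ζ z0 z1) := by
  have hm0 : 0 < m := by linarith
  have hx1 : L ≤ x1 := hx0.trans hx
  have hy1 : L ≤ y1 := hy0.trans hy
  have hz1 : L ≤ z1 := hz0.trans hz
  -- the terms
  let p : Fin 8 → ℝ := ![1, (x0 - n) - O x0 / m, O x0 / m, (y0 - x0) - (O y0 - O x0) / m,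
    (O y0 - O x0) / m, (z0 - y0) - (O z0 - O y0) / m, (O z0 - O y0) / m, - z0]
  let q : Fin 8 → ℝ := ![0, (x1 - x0) - (O x1 - O x0) / m, (O x1 - O x0) / m,
    - ((x1 - x0) - (O x1 - O x0) / m), - ((O x1 - O x0) / m), 0, 0, 0]
  let r : Fin 8 → ℝ := ![0, 0, 0, (y1 - y0) - (O y1 - O y0) / m, (O y1 - O y0) / m,
    - ((y1 - y0) - (O y1 - O y0) / m), - ((O y1 - O y0) / m), 0]
  let t : Fin 8 → ℝ := ![0, 0, 0, 0, 0, (z1 - z0) - (O z1 - O z0) / m, (O z1 - O z0) / m,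
    - (z1 - z0)]
  let V : Fin 8 → ℝ → ℝ → ℝ → ℝ := ![fun x y _ => U x y, fun x y z => g x y z,
    fun x y z => g (x + m) (y + m) (z + m), fun x y z => f (x + 1) y z,
    fun x y z => f (x + 1) (y + m) (z + m), fun x y z => f x (y + 1) z,
    fun x y z => f x (y + 1) (z + m), fun x y z => f x y z]
  have hsum : ∀ (A B : Fin 8 → ℝ), ∑ k, A k * B k = A 0 * B 0 + A 1 * B 1 + A 2 * B 2 +
      A 3 * B 3 + A 4 * B 4 + A 5 * B 5 + A 6 * B 6 + A 7 * B 7 := fun A B => Fin.sum_univ_eight _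
  -- the drift as a sum
  have hdr : ∀ X Y Z : ℝ, dr m n f g U O X Y Z =
      U X Y + ((X - n) - O X / m) * g X Y Z + O X / m * g (X + m) (Y + m) (Z + m)
      + ((Y - X) - (O Y - O X) / m) * f (X + 1) Y Z
      + (O Y - O X) / m * f (X + 1) (Y + m) (Z + m)
      + ((Z - Y) - (O Z - O Y) / m) * f X (Y + 1) Z
      + (O Z - O Y) / m * f X (Y + 1) (Z + m) - Z * f X Y Z := by
    intro X Y Z
    unfold dr drift
    ring
  have dx : 0 ≤ (x1 - x0) - (O x1 - O x0) / m := by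
    rw [sub_nonneg, div_le_iff₀ hm0]; linarith
  have dx' : 0 ≤ (O x1 - O x0) / m := div_nonneg sx0 hm0.le
  have dy : 0 ≤ (y1 - y0) - (O y1 - O y0) / m := by
    rw [sub_nonneg, div_le_iff₀ hm0]; linarith
  have dy' : 0 ≤ (O y1 - O y0) / m := div_nonneg sy0 hm0.le
  have dz : 0 ≤ (z1 - z0) - (O z1 - O z0) / m := by
    rw [sub_nonneg, div_le_iff₀ hm0]; linarith
  have dz' : 0 ≤ (O z1 - O z0) / m := div_nonneg sz0 hm0.le
  have main := tri_lower (univ : Finset (Fin 8)) p q r t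
    (fun i e k l => V i (pt e x0 x1) (pt k y0 y1) (pt l z0 z1)) (c := c) (ε0 := εx) (ε1 := εy)
    ξ0 ξ1 υ0 υ1 ζ0 ζ1 e0 e1 ?_ ?_ ?_ ?_
  · refine main.trans ?_
    rw [hsum, hdr]
    -- the masses at the point
    have em0 : p 0 + ξ * q 0 + υ * r 0 + ζ * t 0 = 1 := by
      simp [p, q, r, t]
    have em1 : p 1 + ξ * q 1 + υ * r 1 + ζ * t 1 =
        (lin ξ x0 x1 - n) - O (lin ξ x0 x1) / m := by
      rw [hOx]
      simp [p, q, r, t, lin]
      ring
    have em2 : p 2 + ξ * q 2 + υ * r 2 + ζ * t 2 = O (lin ξ x0 x1) / m := by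
      rw [hOx]
      simp [p, q, r, t, lin]
      ring
    have em3 : p 3 + ξ * q 3 + υ * r 3 + ζ * t 3 = (lin υ y0 y1 - lin ξ x0 x1)
        - (O (lin υ y0 y1) - O (lin ξ x0 x1)) / m := by
      rw [hOx, hOy]
      simp [p, q, r, t, lin]
      ring
    have em4 : p 4 + ξ * q 4 + υ * r 4 + ζ * t 4 =
        (O (lin υ y0 y1) - O (lin ξ x0 x1)) / m := by
      rw [hOx, hOy]
      simp [p, q, r, t, lin]
      ring
    have em5 : p 5 + ξ * q 5 + υ * r 5 + ζ * t 5 = (lin ζ z0 z1 - lin υ y0 y1)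
        - (O (lin ζ z0 z1) - O (lin υ y0 y1)) / m := by
      rw [hOz, hOy]
      simp [p, q, r, t, lin]
      ring
    have em6 : p 6 + ξ * q 6 + υ * r 6 + ζ * t 6 =
        (O (lin ζ z0 z1) - O (lin υ y0 y1)) / m := by
      rw [hOz, hOy]
      simp [p, q, r, t, lin]
      ring
    have em7 : p 7 + ξ * q 7 + υ * r 7 + ζ * t 7 = - lin ζ z0 z1 := by
      simp [p, q, r, t, lin]
      ring
    rw [em0, em1, em2, em3, em4, em5, em6, em7]
    -- the values at the point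
    have v0 : tri ξ υ ζ (fun e k l => V 0 (pt e x0 x1) (pt k y0 y1) (pt l z0 z1)) ≤
        U (lin ξ x0 x1) (lin υ y0 y1) :=
      tri_le (L := L) (F := fun x y _ => U x y) (fun x x' y _ t => hUx x x' y t)
        (fun x y y' _ t => hUy x y y' t) (fun x y _ _ t _ _ _ _ => by
          exact le_of_eq (by ring)) hx0 hx1 hy0 hy1 hz0 hz1 ξ0 ξ1 υ0 υ1 ζ0 ζ1
    have v1 : tri ξ υ ζ (fun e k l => V 1 (pt e x0 x1) (pt k y0 y1) (pt l z0 z1)) ≤
        g (lin ξ x0 x1) (lin υ y0 y1) (lin ζ z0 z1) :=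
      tri_le (L := L) (F := g) lg.conX lg.conY lg.conZ hx0 hx1 hy0 hy1 hz0 hz1 ξ0 ξ1 υ0 υ1 ζ0 ζ1
    have v2 : tri ξ υ ζ (fun e k l => V 2 (pt e x0 x1) (pt k y0 y1) (pt l z0 z1)) ≤
        g (lin ξ x0 x1 + m) (lin υ y0 y1 + m) (lin ζ z0 z1 + m) := by
      have := tri_le (L := L) (F := g) lg.conX lg.conY lg.conZ (x0 := x0 + m) (x1 := x1 + m)
        (y0 := y0 + m) (y1 := y1 + m) (z0 := z0 + m) (z1 := z1 + m) (by linarith) (by linarith)
        (by linarith) (by linarith) (by linarith) (by linarith) ξ0 ξ1 υ0 υ1 ζ0 ζ1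
      simp only [pt_add, lin_add'] at this
      exact this
    have v3 : tri ξ υ ζ (fun e k l => V 3 (pt e x0 x1) (pt k y0 y1) (pt l z0 z1)) ≤
        f (lin ξ x0 x1 + 1) (lin υ y0 y1) (lin ζ z0 z1) := by
      have := tri_le (L := L) (F := f) lf.conX lf.conY lf.conZ (x0 := x0 + 1) (x1 := x1 + 1)
        (y0 := y0) (y1 := y1) (z0 := z0) (z1 := z1) (by linarith) (by linarith)
        (by linarith) (by linarith) (by linarith) (by linarith) ξ0 ξ1 υ0 υ1 ζ0 ζ1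
      simp only [pt_add, lin_add'] at this
      exact this
    have v4 : tri ξ υ ζ (fun e k l => V 4 (pt e x0 x1) (pt k y0 y1) (pt l z0 z1)) ≤
        f (lin ξ x0 x1 + 1) (lin υ y0 y1 + m) (lin ζ z0 z1 + m) := by
      have := tri_le (L := L) (F := f) lf.conX lf.conY lf.conZ (x0 := x0 + 1) (x1 := x1 + 1)
        (y0 := y0 + m) (y1 := y1 + m) (z0 := z0 + m) (z1 := z1 + m) (by linarith) (by linarith)
        (by linarith) (by linarith) (by linarith) (by linarith) ξ0 ξ1 υ0 υ1 ζ0 ζ1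
      simp only [pt_add, lin_add'] at this
      exact this
    have v5 : tri ξ υ ζ (fun e k l => V 5 (pt e x0 x1) (pt k y0 y1) (pt l z0 z1)) ≤
        f (lin ξ x0 x1) (lin υ y0 y1 + 1) (lin ζ z0 z1) := by
      have := tri_le (L := L) (F := f) lf.conX lf.conY lf.conZ (x0 := x0) (x1 := x1)
        (y0 := y0 + 1) (y1 := y1 + 1) (z0 := z0) (z1 := z1) (by linarith) (by linarith)
        (by linarith) (by linarith) (by linarith) (by linarith) ξ0 ξ1 υ0 υ1 ζ0 ζ1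
      simp only [pt_add, lin_add'] at this
      exact this
    have v6 : tri ξ υ ζ (fun e k l => V 6 (pt e x0 x1) (pt k y0 y1) (pt l z0 z1)) ≤
        f (lin ξ x0 x1) (lin υ y0 y1 + 1) (lin ζ z0 z1 + m) := by
      have := tri_le (L := L) (F := f) lf.conX lf.conY lf.conZ (x0 := x0) (x1 := x1)
        (y0 := y0 + 1) (y1 := y1 + 1) (z0 := z0 + m) (z1 := z1 + m) (by linarith) (by linarith)
        (by linarith) (by linarith) (by linarith) (by linarith) ξ0 ξ1 υ0 υ1 ζ0 ζ1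
      simp only [pt_add, lin_add'] at this
      exact this
    have v7 : tri ξ υ ζ (fun e k l => V 7 (pt e x0 x1) (pt k y0 y1) (pt l z0 z1)) =
        f (lin ξ x0 x1) (lin υ y0 y1) (lin ζ z0 z1) := hf.symm
    rw [v7]
    have w1 := mul_le_mul_of_nonneg_left v1
      (show 0 ≤ (lin ξ x0 x1 - n) - O (lin ξ x0 x1) / m by
        rw [sub_nonneg, div_le_iff₀ hm0]; linarith)
    have w2 := mul_le_mul_of_nonneg_left v2 (div_nonneg m0 hm0.le)
    have w3 := mul_le_mul_of_nonneg_left v3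
      (show 0 ≤ (lin υ y0 y1 - lin ξ x0 x1) - (O (lin υ y0 y1) - O (lin ξ x0 x1)) / m by
        rw [sub_nonneg, div_le_iff₀ hm0]; linarith)
    have w4 := mul_le_mul_of_nonneg_left v4 (div_nonneg (sub_nonneg.2 m2) hm0.le)
    have w5 := mul_le_mul_of_nonneg_left v5
      (show 0 ≤ (lin ζ z0 z1 - lin υ y0 y1) - (O (lin ζ z0 z1) - O (lin υ y0 y1)) / m by
        rw [sub_nonneg, div_le_iff₀ hm0]; linarith)
    have w6 := mul_le_mul_of_nonneg_left v6 (div_nonneg (sub_nonneg.2 m4) hm0.le)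
    linarith
  · -- the corners
    intro e k l
    have h := hc e k l
    rw [hdr] at h
    rw [hsum]
    have oe : O (pt e x0 x1) = O x0 + br e * (O x1 - O x0) := by cases e <;> simp
    have ok : O (pt k y0 y1) = O y0 + br k * (O y1 - O y0) := by cases k <;> simp
    have ol : O (pt l z0 z1) = O z0 + br l * (O z1 - O z0) := by cases l <;> simp
    have pe : pt e x0 x1 = x0 + br e * (x1 - x0) := by cases e <;> simp
    have pk : pt k y0 y1 = y0 + br k * (y1 - y0) := by cases k <;> simp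
    have pl : pt l z0 z1 = z0 + br l * (z1 - z0) := by cases l <;> simp
    refine h.trans (le_of_eq ?_)
    rw [oe, ok, ol]
    have ee : ((pt e x0 x1 - n) - (O x0 + br e * (O x1 - O x0)) / m) =
        p 1 + br e * q 1 + br k * r 1 + br l * t 1 := by
      rw [pe]; simp [p, q, r, t]; ring
    have ee3 : ((pt k y0 y1 - pt e x0 x1) - ((O y0 + br k * (O y1 - O y0)) -
        (O x0 + br e * (O x1 - O x0))) / m) = p 3 + br e * q 3 + br k * r 3 + br l * t 3 := by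
      rw [pe, pk]; simp [p, q, r, t]; ring
    have ee5 : ((pt l z0 z1 - pt k y0 y1) - ((O z0 + br l * (O z1 - O z0)) -
        (O y0 + br k * (O y1 - O y0))) / m) = p 5 + br e * q 5 + br k * r 5 + br l * t 5 := by
      rw [pk, pl]; simp [p, q, r, t]; ring
    have ee7 : - pt l z0 z1 = p 7 + br e * q 7 + br k * r 7 + br l * t 7 := by
      rw [pl]; simp [p, q, r, t]; ring
    have ee2 : (O x0 + br e * (O x1 - O x0)) / m = p 2 + br e * q 2 + br k * r 2 + br l * t 2 := by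
      simp [p, q, r, t]; ring
    have ee4 : ((O y0 + br k * (O y1 - O y0)) - (O x0 + br e * (O x1 - O x0))) / m =
        p 4 + br e * q 4 + br k * r 4 + br l * t 4 := by
      simp [p, q, r, t]; ring
    have ee6 : ((O z0 + br l * (O z1 - O z0)) - (O y0 + br k * (O y1 - O y0))) / m =
        p 6 + br e * q 6 + br k * r 6 + br l * t 6 := by
      simp [p, q, r, t]; ring
    have ee0 : (1 : ℝ) = p 0 + br e * q 0 + br k * r 0 + br l * t 0 := by
      simp [p, q, r, t]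
    rw [← ee, ← ee2, ← ee3, ← ee4, ← ee5, ← ee6, ← ee7, ← ee0]
    change _ = 1 * U (pt e x0 x1) (pt k y0 y1) + _ * g (pt e x0 x1) (pt k y0 y1) (pt l z0 z1) +
      _ * g (pt e x0 x1 + m) (pt k y0 y1 + m) (pt l z0 z1 + m) +
      _ * f (pt e x0 x1 + 1) (pt k y0 y1) (pt l z0 z1) +
      _ * f (pt e x0 x1 + 1) (pt k y0 y1 + m) (pt l z0 z1 + m) +
      _ * f (pt e x0 x1) (pt k y0 y1 + 1) (pt l z0 z1) +
      _ * f (pt e x0 x1) (pt k y0 y1 + 1) (pt l z0 z1 + m) +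
      _ * f (pt e x0 x1) (pt k y0 y1) (pt l z0 z1)
    ring
  · -- edges in the first direction
    refine hex.imp id (Or.imp id fun h k l => ?_)
    obtain ⟨h1, h2⟩ := h k l
    rw [hsum]
    set a := (x1 - x0) - (O x1 - O x0) / m with ha
    set b := (O x1 - O x0) / m with hb
    have e : q 0 * (V 0 (pt true x0 x1) (pt k y0 y1) (pt l z0 z1)
          - V 0 (pt false x0 x1) (pt k y0 y1) (pt l z0 z1)) +
        q 1 * (V 1 (pt true x0 x1) (pt k y0 y1) (pt l z0 z1)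
          - V 1 (pt false x0 x1) (pt k y0 y1) (pt l z0 z1)) +
        q 2 * (V 2 (pt true x0 x1) (pt k y0 y1) (pt l z0 z1)
          - V 2 (pt false x0 x1) (pt k y0 y1) (pt l z0 z1)) +
        q 3 * (V 3 (pt true x0 x1) (pt k y0 y1) (pt l z0 z1)
          - V 3 (pt false x0 x1) (pt k y0 y1) (pt l z0 z1)) +
        q 4 * (V 4 (pt true x0 x1) (pt k y0 y1) (pt l z0 z1)
          - V 4 (pt false x0 x1) (pt k y0 y1) (pt l z0 z1)) +
        q 5 * (V 5 (pt true x0 x1) (pt k y0 y1) (pt l z0 z1)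
          - V 5 (pt false x0 x1) (pt k y0 y1) (pt l z0 z1)) +
        q 6 * (V 6 (pt true x0 x1) (pt k y0 y1) (pt l z0 z1)
          - V 6 (pt false x0 x1) (pt k y0 y1) (pt l z0 z1)) +
        q 7 * (V 7 (pt true x0 x1) (pt k y0 y1) (pt l z0 z1)
          - V 7 (pt false x0 x1) (pt k y0 y1) (pt l z0 z1)) =
        a * ((g x1 (pt k y0 y1) (pt l z0 z1) - g x0 (pt k y0 y1) (pt l z0 z1)) -
          (f (x1 + 1) (pt k y0 y1) (pt l z0 z1) - f (x0 + 1) (pt k y0 y1) (pt l z0 z1))) +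
        b * ((g (x1 + m) (pt k y0 y1 + m) (pt l z0 z1 + m)
            - g (x0 + m) (pt k y0 y1 + m) (pt l z0 z1 + m)) -
          (f (x1 + 1) (pt k y0 y1 + m) (pt l z0 z1 + m)
            - f (x0 + 1) (pt k y0 y1 + m) (pt l z0 z1 + m))) := by
      simp only [pt_true, pt_false]
      change 0 * _ + a * (g x1 (pt k y0 y1) (pt l z0 z1) - g x0 (pt k y0 y1) (pt l z0 z1)) +
        b * (g (x1 + m) (pt k y0 y1 + m) (pt l z0 z1 + m)
            - g (x0 + m) (pt k y0 y1 + m) (pt l z0 z1 + m)) +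
        (-a) * (f (x1 + 1) (pt k y0 y1) (pt l z0 z1) - f (x0 + 1) (pt k y0 y1) (pt l z0 z1)) +
        (-b) * (f (x1 + 1) (pt k y0 y1 + m) (pt l z0 z1 + m)
            - f (x0 + 1) (pt k y0 y1 + m) (pt l z0 z1 + m)) + 0 * _ + 0 * _ + 0 * _ = _
      ring
    refine (le_of_eq e).trans ?_
    have n1 := mul_nonneg dx' (sub_nonneg.2 h1)
    have n2 : a * ((g x1 (pt k y0 y1) (pt l z0 z1) - g x0 (pt k y0 y1) (pt l z0 z1)) -
          (f (x1 + 1) (pt k y0 y1) (pt l z0 z1) - f (x0 + 1) (pt k y0 y1) (pt l z0 z1))) ≤ εx := by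
      have ha' : a ≤ x1 - x0 := by rw [ha]; linarith
      rcases le_total ((g x1 (pt k y0 y1) (pt l z0 z1) - g x0 (pt k y0 y1) (pt l z0 z1)) -
          (f (x1 + 1) (pt k y0 y1) (pt l z0 z1) - f (x0 + 1) (pt k y0 y1) (pt l z0 z1))) 0
        with h | h
      · exact (mul_nonpos_of_nonneg_of_nonpos dx h).trans e0
      · exact (mul_le_mul_of_nonneg_right ha' h).trans h2
    nlinarith
  · -- edges in the second direction
    refine hey.imp id (Or.imp id fun h e l => ?_)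
    have h2 := h e l
    rw [hsum]
    set a := (y1 - y0) - (O y1 - O y0) / m with ha
    set b := (O y1 - O y0) / m with hb
    have ee : r 0 * (V 0 (pt e x0 x1) (pt true y0 y1) (pt l z0 z1)
          - V 0 (pt e x0 x1) (pt false y0 y1) (pt l z0 z1)) +
        r 1 * (V 1 (pt e x0 x1) (pt true y0 y1) (pt l z0 z1)
          - V 1 (pt e x0 x1) (pt false y0 y1) (pt l z0 z1)) +
        r 2 * (V 2 (pt e x0 x1) (pt true y0 y1) (pt l z0 z1)
          - V 2 (pt e x0 x1) (pt false y0 y1) (pt l z0 z1)) +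
        r 3 * (V 3 (pt e x0 x1) (pt true y0 y1) (pt l z0 z1)
          - V 3 (pt e x0 x1) (pt false y0 y1) (pt l z0 z1)) +
        r 4 * (V 4 (pt e x0 x1) (pt true y0 y1) (pt l z0 z1)
          - V 4 (pt e x0 x1) (pt false y0 y1) (pt l z0 z1)) +
        r 5 * (V 5 (pt e x0 x1) (pt true y0 y1) (pt l z0 z1)
          - V 5 (pt e x0 x1) (pt false y0 y1) (pt l z0 z1)) +
        r 6 * (V 6 (pt e x0 x1) (pt true y0 y1) (pt l z0 z1)
          - V 6 (pt e x0 x1) (pt false y0 y1) (pt l z0 z1)) +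
        r 7 * (V 7 (pt e x0 x1) (pt true y0 y1) (pt l z0 z1)
          - V 7 (pt e x0 x1) (pt false y0 y1) (pt l z0 z1)) =
        a * ((f (pt e x0 x1 + 1) y1 (pt l z0 z1) - f (pt e x0 x1 + 1) y0 (pt l z0 z1)) -
          (f (pt e x0 x1) (y1 + 1) (pt l z0 z1) - f (pt e x0 x1) (y0 + 1) (pt l z0 z1))) +
        b * ((f (pt e x0 x1 + 1) (y1 + m) (pt l z0 z1 + m)
            - f (pt e x0 x1 + 1) (y0 + m) (pt l z0 z1 + m)) -
          (f (pt e x0 x1) (y1 + 1) (pt l z0 z1 + m)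
            - f (pt e x0 x1) (y0 + 1) (pt l z0 z1 + m))) := by
      simp only [pt_true, pt_false]
      change 0 * _ + 0 * _ + 0 * _ +
        a * (f (pt e x0 x1 + 1) y1 (pt l z0 z1) - f (pt e x0 x1 + 1) y0 (pt l z0 z1)) +
        b * (f (pt e x0 x1 + 1) (y1 + m) (pt l z0 z1 + m)
            - f (pt e x0 x1 + 1) (y0 + m) (pt l z0 z1 + m)) +
        (-a) * (f (pt e x0 x1) (y1 + 1) (pt l z0 z1) - f (pt e x0 x1) (y0 + 1) (pt l z0 z1)) +
        (-b) * (f (pt e x0 x1) (y1 + 1) (pt l z0 z1 + m)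
            - f (pt e x0 x1) (y0 + 1) (pt l z0 z1 + m)) + 0 * _ = _
      ring
    refine (le_of_eq ee).trans ?_
    have h1 : f (pt e x0 x1 + 1) (y1 + m) (pt l z0 z1 + m)
          - f (pt e x0 x1 + 1) (y0 + m) (pt l z0 z1 + m) ≤
        f (pt e x0 x1) (y1 + 1) (pt l z0 z1 + m) - f (pt e x0 x1) (y0 + 1) (pt l z0 z1 + m) := by
      have b1 := lf.subXY (pt e x0 x1) (pt e x0 x1 + 1) (y0 + m) (y1 + m) (pt l z0 z1 + m)
        (by linarith) (by linarith)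
      have b2 := shift_le (L := L) (F := fun y => f (pt e x0 x1) y (pt l z0 z1 + m))
        (fun x x' t hx hx' t0 t1 => lf.conY _ _ _ _ t hx hx' t0 t1) (x := y0 + 1) (x' := y1 + 1)
        (s := m - 1) (by linarith) (by linarith) (by linarith)
      have e3 : y1 + 1 + (m - 1) = y1 + m := by ring
      have e4 : y0 + 1 + (m - 1) = y0 + m := by ring
      simp only [e3, e4] at b2
      linarith
    have n1 := mul_nonneg dy' (sub_nonneg.2 h1)
    have n2 : a * ((f (pt e x0 x1 + 1) y1 (pt l z0 z1) - f (pt e x0 x1 + 1) y0 (pt l z0 z1)) -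
        (f (pt e x0 x1) (y1 + 1) (pt l z0 z1) - f (pt e x0 x1) (y0 + 1) (pt l z0 z1))) ≤ εy := by
      have ha' : a ≤ y1 - y0 := by rw [ha]; linarith
      rcases le_total ((f (pt e x0 x1 + 1) y1 (pt l z0 z1) - f (pt e x0 x1 + 1) y0 (pt l z0 z1)) -
        (f (pt e x0 x1) (y1 + 1) (pt l z0 z1) - f (pt e x0 x1) (y0 + 1) (pt l z0 z1))) 0
        with h | h
      · exact (mul_nonpos_of_nonneg_of_nonpos dy h).trans e1
      · exact (mul_le_mul_of_nonneg_right ha' h).trans h2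
    nlinarith
  · -- edges in the third direction
    intro e k
    rw [hsum]
    set a := (z1 - z0) - (O z1 - O z0) / m with ha
    set b := (O z1 - O z0) / m with hb
    have ee : t 0 * (V 0 (pt e x0 x1) (pt k y0 y1) (pt true z0 z1)
          - V 0 (pt e x0 x1) (pt k y0 y1) (pt false z0 z1)) +
        t 1 * (V 1 (pt e x0 x1) (pt k y0 y1) (pt true z0 z1)
          - V 1 (pt e x0 x1) (pt k y0 y1) (pt false z0 z1)) +
        t 2 * (V 2 (pt e x0 x1) (pt k y0 y1) (pt true z0 z1)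
          - V 2 (pt e x0 x1) (pt k y0 y1) (pt false z0 z1)) +
        t 3 * (V 3 (pt e x0 x1) (pt k y0 y1) (pt true z0 z1)
          - V 3 (pt e x0 x1) (pt k y0 y1) (pt false z0 z1)) +
        t 4 * (V 4 (pt e x0 x1) (pt k y0 y1) (pt true z0 z1)
          - V 4 (pt e x0 x1) (pt k y0 y1) (pt false z0 z1)) +
        t 5 * (V 5 (pt e x0 x1) (pt k y0 y1) (pt true z0 z1)
          - V 5 (pt e x0 x1) (pt k y0 y1) (pt false z0 z1)) +
        t 6 * (V 6 (pt e x0 x1) (pt k y0 y1) (pt true z0 z1)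
          - V 6 (pt e x0 x1) (pt k y0 y1) (pt false z0 z1)) +
        t 7 * (V 7 (pt e x0 x1) (pt k y0 y1) (pt true z0 z1)
          - V 7 (pt e x0 x1) (pt k y0 y1) (pt false z0 z1)) =
        a * (f (pt e x0 x1) (pt k y0 y1 + 1) z1 - f (pt e x0 x1) (pt k y0 y1 + 1) z0) +
        b * (f (pt e x0 x1) (pt k y0 y1 + 1) (z1 + m) - f (pt e x0 x1) (pt k y0 y1 + 1) (z0 + m))
        - (z1 - z0) * (f (pt e x0 x1) (pt k y0 y1) z1 - f (pt e x0 x1) (pt k y0 y1) z0) := by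
      simp only [pt_true, pt_false]
      change 0 * _ + 0 * _ + 0 * _ + 0 * _ + 0 * _ +
        a * (f (pt e x0 x1) (pt k y0 y1 + 1) z1 - f (pt e x0 x1) (pt k y0 y1 + 1) z0) +
        b * (f (pt e x0 x1) (pt k y0 y1 + 1) (z1 + m) - f (pt e x0 x1) (pt k y0 y1 + 1) (z0 + m))
        + (-(z1 - z0)) * (f (pt e x0 x1) (pt k y0 y1) z1 - f (pt e x0 x1) (pt k y0 y1) z0) = _
      ring
    refine (le_of_eq ee).trans ?_
    have b1 := lf.subYZ (pt e x0 x1) (pt k y0 y1) (pt k y0 y1 + 1) z0 z1 (by linarith) hz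
    have b2 := shift_le (L := L) (F := fun z => f (pt e x0 x1) (pt k y0 y1 + 1) z)
        (fun x x' t hx hx' t0 t1 => lf.conZ _ _ _ _ t hx hx' t0 t1) (x := z0) (x' := z1)
        (s := m) hz0 hz (by linarith)
    have c1 := mul_le_mul_of_nonneg_left (show f (pt e x0 x1) (pt k y0 y1 + 1) z1
      - f (pt e x0 x1) (pt k y0 y1 + 1) z0 ≤ f (pt e x0 x1) (pt k y0 y1) z1
      - f (pt e x0 x1) (pt k y0 y1) z0 by linarith) dz
    have c2 := mul_le_mul_of_nonneg_left (show f (pt e x0 x1) (pt k y0 y1 + 1) (z1 + m)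
      - f (pt e x0 x1) (pt k y0 y1 + 1) (z0 + m) ≤ f (pt e x0 x1) (pt k y0 y1) z1
      - f (pt e x0 x1) (pt k y0 y1) z0 by linarith) dz'
    have c3 : a + b = z1 - z0 := by rw [ha, hb]; ring
    have c4 : (z1 - z0) * (f (pt e x0 x1) (pt k y0 y1) z1 - f (pt e x0 x1) (pt k y0 y1) z0) =
        a * (f (pt e x0 x1) (pt k y0 y1) z1 - f (pt e x0 x1) (pt k y0 y1) z0) +
        b * (f (pt e x0 x1) (pt k y0 y1) z1 - f (pt e x0 x1) (pt k y0 y1) z0) := by
      rw [← c3]; ring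
    rw [c4]
    linarith

end Pool.Agent.Lib.MP_67d80e_pr_g3
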