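import Pool.Agent.Lib.MP_67d80e_pr_g3.ChN

/-!
Correctness of the checks of the multipliers and of the drift (natural numbers).
-/

set_option autoImplicit false

open scoped BigOperators
open Pool.Agent.Lib.MP_67d80e_pr_all

namespace Pool.Agent.Lib.MP_67d80e_pr_g3

namespace Dat

variable {D : Dat}

lemma sub_eq' (a b : ℕ) : Nat.sub a b = a - b := rfl

lemma get_p64 {f : ℕ → ℕ} {a k l : ℕ} (hf : ∀ q, f q < 2 ^ 64) (h1 : a ≤ l) (h2 : l < a + k) :
    w64 (p64 (fun q => f (a + q)) k) (l - a) = f l := by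
  rw [w64_p64 (fun q _ => hf _) (by omega), show a + (l - a) = l by omega]

lemma row_get {n a i j l : ℕ} (hbd : D.Bd n) (hb : D.b n ≤ a) (h1 : a ≤ l) (h2 : l ≤ D.K3) :
    w64 (D.row n a i j) (Nat.sub l a) = D.t n i j l := by
  unfold row
  rw [rk_eq hb, sub_eq', sub_eq']
  exact get_p64 (fun q => lt_up (hbd _ _ _) (by norm_num)) h1 (by
    change l < a + (D.K3 + 1 - a)
    omega)

/-- the conditions for the multipliers -/
structure BN (D : Dat) (n n' a : ℕ) : Prop where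
  B2 : ∀ i j l, a ≤ i → i + 2 ≤ D.K1 → i ≤ j → j < D.K2 → j ≤ l → l < D.K3 →
    D.g (fl D.vc2 j) * D.t n i j (l + 1) + D.g l * D.t n (i + 1) (fl D.vc2 j) (fl D.vd3 l) ≤
      D.g (fl D.vc2 j) * D.t n i j l + D.g l * D.t n (i + 1) (fl D.vc2 j + 1) (fl D.vd3 l)
  B1 : ∀ i j l, a ≤ i → i < D.K1 → i ≤ j → j < D.K2 → j ≤ l → l < D.K3 →
    (D.g (fl D.vc1 i) * D.g l) * D.t n i (j + 1) l +
      ((D.g (fl D.vc1 i) * D.g j) * D.t n i j (l + 1) +
        (D.g j * D.g l) * D.t n' (fl D.vc1 i) (fl D.vd2 j) (fl D.vd3 l)) ≤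
      (D.g (fl D.vc1 i) * (D.g l + D.g j)) * D.t n i j l +
        (D.g j * D.g l) * D.t n' (fl D.vc1 i + 1) (fl D.vd2 j) (fl D.vd3 l)
  B1K : ∀ i j, a ≤ i → i < D.K1 → i ≤ j → j < D.K2 →
    D.g (fl D.vc1 i) * D.t n i (j + 1) D.K3 + D.g j * D.t n' (fl D.vc1 i) (fl D.vd2 j) D.K3 ≤
      D.g (fl D.vc1 i) * D.t n i j D.K3 + D.g j * D.t n' (fl D.vc1 i + 1) (fl D.vd2 j) D.K3

theorem bN_of {n : ℕ} {d vE : ℕ} (hgeo : D.Geo d vE) (hbd : D.Bd n)
    (hbd' : D.Bd (D.nx n)) (hb : D.b n ≤ D.b (n + 1)) (hb' : D.b (D.nx n) ≤ D.b (n + 1))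
    (h : D.cB n = true) : D.BN n (D.nx n) (D.b (n + 1)) := by
  have h23 := hgeo.h23
  have key : ∀ i j, D.b (n + 1) ≤ i → i < D.K1 → i ≤ j → j < D.K2 →
      D.cBr n (D.nx n) (D.b (n + 1)) i j = true := by
    intro i j hi hi' hj hj'
    exact fa_sound (fa_sound h i hi hi') j hj hj'
  have hd3 : ∀ l, l < D.K3 → l ≤ fl D.vd3 l ∧ fl D.vd3 l ≤ D.K3 := fun l hl => by
    have := (hgeo.s3 l hl).2
    exact ⟨this.1, this.2.1⟩
  constructor
  · intro i j l hi hi' hj hj' hl hl'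
    have h1 := key i j hi (by omega) hj hj'
    unfold cBr at h1
    simp only [Bool.and_eq_true] at h1
    have h2 := fa_sound (ble_or h1.1.1 (show i.succ < D.K1 from hi')) l hl hl'
    obtain ⟨q1, q2⟩ := hd3 l hl'
    unfold cB2l at h2
    have h3 := Nat.le_of_ble_eq_true h2
    rw [row_get hbd hb (by omega) (by omega), row_get hbd hb (by omega) (by omega),
      row_get hbd hb (by omega) (by omega), row_get hbd hb (by omega) (by omega)] at h3
    exact h3
  · intro i j l hi hi' hj hj' hl hl'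
    have h1 := key i j hi hi' hj hj'
    unfold cBr at h1
    simp only [Bool.and_eq_true] at h1
    have h2 := fa_sound h1.1.2 l hl hl'
    obtain ⟨q1, q2⟩ := hd3 l hl'
    unfold cB1l at h2
    have h3 := Nat.le_of_ble_eq_true h2
    rw [row_get hbd hb (by omega) (by omega), row_get hbd hb (by omega) (by omega),
      row_get hbd hb (by omega) (by omega), row_get hbd' hb' (by omega) (by omega),
      row_get hbd' hb' (by omega) (by omega)] at h3
    exact h3
  · intro i j hi hi' hj hj'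
    have h1 := key i j hi hi' hj hj'
    unfold cBr at h1
    simp only [Bool.and_eq_true] at h1
    have h2 := h1.2
    unfold cB1K at h2
    have h3 := Nat.le_of_ble_eq_true h2
    rw [row_get hbd hb (by omega) (by omega), row_get hbd hb (by omega) (by omega),
      row_get hbd' hb' (by omega) (by omega), row_get hbd' hb' (by omega) (by omega)] at h3
    exact h3

/-! ### the drift -/

/-- numerators of the values at `(G i + m, G j + m, ·)` and `(G i + 1, G j + m, ·)` -/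
def V1t (D : Dat) (n i j l : ℕ) : ℕ :=
  mix (D.g (fl D.vp2 j)) (fl D.vr2 j) (D.hmt n (fl D.vp1 i) (fl D.vr1 i) (fl D.vp2 j) l)
    (D.hmt n (fl D.vp1 i) (fl D.vr1 i) (fl D.vp2 j + 1) l)
def W1t (D : Dat) (n i j l : ℕ) : ℕ :=
  mix (D.g (fl D.vp2 j)) (fl D.vr2 j) (D.h1t n i (fl D.vp2 j) l) (D.h1t n i (fl D.vp2 j + 1) l)

/-- value at `G l + m` in the last index -/
def zt (D : Dat) (f : ℕ → ℕ) (l : ℕ) : ℕ :=
  mix (D.g (fl D.vp3 l)) (fl D.vr3 l) (f (fl D.vp3 l)) (f (fl D.vp3 l + 1))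

/-- the inequality at a node -/
def DrN (D : Dat) (n n' i j l : ℕ) : Prop :=
  let g1 := D.g (fl D.vp1 i)
  let g2 := D.g (fl D.vp2 j)
  let g3 := D.g (fl D.vp3 l)
  let gi := D.g i
  let gj := D.g j
  let O1 := D.R n i
  let O2 := D.R n j
  let O3 := D.R n l
  let q := D.m * D.Q
  let xx := q * D.x i
  let yy := q * D.x j
  let zz := q * D.x l
  let v1 := D.zt (D.V1t n' i j) l
  let w1 := D.zt (D.W1t n i j) l
  let x1 := D.zt (D.h2t n i j) l
  let v0 := D.t n' i j l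
  let w0 := D.h1t n i j l
  let x0 := D.h2t n i j l
  let t0 := D.t n i j l
  (O1 * (g1 * gj)) * w1 + ((g1 * g2 * gi) * O2) * x1 +
    g3 * ((((O1 + q * n) * (g1 * g2 * (gi * gj))) * v0 + ((xx + O2) * (g1 * g2 * gj)) * w0) +
      ((((g1 * g2 * gi) * (yy + O3)) * x0 + ((q * (g1 * g2 * (gi * gj))) * D.x l) * t0) +
        (q * (g1 * g2 * (gi * gj))) * D.un n i j)) ≤
  (O1 * (gi * gj)) * v1 + ((O2 * (g1 * gj)) * w1 + ((g1 * g2 * gi) * O3) * x1) +
    g3 * (((xx * (g1 * g2 * (gi * gj))) * v0 + ((O1 + yy) * (g1 * g2 * gj)) * w0) +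
      (((g1 * g2 * gi) * (O2 + zz)) * x0 + (q * (g1 * g2 * (gi * gj))) * D.up n i j))

lemma w2_get {f : ℕ → ℕ} {a k V p g r : ℕ} (hV : V = p64 (fun q => f (a + q)) k)
    (hf : ∀ q, f q < 2 ^ 64) (h1 : a ≤ p) (h2 : p + 1 < a + k ∨ (p < a + k ∧ r = 0)) :
    w2 V (Nat.sub p a) g r = mix g r (f p) (f (p + 1)) := by
  unfold w2
  rw [mix_eq, hV, sub_eq']
  have e1 : w64 (p64 (fun q => f (a + q)) k) (p - a) = f p := get_p64 hf h1 (by omega)
  change (g - r) * w64 (p64 (fun q => f (a + q)) k) (p - a) +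
    r * w64 (p64 (fun q => f (a + q)) k) (p - a + 1) = _
  rw [e1]
  rcases h2 with h2 | ⟨_, h2⟩
  · have e2 : w64 (p64 (fun q => f (a + q)) k) (p + 1 - a) = f (p + 1) :=
      get_p64 hf (by omega) h2
    rw [show p - a + 1 = p + 1 - a by omega, e2]
  · rw [h2, zero_mul, zero_mul]

theorem drN_of {n : ℕ} {d vE : ℕ} (hgeo : D.Geo d vE) (hbd : D.Bd n)
    (hbd' : D.Bd (D.nx n)) (hb : D.b n ≤ D.b (n + 1)) (hb' : D.b (D.nx n) ≤ D.b (n + 1))
    {i : ℕ} (h : D.cDi n i = true) : ∀ j l, D.b (n + 1) ≤ i → i ≤ D.K1 → D.b (n + 1) ≤ j →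
      j ≤ D.K2 → D.b (n + 1) ≤ l → l ≤ D.K3 → i ≤ j + 1 → j ≤ l + 1 → i ≤ l + 1 →
      D.DrN n (D.nx n) i j l := by
  intro j l hi hi' hj hj' hl hl' hij hjl hil
  have h12 := hgeo.h12
  have h23 := hgeo.h23
  have G9 : ∀ k ≤ D.K2, D.g k < 2 ^ 9 := fun k hk => g_lt hgeo.gb hk
  unfold cDi at h
  have h1 := fa_sound h j (by
    rw [mx_eq]
    have : Nat.pred i = i - 1 := rfl
    have e : D.b (Nat.succ n) = D.b (n + 1) := rfl
    rw [e]
    omega) (Nat.lt_succ_of_le hj')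
  unfold cDr cDg at h1
  have h2 := fa_sound h1 l (by
    rw [mx_eq, mx_eq]
    have e1 : Nat.pred i = i - 1 := rfl
    have e2 : Nat.pred j = j - 1 := rfl
    have e : D.b (Nat.succ n) = D.b (n + 1) := rfl
    rw [e]
    omega) (Nat.lt_succ_of_le hl')
  unfold cDl cDv at h2
  have h3 := Nat.le_of_ble_eq_true h2
  set a := D.b (n + 1) with ha
  set k := Nat.sub (Nat.succ D.K3) a with hk
  have hk' : k = D.K3 + 1 - a := rfl
  -- positions
  have P1 : D.g (fl D.vp1 i) < 2 ^ 9 ∧ fl D.vr1 i ≤ D.g (fl D.vp1 i) := by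
    rcases hgeo.p1 i hi' with ⟨p, q, -⟩ | ⟨p, q, -⟩
    · exact ⟨G9 _ (by omega), q⟩
    · exact ⟨G9 _ (by omega), by omega⟩
  have P2 : D.g (fl D.vp2 j) < 2 ^ 9 ∧ fl D.vr2 j ≤ D.g (fl D.vp2 j) := by
    rcases hgeo.p2 j hj' with ⟨p, q, -⟩ | ⟨p, q, -⟩
    · exact ⟨G9 _ (by omega), q⟩
    · exact ⟨G9 _ (by omega), by omega⟩
  have hxm : ∀ p r, r ≤ D.g p → p < D.K3 → D.x l + D.m = D.x p + r → 1 ≤ D.m → l ≤ p := by
    intro p r hr hp hx hm1
    by_contra hcon
    have h5 : ∀ q, q ≤ D.K3 → ∀ s, s ≤ q → D.x s ≤ D.x q := by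
      intro q hq s hs
      induction q, hs using Nat.le_induction with
      | base => exact le_rfl
      | succ q hq' ih =>
        have := hgeo.gap q (by omega)
        have := ih (by omega)
        omega
    have h6 := hgeo.gap p hp
    have h7 := h5 l hl' (p + 1) (by omega)
    omega
  have hp3 : a ≤ fl D.vp3 l ∧
      (fl D.vp3 l + 1 < a + k ∨ (fl D.vp3 l < a + k ∧ fl D.vr3 l = 0)) := by
    rcases hgeo.p3 l hl' with ⟨p, q, r⟩ | ⟨p, q, r⟩
    · rcases Nat.eq_zero_or_pos D.m with hm0 | hm0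
      · have h5 := hgeo.c1
        -- the step is zero: the cell contains the node itself
        have hle : l ≤ fl D.vp3 l ∨ (fl D.vp3 l + 1 = l ∧ fl D.vr3 l = D.g (fl D.vp3 l)) := by
          by_cases hc : l ≤ fl D.vp3 l
          · exact Or.inl hc
          · right
            have h5 : ∀ q, q ≤ D.K3 → ∀ s, s < q → D.x s < D.x q := by
              intro q hq s hs
              induction q, hs using Nat.le_induction with
              | base =>
                have := hgeo.gap s (by omega)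
                have := hgeo.gpos s (by omega)
                simp only [Nat.succ_eq_add_one]
                omega
              | succ q hq' ih =>
                have := hgeo.gap q (by omega)
                have := hgeo.gpos q (by omega)
                have := ih (by omega)
                omega
            have h6 := hgeo.gap (fl D.vp3 l) p
            by_cases h7 : fl D.vp3 l + 1 = l
            · refine ⟨h7, ?_⟩
              rw [h7] at h6
              omega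
            · have := h5 l hl' (fl D.vp3 l + 1) (by omega)
              omega
        exact absurd hm0 (by have := hgeo.m0; omega)
      · have := hxm _ _ q p r hm0
        exact ⟨by omega, Or.inl (by omega)⟩
    · exact ⟨by omega, Or.inr ⟨by omega, q⟩⟩
  have og : ∀ K i, i ≤ D.K3 → o K i ≤ D.g i := fun K i hi => o_le fun _ => hgeo.gpos i hi
  have o1 : o D.K1 i ≤ D.g i := og _ _ (by omega)
  have o2 : o D.K2 j ≤ D.g j := og _ _ (by omega)
  have gi9 := G9 i (by omega)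
  have gj9 := G9 j hj'
  -- the vectors
  have vV : mix (D.g (fl D.vp2 j)) (fl D.vr2 j)
      (D.hm (D.nx n) a k (fl D.vp1 i) (fl D.vr1 i) (fl D.vp2 j))
      (D.hm (D.nx n) a k (fl D.vp1 i) (fl D.vr1 i) (Nat.succ (fl D.vp2 j))) =
      p64 (fun q => D.V1t (D.nx n) i j (a + q)) k := by
    rw [hm_eq hb', hm_eq hb', mix_p64]
    rfl
  have vW : mix (D.g (fl D.vp2 j)) (fl D.vr2 j) (D.h1 n a k i (fl D.vp2 j))
      (D.h1 n a k i (Nat.succ (fl D.vp2 j))) =
      p64 (fun q => D.W1t n i j (a + q)) k := by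
    rw [h1_eq hb, h1_eq hb, mix_p64]
    rfl
  have hV64 : ∀ q, D.V1t (D.nx n) i j q < 2 ^ 64 := fun q =>
    lt_up (mix_lt P2.1 P2.2 (hmt_lt hbd' P1.1 P1.2) (hmt_lt hbd' P1.1 P1.2)) (by norm_num)
  have hW64 : ∀ q, D.W1t n i j q < 2 ^ 64 := fun q =>
    lt_up (mix_lt P2.1 P2.2 (h1t_lt hbd gi9 o1) (h1t_lt hbd gi9 o1)) (by norm_num)
  have h264 : ∀ q, D.h2t n i j q < 2 ^ 64 := fun q => lt_up (h2t_lt hbd gj9 o2) (by norm_num)
  have h164 : ∀ q, D.h1t n i j q < 2 ^ 64 := fun q => lt_up (h1t_lt hbd gi9 o1) (by norm_num)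
  have ht64 : ∀ n i j, D.Bd n → ∀ q, D.t n i j q < 2 ^ 64 := fun n i j hb q =>
    lt_up (hb _ _ _) (by norm_num)
  rw [w2_get vV hV64 hp3.1 hp3.2, w2_get vW hW64 hp3.1 hp3.2,
    w2_get (h2_eq hb _ _ _) h264 hp3.1 hp3.2, h2_eq hb, h1_eq hb, rk_eq hb, rk_eq hb', sub_eq',
    get_p64 h264 hl (by omega), get_p64 h164 hl (by omega),
    get_p64 (ht64 _ _ _ hbd) hl (by omega), get_p64 (ht64 _ _ _ hbd') hl (by omega)] at h3
  exact h3

end Dat

end Pool.Agent.Lib.MP_67d80e_pr_g3
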