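import Pool.Agent.Lib.MP_67d80e_pr_g3.Glue

/-!
The drift inequality at all states, the state inequality, and the lower bound.
-/

set_option autoImplicit false

open scoped BigOperators
open Finset
open Pool.Agent.Lib.MP_67d80e_pr
open Pool.Agent.Lib.MP_67d80e_pr_all

namespace Pool.Agent.Lib.MP_67d80e_pr_g3

namespace GD.Ok

variable {A : GD} {c ε : ℝ} (h : A.Ok c ε)
include h

lemma U_mono {n : ℕ} (h1 : 1 ≤ n) (h2 : n ≤ A.N0) {e : ℝ} (he : e = 0 ∨ e = A.E n)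
    {x x' y y' : ℝ} (hx : x ≤ x') (hy : y ≤ y') :
    A.U n e x y - cst A.m A.N0 A.η A.E n e x ≤ A.U n e x' y' - cst A.m A.N0 A.η A.E n e x' := by
  have hE := h.hE n h1 h2
  have hA := h.hnm n h1 h2
  have hn : (0 : ℝ) ≤ n := Nat.cast_nonneg _
  have e0 : (0 : ℝ) ≤ A.E n := Nat.cast_nonneg _
  refine topU_mono (h := A.f 1) ?_ ?_ hA (fun a x x' y y' p q =>
    h.lay1.mono a a x x' y y' le_rfl p q) hx hy
  · rcases he with rfl | rfl
    · exact le_rfl
    · exact e0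
  · rcases he with rfl | rfl
    · rw [mul_zero]
      exact mul_nonneg hn (sub_nonneg.2 hA)
    · exact hE

lemma capF {n : ℕ} (h1 : 1 ≤ n) (h2 : n ≤ A.N0) {x y z : ℝ} (hx : A.G A.K1 ≤ x)
    (hy : A.G A.K1 ≤ y) (hz : A.G A.K1 ≤ z) : A.f n x y z = A.T n A.K1 A.K1 A.K1 := by
  have hb := h.bK n (by omega)
  have g1 : A.G (A.b n) ≤ A.G A.K1 := h.gm (by omega)
  have g2 : A.G (A.K1 - 1) ≤ A.G A.K1 := h.gm (by omega)
  rw [f_eq (g1.trans hx) (g1.trans hy) (g1.trans hz)]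
  exact capX_const h.hgr (h.tab n h1 h2) (h.cap n h1 h2) h.h12 h.h23 hx (g2.trans hy) (g2.trans hz)

lemma capFY {n : ℕ} (h1 : 1 ≤ n) (h2 : n ≤ A.N0) {x y z : ℝ} (hx : A.G (A.b n) ≤ x)
    (hy : A.G A.K2 ≤ y) (hz : A.G A.K2 ≤ z) : A.f n x y z = A.f n x (A.G A.K2) (A.G A.K2) := by
  have hb := h.bK n (by omega)
  have h12 := h.h12
  have h23 := h.h23
  have g1 : A.G (A.b n) ≤ A.G A.K2 := h.gm (by omega)
  have g2 : A.G (A.K2 - 1) ≤ A.G A.K2 := h.gm (by omega)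
  have key : ∀ v w : ℝ, A.G A.K2 ≤ v → A.G A.K2 ≤ w → A.f n x v w =
      e2 A.G A.K1 A.K2 (fun i _ => A.T n i A.K2 A.K2) x (A.G A.K2) := by
    intro v w hv hw
    rw [f_eq hx (g1.trans hv) (g1.trans hw), F3_indZ h.hgr (a := A.b n) (b := A.K2)
      (c := A.K2 - 1) (K1 := A.K1) (K2 := A.K2) (K3 := A.K3) (by omega) le_rfl (by omega)
      (v := fun i _ => A.T n i A.K2 A.K2) (fun i j l p q r s t u => by
        have : j = A.K2 := le_antisymm s r
        rw [this]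
        exact (h.cap n h1 h2).c2 i l p q t u) hx hv (g2.trans hw)]
    unfold e2
    simp only [hat_const]
  rw [key y z hy hz, key _ _ le_rfl le_rfl]

lemma capFZ {n : ℕ} (h2 : n ≤ A.N0) {x y z : ℝ} (hz : A.G A.K3 ≤ z) :
    A.f n x y z = A.f n x y (A.G A.K3) := by
  have hb := h.bK n (by omega)
  have h12 := h.h12
  have h23 := h.h23
  have g1 : A.G (A.b n) ≤ A.G A.K3 := h.gm (by omega)
  unfold GD.f lay
  rw [max_eq_left (g1.trans hz), max_eq_left g1]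
  exact F3_capZ h.hgr _ hz

/-- the drift inequality everywhere, at the two values of the number of edges -/
theorem every {n : ℕ} (h1 : 1 ≤ n) (h2 : n ≤ A.N0) {e : ℝ} (he : e = 0 ∨ e = A.E n)
    {x y z : ℕ} (hx : A.F n ≤ x) (hxy : x ≤ y) (hyz : y ≤ z) : c ≤ A.D n e x y z := by
  have hb := h.bK1 h2
  have h12 := h.h12
  have h23 := h.h23
  have gm := h.gm
  have gmn := h.gmn
  have hm0 : (0 : ℝ) ≤ A.m := Nat.cast_nonneg _
  have hFa := h.hF n h1 h2
  have xy : (x : ℝ) ≤ y := by exact_mod_cast hxy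
  have yz : (y : ℝ) ≤ z := by exact_mod_cast hyz
  have g1 : 1 ≤ A.nx n := h.nx_pos h1
  have g2 : A.nx n ≤ A.N0 := nx_le n
  have xa : A.G (A.b (n + 1)) ≤ (x : ℝ) := by
    unfold GD.G
    exact_mod_cast hFa.1.trans hx
  rcases le_or_gt (A.Gn A.K1) x with c1 | c1
  · -- above the first cap
    have hx1 : A.G A.K1 ≤ (x : ℝ) := by
      unfold GD.G
      exact_mod_cast c1
    have key := h.inbox h1 h2 he (x := A.Gn A.K1) (y := A.Gn A.K1) (z := A.Gn A.K1) hFa.2 le_rfl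
      le_rfl le_rfl (gmn h12) (gmn (h12.trans h23))
    refine key.trans ?_
    unfold GD.D
    have hf : ∀ x y z : ℝ, A.G A.K1 ≤ x → A.G A.K1 ≤ y → A.G A.K1 ≤ z →
        A.f n x y z = A.T n A.K1 A.K1 A.K1 := fun x y z p q r => h.capF h1 h2 p q r
    have hg : ∀ x y z : ℝ, A.G A.K1 ≤ x → A.G A.K1 ≤ y → A.G A.K1 ≤ z →
        A.f (A.nx n) x y z = A.T (A.nx n) A.K1 A.K1 A.K1 := fun x y z p q r => h.capF g1 g2 p q r
    refine dr_capX (m := (A.m : ℝ)) (n := (n : ℝ)) (C1 := A.G A.K1) (κ := A.T n A.K1 A.K1 A.K1)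
      (κ' := A.T (A.nx n) A.K1 A.K1 A.K1) (f := A.f n) (g := A.f (A.nx n)) (U := A.U n e)
      (O := A.Oh n) (x := (x : ℝ)) (y := (y : ℝ)) (z := (z : ℝ)) hm0 hf hg hx1 xy yz ?_
    have hU := h.U_mono h1 h2 he (x := A.G A.K1) (x' := x) (y := A.G A.K1) (y' := y) hx1
      (hx1.trans xy)
    have hcst : cst A.m A.N0 A.η A.E n e (A.G A.K1) - cst A.m A.N0 A.η A.E n e x ≤
        (x - A.G A.K1) * (A.T (A.nx n) A.K1 A.K1 A.K1 - A.T n A.K1 A.K1 A.K1) := by
      have hx0 : 0 ≤ (x : ℝ) - A.G A.K1 := sub_nonneg.2 hx1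
      rcases h2.lt_or_eq with h3 | h3
      · have hnx : A.nx n = n + 1 := min_eq_left (by omega)
        have hc := h.capE n h1 h3 e he
        rw [hnx]
        unfold cst
        rw [if_pos h3, if_pos h3]
        have := mul_nonneg hx0 hc
        linarith
      · have hnx : A.nx n = n := by
          unfold GD.nx
          omega
        rw [hnx, sub_self, mul_zero]
        unfold cst
        rw [if_neg (by omega), if_neg (by omega), sub_self]
    linarith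
  have hxK2 : x ≤ A.Gn A.K2 := c1.le.trans (gmn h12)
  rcases le_or_gt (A.Gn A.K2) y with c2 | c2
  · -- above the second cap
    have hy1 : A.G A.K2 ≤ (y : ℝ) := by
      unfold GD.G
      exact_mod_cast c2
    have key := h.inbox h1 h2 he (x := x) (y := A.Gn A.K2) (z := A.Gn A.K2) hx hxK2
      le_rfl c1.le le_rfl (gmn h23)
    refine key.trans ?_
    unfold GD.D
    have hf : ∀ x y z : ℝ, A.G (A.b (n + 1)) ≤ x → A.G A.K2 ≤ y → A.G A.K2 ≤ z →
        A.f n x y z = A.f n x (A.G A.K2) (A.G A.K2) :=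
      fun x y z p q r => h.capFY h1 h2 ((gm (h.bm n h1 h2)).trans p) q r
    have hg : ∀ x y z : ℝ, A.G (A.b (n + 1)) ≤ x → A.G A.K2 ≤ y → A.G A.K2 ≤ z →
        A.f (A.nx n) x y z = A.f (A.nx n) x (A.G A.K2) (A.G A.K2) :=
      fun x y z p q r => h.capFY g1 g2 ((gm (h.bnx h1 h2)).trans p) q r
    have hmo : ∀ x y z : ℝ, A.f n x y z ≤ A.f n (x + 1) y z :=
      fun x y z => (h.layOk h1 h2).mono _ _ _ _ _ _ (by linarith) le_rfl le_rfl
    refine dr_capY (m := (A.m : ℝ)) (n := (n : ℝ)) (L := A.G (A.b (n + 1))) (C2 := A.G A.K2)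
      (f := A.f n) (g := A.f (A.nx n)) (U := A.U n e) (O := A.Oh n) (x := (x : ℝ)) (y := (y : ℝ))
      (z := (z : ℝ)) hm0 hf hg hmo xa hy1 yz ?_
    have hU := h.U_mono h1 h2 he (x := x) (x' := x) (y := A.G A.K2) (y' := y) le_rfl hy1
    linarith
  rcases le_or_gt (A.Gn A.K3) z with c3 | c3
  · -- above the third cap
    have hz1 : A.G A.K3 ≤ (z : ℝ) := by
      unfold GD.G
      exact_mod_cast c3
    have key := h.inbox h1 h2 he (x := x) (y := y) (z := A.Gn A.K3) hx hxy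
      (c2.le.trans (gmn h23)) c1.le c2.le le_rfl
    refine key.trans ?_
    unfold GD.D
    have hf : ∀ x y z : ℝ, A.G A.K3 ≤ z → A.f n x y z = A.f n x y (A.G A.K3) :=
      fun x y z p => h.capFZ h2 p
    have hg : ∀ x y z : ℝ, A.G A.K3 ≤ z →
        A.f (A.nx n) x y z = A.f (A.nx n) x y (A.G A.K3) := fun x y z p => h.capFZ g2 p
    have hO : ∀ z : ℝ, A.G A.K3 ≤ z → A.Oh n z = A.Oh n (A.G A.K3) := fun z p => by
      unfold GD.Oh
      rw [hat_cap h.hgr _ _ p, hat_cap h.hgr _ _ le_rfl]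
    have hmo : ∀ x y z : ℝ, A.f n x y z ≤ A.f n x (y + 1) z :=
      fun x y z => (h.layOk h1 h2).mono _ _ _ _ _ _ le_rfl (by linarith) le_rfl
    exact dr_capZ (m := (A.m : ℝ)) (n := (n : ℝ)) (C3 := A.G A.K3) (f := A.f n)
      (g := A.f (A.nx n)) (U := A.U n e) (O := A.Oh n) (x := (x : ℝ)) (y := (y : ℝ))
      (z := (z : ℝ)) hm0 hf hg hO hmo hz1
  · exact h.inbox h1 h2 he hx hxy hyz c1.le c2.le c3.le

/-- the drift inequality everywhere -/
theorem all {n e : ℕ} (h1 : 1 ≤ n) (h2 : n ≤ A.N0) (he : e ≤ A.E n)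
    {x y z : ℕ} (hx : A.F n ≤ x) (hxy : x ≤ y) (hyz : y ≤ z) : c ≤ A.D n e x y z := by
  have a0 := h.every h1 h2 (Or.inl rfl) hx hxy hyz
  have a1 := h.every h1 h2 (Or.inr rfl) hx hxy hyz
  rcases (Nat.zero_le (A.E n)).eq_or_lt with h0 | h0
  · have : e = 0 := by omega
    rw [this]
    exact_mod_cast a0
  · have hE : (0 : ℝ) < A.E n := by exact_mod_cast h0
    have he' : (e : ℝ) ≤ A.E n := by exact_mod_cast he
    set t : ℝ := e / A.E n with ht
    have t0 : 0 ≤ t := by positivity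
    have t1 : t ≤ 1 := by rw [ht, div_le_one hE]; exact he'
    have e1 : (e : ℝ) = (1 - t) * 0 + t * A.E n := by
      rw [ht]
      field_simp
      ring
    have key : A.D n e x y z = (1 - t) * A.D n 0 x y z + t * A.D n (A.E n) x y z := by
      unfold GD.D dr drift GD.U
      rw [e1, topU_affine]
      ring
    rw [key]
    nlinarith

/-- the function of the state -/
lemma stateOk {Adm : ℕ → ℕ → ℕ → Prop} {n0 e0 n1 n2 n3 : ℕ} (h1 : 1 ≤ n0) (h2 : n0 ≤ A.N0)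
    (he : e0 ≤ A.E n0) (hF : A.F n0 ≤ n1) (h12 : n1 ≤ n2) (h23 : n2 ≤ n3) :
    StateOk0 A.m A.N0 Adm (fun t _ n => A.Oh t n) (phi5 A.N0 A.f A.η A.E) c n0 e0 n1 n2 n3 := by
  have hb := h.bK1 h2
  have k12 := h.h12
  have k23 := h.h23
  have gm := h.gm
  have hn1 : A.Gn (A.b (n0 + 1)) ≤ n1 := (h.hF n0 h1 h2).1.trans hF
  have xa : A.G (A.b (n0 + 1)) ≤ (n1 : ℝ) := by
    unfold GD.G
    exact_mod_cast hn1
  have xy : (n1 : ℝ) ≤ n2 := by exact_mod_cast h12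
  have yz : (n2 : ℝ) ≤ n3 := by exact_mod_cast h23
  have ya := xa.trans xy
  have za := ya.trans yz
  have hm0 : (0 : ℝ) ≤ A.m := Nat.cast_nonneg _
  have g1 : 1 ≤ A.nx n0 := h.nx_pos h1
  have g2 : A.nx n0 ≤ A.N0 := nx_le n0
  have hnxt : Nxt (A.G (A.b (n0 + 1))) (A.f n0) (A.f (A.nx n0)) := by
    rcases h2.lt_or_eq with h3 | h3
    · have hnx : A.nx n0 = n0 + 1 := min_eq_left (by omega)
      rw [hnx]
      exact (h.nxt n0 h1 h3).nxt h.hgr (by omega) (by omega) (by omega) (h.bm n0 h1 h2) le_rfl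
    · have hnx : A.nx n0 = n0 := by
        unfold GD.nx
        omega
      rw [hnx]
      exact Nxt.rfl' _ _
  have s1 : StepOk A.Gn A.m (A.b (n0 + 1)) A.K1 A.c1 A.d1 :=
    ⟨fun j _ => h.st1.cell j (Nat.zero_le _), fun j _ => h.st1.node j (Nat.zero_le _)⟩
  have s2 : StepOk A.Gn A.m (A.b (n0 + 1)) A.K2 A.c2 A.d2 :=
    ⟨fun j _ => h.st2.cell j (Nat.zero_le _), fun j _ => h.st2.node j (Nat.zero_le _)⟩
  have s3 : StepOk A.Gn A.m (A.b (n0 + 1)) A.K3 A.c3 A.d3 :=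
    ⟨fun j _ => h.st3.cell j (Nat.zero_le _), fun j _ => h.st3.node j (Nat.zero_le _)⟩
  refine stateOk0_of_drift (L := A.G (A.b (n0 + 1))) h.hm h.lay1 (h.layOk' h1 h2)
    (h.layNx h1 h2) hnxt h.eta (O := fun t n => A.Oh t n) h1 h2 xa h12 h23 he ?_ ?_ ?_
  · rw [h.f_eq' h1 h2 xa (by linarith) (by linarith), h.f_eq' h1 h2 xa (by linarith) za,
      h.f_eq' h1 h2 (by linarith) (by linarith) (by linarith),
      h.f_eq' h1 h2 (by linarith) ya za]
    exact pos2 (fun i => rfl) h.hG h.hm (h.tab n0 h1 h2) (h.cap n0 h1 h2) (h.bm n0 h1 h2)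
      (by omega) k12 k23 s2 s3 (h.B2 n0 h1 h2) hn1 h12 h23
  · change _ ≤ A.f (A.nx n0) (n1 + A.m) (n2 + A.m) (n3 + A.m) - A.f (A.nx n0) n1 n2 n3
    rw [h.f_eq' h1 h2 (by linarith) (by linarith) (by linarith),
      h.f_eq' h1 h2 (by linarith) ya za,
      h.g_eq h1 h2 (by linarith) (by linarith) (by linarith), h.g_eq h1 h2 xa ya za]
    exact pos1 (fun i => rfl) h.hG h.hm (h.tab n0 h1 h2) (h.cap n0 h1 h2) (h.tab _ g1 g2)
      (h.bm n0 h1 h2) (h.bnx h1 h2) (by omega) k12 k23 s1 s2 s3 (h.B1 n0 h1 h2) hn1 h12 h23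
  · exact h.all h1 h2 he hF h12 h23

lemma bdd : ∃ B : ℝ, ∀ n0 e0 n1 n2 n3, |phi5 A.N0 A.f A.η A.E n0 e0 n1 n2 n3| ≤ B := by
  -- bounds of the layers
  have hlay : ∀ n ≤ A.N0, ∃ S : ℝ, 0 ≤ S ∧ ∀ x y z, |A.f n x y z| ≤ S := by
    intro n hn
    have hb := h.bK n (by omega)
    have h12 := h.h12
    have h23 := h.h23
    set S : ℝ := ∑ i ∈ range (A.K1 + 1), ∑ j ∈ range (A.K2 + 1), ∑ l ∈ range (A.K3 + 1),
      |A.T n i j l| with hS
    have hTS : ∀ i j l, i ≤ A.K1 → j ≤ A.K2 → l ≤ A.K3 → |A.T n i j l| ≤ S := by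
      intro i j l hi hj hl
      have s1 : |A.T n i j l| ≤ ∑ l ∈ range (A.K3 + 1), |A.T n i j l| :=
        Finset.single_le_sum (f := fun l => |A.T n i j l|) (fun _ _ => abs_nonneg _)
          (Finset.mem_range.2 (by omega))
      have s2 : ∑ l ∈ range (A.K3 + 1), |A.T n i j l| ≤
          ∑ j ∈ range (A.K2 + 1), ∑ l ∈ range (A.K3 + 1), |A.T n i j l| :=
        Finset.single_le_sum (f := fun j => ∑ l ∈ range (A.K3 + 1), |A.T n i j l|)
          (fun _ _ => Finset.sum_nonneg fun _ _ => abs_nonneg _) (Finset.mem_range.2 (by omega))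
      have s3 : ∑ j ∈ range (A.K2 + 1), ∑ l ∈ range (A.K3 + 1), |A.T n i j l| ≤ S :=
        Finset.single_le_sum
          (f := fun i => ∑ j ∈ range (A.K2 + 1), ∑ l ∈ range (A.K3 + 1), |A.T n i j l|)
          (fun _ _ => Finset.sum_nonneg fun _ _ => Finset.sum_nonneg fun _ _ => abs_nonneg _)
          (Finset.mem_range.2 (by omega))
      exact s1.trans (s2.trans s3)
    refine ⟨S, Finset.sum_nonneg fun _ _ => Finset.sum_nonneg fun _ _ =>
      Finset.sum_nonneg fun _ _ => abs_nonneg _, fun x y z => ?_⟩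
    have hc : ∀ s x y z : ℝ, F3 A.G A.K1 A.K2 A.K3 (fun _ _ _ => s) x y z = s := by
      intro s x y z
      unfold F3 e2
      simp only [hat_const]
    unfold GD.f lay
    rw [abs_le]
    constructor
    · rw [← hc (-S)]
      exact F3_le h.hgr (b := A.b n) (by omega) (by omega) (by omega)
        (fun i j l _ p _ q _ r => (abs_le.1 (hTS i j l p q r)).1) (le_max_right _ _)
        (le_max_right _ _) (le_max_right _ _)
    · conv_rhs => rw [← hc S (max x (A.G (A.b n))) (max y (A.G (A.b n))) (max z (A.G (A.b n)))]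
      exact F3_le h.hgr (b := A.b n) (by omega) (by omega) (by omega)
        (fun i j l _ p _ q _ r => (abs_le.1 (hTS i j l p q r)).2) (le_max_right _ _)
        (le_max_right _ _) (le_max_right _ _)
  choose! S hS0 hS using hlay
  refine ⟨∑ n ∈ range (A.N0 + 1), (S n + A.η n * A.E n), fun n0 e0 n1 n2 n3 => ?_⟩
  have hterm : ∀ n ∈ range (A.N0 + 1), 0 ≤ S n + A.η n * A.E n := fun n hn =>
    add_nonneg (hS0 n (by rw [Finset.mem_range] at hn; omega))
      (mul_nonneg (h.eta n) (Nat.cast_nonneg _))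
  unfold phi5
  split_ifs with h0
  · refine le_trans ?_ (Finset.single_le_sum hterm (Finset.mem_range.2 (show n0 < A.N0 + 1 by omega)))
    refine (abs_add_le _ _).trans (add_le_add (hS n0 h0 _ _ _) ?_)
    have k1 : (0 : ℝ) ≤ (min e0 (A.E n0) : ℕ) := Nat.cast_nonneg _
    have k2 : ((min e0 (A.E n0) : ℕ) : ℝ) ≤ A.E n0 := by exact_mod_cast min_le_right _ _
    rw [abs_of_nonneg (mul_nonneg (h.eta _) (by linarith))]
    exact mul_le_mul_of_nonneg_left (by linarith) (h.eta _)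
  · rw [abs_zero]
    exact Finset.sum_nonneg hterm

end GD.Ok

/-- the lower bound from the conditions at the nodes -/
theorem hasLB_of_grid {d : ℕ} {A : GD} {c ε : ℝ} (h : A.Ok c ε) (hd : A.m = 2 * d)
    (hO : ∀ T D : Finset (Site d), T.Nonempty → T ⊆ D → (∀ x ∈ T, nbrs x ⊆ D) →
      T.card ≤ A.N0 → A.Oh T.card D.card ≤ outE D)
    (hFE : ∀ T D : Finset (Site d), T.Nonempty → T ⊆ D → (∀ x ∈ T, nbrs x ⊆ D) →
      T.card ≤ A.N0 → A.F T.card ≤ D.card ∧ eE T ≤ A.E T.card) : HasLB d c := by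
  refine hasLB_of_states0 (N0 := A.N0) (phi := phi5 A.N0 A.f A.η A.E)
    (O1 := fun t _ n => if t ≤ A.N0 then A.Oh t n else 0)
    (Adm := fun t e n => t ≤ A.N0 → A.F t ≤ n ∧ e ≤ A.E t) h.hN0 h.bdd ?_ ?_ ?_
  · intro T D hT hTD hn
    dsimp only
    split_ifs with ht
    · exact hO T D hT hTD hn ht
    · exact Nat.cast_nonneg _
  · intro T D hT hTD hn ht
    exact hFE T D hT hTD hn ht
  · intro n0 e0 n1 n2 n3 h1 h2 h01 h12 h23 a1 a2 a3
    have key := h.stateOk (Adm := fun t e n => t ≤ A.N0 → A.F t ≤ n ∧ e ≤ A.E t)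
      h1 h2 (a1 h2).2 (a1 h2).1 h12 h23
    rw [← hd]
    obtain ⟨θ, A0, A1, A2, A3, b0, aa, b1, b2, b3, hθ0, hθ1, pb1, pb2, pb3, q0, q1, q2, q3, hc⟩ :=
      key
    refine ⟨θ, A0, A1, A2, A3, b0, aa, b1, b2, b3, hθ0, hθ1, pb1, pb2, pb3, q0, q1, q2, q3, ?_⟩
    simp only [if_pos h2]
    exact hc

end Pool.Agent.Lib.MP_67d80e_pr_g3
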