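import Pool.Agent.Lib.MP_67d80e_pr_g3.ChU
import Pool.Agent.Lib.MP_67d80e_pr_g3.Fin

/-!
The drift at the nodes from the check, and the lower bound from all checks.
-/

set_option autoImplicit false

open scoped BigOperators
open Finset
open Pool.Agent.Lib.MP_67d80e_pr Pool.Agent.Lib.MP_67d80e_pr_all

namespace Pool.Agent.Lib.MP_67d80e_pr_g3

/-- the drift, all values as quotients -/
lemma drift_ge {m Q S C H up un n x y z g1 g2 g3 gi gj R1 R2 R3 v0 v1 w0 w1 x0 x1 t0 U : ℝ}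
    (hm : 0 < m) (hQ : 0 < Q) (hS : 0 < S) (h1 : 0 < g1) (h2 : 0 < g2) (h3 : 0 < g3)
    (hi : 0 < gi) (hj : 0 < gj) (hU : up - un ≤ S * U - (C + H))
    (h : (R1 * (g1 * gj)) * w1 + ((g1 * g2 * gi) * R2) * x1 +
      g3 * ((((R1 + m * Q * n) * (g1 * g2 * (gi * gj))) * v0 +
        ((m * Q * x + R2) * (g1 * g2 * gj)) * w0) +
        ((((g1 * g2 * gi) * (m * Q * y + R3)) * x0 + ((m * Q * (g1 * g2 * (gi * gj))) * z) * t0) +
          (m * Q * (g1 * g2 * (gi * gj))) * un)) ≤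
      (R1 * (gi * gj)) * v1 + ((R2 * (g1 * gj)) * w1 + ((g1 * g2 * gi) * R3) * x1) +
        g3 * (((m * Q * x * (g1 * g2 * (gi * gj))) * v0 +
          ((R1 + m * Q * y) * (g1 * g2 * gj)) * w0) +
          (((g1 * g2 * gi) * (R2 + m * Q * z)) * x0 + (m * Q * (g1 * g2 * (gi * gj))) * up))) :
    C / S + H / S ≤ drift m U (R1 / Q) (R2 / Q) (R3 / Q) (v0 / S) (v1 / (g1 * g2 * g3 * S))
      (w0 / (gi * S)) (w1 / (gi * g2 * g3 * S)) (x0 / (gj * S)) (x1 / (gj * g3 * S)) (t0 / S)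
      n x y z := by
  have hP : 0 < m * Q * (g1 * g2 * (gi * gj)) * g3 * S := by positivity
  refine le_of_mul_le_mul_left ?_ hP
  have e1 : m * Q * (g1 * g2 * (gi * gj)) * g3 * S * (C / S + H / S) =
      m * Q * (g1 * g2 * (gi * gj)) * g3 * (C + H) := by
    field_simp
  have e2 : m * Q * (g1 * g2 * (gi * gj)) * g3 * S *
      drift m U (R1 / Q) (R2 / Q) (R3 / Q) (v0 / S) (v1 / (g1 * g2 * g3 * S))
      (w0 / (gi * S)) (w1 / (gi * g2 * g3 * S)) (x0 / (gj * S)) (x1 / (gj * g3 * S)) (t0 / S)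
      n x y z =
      m * Q * (g1 * g2 * (gi * gj)) * g3 * (S * U) +
      (((R1 * (gi * gj)) * v1 + ((R2 * (g1 * gj)) * w1 + ((g1 * g2 * gi) * R3) * x1) +
        g3 * (((m * Q * x * (g1 * g2 * (gi * gj))) * v0 +
          ((R1 + m * Q * y) * (g1 * g2 * gj)) * w0) +
          (((g1 * g2 * gi) * (R2 + m * Q * z)) * x0))) -
      ((R1 * (g1 * gj)) * w1 + ((g1 * g2 * gi) * R2) * x1 +
      g3 * ((((R1 + m * Q * n) * (g1 * g2 * (gi * gj))) * v0 +
        ((m * Q * x + R2) * (g1 * g2 * gj)) * w0) +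
        ((((g1 * g2 * gi) * (m * Q * y + R3)) * x0 +
          ((m * Q * (g1 * g2 * (gi * gj))) * z) * t0))))) := by
    unfold drift
    field_simp
    ring
  rw [e1, e2]
  have h4 : 0 ≤ m * Q * (g1 * g2 * (gi * gj)) * g3 := by positivity
  have h5 := mul_le_mul_of_nonneg_left hU h4
  linarith

namespace Dat

variable {D : Dat}

lemma mix_zero (g a b : ℕ) : mix g 0 a b = g * a := by
  rw [mix_eq, Nat.sub_zero, zero_mul, add_zero]

lemma mix_mul (c g r a b : ℕ) : mix g r (c * a) (c * b) = c * mix g r a b := by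
  rw [mix_eq, mix_eq]
  ring

namespace AllOk

variable {d vE vF : ℕ} (h : D.AllOk d vE vF)
include h

lemma gmo : Monotone (D.toGD vF).G := (g_mono h.hgr).monotone

lemma m_pos : (0 : ℝ) < D.m := by exact_mod_cast h.geo.m0

lemma Q_pos : (0 : ℝ) < D.Q := by exact_mod_cast h.row.Q_pos

/-- the drift at a node -/
lemma cor {n : ℕ} (h1 : 1 ≤ n) (h2 : n ≤ D.N0) {e : ℝ} (he : e = 0 ∨ e = D.E n) {i j l : ℕ}
    (hi : D.b (n + 1) ≤ i) (hi' : i ≤ D.K1) (hj : D.b (n + 1) ≤ j) (hj' : j ≤ D.K2)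
    (hl : D.b (n + 1) ≤ l) (hl' : l ≤ D.K3) (hij : i ≤ j + 1) (hjl : j ≤ l + 1)
    (hil : i ≤ l + 1) :
    (D.C : ℝ) / D.S + D.EH / D.S ≤
      (D.toGD vF).D n e ((D.toGD vF).G i) ((D.toGD vF).G j) ((D.toGD vF).G l) := by
  have h12 := h.geo.h12
  have h23 := h.geo.h23
  have h13 := h.K13
  have S0 := h.S0
  have hd := drN_of h.geo (h.bd h1 h2) (h.bd (h.nx1 h1).1 (h.nx1 h1).2) (h.bm h1 h2)
    (h.bnx h1 h2) (h.cd n h1 h2 i hi hi') j l hi hi' hj hj' hl hl' hij hjl hil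
  have hU := h.U_ge h1 h2 hi' hj' he
  obtain ⟨-, -, c1, l1⟩ := h.at_of h13 (h.geo.p1 i hi')
  obtain ⟨-, -, c2, l2⟩ := h.at_of h23 (h.geo.p2 j hj')
  obtain ⟨-, -, c3, l3⟩ := h.at_of le_rfl (h.geo.p3 l hl')
  have g1 := h.g0 (i := fl D.vp1 i) (by omega)
  have g2 := h.g0 (i := fl D.vp2 j) (by omega)
  have g3 := h.g0 (i := fl D.vp3 l) (by omega)
  have gi := h.g0 (i := i) (by omega)
  have gj := h.g0 (i := j) (by omega)
  have bb := h.bm h1 h2
  have bx := h.bnx h1 h2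
  have Gi : (D.toGD vF).G i = D.x i := h.Gx (by omega)
  have Gj : (D.toGD vF).G j = D.x j := h.Gx (by omega)
  have Gl : (D.toGD vF).G l = D.x l := h.Gx hl'
  have m0 := h.m_pos
  -- the arguments are in the domain of the layers
  have di : (D.toGD vF).G (D.b n) ≤ (D.toGD vF).G i := h.gmo (by omega)
  have dj : (D.toGD vF).G (D.b n) ≤ (D.toGD vF).G j := h.gmo (by omega)
  have dl : (D.toGD vF).G (D.b n) ≤ (D.toGD vF).G l := h.gmo (by omega)
  have ei : (D.toGD vF).G (D.b (D.nx n)) ≤ (D.toGD vF).G i := h.gmo (by omega)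
  have ej : (D.toGD vF).G (D.b (D.nx n)) ≤ (D.toGD vF).G j := h.gmo (by omega)
  have el : (D.toGD vF).G (D.b (D.nx n)) ≤ (D.toGD vF).G l := h.gmo (by omega)
  have fe : ∀ (n : ℕ) {x y z : ℝ}, (D.toGD vF).G (D.b n) ≤ x → (D.toGD vF).G (D.b n) ≤ y →
      (D.toGD vF).G (D.b n) ≤ z →
      (D.toGD vF).f n x y z = F3 (D.toGD vF).G D.K1 D.K2 D.K3 ((D.toGD vF).T n) x y z :=
    fun n _ _ _ hx hy hz => GD.Ok.f_eq (A := D.toGD vF) (n := n) hx hy hz
  have V0 : (D.toGD vF).f (D.nx n) ((D.toGD vF).G i) ((D.toGD vF).G j) ((D.toGD vF).G l) =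
      (D.t (D.nx n) i j l : ℝ) / D.S := by
    rw [fe _ ei ej el, F3_node h.hgr _ hi' hj' hl']
    rfl
  have P0 : (D.toGD vF).f n ((D.toGD vF).G i) ((D.toGD vF).G j) ((D.toGD vF).G l) =
      (D.t n i j l : ℝ) / D.S := by
    rw [fe _ di dj dl, F3_node h.hgr _ hi' hj' hl']
    rfl
  have W0 : (D.toGD vF).f n ((D.toGD vF).G i + 1) ((D.toGD vF).G j) ((D.toGD vF).G l) =
      (D.h1t n i j l : ℝ) / (D.g i * D.S) := by
    rw [fe _ (by linarith) dj dl, F3_nodeYZ h.hgr _ hj' hl']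
    exact h.hat1' n j l hi'
  have X0 : (D.toGD vF).f n ((D.toGD vF).G i) ((D.toGD vF).G j + 1) ((D.toGD vF).G l) =
      (D.h2t n i j l : ℝ) / (D.g j * D.S) := by
    rw [fe _ di (by linarith) dl, F3_nodeXZ h.hgr _ hi' hl']
    exact h.hat2' n i l hj'
  have V1 : (D.toGD vF).f (D.nx n) ((D.toGD vF).G i + D.m) ((D.toGD vF).G j + D.m)
      ((D.toGD vF).G l + D.m) = (D.zt (D.V1t (D.nx n) i j) l : ℝ) /
        (D.g (fl D.vp1 i) * D.g (fl D.vp2 j) * D.g (fl D.vp3 l) * D.S) := by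
    rw [fe _ (by linarith) (by linarith) (by linarith), Gi, Gj, Gl]
    have := h.F3v (D.nx n) (h.geo.p1 i hi') (h.geo.p2 j hj') (h.geo.p3 l hl')
    push_cast at this
    exact this
  have W1 : (D.toGD vF).f n ((D.toGD vF).G i + 1) ((D.toGD vF).G j + D.m)
      ((D.toGD vF).G l + D.m) = (D.zt (D.W1t n i j) l : ℝ) /
        (D.g i * D.g (fl D.vp2 j) * D.g (fl D.vp3 l) * D.S) := by
    rw [fe _ (by linarith) (by linarith) (by linarith), Gi, Gj, Gl]
    have := h.F3v n (h.pos1 hi' h13) (h.geo.p2 j hj') (h.geo.p3 l hl')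
    push_cast at this
    exact this
  have X1 : (D.toGD vF).f n ((D.toGD vF).G i) ((D.toGD vF).G j + 1)
      ((D.toGD vF).G l + D.m) = (D.zt (D.h2t n i j) l : ℝ) /
        (D.g j * D.g (fl D.vp3 l) * D.S) := by
    rw [fe _ di (by linarith) (by linarith), Gi, Gj, Gl]
    have q1 : PosB D D.K1 (D.x i) i 0 := by
      rcases hi'.lt_or_eq with h4 | h4
      · exact Or.inl ⟨h4, Nat.zero_le _, rfl⟩
      · exact Or.inr ⟨h4, rfl, by rw [h4]⟩
    have := h.F3v n q1 (h.pos1 hj' h23) (h.geo.p3 l hl')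
    push_cast at this
    rw [this]
    have e1 : ∀ j l, D.hmt n i 0 j l = D.g i * D.t n i j l := fun j l => mix_zero _ _ _
    rw [e1, e1, e1, e1, mix_mul, mix_mul, mix_mul]
    have e2 : mix (D.g (fl D.vp3 l)) (fl D.vr3 l)
        (mix (D.g j) (o D.K2 j) (D.t n i j (fl D.vp3 l)) (D.t n i (j + 1) (fl D.vp3 l)))
        (mix (D.g j) (o D.K2 j) (D.t n i j (fl D.vp3 l + 1))
          (D.t n i (j + 1) (fl D.vp3 l + 1))) = D.zt (D.h2t n i j) l := rfl
    rw [e2]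
    push_cast
    field_simp
  have O : ∀ k ≤ D.K3, (D.toGD vF).Oh n ((D.toGD vF).G k) = (D.R n k : ℝ) / D.Q := by
    intro k hk
    exact hat_node h.hgr hk _
  unfold GD.D dr
  rw [nx_eq vF n]
  change _ ≤ drift D.m ((D.toGD vF).U n e ((D.toGD vF).G i) ((D.toGD vF).G j))
    ((D.toGD vF).Oh n ((D.toGD vF).G i)) ((D.toGD vF).Oh n ((D.toGD vF).G j))
    ((D.toGD vF).Oh n ((D.toGD vF).G l))
    ((D.toGD vF).f (D.nx n) ((D.toGD vF).G i) ((D.toGD vF).G j) ((D.toGD vF).G l))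
    ((D.toGD vF).f (D.nx n) ((D.toGD vF).G i + D.m) ((D.toGD vF).G j + D.m)
      ((D.toGD vF).G l + D.m))
    ((D.toGD vF).f n ((D.toGD vF).G i + 1) ((D.toGD vF).G j) ((D.toGD vF).G l))
    ((D.toGD vF).f n ((D.toGD vF).G i + 1) ((D.toGD vF).G j + D.m) ((D.toGD vF).G l + D.m))
    ((D.toGD vF).f n ((D.toGD vF).G i) ((D.toGD vF).G j + 1) ((D.toGD vF).G l))
    ((D.toGD vF).f n ((D.toGD vF).G i) ((D.toGD vF).G j + 1) ((D.toGD vF).G l + D.m))
    ((D.toGD vF).f n ((D.toGD vF).G i) ((D.toGD vF).G j) ((D.toGD vF).G l))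
    n ((D.toGD vF).G i) ((D.toGD vF).G j) ((D.toGD vF).G l)
  rw [V0, V1, W0, W1, X0, X1, P0, O i (by omega), O j (by omega), O l hl']
  refine drift_ge h.m_pos h.Q_pos S0 g1 g2 g3 gi gj hU ?_
  rw [Gi, Gj, Gl]
  have h5 := (Nat.cast_le (α := ℝ)).2 hd
  push_cast at h5
  exact h5

/-- all conditions of the grid lemma -/
theorem ok : (D.toGD vF).Ok ((D.C : ℝ) / D.S) (2 * D.EH / D.S) := by
  have h12 := h.geo.h12
  have h23 := h.geo.h23
  have h13 := h.K13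
  have S0 := h.S0
  have gx : ∀ i ≤ D.K3, (D.toGD vF).Gn i = D.x i := fun i hi => gN_of_le hi
  have gap : ∀ {i}, i < D.K3 → (D.toGD vF).Gn i + 1 < (D.toGD vF).Gn (i + 1) → 1 < D.g i := by
    intro i hi hg
    rw [gx _ hi.le, gx _ hi, h.geo.gap i hi] at hg
    omega
  constructor
  case hm => exact h.geo.m0
  case hN0 => exact h.geo.hN0
  case hG => exact h.row.g_lt
  case hG0 =>
    rw [gx 0 (Nat.zero_le _)]
    exact h.x0
  case h12 => exact h12
  case h23 => exact h23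
  case b1 => exact h.b_zero.2
  case bm => exact fun n h1 h2 => h.bm h1 h2
  case bK => exact fun n h2 => h.bK h2
  case hF =>
    intro n h1 h2
    have a1 := h.row.a_le n h1 h2
    have a2 := h.row.lt_a n h1 h2
    have a3 := h.row.a_add n h1 h2
    have e : (D.toGD vF).b (n + 1) = fl D.vA n := rfl
    rw [e]
    constructor
    · rw [gx _ (by omega)]
      exact a1
    · have a4 : D.x (fl D.vA n + 1) ≤ D.x D.K1 := h.x_mono (by omega) h13
      change fV vF n ≤ (D.toGD vF).Gn D.K1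
      rw [gx _ h13]
      exact a2.le.trans a4
  case ε0 => positivity
  case tab => exact fun n h1 h2 => h.tabOk h1 h2
  case cap => exact fun n h1 h2 => h.capOk h1 h2
  case nxt => exact fun n h1 h2 => h.nxtOk h1 h2
  case eta => exact fun n => div_nonneg (Nat.cast_nonneg _) S0.le
  case hE =>
    intro n h1 h2
    change 2 * (D.E n : ℝ) ≤ n * (n + D.m - max ((D.m : ℝ) + 1) n)
    rw [← A_cast (D := D) h1]
    exact_mod_cast h.geo.E2 n h2
  case hnm =>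
    intro n h1 h2
    have := A_cast (D := D) h1
    have h3 : (0 : ℝ) ≤ D.A n := Nat.cast_nonneg _
    change max ((D.m : ℝ) + 1) n ≤ n + D.m
    linarith
  case capE =>
    intro n h1 h2 e he
    change 0 ≤ (D.t (n + 1) D.K1 D.K1 D.K1 : ℝ) / D.S - (D.t n D.K1 D.K1 D.K1 : ℝ) / D.S +
      ((D.η (n + 1) : ℝ) / D.S * (D.E (n + 1) - e) - (D.η n : ℝ) / D.S * (D.E n - e))
    have e0 := (h.geo.cE0 n h2).resolve_left (by omega)
    have e1 := (h.geo.cE1 n h2).resolve_left (by omega)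
    have e0' := (Nat.cast_le (α := ℝ)).2 e0
    have e1' := (Nat.cast_le (α := ℝ)).2 e1
    push_cast at e0' e1'
    have key : (D.t (n + 1) D.K1 D.K1 D.K1 : ℝ) / D.S - (D.t n D.K1 D.K1 D.K1 : ℝ) / D.S +
      ((D.η (n + 1) : ℝ) / D.S * (D.E (n + 1) - e) - (D.η n : ℝ) / D.S * (D.E n - e)) =
      ((D.t (n + 1) D.K1 D.K1 D.K1 : ℝ) - D.t n D.K1 D.K1 D.K1 +
      (D.η (n + 1) * (D.E (n + 1) - e) - D.η n * (D.E n - e))) / D.S := by
      field_simp
    rw [key]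
    refine div_nonneg ?_ S0.le
    rcases he with rfl | rfl
    · linarith
    · change 0 ≤ (D.t (n + 1) D.K1 D.K1 D.K1 : ℝ) - D.t n D.K1 D.K1 D.K1 +
        (D.η (n + 1) * ((D.E (n + 1) : ℝ) - D.E n) - D.η n * ((D.E n : ℝ) - D.E n))
      linarith
  case O0 => exact fun n k _ _ _ _ => div_nonneg (Nat.cast_nonneg _) (Nat.cast_nonneg _)
  case O1 =>
    intro n k h1 h2 hk hk'
    exact div_le_div_of_nonneg_right (Nat.cast_le.2 (h.row.r_mono n h1 h2 k hk hk')) h.Q_pos.le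
  case O2 =>
    intro n k h1 h2 hk hk'
    have hk'' : k < D.K3 := hk'
    have a := h.row.r_lip n h1 h2 k hk hk''
    have e1 : fl D.vG (k + 1) - fl D.vG k = D.g k := by
      have : fl D.vG (k + 1) = fl D.vG k + D.g k := h.geo.gap k hk''
      omega
    rw [e1] at a
    have a' := (Nat.cast_le (α := ℝ)).2 a
    push_cast at a'
    have e2 : (D.toGD vF).G (k + 1) - (D.toGD vF).G k = D.g k := by
      rw [h.gapR hk''.le]
      ring
    rw [e2]
    have Q0 := h.Q_pos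
    have e3 : ((D.toGD vF).m : ℝ) = 2 * d := by
      change (D.m : ℝ) = _
      rw [h.geo.hm]
      push_cast
      ring
    rw [e3]
    change (D.R n (k + 1) : ℝ) / D.Q - (D.R n k : ℝ) / D.Q ≤ _
    rw [← sub_div, div_le_iff₀ Q0]
    have e4 : ∀ k, (D.R n k : ℝ) = (fl D.vR (64 * n + k) : ℝ) := fun k => rfl
    rw [e4, e4]
    nlinarith
  case O3 =>
    intro n x h1 h2 hx _
    have a := h.row.le_deg n h1 h2 x (Nat.cast_le.2 hx)
    change (D.toGD vF).Oh n (x : ℕ) ≤ (D.m : ℝ) * ((x : ℝ) - n)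
    rw [h.geo.hm]
    push_cast
    exact a
  case st1 => exact h.stepOk h13 h.geo.s1
  case st2 => exact h.stepOk h23 h.geo.s2
  case st3 => exact h.stepOk le_rfl h.geo.s3
  case B2 =>
    intro n h1 h2 i j l a1 a2 a3 a4 a5 a6
    exact h.B2 h1 h2 a1 a2 a3 a4 a5 a6
  case B1 =>
    intro n h1 h2 i j l a1 a2 a3 a4 a5 a6
    rw [nx_eq vF n]
    exact h.B1 h1 h2 a1 a2 a3 a4 a5 a6
  case hx =>
    intro n h1 h2 i j l a1 a2 a3 a4 a5 a6 a7
    rw [nx_eq vF n]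
    exact h.hx h1 h2 a1 a2 (gap (lt_of_lt_of_le a2 h13) a3) a4 a5 a6 a7
  case ex =>
    intro n h1 h2 i j l a1 a2 a3 a4 a5 a6 a7 a8
    rw [nx_eq vF n]
    exact h.ex h1 h2 a1 a2 (gap (lt_of_lt_of_le a2 h13) a3) a4 a5 a6 a7 a8
  case ey =>
    intro n h1 h2 i j l a1 a2 a3 a4 a5 a6 a7 a8
    exact h.ey h1 h2 a1 a2 a3 a4 a5 (gap (lt_of_lt_of_le a5 h23) a6) a7 a8
  case cor =>
    intro n h1 h2 e he i j l a1 a2 a3 a4 a5 a6 a7 a8 a9
    have := h.cor h1 h2 he a1 a2 a3 a4 a5 a6 a7 a8 a9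
    have e1 : 2 * (D.EH : ℝ) / D.S / 2 = D.EH / D.S := by ring
    rw [e1]
    exact this

end AllOk

/-- the lower bound from the checks -/
theorem AllOk.hasLB {d vE vF : ℕ} (h : D.AllOk d vE vF) (hO : IsO d (eV vE))
    (hF : IsF d (fV vF)) : HasLB d ((D.C : ℝ) / D.S) := by
  refine hasLB_of_grid h.ok h.geo.hm ?_ ?_
  · intro T D' hT hTD hn hN
    exact h.row.le_outE T D' hT hTD hn hN
  · intro T D' hT hTD hn hN
    refine ⟨hF T D' ⟨hTD, hn⟩, ?_⟩
    have h1 := hO.eE_le T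
    have h2 := (h.geo.E3 T.card hN).resolve_left (Finset.card_pos.2 hT).ne'
    rw [h.geo.hm] at h2
    change eE T ≤ D.E T.card
    omega

end Dat

end Pool.Agent.Lib.MP_67d80e_pr_g3
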