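import Pool.Agent.Lib.MP_67d80e_pr_g3.ChZ

/-!
Correctness of the checks of the caps, of two layers and of the edges (natural numbers).
-/

set_option autoImplicit false

open scoped BigOperators
open Pool.Agent.Lib.MP_67d80e_pr_all

namespace Pool.Agent.Lib.MP_67d80e_pr_g3

namespace Dat

variable {D : Dat}

/-- the conditions at the caps -/
structure CapN (D : Dat) (n : ℕ) : Prop where
  c1 : ∀ j l, D.K1 - 1 ≤ j → j ≤ D.K2 → D.K1 - 1 ≤ l → l ≤ D.K3 →
    D.t n D.K1 j l = D.t n D.K1 D.K1 D.K1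
  c1' : ∀ j l, D.K1 - 1 ≤ j → j ≤ D.K2 → D.K1 - 1 ≤ l → l ≤ D.K3 →
    D.t n (D.K1 - 1) j l = D.t n (D.K1 - 1) j (D.K1 - 1)
  c2 : ∀ i l, D.b n ≤ i → i ≤ D.K1 → D.K2 - 1 ≤ l → l ≤ D.K3 →
    D.t n i D.K2 l = D.t n i D.K2 D.K2

theorem capN_of {n : ℕ} (hbd : D.Bd n) (hb : D.b n ≤ D.K1 - 1) (h12 : D.K1 ≤ D.K2)
    (h : D.cC n = true) : D.CapN n := by
  unfold cC at h
  rw [Bool.and_eq_true] at h
  have hb64 : ∀ i j l, D.t n i j l < 2 ^ 64 := fun i j l => lt_up (hbd i j l) (by norm_num)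
  constructor
  · intro j l hj hj' hl hl'
    have h1 := fa_sound h.1 j hj (Nat.lt_succ_of_le hj')
    rw [Bool.and_eq_true] at h1
    have := beq_get (f := fun q => D.t n D.K1 j (D.K1 - 1 + q)) h1.1
      (by unfold row; rw [rk_eq (by exact hb)]; rfl) (fun _ _ => hb64 _ _ _) (hb64 _ _ _)
      (l - (D.K1 - 1)) (by
        change l - (D.K1 - 1) < D.K3 + 1 - (D.K1 - 1)
        omega)
    rw [show D.K1 - 1 + (l - (D.K1 - 1)) = l by omega] at this
    exact this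
  · intro j l hj hj' hl hl'
    have h1 := fa_sound h.1 j hj (Nat.lt_succ_of_le hj')
    rw [Bool.and_eq_true] at h1
    have := beq_get (f := fun q => D.t n (D.K1 - 1) j (D.K1 - 1 + q)) h1.2
      (by unfold row; rw [rk_eq (by exact hb)]; rfl) (fun _ _ => hb64 _ _ _) (hb64 _ _ _)
      (l - (D.K1 - 1)) (by
        change l - (D.K1 - 1) < D.K3 + 1 - (D.K1 - 1)
        omega)
    rw [show D.K1 - 1 + (l - (D.K1 - 1)) = l by omega] at this
    exact this
  · intro i l hi hi' hl hl'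
    have h1 := fa_sound h.2 i hi (Nat.lt_succ_of_le hi')
    have hb2 : D.b n ≤ D.K2 - 1 := by omega
    have := beq_get (f := fun q => D.t n i D.K2 (D.K2 - 1 + q)) h1
      (by unfold row; rw [rk_eq (by exact hb2)]; rfl) (fun _ _ => hb64 _ _ _) (hb64 _ _ _)
      (l - (D.K2 - 1)) (by
        change l - (D.K2 - 1) < D.K3 + 1 - (D.K2 - 1)
        omega)
    rw [show D.K2 - 1 + (l - (D.K2 - 1)) = l by omega] at this
    exact this

/-- the conditions between two layers -/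
structure NxtN (D : Dat) (n a : ℕ) : Prop where
  nY : ∀ i j l, a ≤ i → i ≤ D.K1 → a ≤ j → j < D.K2 → a ≤ l → l ≤ D.K3 →
    D.t (n + 1) i (j + 1) l + D.t n i j l ≤ D.t (n + 1) i j l + D.t n i (j + 1) l
  nZ : ∀ i j l, a ≤ i → i ≤ D.K1 → a ≤ j → j ≤ D.K2 → a ≤ l → l < D.K3 →
    D.t (n + 1) i j (l + 1) + D.t n i j l ≤ D.t (n + 1) i j l + D.t n i j (l + 1)

theorem nxtN_of {n : ℕ} (hbd : D.Bd n) (hbd' : D.Bd (n + 1)) (hb : D.b n ≤ D.b (n + 1))
    (h : D.cN n = true) : D.NxtN n (D.b (n + 1)) := by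
  have l24 : ∀ i j l, D.t n i j l < 2 ^ 62 := fun i j l => lt_up (hbd i j l) (by norm_num)
  have l24' : ∀ i j l, D.t (n + 1) i j l < 2 ^ 62 := fun i j l =>
    lt_up (hbd' i j l) (by norm_num)
  have key : ∀ i j, D.b (n + 1) ≤ i → i ≤ D.K1 → D.b (n + 1) ≤ j → j ≤ D.K2 →
      D.cNr n (D.b (n + 1)) (D.K3 + 1 - D.b (n + 1)) (u64 (D.K3 + 1 - D.b (n + 1)))
        (u64 (D.K3 - D.b (n + 1))) i j = true := by
    intro i j hi hi' hj hj'
    exact fa_sound (fa_sound h i hi (Nat.lt_succ_of_le hi')) j hj (Nat.lt_succ_of_le hj')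
  constructor
  · intro i j l hi hi' hj hj' hl hl'
    have h1 := key i j hi hi' hj hj'.le
    unfold cNr at h1
    rw [Bool.and_eq_true] at h1
    have := le64_get (ble_or h1.1 hj')
      (f := fun q => D.t (n + 1) i j (D.b (n + 1) + q) + D.t n i (j + 1) (D.b (n + 1) + q))
      (g := fun q => D.t (n + 1) i (j + 1) (D.b (n + 1) + q) + D.t n i j (D.b (n + 1) + q))
      (by rw [← p64_add, ← rk_eq le_rfl, ← rk_eq hb]; rfl)
      (by rw [← p64_add, ← rk_eq le_rfl, ← rk_eq hb]; rfl)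
      (fun _ _ => lt_add (l24' _ _ _) (l24 _ _ _) le_rfl)
      (fun _ _ => lt_add (l24' _ _ _) (l24 _ _ _) le_rfl) (l - D.b (n + 1)) (by omega)
    rwa [show D.b (n + 1) + (l - D.b (n + 1)) = l by omega] at this
  · intro i j l hi hi' hj hj' hl hl'
    have h1 := key i j hi hi' hj hj'
    unfold cNr at h1
    rw [Bool.and_eq_true] at h1
    have hk1 : Nat.pred (D.K3 + 1 - D.b (n + 1)) = D.K3 - D.b (n + 1) := by
      have : Nat.pred (D.K3 + 1 - D.b (n + 1)) = D.K3 + 1 - D.b (n + 1) - 1 := rfl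
      omega
    rw [hk1] at h1
    have := le64_get h1.2
      (f := fun q => D.t (n + 1) i j (D.b (n + 1) + q) + D.t n i j (D.b (n + 1) + q + 1))
      (g := fun q => D.t (n + 1) i j (D.b (n + 1) + q + 1) + D.t n i j (D.b (n + 1) + q))
      (by rw [← p64_add, ← rk_eq le_rfl, ← rk_eq' hb]; rfl)
      (by rw [← p64_add, ← rk_eq' le_rfl, ← rk_eq hb]; rfl)
      (fun _ _ => lt_add (l24' _ _ _) (l24 _ _ _) le_rfl)
      (fun _ _ => lt_add (l24' _ _ _) (l24 _ _ _) le_rfl) (l - D.b (n + 1)) (by omega)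
    rwa [show D.b (n + 1) + (l - D.b (n + 1)) = l by omega] at this

/-! ### interpolated rows -/

/-- interpolation of two numbers -/
lemma mix_eq (g r a b : ℕ) : mix g r a b = (g - r) * a + r * b := rfl

lemma mix_p64 (g r : ℕ) (f f' : ℕ → ℕ) (k : ℕ) :
    mix g r (p64 f k) (p64 f' k) = p64 (fun q => mix g r (f q) (f' q)) k := by
  unfold mix
  have : Nat.add (Nat.mul (Nat.sub g r) (p64 f k)) (Nat.mul r (p64 f' k)) =
    (g - r) * p64 f k + r * p64 f' k := rfl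
  rw [this, p64_mul, p64_mul, p64_add]
  rfl

lemma mix_lt {g r a b p q : ℕ} (hg : g < 2 ^ p) (hr : r ≤ g) (ha : a < 2 ^ q) (hb : b < 2 ^ q) :
    mix g r a b < 2 ^ (p + q + 1) := by
  rw [mix_eq]
  have h1 : g - r < 2 ^ p := lt_of_le_of_lt (Nat.sub_le _ _) hg
  exact lt_add (lt_mul h1 ha le_rfl) (lt_mul (lt_of_le_of_lt hr hg) hb le_rfl) le_rfl

/-- numerators at an entry -/
def hmt (D : Dat) (n p r j l : ℕ) : ℕ := mix (D.g p) r (D.t n p j l) (D.t n (p + 1) j l)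
def h1t (D : Dat) (n i j l : ℕ) : ℕ := mix (D.g i) (o D.K1 i) (D.t n i j l) (D.t n (i + 1) j l)
def h2t (D : Dat) (n i j l : ℕ) : ℕ := mix (D.g j) (o D.K2 j) (D.t n i j l) (D.t n i (j + 1) l)

lemma hm_eq {n a : ℕ} (h : D.b n ≤ a) (k p r j : ℕ) :
    D.hm n a k p r j = p64 (fun q => D.hmt n p r j (a + q)) k := by
  unfold hm
  rw [rk_eq h, rk_eq h, mix_p64]
  rfl

lemma h1_eq {n a : ℕ} (h : D.b n ≤ a) (k i j : ℕ) :
    D.h1 n a k i j = p64 (fun q => D.h1t n i j (a + q)) k := by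
  unfold h1
  rw [rk_eq h, rk_eq h, mix_p64]
  rfl

lemma h2_eq {n a : ℕ} (h : D.b n ≤ a) (k i j : ℕ) :
    D.h2 n a k i j = p64 (fun q => D.h2t n i j (a + q)) k := by
  unfold h2
  rw [rk_eq h, rk_eq h, mix_p64]
  rfl

lemma o_eq (K i : ℕ) : o K i = if i < K then 1 else 0 := by
  unfold o
  by_cases h : i < K
  · have : Nat.ble K i = false := by
      rw [← Bool.not_eq_true, Nat.ble_eq]
      omega
    rw [this, if_pos h]
    rfl
  · have : Nat.ble K i = true := by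
      rw [Nat.ble_eq]
      omega
    rw [this, if_neg h]
    rfl

lemma o_le {K i g : ℕ} (h : i < K → 1 ≤ g) : o K i ≤ g := by
  rw [o_eq]
  split_ifs with h1
  · exact h h1
  · omega

lemma hmt_lt {n p r j l : ℕ} (hbd : D.Bd n) (hg : D.g p < 2 ^ 9) (hr : r ≤ D.g p) :
    D.hmt n p r j l < 2 ^ 34 := mix_lt hg hr (hbd _ _ _) (hbd _ _ _)

lemma h1t_lt {n i j l : ℕ} (hbd : D.Bd n) (hg : D.g i < 2 ^ 9) (hr : o D.K1 i ≤ D.g i) :
    D.h1t n i j l < 2 ^ 34 := mix_lt hg hr (hbd _ _ _) (hbd _ _ _)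

lemma h2t_lt {n i j l : ℕ} (hbd : D.Bd n) (hg : D.g j < 2 ^ 9) (hr : o D.K2 j ≤ D.g j) :
    D.h2t n i j l < 2 ^ 34 := mix_lt hg hr (hbd _ _ _) (hbd _ _ _)

/-- the conditions at the edges -/
structure EdgN (D : Dat) (n n' a : ℕ) : Prop where
  hx : ∀ i j l, a ≤ i → i < D.K1 → 1 < D.g i → a ≤ j → j ≤ D.K2 → a ≤ l → l ≤ D.K3 →
    (D.g i * (D.g (i + 1) * D.g (fl D.vp1 i))) *
        D.hmt n' (fl D.vp1 (i + 1)) (fl D.vr1 (i + 1)) j l +
      (D.g (i + 1) * (D.g (fl D.vp1 (i + 1)) * D.g (fl D.vp1 i))) * D.h1t n i j l ≤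
    (D.g i * (D.g (fl D.vp1 (i + 1)) * D.g (fl D.vp1 i))) * D.h1t n (i + 1) j l +
      (D.g i * (D.g (i + 1) * D.g (fl D.vp1 (i + 1)))) *
        D.hmt n' (fl D.vp1 i) (fl D.vr1 i) j l
  ex : ∀ i j l, a ≤ i → i < D.K1 → 1 < D.g i → i ≤ j → j ≤ D.K2 → i ≤ l → l ≤ D.K3 → j ≤ l + 1 →
    (D.g i * D.g (i + 1)) * D.t n' (i + 1) j l + D.g (i + 1) * D.h1t n i j l ≤
      2 * (D.EH * D.g (i + 1)) +
        ((D.g i * D.g (i + 1)) * D.t n' i j l + D.g i * D.h1t n (i + 1) j l)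
  ey : ∀ i j l, a ≤ i → i ≤ D.K1 → i ≤ j + 1 → a ≤ j → j < D.K2 → 1 < D.g j → j ≤ l →
    l ≤ D.K3 →
    (D.g j * D.g (j + 1)) * D.h1t n i (j + 1) l + (D.g i * D.g (j + 1)) * D.h2t n i j l ≤
      2 * (D.EH * (D.g i * D.g (j + 1))) +
        ((D.g j * D.g (j + 1)) * D.h1t n i j l + (D.g i * D.g j) * D.h2t n i (j + 1) l)

lemma mx_eq (a b : ℕ) : mx a b = max a b := by
  unfold mx
  by_cases h : a ≤ b
  · have : Nat.ble a b = true := by rw [Nat.ble_eq]; exact h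
    rw [this, max_eq_right h]
    rfl
  · have : Nat.ble a b = false := by
      rw [← Bool.not_eq_true, Nat.ble_eq]
      exact h
    rw [this, max_eq_left (by omega)]
    rfl

theorem edgN_of {n : ℕ} {d vE : ℕ} (hgeo : D.Geo d vE) (hE : D.EH < 2 ^ 24) (hbd : D.Bd n)
    (hbd' : D.Bd (D.nx n)) (hb : D.b n ≤ D.b (n + 1)) (hb' : D.b (D.nx n) ≤ D.b (n + 1))
    (h : D.cE n = true) : D.EdgN n (D.nx n) (D.b (n + 1)) := by
  have h12 := hgeo.h12
  have h23 := hgeo.h23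
  have G9 : ∀ k ≤ D.K2, D.g k < 2 ^ 9 := fun k hk => g_lt hgeo.gb hk
  have posg : ∀ i ≤ D.K1, D.g (fl D.vp1 i) < 2 ^ 9 ∧ fl D.vr1 i ≤ D.g (fl D.vp1 i) := by
    intro i hi
    rcases hgeo.p1 i hi with ⟨p, q, -⟩ | ⟨p, q, -⟩
    · exact ⟨G9 _ (by omega), q⟩
    · exact ⟨G9 _ (by omega), by omega⟩
  unfold cE at h
  rw [Bool.and_eq_true] at h
  constructor
  · intro i j l hi hi' hg hj hj' hl hl'
    have h1 := ble_or (fa_sound h.1 i hi hi') hg
    rw [Bool.and_eq_true] at h1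
    have h2 := fa_sound h1.1 j hj (Nat.lt_succ_of_le hj')
    obtain ⟨ga1, ra1⟩ := posg (i + 1) (by omega)
    obtain ⟨ga0, ra0⟩ := posg i (by omega)
    have g0 := G9 i (by omega)
    have g1 := G9 (i + 1) (by omega)
    have o0 : o D.K1 i ≤ D.g i := o_le fun _ => by omega
    unfold cXr le4 at h2
    have hz := hgeo.gpos (i + 1) (by omega)
    have o1 : o D.K1 (i + 1) ≤ D.g (i + 1) := o_le fun _ => hz
    have := le64_get h2
      (f := fun q => (D.g i * (D.g (fl D.vp1 (i + 1)) * D.g (fl D.vp1 i))) *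
          D.h1t n (i + 1) j (D.b (n + 1) + q) +
        (D.g i * (D.g (i + 1) * D.g (fl D.vp1 (i + 1)))) *
          D.hmt (D.nx n) (fl D.vp1 i) (fl D.vr1 i) j (D.b (n + 1) + q))
      (g := fun q => (D.g i * (D.g (i + 1) * D.g (fl D.vp1 i))) *
          D.hmt (D.nx n) (fl D.vp1 (i + 1)) (fl D.vr1 (i + 1)) j (D.b (n + 1) + q) +
        (D.g (i + 1) * (D.g (fl D.vp1 (i + 1)) * D.g (fl D.vp1 i))) *
          D.h1t n i j (D.b (n + 1) + q))
      (by rw [← p64_add, ← p64_mul, ← p64_mul, ← h1_eq hb, ← hm_eq hb']; rfl)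
      (by rw [← p64_add, ← p64_mul, ← p64_mul, ← h1_eq hb, ← hm_eq hb']; rfl)
      (fun _ _ => lt_add
        (lt_mul (lt_mul g0 (lt_mul ga1 ga0 le_rfl) le_rfl) (h1t_lt hbd g1 o1) le_rfl)
        (lt_mul (lt_mul g0 (lt_mul g1 ga1 le_rfl) le_rfl) (hmt_lt hbd' ga0 ra0) le_rfl)
        (by norm_num))
      (fun _ _ => lt_add
        (lt_mul (lt_mul g0 (lt_mul g1 ga0 le_rfl) le_rfl) (hmt_lt hbd' ga1 ra1) le_rfl)
        (lt_mul (lt_mul g1 (lt_mul ga1 ga0 le_rfl) le_rfl) (h1t_lt hbd g0 o0) le_rfl)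
        (by norm_num)) (l - D.b (n + 1)) (by
        change l - D.b (n + 1) < D.K3 + 1 - D.b (n + 1)
        omega)
    rwa [show D.b (n + 1) + (l - D.b (n + 1)) = l by omega] at this
  · intro i j l hi hi' hg hj hj' hl hl' hjl
    have h1 := ble_or (fa_sound h.1 i hi hi') hg
    rw [Bool.and_eq_true] at h1
    have h2 := fa_sound h1.2 j hj (Nat.lt_succ_of_le hj')
    have g0 := G9 i (by omega)
    have g1 := G9 (i + 1) (by omega)
    have o0 : o D.K1 i ≤ D.g i := o_le fun _ => by omega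
    have hz := hgeo.gpos (i + 1) (by omega)
    have o1 : o D.K1 (i + 1) ≤ D.g (i + 1) := o_le fun _ => hz
    have hj1 : Nat.pred j = j - 1 := rfl
    rw [hj1, mx_eq] at h2
    set s := max i (j - 1) with hs
    have hs1 : D.b (n + 1) ≤ s := by omega
    have hsl : s ≤ l := by omega
    unfold cEx at h2
    have := le64_get h2
      (f := fun q => 2 * (D.EH * D.g (i + 1)) + ((D.g i * D.g (i + 1)) * D.t (D.nx n) i j (s + q) +
        D.g i * D.h1t n (i + 1) j (s + q)))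
      (g := fun q => (D.g i * D.g (i + 1)) * D.t (D.nx n) (i + 1) j (s + q) +
        D.g (i + 1) * D.h1t n i j (s + q))
      (by
        rw [← p64_add, ← u64_mul, ← p64_add, ← p64_mul, ← p64_mul, ← h1_eq (hb.trans hs1),
          ← rk_eq (hb'.trans hs1)]
        rfl)
      (by
        rw [← p64_add, ← p64_mul, ← p64_mul, ← h1_eq (hb.trans hs1), ← rk_eq (hb'.trans hs1)]
        rfl)
      (fun _ _ => lt_add (p := 62)
        (lt_mul (show 2 < 2 ^ 2 by norm_num) (lt_mul hE g1 le_rfl) (by norm_num))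
        (lt_add (p := 61) (lt_mul (lt_mul g0 g1 le_rfl) (hbd' _ _ _) (by norm_num))
          (lt_mul g0 (h1t_lt hbd g1 o1) (by norm_num)) le_rfl) le_rfl)
      (fun _ _ => lt_add (p := 62) (lt_mul (lt_mul g0 g1 le_rfl) (hbd' _ _ _) (by norm_num))
          (lt_mul g1 (h1t_lt hbd g0 o0) (by norm_num)) le_rfl) (l - s) (by
        change l - s < D.K3 + 1 - s
        omega)
    rwa [show s + (l - s) = l by omega] at this
  · intro i j l hi hi' hij hj hj' hg hl hl'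
    have h1 := ble_or (fa_sound h.2 j hj hj') hg
    have h2 := fa_sound h1 i hi (Nat.lt_succ_of_le hi')
    have h3 := ble_or h2 (show i < j + 2 by omega)
    have g0 := G9 i (by omega)
    have gj := G9 j (by omega)
    have gj1 := G9 (j + 1) (by omega)
    have hz := hgeo.gpos (j + 1) (by omega)
    have hz2 := hgeo.gpos i (by omega)
    have o0 : o D.K1 i ≤ D.g i := o_le fun _ => hz2
    have oj : o D.K2 j ≤ D.g j := o_le fun _ => by omega
    have oj1 : o D.K2 (j + 1) ≤ D.g (j + 1) := o_le fun _ => hz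
    unfold cEy at h3
    have := le64_get h3
      (f := fun q => 2 * (D.EH * (D.g i * D.g (j + 1))) +
        ((D.g j * D.g (j + 1)) * D.h1t n i j (j + q) + (D.g i * D.g j) * D.h2t n i (j + 1) (j + q)))
      (g := fun q => (D.g j * D.g (j + 1)) * D.h1t n i (j + 1) (j + q) +
        (D.g i * D.g (j + 1)) * D.h2t n i j (j + q))
      (by
        rw [← p64_add, ← u64_mul, ← p64_add, ← p64_mul, ← p64_mul, ← h1_eq (hb.trans hj),
          ← h2_eq (hb.trans hj)]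
        rfl)
      (by
        rw [← p64_add, ← p64_mul, ← p64_mul, ← h1_eq (hb.trans hj), ← h2_eq (hb.trans hj)]
        rfl)
      (fun _ _ => lt_add (p := 62)
        (lt_mul (show 2 < 2 ^ 2 by norm_num) (lt_mul hE (lt_mul g0 gj1 le_rfl) le_rfl)
          (by norm_num))
        (lt_add (p := 61) (lt_mul (lt_mul gj gj1 le_rfl) (h1t_lt hbd g0 o0) (by norm_num))
          (lt_mul (lt_mul g0 gj le_rfl) (h2t_lt hbd gj1 oj1) (by norm_num)) le_rfl) le_rfl)
      (fun _ _ => lt_add (p := 62)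
        (lt_mul (lt_mul gj gj1 le_rfl) (h1t_lt hbd g0 o0) (by norm_num))
        (lt_mul (lt_mul g0 gj1 le_rfl) (h2t_lt hbd gj oj) (by norm_num)) le_rfl) (l - j) (by
        change l - j < D.K3 + 1 - j
        omega)
    rwa [show j + (l - j) = l by omega] at this

end Dat

end Pool.Agent.Lib.MP_67d80e_pr_g3
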