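import Pool.Agent.Lib.MP_67d80e_pr_g3.ChB

/-!
The real data, and the values of the functions as quotients of natural numbers.
-/

set_option autoImplicit false

open scoped BigOperators
open Pool.Agent.Lib.MP_67d80e_pr_all

namespace Pool.Agent.Lib.MP_67d80e_pr_g3

lemma mix_cast {g r a b : ℕ} (h : r ≤ g) :
    ((Dat.mix g r a b : ℕ) : ℝ) = (g - r) * a + r * b := by
  rw [Dat.mix_eq]
  push_cast [Nat.cast_sub h]
  ring

lemma lin_mix {g r a b : ℕ} {c : ℝ} (h : r ≤ g) (hg : 0 < g) (hc : c ≠ 0) :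
    lin ((r : ℝ) / g) (a / c) (b / c) = ((Dat.mix g r a b : ℕ) : ℝ) / (g * c) := by
  have h0 : (g : ℝ) ≠ 0 := by positivity
  rw [mix_cast h]
  unfold lin
  field_simp

namespace Dat

variable {D : Dat}

/-- the real data -/
noncomputable def toGD (D : Dat) (vF : ℕ) : GD where
  m := D.m
  N0 := D.N0
  K1 := D.K1
  K2 := D.K2
  K3 := D.K3
  Gn := gN D.vG D.K3
  b := D.b
  T := fun n i j l => (D.t n i j l : ℝ) / D.S
  η := fun n => (D.η n : ℝ) / D.S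
  E := D.E
  F := fV vF
  O := fun n k => (D.R n k : ℝ) / D.Q
  c1 := fun j => fl D.vc1 j
  d1 := fun j => fl D.vd1 j
  c2 := fun j => fl D.vc2 j
  d2 := fun j => fl D.vd2 j
  c3 := fun j => fl D.vc3 j
  d3 := fun j => fl D.vd3 j

/-- everything that the kernel checks -/
structure AllOk (D : Dat) (d vE vF : ℕ) : Prop where
  geo : D.Geo d vE
  EH : D.EH < 2 ^ 24
  row : RowOk d D.Q D.K1 D.K3 D.N0 vF D.vG D.vR D.vA
  cs : ∀ n, 1 ≤ n → n ≤ D.N0 → D.cS n = true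
  cc : ∀ n, 1 ≤ n → n ≤ D.N0 → D.cC n = true
  cn : ∀ n, 1 ≤ n → n < D.N0 → D.cN n = true
  ce : ∀ n, 1 ≤ n → n ≤ D.N0 → D.cE n = true
  cb : ∀ n, 1 ≤ n → n ≤ D.N0 → D.cB n = true
  cd : ∀ n, 1 ≤ n → n ≤ D.N0 → ∀ i, D.b (n + 1) ≤ i → i ≤ D.K1 → D.cDi n i = true

namespace AllOk

variable {d vE vF : ℕ} (h : D.AllOk d vE vF)
include h

lemma Gx {i : ℕ} (hi : i ≤ D.K3) : (D.toGD vF).G i = D.x i := by
  change ((gN D.vG D.K3 i : ℕ) : ℝ) = D.x i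
  rw [gN_of_le hi]
  rfl

lemma gapR {i : ℕ} (hi : i ≤ D.K3) : (D.toGD vF).G (i + 1) = (D.toGD vF).G i + D.g i := by
  rcases hi.lt_or_eq with h1 | h1
  · rw [h.Gx h1, h.Gx hi, h.geo.gap i h1]
    push_cast
    ring
  · rw [h.Gx hi, h1, h.geo.gK, Nat.cast_one]
    change ((gN D.vG D.K3 (D.K3 + 1) : ℕ) : ℝ) = D.x D.K3 + 1
    have : gN D.vG D.K3 (D.K3 + 1) = D.x D.K3 + 1 := by
      unfold gN
      rw [if_neg (by omega), Nat.add_sub_cancel_left]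
      rfl
    rw [this]
    push_cast
    ring

lemma hgr (i : ℕ) : (D.toGD vF).G i < (D.toGD vF).G (i + 1) := by
  change ((gN D.vG D.K3 i : ℕ) : ℝ) < ((gN D.vG D.K3 (i + 1) : ℕ) : ℝ)
  exact_mod_cast h.row.g_lt i

lemma K13 : D.K1 ≤ D.K3 := h.geo.h12.trans h.geo.h23

/-- position of a point -/
lemma at_of {K x p r : ℕ} (hK : K ≤ D.K3) (hp : PosB D K x p r) :
    At (D.toGD vF).G K x p ((r : ℝ) / D.g p) ∧ r ≤ D.g p ∧ 0 < D.g p ∧ p ≤ K := by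
  rcases hp with ⟨h1, h2, h3⟩ | ⟨h1, h2, h3⟩
  · have g0 : 0 < D.g p := h.geo.gpos p (by omega)
    have g0' : (0 : ℝ) < D.g p := by exact_mod_cast g0
    refine ⟨Or.inl ⟨h1, by positivity, ?_, ?_⟩, h2, g0, h1.le⟩
    · rw [div_le_one g0']
      exact_mod_cast h2
    · rw [h.gapR (by omega), h.Gx (by omega), h3]
      unfold lin
      push_cast
      field_simp
      ring
  · have g0 : 0 < D.g p := h.geo.gpos p (by omega)
    refine ⟨Or.inr ⟨h1, by rw [h2]; simp, ?_⟩, by omega, g0, h1.le⟩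
    rw [h.Gx hK]
    exact_mod_cast h3

lemma S0 : (0 : ℝ) < D.S := by exact_mod_cast h.geo.S0

lemma g0 {i : ℕ} (hi : i ≤ D.K3) : (0 : ℝ) < D.g i := by exact_mod_cast h.geo.gpos i hi

lemma pos1 {K i : ℕ} (hi : i ≤ K) (hK : K ≤ D.K3) : PosB D K (D.x i + 1) i (o K i) := by
  rw [o_eq]
  split_ifs with h1
  · exact Or.inl ⟨h1, h.geo.gpos i (by omega), rfl⟩
  · have : i = K := by omega
    subst this
    exact Or.inr ⟨rfl, rfl, Nat.le_succ _⟩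

/-! ### values -/

/-- one-dimensional interpolation in the first index -/
lemma hat1 (n j l : ℕ) {x p r : ℕ} (hp : PosB D D.K1 x p r) :
    hat (D.toGD vF).G D.K1 (fun k => (D.toGD vF).T n k j l) x =
      (D.hmt n p r j l : ℝ) / (D.g p * D.S) := by
  obtain ⟨h1, h2, h3, -⟩ := h.at_of h.K13 hp
  rw [hat_at h.hgr _ h1]
  change lin _ ((D.t n p j l : ℝ) / D.S) ((D.t n (p + 1) j l : ℝ) / D.S) = _
  rw [lin_mix h2 h3 h.S0.ne']
  rfl

lemma hat1' (n j l : ℕ) {i : ℕ} (hi : i ≤ D.K1) :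
    hat (D.toGD vF).G D.K1 (fun k => (D.toGD vF).T n k j l) ((D.toGD vF).G i + 1) =
      (D.h1t n i j l : ℝ) / (D.g i * D.S) := by
  have h13 := h.K13
  have := h.hat1 n j l (h.pos1 hi h.K13)
  rw [h.Gx (by omega)]
  push_cast at this
  exact this

lemma hat2' (n i l : ℕ) {j : ℕ} (hj : j ≤ D.K2) :
    hat (D.toGD vF).G D.K2 (fun k => (D.toGD vF).T n i k l) ((D.toGD vF).G j + 1) =
      (D.h2t n i j l : ℝ) / (D.g j * D.S) := by
  have h23 := h.geo.h23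
  obtain ⟨h1, h2, h3, -⟩ := h.at_of h.geo.h23 (h.pos1 hj h.geo.h23)
  rw [h.Gx (by omega)]
  push_cast at h1
  rw [hat_at h.hgr _ h1]
  change lin _ ((D.t n i j l : ℝ) / D.S) ((D.t n i (j + 1) l : ℝ) / D.S) = _
  rw [lin_mix h2 h3 h.S0.ne']
  rfl

/-- three-dimensional interpolation -/
lemma F3v (n : ℕ) {x y z p1 r1 p2 r2 p3 r3 : ℕ} (q1 : PosB D D.K1 x p1 r1)
    (q2 : PosB D D.K2 y p2 r2) (q3 : PosB D D.K3 z p3 r3) :
    F3 (D.toGD vF).G D.K1 D.K2 D.K3 ((D.toGD vF).T n) x y z =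
      ((mix (D.g p3) r3 (mix (D.g p2) r2 (D.hmt n p1 r1 p2 p3) (D.hmt n p1 r1 (p2 + 1) p3))
        (mix (D.g p2) r2 (D.hmt n p1 r1 p2 (p3 + 1)) (D.hmt n p1 r1 (p2 + 1) (p3 + 1))) : ℕ) : ℝ) /
        (D.g p1 * D.g p2 * D.g p3 * D.S) := by
  obtain ⟨a1, b1, c1, -⟩ := h.at_of h.K13 q1
  obtain ⟨a2, b2, c2, -⟩ := h.at_of h.geo.h23 q2
  obtain ⟨a3, b3, c3, -⟩ := h.at_of le_rfl q3
  have S0 := h.S0
  have e1 : (D.g p1 : ℝ) ≠ 0 := by positivity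
  have e2 : (D.g p2 : ℝ) ≠ 0 := by positivity
  have e3 : (D.g p3 : ℝ) ≠ 0 := by positivity
  rw [F3_at h.hgr _ a1 a2 a3, mix_cast b3, mix_cast b2, mix_cast b2]
  unfold hmt
  rw [mix_cast b1, mix_cast b1, mix_cast b1, mix_cast b1]
  unfold tv lin toGD
  simp only
  field_simp
  ring

end AllOk

end Dat

end Pool.Agent.Lib.MP_67d80e_pr_g3
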