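import Pool.Agent.Lib.MP_67d80e_pr_g3.Gen

/-!
Correctness of the check of the shape of a layer.
-/

set_option autoImplicit false

open scoped BigOperators
open Pool.Agent.Lib.MP_67d80e_pr_all

namespace Pool.Agent.Lib.MP_67d80e_pr_g3

namespace Dat

variable {D : Dat}

lemma ix_eq (n a i j : ℕ) : D.ix n a i j =
    ((i - D.b n) * (D.K2 + 1 - D.b n) + (j - D.b n)) * (D.K3 + 1 - D.b n) + (a - D.b n) := rfl

/-- a row as a packed vector -/
lemma rk_eq {n a : ℕ} (h : D.b n ≤ a) (k i j : ℕ) :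
    D.rk n a k i j = p64 (fun q => D.t n i j (a + q)) k := by
  unfold rk
  rw [s64_eq]
  refine p64_congr fun q _ => ?_
  unfold t
  congr 1
  rw [ix_eq, ix_eq]
  have : a + q - D.b n = a - D.b n + q := by omega
  rw [this, ← add_assoc]

/-- a shifted row -/
lemma rk_eq' {n a : ℕ} (h : D.b n ≤ a) (k i j : ℕ) :
    D.rk n (Nat.succ a) k i j = p64 (fun q => D.t n i j (a + q + 1)) k := by
  rw [rk_eq (by omega)]
  exact p64_congr fun q _ => by rw [show a + q + 1 = Nat.succ a + q by omega]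

/-- bounds of the entries -/
def Bd (D : Dat) (n : ℕ) : Prop := ∀ i j l, D.t n i j l < 2 ^ 24

lemma bd_of_cBd {n : ℕ} (h : D.cBd n = true) : D.Bd n := by
  unfold cBd at h
  rw [Bool.and_eq_true] at h
  have h1 := bd64_sound (by norm_num) h.1
  have h2 : D.tb n / 2 ^ (64 * D.tot n) = 0 := by
    have := Nat.eq_of_beq_eq_true h.2
    have e : Nat.shiftRight (D.tb n) (Nat.mul 64 (D.tot n)) = D.tb n >>> (64 * D.tot n) := rfl
    rw [e, Nat.shiftRight_eq_div_pow] at this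
    exact this
  intro i j l
  unfold t
  rcases Nat.lt_or_ge (D.ix n l i j) (D.tot n) with h3 | h3
  · exact h1 _ h3
  · have : w64 (D.tb n) (D.ix n l i j) = 0 := by
      rw [w64_eq]
      obtain ⟨q, hq⟩ := Nat.exists_eq_add_of_le h3
      rw [hq, Nat.mul_add, pow_add, ← Nat.div_div_eq_div_mul, h2, Nat.zero_div, Nat.zero_mod]
    rw [this]
    norm_num

lemma lt63 {n : ℕ} (h : D.Bd n) (i j l : ℕ) : D.t n i j l < 2 ^ 63 := lt_up (h i j l) (by norm_num)

/-- entries which the row check compares -/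
structure RowS (D : Dat) (n i j : ℕ) : Prop where
  moX : i < D.K1 → ∀ l, D.b n ≤ l → l ≤ D.K3 → D.t n i j l ≤ D.t n (i + 1) j l
  moY : j < D.K2 → ∀ l, D.b n ≤ l → l ≤ D.K3 → D.t n i j l ≤ D.t n i (j + 1) l
  moZ : ∀ l, D.b n ≤ l → l < D.K3 → D.t n i j l ≤ D.t n i j (l + 1)
  coX : i + 1 < D.K1 → ∀ l, D.b n ≤ l → l ≤ D.K3 →
    D.g i * D.t n (i + 2) j l + D.g (i + 1) * D.t n i j l ≤
      (D.g i + D.g (i + 1)) * D.t n (i + 1) j l
  coY : j + 1 < D.K2 → ∀ l, D.b n ≤ l → l ≤ D.K3 →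
    D.g j * D.t n i (j + 2) l + D.g (j + 1) * D.t n i j l ≤
      (D.g j + D.g (j + 1)) * D.t n i (j + 1) l
  suXY : i < D.K1 → j < D.K2 → ∀ l, D.b n ≤ l → l ≤ D.K3 →
    D.t n (i + 1) (j + 1) l + D.t n i j l ≤ D.t n (i + 1) j l + D.t n i (j + 1) l
  suXZ : i < D.K1 → ∀ l, D.b n ≤ l → l < D.K3 →
    D.t n (i + 1) j (l + 1) + D.t n i j l ≤ D.t n (i + 1) j l + D.t n i j (l + 1)
  suYZ : j < D.K2 → ∀ l, D.b n ≤ l → l < D.K3 →
    D.t n i (j + 1) (l + 1) + D.t n i j l ≤ D.t n i (j + 1) l + D.t n i j (l + 1)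

lemma ble_or {a b : ℕ} {c : Bool} (h : (Nat.ble a b || c) = true) (hab : b < a) : c = true := by
  rw [Bool.or_eq_true] at h
  rcases h with h | h
  · have := Nat.le_of_ble_eq_true h
    omega
  · exact h

lemma g_lt {D : Dat} (hgb : ∀ k ≤ D.K2, D.g k < 512) {k : ℕ} (hk : k ≤ D.K2) :
    D.g k < 2 ^ 9 := by
  have := hgb k hk
  norm_num
  exact this

theorem rowS_of {n i j : ℕ} (hbd : D.Bd n) (hgb : ∀ k ≤ D.K2, D.g k < 512)
    (h12 : D.K1 ≤ D.K2)
    (h : D.cSr n (D.b n) (Nat.sub (Nat.succ D.K3) (D.b n)) (u64 (Nat.sub (Nat.succ D.K3) (D.b n)))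
      (u64 (Nat.sub D.K3 (D.b n))) i j = true) : D.RowS n i j := by
  have hk : Nat.sub (Nat.succ D.K3) (D.b n) = D.K3 + 1 - D.b n := rfl
  have hk1 : Nat.pred (D.K3 + 1 - D.b n) = D.K3 - D.b n := by
    have : Nat.pred (D.K3 + 1 - D.b n) = D.K3 + 1 - D.b n - 1 := rfl
    omega
  have hk2 : Nat.sub D.K3 (D.b n) = D.K3 - D.b n := rfl
  rw [hk, hk2] at h
  unfold cSr at h
  rw [hk1] at h
  simp only [Bool.and_eq_true] at h
  obtain ⟨⟨⟨⟨hX, hY⟩, hZ⟩, hcX⟩, hcY⟩ := h
  have B : ∀ {n a k i j}, D.b n ≤ a → D.rk n a k i j = p64 (fun q => D.t n i j (a + q)) k :=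
    fun h => rk_eq h _ _ _
  have B' : ∀ {n a k i j}, D.b n ≤ a →
      D.rk n (Nat.succ a) k i j = p64 (fun q => D.t n i j (a + q + 1)) k :=
    fun h => rk_eq' h _ _ _
  have l24 : ∀ i j l, D.t n i j l < 2 ^ 62 := fun i j l => lt_up (hbd i j l) (by norm_num)
  have idx : ∀ {l}, D.b n ≤ l → D.b n + (l - D.b n) = l := fun h => by omega
  constructor
  · intro hi l hl1 hl2
    have hX := ble_or hX hi
    simp only [Bool.and_eq_true] at hX
    have := le64_get hX.1.1 (B le_rfl) (B le_rfl) (fun _ _ => lt63 hbd _ _ _)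
      (fun _ _ => lt63 hbd _ _ _) (l - D.b n) (by omega)
    rwa [idx hl1] at this
  · intro hj l hl1 hl2
    have hY := ble_or hY hj
    simp only [Bool.and_eq_true] at hY
    have := le64_get hY.1 (B le_rfl) (B le_rfl) (fun _ _ => lt63 hbd _ _ _)
      (fun _ _ => lt63 hbd _ _ _) (l - D.b n) (by omega)
    rwa [idx hl1] at this
  · intro l hl1 hl2
    have := le64_get hZ (B' le_rfl) (B le_rfl) (fun _ _ => lt63 hbd _ _ _)
      (fun _ _ => lt63 hbd _ _ _) (l - D.b n) (by omega)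
    rwa [idx hl1] at this
  · intro hi l hl1 hl2
    have hcX := ble_or hcX hi
    have g0 := g_lt hgb (show i ≤ D.K2 by omega)
    have g1 := g_lt hgb (show i + 1 ≤ D.K2 by omega)
    have := le64_get hcX
      (f := fun q => (D.g i + D.g (i + 1)) * D.t n (i + 1) j (D.b n + q))
      (g := fun q => D.g i * D.t n (i + 2) j (D.b n + q) + D.g (i + 1) * D.t n i j (D.b n + q))
      (by rw [← p64_mul, ← B le_rfl]; rfl)
      (by rw [← p64_add, ← p64_mul, ← p64_mul, ← B le_rfl, ← B le_rfl]; rfl)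
      (fun _ _ => lt_mul (lt_add g0 g1 le_rfl) (hbd _ _ _) (by norm_num))
      (fun _ _ => lt_add (lt_mul g0 (hbd _ _ _) le_rfl) (lt_mul g1 (hbd _ _ _) le_rfl)
        (by norm_num)) (l - D.b n) (by omega)
    rwa [idx hl1] at this
  · intro hj l hl1 hl2
    have hcY := ble_or hcY hj
    have g0 := g_lt hgb (show j ≤ D.K2 by omega)
    have g1 := g_lt hgb (show j + 1 ≤ D.K2 by omega)
    have := le64_get hcY
      (f := fun q => (D.g j + D.g (j + 1)) * D.t n i (j + 1) (D.b n + q))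
      (g := fun q => D.g j * D.t n i (j + 2) (D.b n + q) + D.g (j + 1) * D.t n i j (D.b n + q))
      (by rw [← p64_mul, ← B le_rfl]; rfl)
      (by rw [← p64_add, ← p64_mul, ← p64_mul, ← B le_rfl, ← B le_rfl]; rfl)
      (fun _ _ => lt_mul (lt_add g0 g1 le_rfl) (hbd _ _ _) (by norm_num))
      (fun _ _ => lt_add (lt_mul g0 (hbd _ _ _) le_rfl) (lt_mul g1 (hbd _ _ _) le_rfl)
        (by norm_num)) (l - D.b n) (by omega)
    rwa [idx hl1] at this
  · intro hi hj l hl1 hl2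
    have hX := ble_or hX hi
    simp only [Bool.and_eq_true] at hX
    have hX := ble_or hX.2 hj
    have := le64_get hX
      (f := fun q => D.t n (i + 1) j (D.b n + q) + D.t n i (j + 1) (D.b n + q))
      (g := fun q => D.t n (i + 1) (j + 1) (D.b n + q) + D.t n i j (D.b n + q))
      (by rw [← p64_add, ← B le_rfl, ← B le_rfl]; rfl)
      (by rw [← p64_add, ← B le_rfl, ← B le_rfl]; rfl)
      (fun _ _ => lt_add (l24 _ _ _) (l24 _ _ _) le_rfl)
      (fun _ _ => lt_add (l24 _ _ _) (l24 _ _ _) le_rfl) (l - D.b n) (by omega)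
    rwa [idx hl1] at this
  · intro hi l hl1 hl2
    have hX := ble_or hX hi
    simp only [Bool.and_eq_true] at hX
    have := le64_get hX.1.2
      (f := fun q => D.t n (i + 1) j (D.b n + q) + D.t n i j (D.b n + q + 1))
      (g := fun q => D.t n (i + 1) j (D.b n + q + 1) + D.t n i j (D.b n + q))
      (by rw [← p64_add, ← B le_rfl, ← B' le_rfl]; rfl)
      (by rw [← p64_add, ← B le_rfl, ← B' le_rfl]; rfl)
      (fun _ _ => lt_add (l24 _ _ _) (l24 _ _ _) le_rfl)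
      (fun _ _ => lt_add (l24 _ _ _) (l24 _ _ _) le_rfl) (l - D.b n) (by omega)
    rwa [idx hl1] at this
  · intro hj l hl1 hl2
    have hY := ble_or hY hj
    simp only [Bool.and_eq_true] at hY
    have := le64_get hY.2
      (f := fun q => D.t n i (j + 1) (D.b n + q) + D.t n i j (D.b n + q + 1))
      (g := fun q => D.t n i (j + 1) (D.b n + q + 1) + D.t n i j (D.b n + q))
      (by rw [← p64_add, ← B le_rfl, ← B' le_rfl]; rfl)
      (by rw [← p64_add, ← B le_rfl, ← B' le_rfl]; rfl)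
      (fun _ _ => lt_add (l24 _ _ _) (l24 _ _ _) le_rfl)
      (fun _ _ => lt_add (l24 _ _ _) (l24 _ _ _) le_rfl) (l - D.b n) (by omega)
    rwa [idx hl1] at this

end Dat

end Pool.Agent.Lib.MP_67d80e_pr_g3
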