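import Pool.Agent.Lib.MP_67d80e_pr_g3.ChR

/-!
The conditions of the grid lemma from the checks: shape, caps, multipliers, edges.
-/

set_option autoImplicit false

open scoped BigOperators
open Pool.Agent.Lib.MP_67d80e_pr_all

namespace Pool.Agent.Lib.MP_67d80e_pr_g3

lemma slope3 {a b c g g' : ℕ} {S : ℝ} (hS : 0 < S) (hg : (0 : ℝ) < g) (hg' : (0 : ℝ) < g')
    (h : g * c + g' * a ≤ (g + g') * b) :
    ((c : ℝ) / S - b / S) / g' ≤ ((b : ℝ) / S - a / S) / g := by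
  have h1 : ((g * c + g' * a : ℕ) : ℝ) ≤ (((g + g') * b : ℕ) : ℝ) := Nat.cast_le.2 h
  push_cast at h1
  have e1 : ((c : ℝ) / S - b / S) / g' = (c - b) * g / (S * (g * g')) := by field_simp
  have e2 : ((b : ℝ) / S - a / S) / g = (b - a) * g' / (S * (g * g')) := by field_simp
  rw [e1, e2]
  refine div_le_div_of_nonneg_right ?_ (by positivity)
  nlinarith

lemma slope4 {a0 a1 b0 b1 gl gc : ℕ} {S : ℝ} (hS : 0 < S) (hg : (0 : ℝ) < gl)
    (hg' : (0 : ℝ) < gc) (h : gc * a1 + gl * b0 ≤ gc * a0 + gl * b1) :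
    ((a1 : ℝ) / S - a0 / S) / gl ≤ ((b1 : ℝ) / S - b0 / S) / gc := by
  have h1 : ((gc * a1 + gl * b0 : ℕ) : ℝ) ≤ ((gc * a0 + gl * b1 : ℕ) : ℝ) := Nat.cast_le.2 h
  push_cast at h1
  have e1 : ((a1 : ℝ) / S - a0 / S) / gl = (a1 - a0) * gc / (S * (gl * gc)) := by field_simp
  have e2 : ((b1 : ℝ) / S - b0 / S) / gc = (b1 - b0) * gl / (S * (gl * gc)) := by field_simp
  rw [e1, e2]
  refine div_le_div_of_nonneg_right ?_ (by positivity)
  nlinarith

lemma div_add_div_le {a b c d : ℕ} {S : ℝ} (hS : 0 < S) (h : a + b ≤ c + d) :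
    (a : ℝ) / S + b / S ≤ c / S + d / S := by
  have h1 : ((a + b : ℕ) : ℝ) ≤ ((c + d : ℕ) : ℝ) := Nat.cast_le.2 h
  push_cast at h1
  rw [← add_div, ← add_div]
  exact div_le_div_of_nonneg_right h1 hS.le

namespace Dat

variable {D : Dat}

lemma nx_eq (vF n : ℕ) : (D.toGD vF).nx n = D.nx n := by
  change min (n + 1) D.N0 = D.nx n
  unfold nx
  by_cases h : D.N0 ≤ n
  · have : Nat.ble D.N0 n = true := by rw [Nat.ble_eq]; exact h
    rw [this, min_eq_right (by omega)]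
    rfl
  · have : Nat.ble D.N0 n = false := by
      rw [← Bool.not_eq_true, Nat.ble_eq]
      exact h
    rw [this, min_eq_left (by omega)]
    rfl

namespace AllOk

variable {d vE vF : ℕ} (h : D.AllOk d vE vF)
include h

lemma b_zero : D.b 0 = 0 ∧ D.b 1 = 0 := ⟨h.geo.A0, h.geo.A0⟩

omit h in
lemma b_succ (n : ℕ) : D.b (n + 1) = fl D.vA n := rfl

lemma bm {n : ℕ} (h1 : 1 ≤ n) (h2 : n ≤ D.N0) : D.b n ≤ D.b (n + 1) := by
  obtain ⟨k, rfl⟩ : ∃ k, n = k + 1 := ⟨n - 1, by omega⟩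
  rw [b_succ, b_succ]
  rcases Nat.eq_zero_or_pos k with h3 | h3
  · subst h3
    rw [h.geo.A0]
    exact Nat.zero_le _
  · exact h.row.a_mono k h3 (by omega)

lemma bK {n : ℕ} (h2 : n ≤ D.N0 + 1) : D.b n + 2 ≤ D.K1 := by
  have hN := h.geo.hN0
  have h5 := h.row.a_add 1 le_rfl hN
  rcases (show n = 0 ∨ n = 1 ∨ 2 ≤ n by omega) with h3 | h3 | h3
  · rw [h3, h.b_zero.1]; omega
  · rw [h3, h.b_zero.2]; omega
  · obtain ⟨k, rfl⟩ : ∃ k, n = k + 1 := ⟨n - 1, by omega⟩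
    rw [b_succ]
    exact h.row.a_add k (by omega) (by omega)

lemma bnx {n : ℕ} (h1 : 1 ≤ n) (h2 : n ≤ D.N0) : D.b (D.nx n) ≤ D.b (n + 1) := by
  rw [← nx_eq vF n]
  change D.b (min (n + 1) D.N0) ≤ _
  rcases h2.lt_or_eq with h3 | h3
  · rw [min_eq_left (by omega)]
  · rw [min_eq_right (by omega), ← h3]
    exact h.bm h1 h2

lemma nx1 {n : ℕ} (h1 : 1 ≤ n) : 1 ≤ D.nx n ∧ D.nx n ≤ D.N0 := by
  rw [← nx_eq vF n]
  change 1 ≤ min (n + 1) D.N0 ∧ min (n + 1) D.N0 ≤ D.N0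
  have := h.geo.hN0
  omega

lemma bd {n : ℕ} (h1 : 1 ≤ n) (h2 : n ≤ D.N0) : D.Bd n := by
  have := h.cs n h1 h2
  unfold cS at this
  simp only [Bool.and_eq_true] at this
  exact bd_of_cBd this.1.1

lemma rowS {n i j : ℕ} (h1 : 1 ≤ n) (h2 : n ≤ D.N0) (hi : D.b n ≤ i) (hi' : i ≤ D.K1)
    (hj : D.b n ≤ j) (hj' : j ≤ D.K2) : D.RowS n i j := by
  have := h.cs n h1 h2
  unfold cS at this
  simp only [Bool.and_eq_true] at this
  have h3 := fa_sound (fa_sound this.2 i hi (Nat.lt_succ_of_le hi')) j hj (Nat.lt_succ_of_le hj')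
  exact rowS_of (h.bd h1 h2) h.geo.gb h.geo.h12 h3

lemma x_mono {p q : ℕ} (hpq : p ≤ q) (hq : q ≤ D.K3) : D.x p ≤ D.x q := by
  induction q, hpq using Nat.le_induction with
  | base => exact le_rfl
  | succ q hq' ih =>
    have := h.geo.gap q (by omega)
    have := ih (by omega)
    omega

lemma g20 : ∀ k < D.K3, D.g k < 2 ^ 20 := fun _ _ => fl_lt _ _

lemma tabOk {n : ℕ} (h1 : 1 ≤ n) (h2 : n ≤ D.N0) :
    TabOk (D.toGD vF).G D.K1 D.K2 D.K3 (D.b n) ((D.toGD vF).T n) := by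
  have S0 := h.S0
  have h12 := h.geo.h12
  have h23 := h.geo.h23
  have hb := h.bK (n := n) (by omega)
  have gp : ∀ {i}, i ≤ D.K3 → (D.toGD vF).G (i + 1) - (D.toGD vF).G i = D.g i := by
    intro i hi
    rw [h.gapR hi]
    ring
  constructor
  · intro i j l p q r s t u
    exact div_le_div_of_nonneg_right (Nat.cast_le.2
      ((h.rowS h1 h2 p q.le r s).moX q l t u)) S0.le
  · intro i j l p q r s t u
    exact div_le_div_of_nonneg_right (Nat.cast_le.2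
      ((h.rowS h1 h2 p q r s.le).moY s l t u)) S0.le
  · intro i j l p q r s t u
    exact div_le_div_of_nonneg_right (Nat.cast_le.2
      ((h.rowS h1 h2 p q r s).moZ l t u)) S0.le
  · intro i j l p q r s t u
    rw [gp (by omega), gp (by omega)]
    exact slope3 S0 (h.g0 (by omega)) (h.g0 (by omega))
      ((h.rowS h1 h2 p (by omega) r s).coX q l t u)
  · intro i j l p q r s t u
    rw [gp (by omega), gp (by omega)]
    exact slope3 S0 (h.g0 (by omega)) (h.g0 (by omega))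
      ((h.rowS h1 h2 p q r (by omega)).coY s l t u)
  · intro i j l p q r s t u
    rw [gp (by omega), gp (by omega)]
    have hcs := h.cs n h1 h2
    unfold cS at hcs
    simp only [Bool.and_eq_true] at hcs
    exact slope3 S0 (h.g0 (by omega)) (h.g0 (by omega))
      (cZ_sound (h.bd h1 h2) h.g20 (by omega) (by omega) hcs.1.2 i j l p q r s t u)
  · intro i j l p q r s t u
    exact div_add_div_le S0 ((h.rowS h1 h2 p q.le r s.le).suXY q s l t u)
  · intro i j l p q r s t u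
    exact div_add_div_le S0 ((h.rowS h1 h2 p q.le r s).suXZ q l t u)
  · intro i j l p q r s t u
    exact div_add_div_le S0 ((h.rowS h1 h2 p q r s.le).suYZ s l t u)

lemma capOk {n : ℕ} (h1 : 1 ≤ n) (h2 : n ≤ D.N0) :
    CapOk (D.toGD vF).G D.m D.K1 D.K2 D.K3 (D.b n) ((D.toGD vF).T n) := by
  have h12 := h.geo.h12
  have h23 := h.geo.h23
  have hb := h.bK (n := n) (by omega)
  have hc := capN_of (h.bd h1 h2) (by omega) h12 (h.cc n h1 h2)
  constructor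
  · have := h.gapR (i := D.K1 - 1) (by omega)
    rw [show D.K1 - 1 + 1 = D.K1 by omega] at this
    rw [this]
    have h3 : (D.m : ℝ) ≤ D.g (D.K1 - 1) := by exact_mod_cast h.geo.c1
    linarith
  · have := h.gapR (i := D.K2 - 1) (by omega)
    rw [show D.K2 - 1 + 1 = D.K2 by omega] at this
    rw [this]
    have h3 : (D.m : ℝ) ≤ D.g (D.K2 - 1) := by exact_mod_cast h.geo.c2
    linarith
  · intro j l p q r s
    change (D.t n D.K1 j l : ℝ) / D.S = (D.t n D.K1 D.K1 D.K1 : ℝ) / D.S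
    rw [hc.c1 j l p q r s]
  · intro j l p q r s
    change (D.t n (D.K1 - 1) j l : ℝ) / D.S = (D.t n (D.K1 - 1) j (D.K1 - 1) : ℝ) / D.S
    rw [hc.c1' j l p q r s]
  · intro i l p q r s
    change (D.t n i D.K2 l : ℝ) / D.S = (D.t n i D.K2 D.K2 : ℝ) / D.S
    rw [hc.c2 i l p q r s]

lemma nxtOk {n : ℕ} (h1 : 1 ≤ n) (h2 : n < D.N0) :
    NxtOk D.K1 D.K2 D.K3 (D.b (n + 1)) ((D.toGD vF).T n) ((D.toGD vF).T (n + 1)) := by
  have S0 := h.S0
  have hn := nxtN_of (h.bd h1 h2.le) (h.bd (n := n + 1) (by omega) (by omega)) (h.bm h1 h2.le)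
    (h.cn n h1 h2)
  constructor
  · intro i j l p q r s t u
    exact div_add_div_le S0 (hn.nY i j l p q r s t u)
  · intro i j l p q r s t u
    exact div_add_div_le S0 (hn.nZ i j l p q r s t u)

lemma stepOk {K : ℕ} (hK : K ≤ D.K3) {js ls : ℕ → ℕ} (hs : StpB D K js ls) :
    StepOk (gN D.vG D.K3) D.m 0 K js ls := by
  have e : ∀ {i}, i ≤ D.K3 → gN D.vG D.K3 i = D.x i := fun hi => gN_of_le hi
  constructor
  · intro j _ hj
    obtain ⟨⟨a1, a2, a3⟩, -⟩ := hs j hj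
    refine ⟨a1, a2, ?_⟩
    rw [e (by omega), e (by omega)]
    exact a3
  · intro j _ hj
    obtain ⟨-, a1, a2, a3⟩ := hs j hj
    refine ⟨a1, a2, ?_⟩
    rw [e (by omega), e (by omega)]
    exact a3

lemma bN {n : ℕ} (h1 : 1 ≤ n) (h2 : n ≤ D.N0) : D.BN n (D.nx n) (D.b (n + 1)) :=
  bN_of h.geo (h.bd h1 h2) (h.bd (h.nx1 h1).1 (h.nx1 h1).2) (h.bm h1 h2) (h.bnx h1 h2)
    (h.cb n h1 h2)

lemma B2 {n : ℕ} (h1 : 1 ≤ n) (h2 : n ≤ D.N0) {i j l : ℕ} (hi : D.b (n + 1) ≤ i)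
    (hi' : i + 2 ≤ D.K1) (hj : i ≤ j) (hj' : j < D.K2) (hl : j ≤ l) (hl' : l < D.K3) :
    sZ (D.toGD vF).G ((D.toGD vF).T n) i j l ≤
      sY (D.toGD vF).G ((D.toGD vF).T n) (i + 1) (fl D.vc2 j) (fl D.vd3 l) := by
  have h23 := h.geo.h23
  have hc := (h.geo.s2 j hj').1.2.1
  have hc' : fl D.vc2 j < D.K2 := hc
  unfold sZ sY
  rw [h.gapR (by omega), h.gapR (by omega), add_sub_cancel_left, add_sub_cancel_left]
  exact slope4 h.S0 (h.g0 (by omega)) (h.g0 (by omega)) ((h.bN h1 h2).B2 i j l hi hi' hj hj' hl hl')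

lemma B1 {n : ℕ} (h1 : 1 ≤ n) (h2 : n ≤ D.N0) {i j l : ℕ} (hi : D.b (n + 1) ≤ i)
    (hi' : i < D.K1) (hj : i ≤ j) (hj' : j < D.K2) (hl : j ≤ l) (hl' : l ≤ D.K3) :
    sY (D.toGD vF).G ((D.toGD vF).T n) i j l + sZ' (D.toGD vF).G D.K3 ((D.toGD vF).T n) i j l ≤
      sX (D.toGD vF).G ((D.toGD vF).T (D.nx n)) (fl D.vc1 i) (fl D.vd2 j)
        (if l < D.K3 then fl D.vd3 l else D.K3) := by
  have h13 := h.K13
  have h23 := h.geo.h23
  have hc' : fl D.vc1 i < D.K1 := (h.geo.s1 i hi').1.2.1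
  have S0 := h.S0
  have gi := h.g0 (i := fl D.vc1 i) (by omega)
  have gj := h.g0 (i := j) (by omega)
  unfold sZ' sY sX
  split_ifs with h3
  · have gl := h.g0 (i := l) (by omega)
    unfold sZ
    rw [h.gapR (i := j) (by omega), h.gapR (i := l) (by omega),
      h.gapR (i := fl D.vc1 i) (by omega), add_sub_cancel_left, add_sub_cancel_left,
      add_sub_cancel_left]
    have h4 := (h.bN h1 h2).B1 i j l hi hi' hj hj' hl h3
    have h5 := (Nat.cast_le (α := ℝ)).2 h4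
    push_cast at h5
    change ((D.t n i (j + 1) l : ℝ) / D.S - (D.t n i j l : ℝ) / D.S) / D.g j +
      ((D.t n i j (l + 1) : ℝ) / D.S - (D.t n i j l : ℝ) / D.S) / D.g l ≤
      ((D.t (D.nx n) (fl D.vc1 i + 1) (fl D.vd2 j) (fl D.vd3 l) : ℝ) / D.S -
        (D.t (D.nx n) (fl D.vc1 i) (fl D.vd2 j) (fl D.vd3 l) : ℝ) / D.S) / D.g (fl D.vc1 i)
    rw [← sub_div, ← sub_div, ← sub_div, div_div, div_div, div_div, div_add_div _ _
      (by positivity) (by positivity), div_le_div_iff₀ (by positivity) (by positivity)]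
    have h6 := mul_le_mul_of_nonneg_left h5 (mul_nonneg S0.le S0.le)
    nlinarith
  · have hlK : l = D.K3 := by omega
    subst hlK
    rw [h.gapR (i := j) (by omega), h.gapR (i := fl D.vc1 i) (by omega), add_sub_cancel_left,
      add_sub_cancel_left, add_zero]
    exact slope4 S0 gj gi ((h.bN h1 h2).B1K i j hi hi' hj hj')

lemma eN {n : ℕ} (h1 : 1 ≤ n) (h2 : n ≤ D.N0) : D.EdgN n (D.nx n) (D.b (n + 1)) :=
  edgN_of h.geo h.EH (h.bd h1 h2) (h.bd (h.nx1 h1).1 (h.nx1 h1).2) (h.bm h1 h2) (h.bnx h1 h2)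
    (h.ce n h1 h2)

lemma hx {n : ℕ} (h1 : 1 ≤ n) (h2 : n ≤ D.N0) {i j l : ℕ} (hi : D.b (n + 1) ≤ i)
    (hi' : i < D.K1) (hg : 1 < D.g i) (hj : D.b (n + 1) ≤ j) (hj' : j ≤ D.K2)
    (hl : D.b (n + 1) ≤ l) (hl' : l ≤ D.K3) :
    hat (D.toGD vF).G D.K1 (fun k => (D.toGD vF).T (D.nx n) k j l) ((D.toGD vF).G (i + 1) + D.m) -
      hat (D.toGD vF).G D.K1 (fun k => (D.toGD vF).T (D.nx n) k j l) ((D.toGD vF).G i + D.m) ≤
    hat (D.toGD vF).G D.K1 (fun k => (D.toGD vF).T n k j l) ((D.toGD vF).G (i + 1) + 1) -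
      hat (D.toGD vF).G D.K1 (fun k => (D.toGD vF).T n k j l) ((D.toGD vF).G i + 1) := by
  have h13 := h.K13
  have S0 := h.S0
  have a1 := h.hat1 (D.nx n) j l (h.geo.p1 (i + 1) (by omega))
  have a0 := h.hat1 (D.nx n) j l (h.geo.p1 i (by omega))
  obtain ⟨-, -, -, q1⟩ := h.at_of h13 (h.geo.p1 (i + 1) (by omega))
  obtain ⟨-, -, -, q0⟩ := h.at_of h13 (h.geo.p1 i (by omega))
  push_cast at a1 a0
  rw [← h.Gx (by omega)] at a1 a0
  rw [a1, a0, h.hat1' n j l hi', h.hat1' n j l hi'.le]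
  have e := (Nat.cast_le (α := ℝ)).2 ((h.eN h1 h2).hx i j l hi hi' hg hj hj' hl hl')
  push_cast at e
  have gi := h.g0 (i := i) (by omega)
  have gi1 := h.g0 (i := i + 1) (by omega)
  have gp1 := h.g0 (i := fl D.vp1 (i + 1)) (by omega)
  have gp0 := h.g0 (i := fl D.vp1 i) (by omega)
  rw [div_sub_div _ _ (by positivity) (by positivity), div_sub_div _ _ (by positivity)
    (by positivity), div_le_div_iff₀ (by positivity) (by positivity)]
  have e2 := mul_le_mul_of_nonneg_left e (by positivity : (0 : ℝ) ≤ D.S * D.S * D.S)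
  nlinarith

lemma ex {n : ℕ} (h1 : 1 ≤ n) (h2 : n ≤ D.N0) {i j l : ℕ} (hi : D.b (n + 1) ≤ i)
    (hi' : i < D.K1) (hg : 1 < D.g i) (hj : i ≤ j) (hj' : j ≤ D.K2)
    (hl : i ≤ l) (hl' : l ≤ D.K3) (hjl : j ≤ l + 1) :
    ((D.toGD vF).G (i + 1) - (D.toGD vF).G i) *
      (((D.toGD vF).T (D.nx n) (i + 1) j l - (D.toGD vF).T (D.nx n) i j l) -
      (hat (D.toGD vF).G D.K1 (fun k => (D.toGD vF).T n k j l) ((D.toGD vF).G (i + 1) + 1) -
        hat (D.toGD vF).G D.K1 (fun k => (D.toGD vF).T n k j l) ((D.toGD vF).G i + 1))) ≤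
      2 * D.EH / D.S := by
  have h13 := h.K13
  have S0 := h.S0
  rw [h.hat1' n j l hi', h.hat1' n j l hi'.le, h.gapR (by omega), add_sub_cancel_left]
  have e := (Nat.cast_le (α := ℝ)).2 ((h.eN h1 h2).ex i j l hi hi' hg hj hj' hl hl' hjl)
  push_cast at e
  have gi := h.g0 (i := i) (by omega)
  have gi1 := h.g0 (i := i + 1) (by omega)
  change (D.g i : ℝ) * (((D.t (D.nx n) (i + 1) j l : ℝ) / D.S - (D.t (D.nx n) i j l : ℝ) / D.S) -
    ((D.h1t n (i + 1) j l : ℝ) / (D.g (i + 1) * D.S) - (D.h1t n i j l : ℝ) / (D.g i * D.S))) ≤ _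
  have e3 : (D.g i : ℝ) * (((D.t (D.nx n) (i + 1) j l : ℝ) / D.S -
      (D.t (D.nx n) i j l : ℝ) / D.S) -
      ((D.h1t n (i + 1) j l : ℝ) / (D.g (i + 1) * D.S) - (D.h1t n i j l : ℝ) / (D.g i * D.S))) =
      (D.g i * D.g (i + 1) * (D.t (D.nx n) (i + 1) j l - D.t (D.nx n) i j l) -
        D.g i * D.h1t n (i + 1) j l + D.g (i + 1) * D.h1t n i j l) / (D.g (i + 1) * D.S) := by
    field_simp
    ring
  rw [e3, div_le_div_iff₀ (by positivity) S0]
  have e2 := mul_le_mul_of_nonneg_left e S0.le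
  nlinarith

lemma ey {n : ℕ} (h1 : 1 ≤ n) (h2 : n ≤ D.N0) {i j l : ℕ} (hi : D.b (n + 1) ≤ i)
    (hi' : i ≤ D.K1) (hij : i ≤ j + 1) (hj : D.b (n + 1) ≤ j) (hj' : j < D.K2) (hg : 1 < D.g j)
    (hl : j ≤ l) (hl' : l ≤ D.K3) :
    ((D.toGD vF).G (j + 1) - (D.toGD vF).G j) *
      ((hat (D.toGD vF).G D.K1 (fun k => (D.toGD vF).T n k (j + 1) l) ((D.toGD vF).G i + 1) -
      hat (D.toGD vF).G D.K1 (fun k => (D.toGD vF).T n k j l) ((D.toGD vF).G i + 1)) -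
      (hat (D.toGD vF).G D.K2 (fun k => (D.toGD vF).T n i k l) ((D.toGD vF).G (j + 1) + 1) -
        hat (D.toGD vF).G D.K2 (fun k => (D.toGD vF).T n i k l) ((D.toGD vF).G j + 1))) ≤
      2 * D.EH / D.S := by
  have h13 := h.K13
  have h23 := h.geo.h23
  have S0 := h.S0
  rw [h.hat1' n (j + 1) l hi', h.hat1' n j l hi', h.hat2' n i l hj', h.hat2' n i l hj'.le,
    h.gapR (by omega), add_sub_cancel_left]
  have e := (Nat.cast_le (α := ℝ)).2 ((h.eN h1 h2).ey i j l hi hi' hij hj hj' hg hl hl')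
  push_cast at e
  have gi := h.g0 (i := i) (by omega)
  have gj := h.g0 (i := j) (by omega)
  have gj1 := h.g0 (i := j + 1) (by omega)
  have e3 : (D.g j : ℝ) * ((D.h1t n i (j + 1) l : ℝ) / (D.g i * D.S) -
      (D.h1t n i j l : ℝ) / (D.g i * D.S) -
      ((D.h2t n i (j + 1) l : ℝ) / (D.g (j + 1) * D.S) - (D.h2t n i j l : ℝ) / (D.g j * D.S))) =
      (D.g j * D.g (j + 1) * (D.h1t n i (j + 1) l - D.h1t n i j l) -
        D.g i * D.g j * D.h2t n i (j + 1) l + D.g i * D.g (j + 1) * D.h2t n i j l) /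
        (D.g i * D.g (j + 1) * D.S) := by
    field_simp
    ring
  rw [e3, div_le_div_iff₀ (by positivity) S0]
  have e2 := mul_le_mul_of_nonneg_left e S0.le
  nlinarith

end AllOk

end Dat

end Pool.Agent.Lib.MP_67d80e_pr_g3
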