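import Pool.Agent.Lib.MP_67d80e_pr_g3.ChT

/-!
The contribution of the highest set.
-/

set_option autoImplicit false

open scoped BigOperators
open Pool.Agent.Lib.MP_67d80e_pr_all

namespace Pool.Agent.Lib.MP_67d80e_pr_g3

namespace Dat

variable {D : Dat}

lemma ble_true {a b : ℕ} (h : a ≤ b) : Nat.ble a b = true := by rw [Nat.ble_eq]; exact h
lemma ble_false {a b : ℕ} (h : b < a) : Nat.ble a b = false := by
  rw [← Bool.not_eq_true, Nat.ble_eq]
  omega

lemma A_cast {n : ℕ} (h1 : 1 ≤ n) : (D.A n : ℝ) = n + D.m - max ((D.m : ℝ) + 1) n := by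
  have hp : Nat.pred n = n - 1 := rfl
  have hmax : max ((D.m : ℝ) + 1) n = ((max (D.m + 1) n : ℕ) : ℝ) := by push_cast; rfl
  rw [hmax]
  unfold A
  rw [hp]
  rcases Nat.lt_or_ge (n - 1) D.m with h | h
  · rw [ble_false h, max_eq_left (by omega)]
    change ((n - 1 : ℕ) : ℝ) = _
    rw [Nat.cast_sub h1]
    push_cast
    ring
  · rw [ble_true h, max_eq_right (by omega)]
    change (D.m : ℝ) = _
    ring

namespace AllOk

variable {d vE vF : ℕ} (h : D.AllOk d vE vF)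
include h

lemma f1_eq {x y z : ℝ} (hx : (D.toGD vF).G 0 ≤ x) (hy : (D.toGD vF).G 0 ≤ y)
    (hz : (D.toGD vF).G 0 ≤ z) : (D.toGD vF).f 1 x y z =
      F3 (D.toGD vF).G D.K1 D.K2 D.K3 ((D.toGD vF).T 1) x y z := by
  have hb : (D.toGD vF).b 1 = 0 := h.b_zero.2
  have := lay_eq (G := (D.toGD vF).G) (K1 := D.K1) (K2 := D.K2) (K3 := D.K3) (b := 0)
    (T := (D.toGD vF).T 1) hx hy hz
  unfold GD.f
  rw [hb]
  exact this

lemma x0 : D.x 0 = D.m + 1 := by
  have := h.row.g_zero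
  rw [h.geo.hm]
  exact this

lemma hf1 {n i j p r : ℕ} (hi : i ≤ D.K1) (hj : j ≤ D.K2) {x : ℕ} (hx : D.m + 1 ≤ x)
    (hp : PosB D D.K1 x p r) :
    (D.toGD vF).f 1 x ((D.toGD vF).G i) ((D.toGD vF).G j) =
      (D.hmt 1 p r i j : ℝ) / (D.g p * D.S) := by
  have h12 := h.geo.h12
  have h23 := h.geo.h23
  have gm := (g_mono h.hgr).monotone
  have hx' : (D.toGD vF).G 0 ≤ x := by
    rw [h.Gx (Nat.zero_le _), h.x0]
    exact_mod_cast hx
  rw [h.f1_eq hx' (gm (Nat.zero_le _)) (gm (Nat.zero_le _)),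
    F3_nodeYZ h.hgr _ (by omega) (by omega)]
  exact h.hat1 1 i j hp

lemma hf1h {n i j : ℕ} (h1 : 1 ≤ n) (h2 : n ≤ D.N0) (hi : i ≤ D.K1) (hj : j ≤ D.K2) :
    (D.toGD vF).f 1 (n + D.m) ((D.toGD vF).G i) ((D.toGD vF).G j) =
      (D.H1 n i j : ℝ) / (D.g (fl D.vph n) * D.S) := by
  have := h.hf1 (n := n) hi hj (x := n + D.m) (by omega) ((h.geo.ph n h2).resolve_left (by omega))
  push_cast at this
  exact this

lemma hf1l {n i j : ℕ} (h1 : 1 ≤ n) (h2 : n ≤ D.N0) (hi : i ≤ D.K1) (hj : j ≤ D.K2) :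
    (D.toGD vF).f 1 (max ((D.m : ℝ) + 1) n) ((D.toGD vF).G i) ((D.toGD vF).G j) =
      (D.H0 n i j : ℝ) / (D.g (fl D.vpl n) * D.S) := by
  have := h.hf1 (n := n) hi hj (x := max (D.m + 1) n) (le_max_left _ _)
    ((h.geo.pl n h2).resolve_left (by omega))
  push_cast at this
  exact this

lemma cst0 {n i : ℕ} (h2 : n ≤ D.N0) (hi : i ≤ D.K3) :
    D.S * cst D.m D.N0 (D.toGD vF).η D.E n 0 ((D.toGD vF).G i) =
      if n < D.N0 then (D.η (n + 1) * D.E (n + 1) : ℝ) * D.x i - (D.η n * D.E n) * D.x i -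
        n * (D.η (n + 1) * D.E (n + 1)) - D.η (n + 1) * (D.m * n)
      else - (n * (D.η n * D.E n)) := by
  have S0 := h.S0
  rw [h.Gx hi]
  unfold cst
  change D.S * (if n < D.N0 then
    (D.x i - n : ℝ) * ((D.η (n + 1) : ℝ) / D.S * (D.E (n + 1) - 0) - (D.η n : ℝ) / D.S *
      (D.E n - 0)) - (D.η (n + 1) : ℝ) / D.S * (D.m * n - 2 * 0) - n * ((D.η n : ℝ) / D.S *
      (D.E n - 0)) else - (n * ((D.η n : ℝ) / D.S * (D.E n - 0)))) = _
  split_ifs
  · field_simp
    ring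
  · field_simp
    ring

lemma cstE {n i : ℕ} (h2 : n ≤ D.N0) (hi : i ≤ D.K3) :
    D.S * cst D.m D.N0 (D.toGD vF).η D.E n (D.E n) ((D.toGD vF).G i) =
      if n < D.N0 then (D.η (n + 1) * D.E (n + 1) : ℝ) * D.x i - (D.η (n + 1) * D.E n) * D.x i -
        n * (D.η (n + 1) * D.E (n + 1)) + n * (D.η (n + 1) * D.E n) - D.η (n + 1) * (D.m * n) +
        D.η (n + 1) * (2 * D.E n)
      else 0 := by
  have S0 := h.S0
  rw [h.Gx hi]
  unfold cst
  change D.S * (if n < D.N0 then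
    (D.x i - n : ℝ) * ((D.η (n + 1) : ℝ) / D.S * (D.E (n + 1) - D.E n) - (D.η n : ℝ) / D.S *
      (D.E n - D.E n)) - (D.η (n + 1) : ℝ) / D.S * (D.m * n - 2 * D.E n) - n *
      ((D.η n : ℝ) / D.S * (D.E n - D.E n)) else - (n * ((D.η n : ℝ) / D.S * (D.E n - D.E n)))) = _
  split_ifs
  · field_simp
    ring
  · ring

lemma U0_ge {n i j : ℕ} (h1 : 1 ≤ n) (h2 : n ≤ D.N0) (hi : i ≤ D.K1) (hj : j ≤ D.K2) :
    (D.p0 n i j : ℝ) - D.q0 n i ≤
      D.S * (D.toGD vF).U n 0 ((D.toGD vF).G i) ((D.toGD vF).G j) - (D.C + D.EH) := by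
  have S0 := h.S0
  have h13 := h.K13
  have hu : ((D.u0 n i j : ℕ) : ℝ) ≤ n * D.S + n * D.H1 n i j / D.g (fl D.vph n) := by
    have : D.u0 n i j = n * D.S + n * D.H1 n i j / D.g (fl D.vph n) := rfl
    rw [this]
    push_cast
    have := Nat.cast_div_le (α := ℝ) (m := n * D.H1 n i j) (n := D.g (fl D.vph n))
    push_cast at this
    linarith
  have hpos : 0 < D.g (fl D.vph n) := by
    obtain ⟨-, -, q, -⟩ := h.at_of h13 ((h.geo.ph n h2).resolve_left (by omega))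
    exact q
  have hpos' : (0 : ℝ) < D.g (fl D.vph n) := by exact_mod_cast hpos
  have hU : D.S * (D.toGD vF).U n 0 ((D.toGD vF).G i) ((D.toGD vF).G j) =
      n * D.S + n * D.H1 n i j / D.g (fl D.vph n) +
      D.S * cst D.m D.N0 (D.toGD vF).η D.E n 0 ((D.toGD vF).G i) := by
    unfold GD.U topU
    change D.S * (n * (1 + (D.toGD vF).f 1 (n + D.m) _ _) - 2 * 0 * _ +
      cst D.m D.N0 (D.toGD vF).η D.E n 0 _) = _
    rw [h.hf1h h1 h2 hi hj]
    field_simp
    ring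
  rw [hU, h.cst0 h2 (by omega)]
  rcases Nat.lt_or_ge n D.N0 with h3 | h3
  · rw [if_pos h3]
    unfold p0 q0
    rw [ble_false h3]
    change ((D.u0 n i j + (D.η (n + 1) * D.E (n + 1)) * D.x i : ℕ) : ℝ) -
      ((D.C + D.EH + ((D.η n * D.E n) * D.x i + (n * (D.η (n + 1) * D.E (n + 1)) +
        D.η (n + 1) * (D.m * n))) : ℕ) : ℝ) ≤ _
    push_cast
    linarith
  · rw [if_neg (by omega)]
    unfold p0 q0
    rw [ble_true h3]
    change ((D.u0 n i j : ℕ) : ℝ) - ((D.C + D.EH + n * (D.η n * D.E n) : ℕ) : ℝ) ≤ _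
    push_cast
    linarith

lemma UE_ge {n i j : ℕ} (h1 : 2 ≤ n) (h2 : n ≤ D.N0) (hi : i ≤ D.K1) (hj : j ≤ D.K2) :
    (D.pE n i j : ℝ) - D.qE n i ≤
      D.S * (D.toGD vF).U n (D.E n) ((D.toGD vF).G i) ((D.toGD vF).G j) - (D.C + D.EH) := by
  have S0 := h.S0
  have h13 := h.K13
  have hE2 := h.geo.E2 n h2
  have hA : (0 : ℝ) < D.A n := by
    have : 0 < D.A n := by
      unfold A
      have hp : Nat.pred n = n - 1 := rfl
      have hm := h.geo.m0
      rw [hp]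
      rcases Nat.lt_or_ge (n - 1) D.m with h4 | h4
      · rw [ble_false h4]
        change 0 < n - 1
        omega
      · rw [ble_true h4]
        exact hm
    exact_mod_cast this
  have hpos : (0 : ℝ) < D.g (fl D.vph n) := by
    obtain ⟨-, -, q, -⟩ := h.at_of h13 ((h.geo.ph n h2).resolve_left (by omega))
    exact_mod_cast q
  have hpos2 : (0 : ℝ) < D.g (fl D.vpl n) := by
    obtain ⟨-, -, q, -⟩ := h.at_of h13 ((h.geo.pl n h2).resolve_left (by omega))
    exact_mod_cast q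
  have hu : ((D.uE n i j : ℕ) : ℝ) ≤ n * D.S +
      ((n * D.A n - 2 * D.E n) * D.g (fl D.vpl n) * D.H1 n i j +
        2 * D.E n * D.g (fl D.vph n) * D.H0 n i j) /
        (D.A n * (D.g (fl D.vph n) * D.g (fl D.vpl n))) := by
    have e : D.uE n i j = n * D.S + (((n * D.A n - 2 * D.E n) * D.g (fl D.vpl n)) * D.H1 n i j +
      (2 * D.E n * D.g (fl D.vph n)) * D.H0 n i j) /
        (D.A n * (D.g (fl D.vph n) * D.g (fl D.vpl n))) := rfl
    rw [e]
    have e3 := Nat.cast_div_le (α := ℝ)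
      (m := ((n * D.A n - 2 * D.E n) * D.g (fl D.vpl n)) * D.H1 n i j +
        (2 * D.E n * D.g (fl D.vph n)) * D.H0 n i j)
      (n := D.A n * (D.g (fl D.vph n) * D.g (fl D.vpl n)))
    push_cast [Nat.cast_sub hE2] at e3
    rw [Nat.cast_add, Nat.cast_mul]
    linarith
  have hU : D.S * (D.toGD vF).U n (D.E n) ((D.toGD vF).G i) ((D.toGD vF).G j) =
      n * D.S + ((n * D.A n - 2 * D.E n) * D.g (fl D.vpl n) * D.H1 n i j +
        2 * D.E n * D.g (fl D.vph n) * D.H0 n i j) /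
        (D.A n * (D.g (fl D.vph n) * D.g (fl D.vpl n))) +
      D.S * cst D.m D.N0 (D.toGD vF).η D.E n (D.E n) ((D.toGD vF).G i) := by
    unfold GD.U topU
    change D.S * (n * (1 + (D.toGD vF).f 1 (n + D.m) _ _) -
      2 * D.E n * (((D.toGD vF).f 1 (n + D.m) _ _ - (D.toGD vF).f 1 (max ((D.m : ℝ) + 1) n) _ _) /
        (n + D.m - max ((D.m : ℝ) + 1) n)) +
      cst D.m D.N0 (D.toGD vF).η D.E n (D.E n) _) = _
    rw [← A_cast (D := D) (by omega), h.hf1h (by omega) h2 hi hj, h.hf1l (by omega) h2 hi hj]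
    field_simp
    ring
  rw [hU, h.cstE h2 (by omega)]
  rcases Nat.lt_or_ge n D.N0 with h3 | h3
  · rw [if_pos h3]
    unfold pE qE
    rw [ble_false h3]
    change ((D.uE n i j + ((D.η (n + 1) * D.E (n + 1)) * D.x i +
        (n * (D.η (n + 1) * D.E n) + D.η (n + 1) * (2 * D.E n))) : ℕ) : ℝ) -
      ((D.C + D.EH + ((D.η (n + 1) * D.E n) * D.x i + (n * (D.η (n + 1) * D.E (n + 1)) +
        D.η (n + 1) * (D.m * n))) : ℕ) : ℝ) ≤ _
    push_cast
    linarith
  · rw [if_neg (by omega)]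
    unfold pE qE
    rw [ble_true h3]
    change ((D.uE n i j : ℕ) : ℝ) - ((D.C + D.EH + 0 : ℕ) : ℝ) ≤ _
    push_cast
    linarith

/-- the two values of the number of edges -/
lemma U_ge {n i j : ℕ} (h1 : 1 ≤ n) (h2 : n ≤ D.N0) (hi : i ≤ D.K1) (hj : j ≤ D.K2) {e : ℝ}
    (he : e = 0 ∨ e = D.E n) :
    (D.up n i j : ℝ) - D.un n i j ≤
      D.S * (D.toGD vF).U n e ((D.toGD vF).G i) ((D.toGD vF).G j) - (D.C + D.EH) := by
  have a0 := h.U0_ge h1 h2 hi hj
  rcases Nat.lt_or_ge 1 n with h3 | h3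
  · have aE := h.UE_ge (show 2 ≤ n from h3) h2 hi hj
    by_cases hc : D.p0 n i j + D.qE n i ≤ D.pE n i j + D.q0 n i
    · have ht : D.ts n i j = true := by
        unfold ts
        rw [Bool.or_eq_true]
        right
        exact ble_true hc
      have hc' : (D.p0 n i j : ℝ) + D.qE n i ≤ D.pE n i j + D.q0 n i := by exact_mod_cast hc
      unfold up un
      rw [ht]
      change (D.p0 n i j : ℝ) - D.q0 n i ≤ _
      rcases he with rfl | rfl
      · exact a0
      · linarith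
    · have ht : D.ts n i j = false := by
        unfold ts
        rw [Bool.or_eq_false_iff]
        exact ⟨ble_false h3, ble_false (show D.pE n i j + D.q0 n i < _ by
          change D.pE n i j + D.q0 n i < D.p0 n i j + D.qE n i
          omega)⟩
      have hc' : (D.pE n i j : ℝ) + D.q0 n i ≤ D.p0 n i j + D.qE n i := by
        have : D.pE n i j + D.q0 n i ≤ D.p0 n i j + D.qE n i := by omega
        exact_mod_cast this
      unfold up un
      rw [ht]
      change (D.pE n i j : ℝ) - D.qE n i ≤ _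
      rcases he with rfl | rfl
      · linarith
      · exact aE
  · have hn : n = 1 := by omega
    subst hn
    have ht : D.ts 1 i j = true := rfl
    unfold up un
    rw [ht]
    change (D.p0 1 i j : ℝ) - D.q0 1 i ≤ _
    have he0 : e = 0 := by
      rcases he with rfl | rfl
      · rfl
      · rw [h.geo.E1, Nat.cast_zero]
    rw [he0]
    exact a0

end AllOk

end Dat

end Pool.Agent.Lib.MP_67d80e_pr_g3
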