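import Pool.Agent.Lib.MP_67d80e_pr_g3.ChS

/-!
Correctness of the check of concavity in the last index (masked vectors).
-/

set_option autoImplicit false

open scoped BigOperators
open Pool.Agent.Lib.MP_67d80e_pr_all

namespace Pool.Agent.Lib.MP_67d80e_pr_g3

open Dat (us cZl)

lemma testBit_p64 {f : ℕ → ℕ} {k : ℕ} (hf : ∀ i < k, f i < 2 ^ 64) {i r : ℕ} (hr : r < 64) :
    (p64 f k).testBit (64 * i + r) = if i < k then (f i).testBit r else false := by
  split_ifs with h
  · rw [← testBit_w64 _ _ _ hr, w64_p64 hf h]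
  · refine Nat.testBit_lt_two_pow ((p64_lt hf).trans_le (Nat.pow_le_pow_right (by norm_num) ?_))
    omega

lemma shr_land {g : ℕ → ℕ} {N : ℕ} (hg : ∀ i < N, g i < 2 ^ 64) (v q : ℕ) :
    (v >>> (64 * q)) &&& p64 g N = p64 (fun i => w64 v (q + i) &&& g i) N := by
  refine Nat.eq_of_testBit_eq fun b => ?_
  obtain ⟨i, r, hr, rfl⟩ : ∃ i r, r < 64 ∧ b = 64 * i + r :=
    ⟨b / 64, b % 64, Nat.mod_lt _ (by norm_num), (Nat.div_add_mod b 64).symm⟩
  have h2 : ∀ i < N, w64 v (q + i) &&& g i < 2 ^ 64 := fun i hi =>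
    lt_of_le_of_lt Nat.and_le_right (hg i hi)
  rw [Nat.testBit_and, testBit_p64 hg hr, testBit_p64 h2 hr]
  split_ifs with h
  · rw [Nat.testBit_and, Nat.testBit_shiftRight, testBit_w64 _ _ _ hr]
    congr 2
    ring
  · rw [Bool.and_false]

lemma p64_split (f : ℕ → ℕ) (a b : ℕ) :
    p64 f (a + b) = p64 f a + 2 ^ (64 * a) * p64 (fun i => f (a + i)) b := by
  unfold p64
  rw [Finset.sum_range_add, Finset.mul_sum]
  congr 1
  refine Finset.sum_congr rfl fun i _ => ?_
  rw [Nat.mul_add, pow_add]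
  ring

/-- the pattern -/
def pat (w i : ℕ) : ℕ := if i % w = 0 then 1 else 0

lemma pat_one {w : ℕ} (hw : 0 < w) : p64 (pat w) w = 1 := by
  unfold p64
  rw [Finset.sum_eq_single 0]
  · simp [pat]
  · intro i hi h0
    rw [Finset.mem_range] at hi
    rw [pat, Nat.mod_eq_of_lt hi, if_neg h0, zero_mul]
  · intro h
    exact absurd (Finset.mem_range.2 hw) h

lemma us_eq {w : ℕ} (hw : 0 < w) (R : ℕ) : us w R = p64 (pat w) (w * R) := by
  have h1 : ∀ R, p64 (pat w) (w * R) * (2 ^ (64 * w) - 1) = 2 ^ (64 * w * R) - 1 := by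
    intro R
    induction R with
    | zero => simp [p64]
    | succ R ih =>
      have e : (fun i => pat w (w * R + i)) = pat w := by
        funext i
        unfold pat
        rw [Nat.mul_add_mod]
      rw [Nat.mul_succ, p64_split, e, pat_one hw, mul_one, add_mul, ih, ← mul_assoc, Nat.mul_succ,
        pow_add]
      have a1 : 1 ≤ 2 ^ (64 * w * R) := Nat.one_le_two_pow
      have a2 : 1 ≤ 2 ^ (64 * w) := Nat.one_le_two_pow
      have a3 : 2 ^ (64 * w * R) * (2 ^ (64 * w) - 1) =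
          2 ^ (64 * w * R) * 2 ^ (64 * w) - 2 ^ (64 * w * R) := by
        rw [Nat.mul_sub, mul_one]
      have a4 : 2 ^ (64 * w * R) ≤ 2 ^ (64 * w * R) * 2 ^ (64 * w) := Nat.le_mul_of_pos_right _ a2
      omega
  have h2 : us w R = (2 ^ (64 * w * R) - 1) / (2 ^ (64 * w) - 1) := rfl
  have h3 : 0 < 2 ^ (64 * w) - 1 := by
    have : 2 ^ 1 ≤ 2 ^ (64 * w) := Nat.pow_le_pow_right (by norm_num) (by omega)
    omega
  rw [h2, ← h1 R, Nat.mul_div_cancel _ h3]

lemma msk_eq {w : ℕ} (hw : 0 < w) (v q R : ℕ) :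
    Nat.land (Nat.shiftRight v (Nat.mul 64 q)) (Nat.mul 18446744073709551615 (us w R)) =
      p64 (fun i => pat w i * w64 v (q + i)) (w * R) := by
  have h1 : Nat.mul 18446744073709551615 (us w R) =
      p64 (fun i => (2 ^ 64 - 1) * pat w i) (w * R) := by
    have : Nat.mul 18446744073709551615 (us w R) = (2 ^ 64 - 1) * us w R := by
      have e : (2 ^ 64 - 1 : ℕ) = 18446744073709551615 := by norm_num
      rw [e]
      rfl
    rw [this, us_eq hw, p64_mul]
  have hp : ∀ i, pat w i ≤ 1 := fun i => by unfold pat; split_ifs <;> omega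
  rw [h1]
  have h2 : Nat.land (Nat.shiftRight v (Nat.mul 64 q)) (p64 (fun i => (2 ^ 64 - 1) * pat w i)
      (w * R)) = (v >>> (64 * q)) &&& p64 (fun i => (2 ^ 64 - 1) * pat w i) (w * R) := rfl
  rw [h2, shr_land (fun i _ => by
    have := hp i
    calc (2 ^ 64 - 1) * pat w i ≤ (2 ^ 64 - 1) * 1 := Nat.mul_le_mul_left _ this
      _ < 2 ^ 64 := by norm_num)]
  refine p64_congr fun i _ => ?_
  unfold pat
  split_ifs
  · rw [mul_one, Nat.and_two_pow_sub_one_eq_mod, Nat.mod_eq_of_lt (w64_lt _ _), one_mul]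
  · rw [mul_zero, Nat.and_zero, zero_mul]

/-- comparison on a pattern -/
theorem le64_pat {k : ℕ} {a c u : ℕ → ℕ} (hu : ∀ i < k, u i ≤ 1) (h0 : ∀ i < k, u i = 0 → c i = 0)
    (ha : ∀ i < k, a i < 2 ^ 63) (hc : ∀ i < k, c i < 2 ^ 63)
    (h : le64 (p64 a k) (p64 c k) (p64 u k) = true) : ∀ i < k, u i = 1 → c i ≤ a i := by
  have h1 : (p64 a k + 9223372036854775808 * p64 u k - p64 c k) &&&
      (9223372036854775808 * p64 u k) = 9223372036854775808 * p64 u k :=
    Nat.eq_of_beq_eq_true h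
  have hZ : p64 a k + 9223372036854775808 * p64 u k - p64 c k =
      p64 (fun i => a i + 9223372036854775808 * u i - c i) k := by
    have h2 : p64 (fun i => a i + 9223372036854775808 * u i - c i) k + p64 c k =
        p64 a k + 9223372036854775808 * p64 u k := by
      rw [p64_mul, p64_add, p64_add]
      refine p64_congr fun i hi => ?_
      have h3 := hc i hi
      have h4 := hu i hi
      have h5 := h0 i hi
      norm_num at h3
      rcases (show u i = 0 ∨ u i = 1 by omega) with h6 | h6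
      · rw [h6, h5 h6]; omega
      · rw [h6]; omega
    omega
  rw [hZ, p64_mul] at h1
  intro i hi hi1
  have hf : ∀ i < k, a i + 9223372036854775808 * u i - c i < 2 ^ 64 := fun i hi => by
    have h3 := ha i hi
    have h4 := hu i hi
    norm_num at h3 ⊢
    omega
  have hg : ∀ i < k, 9223372036854775808 * u i < 2 ^ 64 := fun i hi => by
    have h4 := hu i hi
    norm_num
    omega
  have h3 : (p64 (fun i => 9223372036854775808 * u i) k).testBit (64 * i + 63) = true := by
    rw [testBit_p64 hg (by norm_num), if_pos hi, hi1]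
    decide
  have h4 : (p64 (fun i => a i + 9223372036854775808 * u i - c i) k).testBit (64 * i + 63) =
      true := by
    rw [← h1, Nat.testBit_and, Bool.and_eq_true] at h3
    exact h3.1
  rw [testBit_p64 hf (by norm_num), if_pos hi] at h4
  have h6 := Nat.ge_two_pow_of_testBit h4
  norm_num at h6
  omega

theorem cZl_sound {v w R l g0 g1 : ℕ} (hw : 0 < w) (hv : ∀ i, w64 v i < 2 ^ 24) (h0 : g0 < 2 ^ 20)
    (h1 : g1 < 2 ^ 20) (h : cZl v w R l g0 g1 = true) : ∀ r < R,
    g0 * w64 v (w * r + (l + 2)) + g1 * w64 v (w * r + l) ≤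
      (g0 + g1) * w64 v (w * r + (l + 1)) := by
  have hp : ∀ i, pat w i ≤ 1 := fun i => by unfold pat; split_ifs <;> omega
  have hb : ∀ q i, pat w i * w64 v (q + i) < 2 ^ 24 := by
    intro q i
    calc pat w i * w64 v (q + i) ≤ 1 * w64 v (q + i) := Nat.mul_le_mul_right _ (hp i)
      _ < 2 ^ 24 := by rw [one_mul]; exact hv _
  have hA : Nat.mul (Nat.add g0 g1) (Nat.land (Nat.shiftRight v (Nat.mul 64 (Nat.succ l)))
      (Nat.mul 18446744073709551615 (us w R))) =
      p64 (fun i => (g0 + g1) * (pat w i * w64 v (l + 1 + i))) (w * R) := by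
    rw [msk_eq hw, ← p64_mul]
    rfl
  have hC : Nat.add (Nat.mul g0 (Nat.land (Nat.shiftRight v (Nat.mul 64 (Nat.add l 2)))
        (Nat.mul 18446744073709551615 (us w R))))
      (Nat.mul g1 (Nat.land (Nat.shiftRight v (Nat.mul 64 l))
        (Nat.mul 18446744073709551615 (us w R)))) =
      p64 (fun i => g0 * (pat w i * w64 v (l + 2 + i)) + g1 * (pat w i * w64 v (l + i)))
        (w * R) := by
    rw [msk_eq hw, msk_eq hw, ← p64_add, ← p64_mul, ← p64_mul]
    rfl
  unfold cZl at h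
  rw [hA, hC, us_eq hw] at h
  have key := le64_pat (fun i _ => hp i) (fun i _ hi => by rw [hi]; ring)
    (fun i _ => lt_mul (lt_add h0 h1 le_rfl) (hb _ _) (by norm_num))
    (fun i _ => lt_add (lt_mul h0 (hb _ _) le_rfl) (lt_mul h1 (hb _ _) le_rfl) (by norm_num)) h
  intro r hr
  have hi : w * r < w * R := Nat.mul_lt_mul_of_pos_left hr hw
  have hpr : pat w (w * r) = 1 := by
    unfold pat
    rw [Nat.mul_mod_right, if_pos rfl]
  have := key (w * r) hi hpr
  rw [hpr, one_mul, one_mul, one_mul] at this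
  have e1 : w * r + (l + 2) = l + 2 + w * r := by ring
  have e2 : w * r + l = l + w * r := by ring
  have e3 : w * r + (l + 1) = l + 1 + w * r := by ring
  rw [e1, e2, e3]
  exact this

namespace Dat

variable {D : Dat}

theorem cZ_sound {n : ℕ} (hbd : D.Bd n) (hg : ∀ k < D.K3, D.g k < 2 ^ 20)
    (hb1 : D.b n ≤ D.K1) (hb2 : D.b n ≤ D.K2) (h : D.cZ n (D.b n) = true) :
    ∀ i j l, D.b n ≤ i → i ≤ D.K1 → D.b n ≤ j → j ≤ D.K2 → D.b n ≤ l → l + 1 < D.K3 →
      D.g l * D.t n i j (l + 2) + D.g (l + 1) * D.t n i j l ≤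
        (D.g l + D.g (l + 1)) * D.t n i j (l + 1) := by
  intro i j l hi hi' hj hj' hl hl'
  have h1 := al_sound h (l - D.b n) (by
    have : Nat.sub D.K3 (Nat.succ (D.b n)) = D.K3 - (D.b n + 1) := rfl
    omega)
  have e1 : Nat.add (D.b n) (l - D.b n) = l := by
    have : Nat.add (D.b n) (l - D.b n) = D.b n + (l - D.b n) := rfl
    omega
  have e2 : Nat.add (D.b n) (Nat.succ (l - D.b n)) = l + 1 := by
    have : Nat.add (D.b n) (Nat.succ (l - D.b n)) = D.b n + (l - D.b n + 1) := rfl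
    omega
  rw [e1, e2] at h1
  have hw0 : 0 < Nat.sub (Nat.succ D.K3) (D.b n) := by
    change 0 < D.K3 + 1 - D.b n
    omega
  have h2 := cZl_sound (v := D.tb n) hw0 ?_ (hg l (by omega)) (hg (l + 1) hl') h1
    ((i - D.b n) * (D.K2 + 1 - D.b n) + (j - D.b n)) ?_
  · have hw : Nat.sub (Nat.succ D.K3) (D.b n) = D.K3 + 1 - D.b n := rfl
    rw [hw] at h2
    unfold t
    rw [ix_eq, ix_eq, ix_eq]
    have e3 : l + 2 - D.b n = l - D.b n + 2 := by omega
    have e4 : l + 1 - D.b n = l - D.b n + 1 := by omega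
    rw [e3, e4]
    rw [Nat.mul_comm (D.K3 + 1 - D.b n) ((i - D.b n) * (D.K2 + 1 - D.b n) + (j - D.b n))] at h2
    exact h2
  · -- every field is an entry
    intro q
    have hw3 : 0 < D.K3 + 1 - D.b n := by omega
    have hw2 : 0 < D.K2 + 1 - D.b n := by omega
    set w3 := D.K3 + 1 - D.b n with hw3d
    set w2 := D.K2 + 1 - D.b n with hw2d
    have := hbd (D.b n + q / w3 / w2) (D.b n + q / w3 % w2) (D.b n + q % w3)
    unfold t at this
    rw [ix_eq] at this
    rw [Nat.add_sub_cancel_left, Nat.add_sub_cancel_left, Nat.add_sub_cancel_left, ← hw3d,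
      ← hw2d] at this
    have e8 : q / w3 / w2 * w2 + q / w3 % w2 = q / w3 := by
      rw [Nat.mul_comm]; exact Nat.div_add_mod _ _
    have e9 : q / w3 * w3 + q % w3 = q := by
      rw [Nat.mul_comm]; exact Nat.div_add_mod _ _
    rw [e8, e9] at this
    exact this
  · have e3 : Nat.mul (Nat.sub (Nat.succ D.K1) (D.b n)) (Nat.sub (Nat.succ D.K2) (D.b n)) =
        (D.K1 + 1 - D.b n) * (D.K2 + 1 - D.b n) := rfl
    rw [e3]
    have a1 : i - D.b n + 1 ≤ D.K1 + 1 - D.b n := by omega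
    have a2 : j - D.b n < D.K2 + 1 - D.b n := by omega
    calc (i - D.b n) * (D.K2 + 1 - D.b n) + (j - D.b n) <
        (i - D.b n) * (D.K2 + 1 - D.b n) + (D.K2 + 1 - D.b n) := Nat.add_lt_add_left a2 _
      _ = (i - D.b n + 1) * (D.K2 + 1 - D.b n) := by ring
      _ ≤ _ := Nat.mul_le_mul_right _ a1

end Dat

end Pool.Agent.Lib.MP_67d80e_pr_g3
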