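import Pool.Agent.Lib.MP_67d80e_pr_g3.Lt

/-!
The kernel checker for the conditions of the grid lemma: definitions.
-/

set_option autoImplicit false

open Pool.Agent.Lib.MP_67d80e_pr_all

namespace Pool.Agent.Lib.MP_67d80e_pr_g3

/-- `p i` for all `i < k` -/
def al (p : Nat → Bool) : Nat → Bool
  | 0 => true
  | k + 1 => p k && al p k

/-- `p i` for `lo ≤ i < hi` -/
def fa (lo hi : Nat) (p : Nat → Bool) : Bool := al (fun k => p (Nat.add lo k)) (Nat.sub hi lo)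

/-- the data; packed vectors have fields of 20 bits, the layers `tb n` and `vη` fields of 64 bits -/
structure Dat where
  m : Nat
  N0 : Nat
  K1 : Nat
  K2 : Nat
  K3 : Nat
  /-- scale of the values -/
  S : Nat
  /-- the bound is `C / S` -/
  C : Nat
  /-- half of the slack of the edges -/
  EH : Nat
  /-- scale of the rows -/
  Q : Nat
  /-- the grid -/
  vG : Nat
  /-- the gaps -/
  vg : Nat
  /-- cells and offsets of `G i + m` -/
  vp1 : Nat
  vr1 : Nat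
  vp2 : Nat
  vr2 : Nat
  vp3 : Nat
  vr3 : Nat
  /-- indices after a step -/
  vc1 : Nat
  vd1 : Nat
  vc2 : Nat
  vd2 : Nat
  vc3 : Nat
  vd3 : Nat
  /-- the first indices of the states -/
  vA : Nat
  /-- maximal numbers of edges -/
  vE : Nat
  /-- cells and offsets of `n + m` and of `max (m + 1) n` -/
  vph : Nat
  vrh : Nat
  vpl : Nat
  vrl : Nat
  vη : Nat
  vR : Nat
  tb : Nat → Nat

namespace Dat

variable (D : Dat)

/-- gap -/
def g (i : Nat) : Nat := fl D.vg i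
/-- first index of the layer -/
def b (n : Nat) : Nat := fl D.vA (Nat.pred n)
/-- next layer -/
def nx (n : Nat) : Nat := bif Nat.ble D.N0 n then D.N0 else Nat.succ n

/-- position of the row `(i, j)` of the layer `n`, from the entry `a` on -/
def ix (n a i j : Nat) : Nat :=
  Nat.add (Nat.mul (Nat.add (Nat.mul (Nat.sub i (D.b n)) (Nat.sub (Nat.succ D.K2) (D.b n)))
    (Nat.sub j (D.b n))) (Nat.sub (Nat.succ D.K3) (D.b n))) (Nat.sub a (D.b n))

/-- `k` entries of the row `(i, j)` from `a` on -/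
def rk (n a k i j : Nat) : Nat := s64 (D.tb n) (D.ix n a i j) k

/-- the row `(i, j)` from `a` on -/
def row (n a i j : Nat) : Nat := D.rk n a (Nat.sub (Nat.succ D.K3) a) i j

/-- an entry -/
def t (n i j l : Nat) : Nat := w64 (D.tb n) (D.ix n l i j)

/-! ### shape -/

/-- number of entries of the layer -/
def tot (n : Nat) : Nat := Nat.mul (Nat.mul (Nat.sub (Nat.succ D.K1) (D.b n))
  (Nat.sub (Nat.succ D.K2) (D.b n))) (Nat.sub (Nat.succ D.K3) (D.b n))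

/-- all entries are `< 2 ^ 24` -/
def cBd (n : Nat) : Bool :=
  bd64 (D.tb n) 24 (D.tot n) && Nat.beq (Nat.shiftRight (D.tb n) (Nat.mul 64 (D.tot n))) 0

/-- conditions on a row, `u` and `u1` are the vectors of ones -/
def cSr (n b k u u1 i j : Nat) : Bool :=
  (Nat.ble D.K1 i || (le64 (D.rk n b k (Nat.succ i) j) (D.rk n b k i j) u &&
    le64 (Nat.add (D.rk n b (Nat.pred k) (Nat.succ i) j) (D.rk n (Nat.succ b) (Nat.pred k) i j))
      (Nat.add (D.rk n (Nat.succ b) (Nat.pred k) (Nat.succ i) j) (D.rk n b (Nat.pred k) i j)) u1 &&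
    (Nat.ble D.K2 j || le64 (Nat.add (D.rk n b k (Nat.succ i) j) (D.rk n b k i (Nat.succ j)))
      (Nat.add (D.rk n b k (Nat.succ i) (Nat.succ j)) (D.rk n b k i j)) u))) &&
  (Nat.ble D.K2 j || (le64 (D.rk n b k i (Nat.succ j)) (D.rk n b k i j) u &&
    le64 (Nat.add (D.rk n b (Nat.pred k) i (Nat.succ j)) (D.rk n (Nat.succ b) (Nat.pred k) i j))
      (Nat.add (D.rk n (Nat.succ b) (Nat.pred k) i (Nat.succ j)) (D.rk n b (Nat.pred k) i j))
        u1)) &&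
  le64 (D.rk n (Nat.succ b) (Nat.pred k) i j) (D.rk n b (Nat.pred k) i j) u1 &&
  (Nat.ble D.K1 (Nat.succ i) || le64
    (Nat.mul (Nat.add (D.g i) (D.g (Nat.succ i))) (D.rk n b k (Nat.succ i) j))
    (Nat.add (Nat.mul (D.g i) (D.rk n b k (Nat.add i 2) j))
      (Nat.mul (D.g (Nat.succ i)) (D.rk n b k i j))) u) &&
  (Nat.ble D.K2 (Nat.succ j) || le64
    (Nat.mul (Nat.add (D.g j) (D.g (Nat.succ j))) (D.rk n b k i (Nat.succ j)))
    (Nat.add (Nat.mul (D.g j) (D.rk n b k i (Nat.add j 2)))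
      (Nat.mul (D.g (Nat.succ j)) (D.rk n b k i j))) u)

/-- the vector with the fields `1` at the multiples of `s` -/
def us (s k : Nat) : Nat :=
  Nat.div (Nat.sub (Nat.pow 2 (Nat.mul (Nat.mul 64 s) k)) 1) (Nat.sub (Nat.pow 2 (Nat.mul 64 s)) 1)

/-- concavity in the last index at the entries in position `l` of the rows of length `w`; `R` is
the number of rows -/
def cZl (v w R l g0 g1 : Nat) : Bool :=
  le64 (Nat.mul (Nat.add g0 g1)
      (Nat.land (Nat.shiftRight v (Nat.mul 64 (Nat.succ l)))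
        (Nat.mul 18446744073709551615 (us w R))))
    (Nat.add (Nat.mul g0 (Nat.land (Nat.shiftRight v (Nat.mul 64 (Nat.add l 2)))
        (Nat.mul 18446744073709551615 (us w R))))
      (Nat.mul g1 (Nat.land (Nat.shiftRight v (Nat.mul 64 l))
        (Nat.mul 18446744073709551615 (us w R)))))
    (us w R)

/-- concavity in the last index -/
def cZ (n b : Nat) : Bool :=
  al (fun l => cZl (D.tb n) (Nat.sub (Nat.succ D.K3) b)
    (Nat.mul (Nat.sub (Nat.succ D.K1) b) (Nat.sub (Nat.succ D.K2) b)) l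
    (D.g (Nat.add b l)) (D.g (Nat.add b (Nat.succ l)))) (Nat.sub D.K3 (Nat.succ b))

/-- shape of the layer -/
def cS (n : Nat) : Bool :=
  D.cBd n && D.cZ n (D.b n) &&
  fa (D.b n) (Nat.succ D.K1) (fun i => fa (D.b n) (Nat.succ D.K2) fun j =>
    D.cSr n (D.b n) (Nat.sub (Nat.succ D.K3) (D.b n)) (u64 (Nat.sub (Nat.succ D.K3) (D.b n)))
      (u64 (Nat.sub D.K3 (D.b n))) i j)

/-- caps -/
def cC (n : Nat) : Bool :=
  fa (Nat.pred D.K1) (Nat.succ D.K2) (fun j =>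
    Nat.beq (D.row n (Nat.pred D.K1) D.K1 j)
      (Nat.mul (D.t n D.K1 D.K1 D.K1) (u64 (Nat.sub (Nat.succ D.K3) (Nat.pred D.K1)))) &&
    Nat.beq (D.row n (Nat.pred D.K1) (Nat.pred D.K1) j)
      (Nat.mul (D.t n (Nat.pred D.K1) j (Nat.pred D.K1))
        (u64 (Nat.sub (Nat.succ D.K3) (Nat.pred D.K1))))) &&
  fa (D.b n) (Nat.succ D.K1) (fun i =>
    Nat.beq (D.row n (Nat.pred D.K2) i D.K2)
      (Nat.mul (D.t n i D.K2 D.K2) (u64 (Nat.sub (Nat.succ D.K3) (Nat.pred D.K2)))))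

/-! ### two layers -/

/-- `1` below the last index -/
def o (K i : Nat) : Nat := bif Nat.ble K i then 0 else 1

/-- interpolation of two rows -/
def mix (g r A B : Nat) : Nat := Nat.add (Nat.mul (Nat.sub g r) A) (Nat.mul r B)

/-- conditions between the layers `n < n'`, row `(i, j)`, entries `≥ a` -/
def cNr (n a k u u1 i j : Nat) : Bool :=
  (Nat.ble D.K2 j || le64
    (Nat.add (D.rk (Nat.succ n) a k i j) (D.rk n a k i (Nat.succ j)))
    (Nat.add (D.rk (Nat.succ n) a k i (Nat.succ j)) (D.rk n a k i j)) u) &&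
  le64 (Nat.add (D.rk (Nat.succ n) a (Nat.pred k) i j) (D.rk n (Nat.succ a) (Nat.pred k) i j))
    (Nat.add (D.rk (Nat.succ n) (Nat.succ a) (Nat.pred k) i j) (D.rk n a (Nat.pred k) i j)) u1

def cN (n : Nat) : Bool :=
  fa (D.b (Nat.succ n)) (Nat.succ D.K1) (fun i => fa (D.b (Nat.succ n)) (Nat.succ D.K2) fun j =>
    D.cNr n (D.b (Nat.succ n)) (Nat.sub (Nat.succ D.K3) (D.b (Nat.succ n)))
      (u64 (Nat.sub (Nat.succ D.K3) (D.b (Nat.succ n))))
      (u64 (Nat.sub D.K3 (D.b (Nat.succ n)))) i j)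

/-- numerator of the value at `G i + m`, denominator `g (p1 i)` -/
def hm (n a k p r j : Nat) : Nat := mix (D.g p) r (D.rk n a k p j) (D.rk n a k (Nat.succ p) j)

/-- numerator of the value at `G i + 1`, denominator `g i` -/
def h1 (n a k i j : Nat) : Nat := mix (D.g i) (o D.K1 i) (D.rk n a k i j) (D.rk n a k (Nat.succ i) j)

/-- the same for the second index -/
def h2 (n a k i j : Nat) : Nat := mix (D.g j) (o D.K2 j) (D.rk n a k i j) (D.rk n a k i (Nat.succ j))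

/-- `A1 / gA1 - A0 / gA0 ≤ B1 / gB1 - B0 / gB0` -/
def le4 (A1 gA1 A0 gA0 B1 gB1 B0 gB0 u : Nat) : Bool :=
  le64
    (Nat.add (Nat.mul (Nat.mul gB0 (Nat.mul gA1 gA0)) B1)
      (Nat.mul (Nat.mul gB0 (Nat.mul gB1 gA1)) A0))
    (Nat.add (Nat.mul (Nat.mul gB0 (Nat.mul gB1 gA0)) A1)
      (Nat.mul (Nat.mul gB1 (Nat.mul gA1 gA0)) B0)) u

/-- condition `hx` for the edge `i`, the row `j` -/
def cXr (n n' a k u i j : Nat) : Bool :=
  le4 (D.hm n' a k (fl D.vp1 (Nat.succ i)) (fl D.vr1 (Nat.succ i)) j)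
    (D.g (fl D.vp1 (Nat.succ i)))
    (D.hm n' a k (fl D.vp1 i) (fl D.vr1 i) j) (D.g (fl D.vp1 i))
    (D.h1 n a k (Nat.succ i) j) (D.g (Nat.succ i)) (D.h1 n a k i j) (D.g i) u

/-- condition `ex` for the edge `i`, the row `j`, entries from `a` on -/
def cEx (n n' a k u i j : Nat) : Bool :=
  le64 (Nat.add (Nat.mul (Nat.mul 2 (Nat.mul D.EH (D.g (Nat.succ i)))) u)
      (Nat.add (Nat.mul (Nat.mul (D.g i) (D.g (Nat.succ i))) (D.rk n' a k i j))
        (Nat.mul (D.g i) (D.h1 n a k (Nat.succ i) j))))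
    (Nat.add (Nat.mul (Nat.mul (D.g i) (D.g (Nat.succ i))) (D.rk n' a k (Nat.succ i) j))
      (Nat.mul (D.g (Nat.succ i)) (D.h1 n a k i j))) u

/-- condition `ey` for the edge `j`, the row `i`, entries from `a` on -/
def cEy (n a k u i j : Nat) : Bool :=
  le64 (Nat.add (Nat.mul (Nat.mul 2 (Nat.mul D.EH (Nat.mul (D.g i) (D.g (Nat.succ j))))) u)
      (Nat.add (Nat.mul (Nat.mul (D.g j) (D.g (Nat.succ j))) (D.h1 n a k i j))
        (Nat.mul (Nat.mul (D.g i) (D.g j)) (D.h2 n a k i (Nat.succ j)))))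
    (Nat.add (Nat.mul (Nat.mul (D.g j) (D.g (Nat.succ j))) (D.h1 n a k i (Nat.succ j)))
      (Nat.mul (Nat.mul (D.g i) (D.g (Nat.succ j))) (D.h2 n a k i j))) u

/-- the larger number -/
def mx (a b : Nat) : Nat := bif Nat.ble a b then b else a

/-- conditions `hx`, `ex`, `ey` -/
def cE (n : Nat) : Bool :=
  fa (D.b (Nat.succ n)) D.K1 (fun i => Nat.ble (D.g i) 1 ||
    (fa (D.b (Nat.succ n)) (Nat.succ D.K2) (fun j =>
      D.cXr n (D.nx n) (D.b (Nat.succ n)) (Nat.sub (Nat.succ D.K3) (D.b (Nat.succ n)))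
        (u64 (Nat.sub (Nat.succ D.K3) (D.b (Nat.succ n)))) i j) &&
    fa i (Nat.succ D.K2) (fun j =>
      D.cEx n (D.nx n) (mx i (Nat.pred j)) (Nat.sub (Nat.succ D.K3) (mx i (Nat.pred j)))
        (u64 (Nat.sub (Nat.succ D.K3) (mx i (Nat.pred j)))) i j))) &&
  fa (D.b (Nat.succ n)) D.K2 (fun j => Nat.ble (D.g j) 1 ||
    fa (D.b (Nat.succ n)) (Nat.succ D.K1) (fun i => Nat.ble (Nat.add j 2) i ||
      D.cEy n j (Nat.sub (Nat.succ D.K3) j) (u64 (Nat.sub (Nat.succ D.K3) j)) i j))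

/-! ### the multipliers -/

/-- condition `B2`, entry `l` of the rows `A = (i, j)`, `B = (i + 1, j*)`, `B' = (i + 1, j* + 1)`;
the rows begin with the entry `a`; `q` is the next node, `gj` the gap of the cell `j*` -/
def cB2l (A B B' a l q gl gj : Nat) : Bool :=
  Nat.ble
    (Nat.add (Nat.mul gj (w64 A (Nat.sub (Nat.succ l) a))) (Nat.mul gl (w64 B (Nat.sub q a))))
    (Nat.add (Nat.mul gj (w64 A (Nat.sub l a))) (Nat.mul gl (w64 B' (Nat.sub q a))))

/-- condition `B1`, entry `l < K3` of the rows `A = (i, j)`, `A' = (i, j + 1)`, `B = (i*, j^)`,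
`B' = (i* + 1, j^)` -/
def cB1l (A A' B B' a l q gl gj gi : Nat) : Bool :=
  Nat.ble
    (Nat.add (Nat.mul (Nat.mul gi gl) (w64 A' (Nat.sub l a)))
      (Nat.add (Nat.mul (Nat.mul gi gj) (w64 A (Nat.sub (Nat.succ l) a)))
        (Nat.mul (Nat.mul gj gl) (w64 B (Nat.sub q a)))))
    (Nat.add (Nat.mul (Nat.mul gi (Nat.add gl gj)) (w64 A (Nat.sub l a)))
      (Nat.mul (Nat.mul gj gl) (w64 B' (Nat.sub q a))))

/-- condition `B1` at the last entry -/
def cB1K (A A' B B' e gj gi : Nat) : Bool :=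
  Nat.ble (Nat.add (Nat.mul gi (w64 A' e)) (Nat.mul gj (w64 B e)))
    (Nat.add (Nat.mul gi (w64 A e)) (Nat.mul gj (w64 B' e)))

def cBr (n n' a i j : Nat) : Bool :=
  (Nat.ble D.K1 (Nat.succ i) || fa j D.K3 (fun l =>
    cB2l (D.row n a i j) (D.row n a (Nat.succ i) (fl D.vc2 j))
      (D.row n a (Nat.succ i) (Nat.succ (fl D.vc2 j))) a l (fl D.vd3 l) (D.g l)
      (D.g (fl D.vc2 j)))) &&
  fa j D.K3 (fun l =>
    cB1l (D.row n a i j) (D.row n a i (Nat.succ j)) (D.row n' a (fl D.vc1 i) (fl D.vd2 j))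
      (D.row n' a (Nat.succ (fl D.vc1 i)) (fl D.vd2 j)) a l (fl D.vd3 l) (D.g l)
      (D.g j) (D.g (fl D.vc1 i))) &&
  cB1K (D.row n a i j) (D.row n a i (Nat.succ j)) (D.row n' a (fl D.vc1 i) (fl D.vd2 j))
    (D.row n' a (Nat.succ (fl D.vc1 i)) (fl D.vd2 j)) (Nat.sub D.K3 a) (D.g j)
    (D.g (fl D.vc1 i))

def cB (n : Nat) : Bool :=
  fa (D.b (Nat.succ n)) D.K1 (fun i => fa i D.K2 (fun j =>
    D.cBr n (D.nx n) (D.b (Nat.succ n)) i j))

/-! ### the drift -/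

/-- `w64` at two neighbouring entries, interpolated -/
def w2 (V p g r : Nat) : Nat := Nat.add (Nat.mul (Nat.sub g r) (w64 V p)) (Nat.mul r (w64 V (Nat.succ p)))

/-- the inequality at a node, all values given -/
def cDv (v1 w1 x1 v0 w0 x0 t kV1 kW1 kW1' kX kV0 kV0' kW0 kW0' kT O2 yy UP UN g z O3 zz : Nat) :
    Bool :=
  Nat.ble
    (Nat.add (Nat.add (Nat.mul kW1' w1) (Nat.mul (Nat.mul kX O2) x1))
      (Nat.mul g (Nat.add (Nat.add (Nat.mul kV0' v0) (Nat.mul kW0' w0))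
        (Nat.add (Nat.add (Nat.mul (Nat.mul kX (Nat.add yy O3)) x0) (Nat.mul (Nat.mul kT z) t))
          UN))))
    (Nat.add (Nat.add (Nat.mul kV1 v1) (Nat.add (Nat.mul kW1 w1) (Nat.mul (Nat.mul kX O3) x1)))
      (Nat.mul g (Nat.add (Nat.add (Nat.mul kV0 v0) (Nat.mul kW0 w0))
        (Nat.add (Nat.mul (Nat.mul kX (Nat.add O2 zz)) x0) UP))))

/-- entry of the row `n` of the edge boundaries -/
def R (n k : Nat) : Nat := fl D.vR (Nat.add (Nat.mul 64 n) k)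
/-- grid point -/
def x (i : Nat) : Nat := fl D.vG i
def E (n : Nat) : Nat := fl D.vE n
def η (n : Nat) : Nat := w64 D.vη n
def mQ : Nat := Nat.mul D.m D.Q

/-- the entries `l` of the row `(i, j)` -/
def cDl (V1 W1 X V0 W0 T kV1 kW1 kW1' kX kV0 kV0' kW0 kW0' kT O2 yy UP UN a n l : Nat) : Bool :=
  cDv (w2 V1 (Nat.sub (fl D.vp3 l) a) (D.g (fl D.vp3 l)) (fl D.vr3 l))
    (w2 W1 (Nat.sub (fl D.vp3 l) a) (D.g (fl D.vp3 l)) (fl D.vr3 l))
    (w2 X (Nat.sub (fl D.vp3 l) a) (D.g (fl D.vp3 l)) (fl D.vr3 l))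
    (w64 V0 (Nat.sub l a)) (w64 W0 (Nat.sub l a)) (w64 X (Nat.sub l a)) (w64 T (Nat.sub l a))
    kV1 kW1 kW1' kX kV0 kV0' kW0 kW0' kT O2 yy UP UN (D.g (fl D.vp3 l)) (D.x l) (D.R n l)
    (Nat.mul D.mQ (D.x l))

/-- numerators of the values of the first layer at `n + m` and `max (m + 1) n` -/
def H1 (n i j : Nat) : Nat :=
  mix (D.g (fl D.vph n)) (fl D.vrh n) (D.t 1 (fl D.vph n) i j) (D.t 1 (Nat.succ (fl D.vph n)) i j)
def H0 (n i j : Nat) : Nat :=
  mix (D.g (fl D.vpl n)) (fl D.vrl n) (D.t 1 (fl D.vpl n) i j) (D.t 1 (Nat.succ (fl D.vpl n)) i j)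

/-- `n + m - max (m + 1) n` -/
def A (n : Nat) : Nat := bif Nat.ble D.m (Nat.pred n) then D.m else Nat.pred n

def u0 (n i j : Nat) : Nat :=
  Nat.add (Nat.mul n D.S) (Nat.div (Nat.mul n (D.H1 n i j)) (D.g (fl D.vph n)))
def uE (n i j : Nat) : Nat :=
  Nat.add (Nat.mul n D.S) (Nat.div
    (Nat.add (Nat.mul (Nat.mul (Nat.sub (Nat.mul n (D.A n)) (Nat.mul 2 (D.E n)))
      (D.g (fl D.vpl n))) (D.H1 n i j))
      (Nat.mul (Nat.mul (Nat.mul 2 (D.E n)) (D.g (fl D.vph n))) (D.H0 n i j)))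
    (Nat.mul (D.A n) (Nat.mul (D.g (fl D.vph n)) (D.g (fl D.vpl n)))))

/-- upper and lower parts of `U - c` for `e = 0` and for `e = E n` -/
def p0 (n i j : Nat) : Nat := bif Nat.ble D.N0 n then D.u0 n i j else
  Nat.add (D.u0 n i j) (Nat.mul (Nat.mul (D.η (Nat.succ n)) (D.E (Nat.succ n))) (D.x i))
def q0 (n i : Nat) : Nat := Nat.add (Nat.add D.C D.EH) (bif Nat.ble D.N0 n then
    Nat.mul n (Nat.mul (D.η n) (D.E n)) else
    Nat.add (Nat.mul (Nat.mul (D.η n) (D.E n)) (D.x i))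
      (Nat.add (Nat.mul n (Nat.mul (D.η (Nat.succ n)) (D.E (Nat.succ n))))
        (Nat.mul (D.η (Nat.succ n)) (Nat.mul D.m n))))
def pE (n i j : Nat) : Nat := bif Nat.ble D.N0 n then D.uE n i j else
  Nat.add (D.uE n i j) (Nat.add
    (Nat.mul (Nat.mul (D.η (Nat.succ n)) (D.E (Nat.succ n))) (D.x i))
    (Nat.add (Nat.mul n (Nat.mul (D.η (Nat.succ n)) (D.E n)))
      (Nat.mul (D.η (Nat.succ n)) (Nat.mul 2 (D.E n)))))
def qE (n i : Nat) : Nat := Nat.add (Nat.add D.C D.EH) (bif Nat.ble D.N0 n then 0 else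
    Nat.add (Nat.mul (Nat.mul (D.η (Nat.succ n)) (D.E n)) (D.x i))
      (Nat.add (Nat.mul n (Nat.mul (D.η (Nat.succ n)) (D.E (Nat.succ n))))
        (Nat.mul (D.η (Nat.succ n)) (Nat.mul D.m n))))

/-- the smaller one is the one for `e = 0` -/
def ts (n i j : Nat) : Bool :=
  Nat.ble n 1 || Nat.ble (Nat.add (D.p0 n i j) (D.qE n i)) (Nat.add (D.pE n i j) (D.q0 n i))
def up (n i j : Nat) : Nat := bif D.ts n i j then D.p0 n i j else D.pE n i j
def un (n i j : Nat) : Nat := bif D.ts n i j then D.q0 n i else D.qE n i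

/-- a row, with the gaps `g1 = g (p1 i)`, `g2 = g (p2 j)`, `gi`, `gj` -/
def cDg (V1 W1 X V0 W0 T g1 g2 gi gj O1 O2 xx yy UP UN a n lo : Nat) : Bool :=
  fa lo (Nat.succ D.K3) (fun l => D.cDl V1 W1 X V0 W0 T
    (Nat.mul O1 (Nat.mul gi gj)) (Nat.mul O2 (Nat.mul g1 gj)) (Nat.mul O1 (Nat.mul g1 gj))
    (Nat.mul (Nat.mul g1 g2) gi)
    (Nat.mul xx (Nat.mul (Nat.mul g1 g2) (Nat.mul gi gj)))
    (Nat.mul (Nat.add O1 (Nat.mul D.mQ n)) (Nat.mul (Nat.mul g1 g2) (Nat.mul gi gj)))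
    (Nat.mul (Nat.add O1 yy) (Nat.mul (Nat.mul g1 g2) gj))
    (Nat.mul (Nat.add xx O2) (Nat.mul (Nat.mul g1 g2) gj))
    (Nat.mul D.mQ (Nat.mul (Nat.mul g1 g2) (Nat.mul gi gj))) O2 yy
    (Nat.mul (Nat.mul D.mQ (Nat.mul (Nat.mul g1 g2) (Nat.mul gi gj))) UP)
    (Nat.mul (Nat.mul D.mQ (Nat.mul (Nat.mul g1 g2) (Nat.mul gi gj))) UN) a n l)

/-- the row `(i, j)` -/
def cDr (n n' a k lo i j : Nat) : Bool :=
  D.cDg (mix (D.g (fl D.vp2 j)) (fl D.vr2 j)
      (D.hm n' a k (fl D.vp1 i) (fl D.vr1 i) (fl D.vp2 j))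
      (D.hm n' a k (fl D.vp1 i) (fl D.vr1 i) (Nat.succ (fl D.vp2 j))))
    (mix (D.g (fl D.vp2 j)) (fl D.vr2 j) (D.h1 n a k i (fl D.vp2 j))
      (D.h1 n a k i (Nat.succ (fl D.vp2 j))))
    (D.h2 n a k i j) (D.rk n' a k i j) (D.h1 n a k i j) (D.rk n a k i j)
    (D.g (fl D.vp1 i)) (D.g (fl D.vp2 j)) (D.g i) (D.g j) (D.R n i) (D.R n j)
    (Nat.mul D.mQ (D.x i)) (Nat.mul D.mQ (D.x j)) (D.up n i j) (D.un n i j) a n lo

/-- the drift at the rows with first index `i` -/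
def cDi (n i : Nat) : Bool :=
  fa (mx (D.b (Nat.succ n)) (Nat.pred i)) (Nat.succ D.K2) (fun j =>
    D.cDr n (D.nx n) (D.b (Nat.succ n)) (Nat.sub (Nat.succ D.K3) (D.b (Nat.succ n)))
      (mx (D.b (Nat.succ n)) (mx (Nat.pred j) (Nat.pred i))) i j)

/-- the drift in the layer `n` -/
def cD (n : Nat) : Bool := fa (D.b (Nat.succ n)) (Nat.succ D.K1) (fun i => D.cDi n i)

end Dat

end Pool.Agent.Lib.MP_67d80e_pr_g3
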