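import Pool.Agent.Lib.MP_67d80e_pr_g3.Lat
import Pool.Agent.Lib.MP_67d80e_pr_g3.Box

/-!
Values of the interpolation: at nodes, in a cell, above the caps; bounds of increments.
-/

set_option autoImplicit false

open scoped BigOperators
open Finset

namespace Pool.Agent.Lib.MP_67d80e_pr_g3

/-- `x` is the point `(1 - α) G a + α G (a + 1)`, or it lies above the last node `a = K` -/
def At (G : ℕ → ℝ) (K : ℕ) (x : ℝ) (a : ℕ) (α : ℝ) : Prop :=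
  (a < K ∧ 0 ≤ α ∧ α ≤ 1 ∧ x = lin α (G a) (G (a + 1))) ∨ (a = K ∧ α = 0 ∧ G K ≤ x)

/-- interpolation between neighbouring entries of a table -/
def tv (T : ℕ → ℕ → ℕ → ℝ) (a b c : ℕ) (α β γ : ℝ) : ℝ :=
  lin α (lin β (lin γ (T a b c) (T a b (c + 1))) (lin γ (T a (b + 1) c) (T a (b + 1) (c + 1))))
    (lin β (lin γ (T (a + 1) b c) (T (a + 1) b (c + 1)))
      (lin γ (T (a + 1) (b + 1) c) (T (a + 1) (b + 1) (c + 1))))

lemma lin_zero (a b : ℝ) : lin 0 a b = a := by simp [lin]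
lemma lin_one (a b : ℝ) : lin 1 a b = b := by simp [lin]

section
variable {G : ℕ → ℝ} (hg : ∀ i, G i < G (i + 1))
include hg

lemma hat_lin {K i : ℕ} (hi : i < K) (u : ℕ → ℝ) {t : ℝ} (t0 : 0 ≤ t) (t1 : t ≤ 1) :
    hat G K u (lin t (G i) (G (i + 1))) = lin t (u i) (u (i + 1)) := by
  have h := hg i
  rw [hat_cell hg hi u (x := lin t (G i) (G (i + 1))) (by unfold lin; nlinarith)
    (by unfold lin; nlinarith)]
  have h0 : G (i + 1) - G i ≠ 0 := by linarith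
  unfold lin
  field_simp
  ring

lemma hat_at {K a : ℕ} (u : ℕ → ℝ) {x α : ℝ} (h : At G K x a α) :
    hat G K u x = lin α (u a) (u (a + 1)) := by
  rcases h with ⟨h1, h2, h3, rfl⟩ | ⟨rfl, rfl, h⟩
  · exact hat_lin hg h1 u h2 h3
  · rw [hat_cap hg a u h, lin_zero]

lemma F3_at {K1 K2 K3 a b c : ℕ} (T : ℕ → ℕ → ℕ → ℝ) {x y z α β γ : ℝ} (hx : At G K1 x a α)
    (hy : At G K2 y b β) (hz : At G K3 z c γ) :
    F3 G K1 K2 K3 T x y z = tv T a b c α β γ := by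
  unfold F3 e2 tv
  rw [hat_at hg _ hx, hat_at hg _ hy, hat_at hg _ hy, hat_at hg _ hz, hat_at hg _ hz,
    hat_at hg _ hz, hat_at hg _ hz]

omit hg in
lemma at_node {K i : ℕ} (hi : i ≤ K) : At G K (G i) i 0 := by
  rcases hi.lt_or_eq with h | h
  · exact Or.inl ⟨h, le_rfl, zero_le_one, (lin_zero _ _).symm⟩
  · subst h
    exact Or.inr ⟨rfl, rfl, le_rfl⟩

lemma F3_node {K1 K2 K3 i j l : ℕ} (T : ℕ → ℕ → ℕ → ℝ) (hi : i ≤ K1) (hj : j ≤ K2) (hl : l ≤ K3) :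
    F3 G K1 K2 K3 T (G i) (G j) (G l) = T i j l := by
  rw [F3_at hg T (at_node hi) (at_node hj) (at_node hl)]
  simp [tv, lin_zero]

lemma F3_cell {K1 K2 K3 i j l : ℕ} (T : ℕ → ℕ → ℕ → ℝ) (hi : i < K1) (hj : j < K2) (hl : l < K3)
    {ξ υ ζ : ℝ} (ξ0 : 0 ≤ ξ) (ξ1 : ξ ≤ 1) (υ0 : 0 ≤ υ) (υ1 : υ ≤ 1) (ζ0 : 0 ≤ ζ) (ζ1 : ζ ≤ 1) :
    F3 G K1 K2 K3 T (lin ξ (G i) (G (i + 1))) (lin υ (G j) (G (j + 1))) (lin ζ (G l) (G (l + 1))) =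
      tri ξ υ ζ (fun e k p => F3 G K1 K2 K3 T (pt e (G i) (G (i + 1))) (pt k (G j) (G (j + 1)))
        (pt p (G l) (G (l + 1)))) := by
  rw [F3_at hg T (Or.inl ⟨hi, ξ0, ξ1, rfl⟩) (Or.inl ⟨hj, υ0, υ1, rfl⟩) (Or.inl ⟨hl, ζ0, ζ1, rfl⟩)]
  unfold tri bil
  simp only [pt_false, pt_true]
  rw [F3_node hg T hi.le hj.le hl.le, F3_node hg T hi.le hj.le hl, F3_node hg T hi.le hj hl.le,
    F3_node hg T hi.le hj hl, F3_node hg T hi hj.le hl.le, F3_node hg T hi hj.le hl,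
    F3_node hg T hi hj hl.le, F3_node hg T hi hj hl]
  rfl

/-- linear interpolation in the first variable, in a cell -/
lemma F3_linX {K1 K2 K3 i : ℕ} (T : ℕ → ℕ → ℕ → ℝ) (hi : i < K1) {t y z : ℝ} (t0 : 0 ≤ t)
    (t1 : t ≤ 1) : F3 G K1 K2 K3 T (lin t (G i) (G (i + 1))) y z =
      lin t (F3 G K1 K2 K3 T (G i) y z) (F3 G K1 K2 K3 T (G (i + 1)) y z) := by
  unfold F3
  rw [hat_lin hg hi _ t0 t1, hat_node hg hi.le, hat_node hg hi]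

lemma F3_linY {K1 K2 K3 j : ℕ} (T : ℕ → ℕ → ℕ → ℝ) (hj : j < K2) {t x z : ℝ} (t0 : 0 ≤ t)
    (t1 : t ≤ 1) : F3 G K1 K2 K3 T x (lin t (G j) (G (j + 1))) z =
      lin t (F3 G K1 K2 K3 T x (G j) z) (F3 G K1 K2 K3 T x (G (j + 1)) z) := by
  rw [F3_viewY, F3_viewY, F3_viewY]
  rw [hat_lin hg hj _ t0 t1, hat_node hg hj.le, hat_node hg hj]

/-! ### caps -/

lemma F3_capX {K1 K2 K3 : ℕ} (T : ℕ → ℕ → ℕ → ℝ) {x y z : ℝ} (hx : G K1 ≤ x) :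
    F3 G K1 K2 K3 T x y z = F3 G K1 K2 K3 T (G K1) y z := by
  unfold F3
  rw [hat_cap hg K1 _ hx, hat_cap hg K1 _ le_rfl]

lemma F3_capY {K1 K2 K3 : ℕ} (T : ℕ → ℕ → ℕ → ℝ) {x y z : ℝ} (hy : G K2 ≤ y) :
    F3 G K1 K2 K3 T x y z = F3 G K1 K2 K3 T x (G K2) z := by
  rw [F3_viewY, F3_viewY, hat_cap hg K2 _ hy, hat_cap hg K2 _ le_rfl]

lemma F3_capZ {K1 K2 K3 : ℕ} (T : ℕ → ℕ → ℕ → ℝ) {x y z : ℝ} (hz : G K3 ≤ z) :
    F3 G K1 K2 K3 T x y z = F3 G K1 K2 K3 T x y (G K3) := by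
  rw [F3_viewZ, F3_viewZ, hat_cap hg K3 _ hz, hat_cap hg K3 _ le_rfl]

/-- if the entries do not depend on the third index, the values do not depend on the third
variable -/
lemma F3_indZ {K1 K2 K3 a b c : ℕ} (ha : a ≤ K1) (hb : b ≤ K2) (hc : c ≤ K3)
    {T : ℕ → ℕ → ℕ → ℝ} {v : ℕ → ℕ → ℝ}
    (h : ∀ i j l, a ≤ i → i ≤ K1 → b ≤ j → j ≤ K2 → c ≤ l → l ≤ K3 → T i j l = v i j)
    {x y z : ℝ} (hx : G a ≤ x) (hy : G b ≤ y) (hz : G c ≤ z) :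
    F3 G K1 K2 K3 T x y z = e2 G K1 K2 v x y := by
  unfold F3 e2
  refine hat_congr_from hg ha (fun i h1 h2 => ?_) hx
  refine hat_congr_from hg hb (fun j h3 h4 => ?_) hy
  rw [hat_congr_from hg hc (v := fun _ => v i j) (fun l h5 h6 => h i j l h1 h2 h3 h4 h5 h6) hz,
    hat_const]

/-! ### bounds -/

lemma hat_le_const {K b : ℕ} (hb : b ≤ K) {u : ℕ → ℝ} {s : ℝ} (h : ∀ i, b ≤ i → i ≤ K → u i ≤ s)
    {x : ℝ} (hx : G b ≤ x) : hat G K u x ≤ s := by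
  rw [← hat_const G K s x]
  exact hat_le_from hg hb h hx

/-- a lower bound from the nodes between `b` and `k`, where `x ≤ G k` or `k = K` -/
lemma const_le_hat {K b k : ℕ} (hbk : b ≤ k) (hk : k ≤ K) {u : ℕ → ℝ} {s : ℝ}
    (h : ∀ i, b ≤ i → i ≤ k → s ≤ u i) {x : ℝ} (hx : G b ≤ x) (hxk : x ≤ G k ∨ k = K) :
    s ≤ hat G K u x := by
  rcases hxk with h1 | rfl
  · rw [hat_of_le hg K k hk u h1, ← hat_const G k s x]
    exact hat_le_from hg hbk h hx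
  · rw [← hat_const G k s x]
    exact hat_le_from hg hbk h hx

lemma e2_le_const {K K' a b : ℕ} (ha : a ≤ K) (hb : b ≤ K') {u : ℕ → ℕ → ℝ} {s : ℝ}
    (h : ∀ i j, a ≤ i → i ≤ K → b ≤ j → j ≤ K' → u i j ≤ s) {x y : ℝ} (hx : G a ≤ x)
    (hy : G b ≤ y) : e2 G K K' u x y ≤ s :=
  hat_le_const hg ha (fun i h1 h2 => hat_le_const hg hb (fun j h3 h4 => h i j h1 h2 h3 h4) hy) hx

lemma const_le_e2 {K K' b k k' : ℕ} (hbk : b ≤ k) (hk : k ≤ K) (hbk' : b ≤ k') (hk' : k' ≤ K')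
    {u : ℕ → ℕ → ℝ} {s : ℝ} (h : ∀ i j, b ≤ i → i ≤ k → b ≤ j → j ≤ k' → s ≤ u i j) {x y : ℝ}
    (hx : G b ≤ x) (hy : G b ≤ y) (hxk : x ≤ G k ∨ k = K) (hyk : y ≤ G k' ∨ k' = K') :
    s ≤ e2 G K K' u x y :=
  const_le_hat hg hbk hk (fun i h1 h2 =>
    const_le_hat hg hbk' hk' (fun j h3 h4 => h i j h1 h2 h3 h4) hy hyk) hx hxk

end

end Pool.Agent.Lib.MP_67d80e_pr_g3
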