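import Pool.Agent.Lib.MP_67d80e_pr_g3.Cap
import Pool.Agent.Lib.MP_67d80e_pr_g3.Bpos

/-!
The data of the grid lemma and its conditions at the nodes.
-/

set_option autoImplicit false

open scoped BigOperators
open Finset

namespace Pool.Agent.Lib.MP_67d80e_pr_g3

/-- data: `m` neighbours, layers `1 ≤ n ≤ N0`, grid `Gn`, the last indices `K1 ≤ K2 ≤ K3` of the
three coordinates, values `T n i j l`, the coefficients `η n` of the number of edges, the maxima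
`E n` of the number of edges, `F n` the least size of the first coordinate, `O n k` the lower bounds
of the edge boundaries at the nodes; `c1, …, d3` are indices of cells and nodes after a step `m`. -/
structure GD where
  m : ℕ
  N0 : ℕ
  K1 : ℕ
  K2 : ℕ
  K3 : ℕ
  Gn : ℕ → ℕ
  b : ℕ → ℕ
  T : ℕ → ℕ → ℕ → ℕ → ℝ
  η : ℕ → ℝ
  E : ℕ → ℕ
  F : ℕ → ℕ
  O : ℕ → ℕ → ℝ
  c1 : ℕ → ℕ
  d1 : ℕ → ℕ
  c2 : ℕ → ℕ
  d2 : ℕ → ℕ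
  c3 : ℕ → ℕ
  d3 : ℕ → ℕ

namespace GD

variable (A : GD)

/-- the grid -/
def G (i : ℕ) : ℝ := (A.Gn i : ℝ)

/-- the next layer -/
def nx (n : ℕ) : ℕ := min (n + 1) A.N0

/-- the functions of the three sizes -/
noncomputable def f (n : ℕ) : ℝ → ℝ → ℝ → ℝ := lay A.G A.K1 A.K2 A.K3 (A.b n) (A.T n)

/-- the lower bound of the edge boundaries -/
noncomputable def Oh (n : ℕ) (x : ℝ) : ℝ := hat A.G A.K3 (A.O n) x

/-- the contribution of the highest set -/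
noncomputable def U (n : ℕ) (e x y : ℝ) : ℝ := topU A.m A.N0 (A.f 1) A.η A.E n e x y

/-- the drift -/
noncomputable def D (n : ℕ) (e x y z : ℝ) : ℝ :=
  dr A.m n (A.f n) (A.f (A.nx n)) (A.U n e) (A.Oh n) x y z

/-- the conditions at the nodes -/
structure Ok (c ε : ℝ) : Prop where
  hm : 1 ≤ A.m
  hN0 : 1 ≤ A.N0
  hG : ∀ i, A.Gn i < A.Gn (i + 1)
  hG0 : A.Gn 0 = A.m + 1
  h12 : A.K1 ≤ A.K2
  h23 : A.K2 ≤ A.K3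
  b1 : A.b 1 = 0
  bm : ∀ n, 1 ≤ n → n ≤ A.N0 → A.b n ≤ A.b (n + 1)
  bK : ∀ n, n ≤ A.N0 + 1 → A.b n + 2 ≤ A.K1
  hF : ∀ n, 1 ≤ n → n ≤ A.N0 → A.Gn (A.b (n + 1)) ≤ A.F n ∧ A.F n ≤ A.Gn A.K1
  ε0 : 0 ≤ ε
  tab : ∀ n, 1 ≤ n → n ≤ A.N0 → TabOk A.G A.K1 A.K2 A.K3 (A.b n) (A.T n)
  cap : ∀ n, 1 ≤ n → n ≤ A.N0 → CapOk A.G A.m A.K1 A.K2 A.K3 (A.b n) (A.T n)
  nxt : ∀ n, 1 ≤ n → n < A.N0 → NxtOk A.K1 A.K2 A.K3 (A.b (n + 1)) (A.T n) (A.T (n + 1))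
  eta : ∀ n, 0 ≤ A.η n
  hE : ∀ n, 1 ≤ n → n ≤ A.N0 →
    2 * (A.E n : ℝ) ≤ n * (n + A.m - max ((A.m : ℝ) + 1) n)
  hnm : ∀ n : ℕ, 1 ≤ n → n ≤ A.N0 → max ((A.m : ℝ) + 1) n ≤ n + A.m
  capE : ∀ n, 1 ≤ n → n < A.N0 → ∀ e : ℝ, e = 0 ∨ e = A.E n →
    0 ≤ A.T (n + 1) A.K1 A.K1 A.K1 - A.T n A.K1 A.K1 A.K1 +
      (A.η (n + 1) * (A.E (n + 1) - e) - A.η n * (A.E n - e))
  O0 : ∀ n k, 1 ≤ n → n ≤ A.N0 → A.b (n + 1) ≤ k → k ≤ A.K3 → 0 ≤ A.O n k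
  O1 : ∀ n k, 1 ≤ n → n ≤ A.N0 → A.b (n + 1) ≤ k → k < A.K3 → A.O n k ≤ A.O n (k + 1)
  O2 : ∀ n k, 1 ≤ n → n ≤ A.N0 → A.b (n + 1) ≤ k → k < A.K3 →
    A.O n (k + 1) - A.O n k ≤ A.m * (A.G (k + 1) - A.G k)
  O3 : ∀ n x, 1 ≤ n → n ≤ A.N0 → A.F n ≤ x → x ≤ A.Gn A.K3 →
    A.Oh n (x : ℕ) ≤ A.m * ((x : ℝ) - n)
  st1 : StepOk A.Gn A.m 0 A.K1 A.c1 A.d1
  st2 : StepOk A.Gn A.m 0 A.K2 A.c2 A.d2
  st3 : StepOk A.Gn A.m 0 A.K3 A.c3 A.d3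
  B2 : ∀ n, 1 ≤ n → n ≤ A.N0 → ∀ i j l, A.b (n + 1) ≤ i → i + 2 ≤ A.K1 → i ≤ j → j < A.K2 →
    j ≤ l → l < A.K3 →
    sZ A.G (A.T n) i j l ≤ sY A.G (A.T n) (i + 1) (A.c2 j) (A.d3 l)
  B1 : ∀ n, 1 ≤ n → n ≤ A.N0 → ∀ i j l, A.b (n + 1) ≤ i → i < A.K1 → i ≤ j → j < A.K2 →
    j ≤ l → l ≤ A.K3 →
    sY A.G (A.T n) i j l + sZ' A.G A.K3 (A.T n) i j l ≤
      sX A.G (A.T (A.nx n)) (A.c1 i) (A.d2 j) (if l < A.K3 then A.d3 l else A.K3)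
  hx : ∀ n, 1 ≤ n → n ≤ A.N0 → ∀ i j l, A.b (n + 1) ≤ i → i < A.K1 → A.Gn i + 1 < A.Gn (i + 1) →
    A.b (n + 1) ≤ j → j ≤ A.K2 → A.b (n + 1) ≤ l → l ≤ A.K3 →
    hat A.G A.K1 (fun k => A.T (A.nx n) k j l) (A.G (i + 1) + A.m) -
      hat A.G A.K1 (fun k => A.T (A.nx n) k j l) (A.G i + A.m) ≤
    hat A.G A.K1 (fun k => A.T n k j l) (A.G (i + 1) + 1) -
      hat A.G A.K1 (fun k => A.T n k j l) (A.G i + 1)
  ex : ∀ n, 1 ≤ n → n ≤ A.N0 → ∀ i j l, A.b (n + 1) ≤ i → i < A.K1 → A.Gn i + 1 < A.Gn (i + 1) →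
    i ≤ j → j ≤ A.K2 → i ≤ l → l ≤ A.K3 → j ≤ l + 1 →
    (A.G (i + 1) - A.G i) * ((A.T (A.nx n) (i + 1) j l - A.T (A.nx n) i j l) -
      (hat A.G A.K1 (fun k => A.T n k j l) (A.G (i + 1) + 1) -
        hat A.G A.K1 (fun k => A.T n k j l) (A.G i + 1))) ≤ ε
  ey : ∀ n, 1 ≤ n → n ≤ A.N0 → ∀ i j l, A.b (n + 1) ≤ i → i ≤ A.K1 → i ≤ j + 1 →
    A.b (n + 1) ≤ j → j < A.K2 → A.Gn j + 1 < A.Gn (j + 1) → j ≤ l → l ≤ A.K3 →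
    (A.G (j + 1) - A.G j) * ((hat A.G A.K1 (fun k => A.T n k (j + 1) l) (A.G i + 1) -
      hat A.G A.K1 (fun k => A.T n k j l) (A.G i + 1)) -
      (hat A.G A.K2 (fun k => A.T n i k l) (A.G (j + 1) + 1) -
        hat A.G A.K2 (fun k => A.T n i k l) (A.G j + 1))) ≤ ε
  cor : ∀ n, 1 ≤ n → n ≤ A.N0 → ∀ e : ℝ, e = 0 ∨ e = A.E n → ∀ i j l,
    A.b (n + 1) ≤ i → i ≤ A.K1 → A.b (n + 1) ≤ j → j ≤ A.K2 → A.b (n + 1) ≤ l → l ≤ A.K3 →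
    i ≤ j + 1 → j ≤ l + 1 → i ≤ l + 1 →
    c + ε / 2 ≤ A.D n e (A.G i) (A.G j) (A.G l)

end GD

section
variable {G : ℕ → ℝ}

lemma e2_node (hg : ∀ i, G i < G (i + 1)) {K K' j l : ℕ} (u : ℕ → ℕ → ℝ) (hj : j ≤ K)
    (hl : l ≤ K') : e2 G K K' u (G j) (G l) = u j l := by
  unfold e2
  rw [hat_node hg hj, hat_node hg hl]

lemma F3_nodeYZ (hg : ∀ i, G i < G (i + 1)) {K1 K2 K3 j l : ℕ} (T : ℕ → ℕ → ℕ → ℝ) (hj : j ≤ K2)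
    (hl : l ≤ K3) (x : ℝ) : F3 G K1 K2 K3 T x (G j) (G l) = hat G K1 (fun i => T i j l) x := by
  unfold F3
  simp only [e2_node hg _ hj hl]

lemma F3_nodeXZ (hg : ∀ i, G i < G (i + 1)) {K1 K2 K3 i l : ℕ} (T : ℕ → ℕ → ℕ → ℝ) (hi : i ≤ K1)
    (hl : l ≤ K3) (y : ℝ) : F3 G K1 K2 K3 T (G i) y (G l) = hat G K2 (fun j => T i j l) y := by
  rw [F3_viewY]
  simp only [e2_node hg _ hi hl]

lemma lin_rep {p q x : ℕ} (h1 : p < q) (h2 : p ≤ x) (h3 : x ≤ q) :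
    ∃ ξ : ℝ, 0 ≤ ξ ∧ ξ ≤ 1 ∧ (x : ℝ) = lin ξ p q ∧ (ξ = 0 ∨ ξ = 1 ∨ p + 1 < q) := by
  have a1 : (p : ℝ) < q := by exact_mod_cast h1
  have a2 : (p : ℝ) ≤ x := by exact_mod_cast h2
  have a3 : (x : ℝ) ≤ q := by exact_mod_cast h3
  have hpos : (0 : ℝ) < q - p := by linarith
  refine ⟨(x - p) / (q - p), div_nonneg (by linarith) hpos.le, ?_, ?_, ?_⟩
  · rw [div_le_one hpos]; linarith
  · unfold lin
    field_simp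
    ring
  · rcases Nat.lt_or_ge (p + 1) q with h | h
    · exact Or.inr (Or.inr h)
    · have hq : q = p + 1 := by omega
      rcases (show x = p ∨ x = q by omega) with h4 | h4
      · left; rw [h4, sub_self, zero_div]
      · right; left; rw [h4, div_self hpos.ne']

lemma cell_nat {Gn : ℕ → ℕ} {a K x : ℕ} (h1 : Gn a ≤ x) (h2 : x ≤ Gn K) (haK : a < K)
    (hg : ∀ i, Gn i < Gn (i + 1)) :
    ∃ i, a ≤ i ∧ i < K ∧ Gn i ≤ x ∧ x ≤ Gn (i + 1) ∧ (x < Gn (i + 1) ∨ i + 1 = K) := by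
  rcases h2.lt_or_eq with h | h
  · obtain ⟨i, p, q, r, s⟩ := cell_exists h1 h haK.le
    exact ⟨i, p, q, r, s.le, Or.inl s⟩
  · have h3 := hg (K - 1)
    rw [show K - 1 + 1 = K by omega] at h3
    refine ⟨K - 1, by omega, by omega, by omega, ?_, Or.inr (by omega)⟩
    rw [show K - 1 + 1 = K by omega]
    exact h2

end

namespace GD.Ok

variable {A : GD} {c ε : ℝ} (h : A.Ok c ε)
include h

lemma hgr (i : ℕ) : A.G i < A.G (i + 1) := by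
  unfold GD.G
  exact_mod_cast h.hG i

lemma gm : Monotone A.G := (g_mono h.hgr).monotone

lemma gmn : Monotone A.Gn := monotone_nat_of_le_succ fun i => (h.hG i).le

lemma nx_pos {n : ℕ} (_ : 1 ≤ n) : 1 ≤ A.nx n := by
  have := h.hN0
  unfold GD.nx
  omega

omit h in
lemma nx_le (n : ℕ) : A.nx n ≤ A.N0 := min_le_right _ _

lemma bnx {n : ℕ} (h1 : 1 ≤ n) (h2 : n ≤ A.N0) : A.b (A.nx n) ≤ A.b (n + 1) := by
  unfold GD.nx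
  rcases h2.lt_or_eq with h3 | h3
  · rw [min_eq_left (by omega)]
  · rw [min_eq_right (by omega), ← h3]
    exact h.bm n h1 h2

lemma bK1 {n : ℕ} (h2 : n ≤ A.N0) : A.b (n + 1) + 2 ≤ A.K1 := h.bK (n + 1) (by omega)

lemma layOk {n : ℕ} (h1 : 1 ≤ n) (h2 : n ≤ A.N0) : Lay (A.G (A.b n)) (A.f n) := by
  have hb := h.bK n (by omega)
  have h3 := h.h12
  have h4 := h.h23
  exact (h.tab n h1 h2).lay_ok h.hgr (by omega) (by omega) (by omega)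

lemma layOk' {n : ℕ} (h1 : 1 ≤ n) (h2 : n ≤ A.N0) : Lay (A.G (A.b (n + 1))) (A.f n) :=
  (h.layOk h1 h2).of_le (h.gm (h.bm n h1 h2))

lemma layNx {n : ℕ} (h1 : 1 ≤ n) (h2 : n ≤ A.N0) :
    Lay (A.G (A.b (n + 1))) (A.f (A.nx n)) :=
  (h.layOk (h.nx_pos h1) (nx_le n)).of_le (h.gm (h.bnx h1 h2))

lemma lay1 : Lay ((A.m : ℝ) + 1) (A.f 1) := by
  have := h.layOk le_rfl h.hN0
  rw [h.b1] at this
  have e : A.G 0 = A.m + 1 := by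
    unfold GD.G
    rw [h.hG0]
    push_cast
    rfl
  rwa [e] at this

lemma G_ge (i : ℕ) : (A.m : ℝ) + 1 ≤ A.G i := by
  have e : A.G 0 = A.m + 1 := by
    unfold GD.G
    rw [h.hG0]
    push_cast
    rfl
  rw [← e]
  exact h.gm (Nat.zero_le i)

omit h in
lemma f_eq {n : ℕ} {x y z : ℝ} (hx : A.G (A.b n) ≤ x) (hy : A.G (A.b n) ≤ y)
    (hz : A.G (A.b n) ≤ z) : A.f n x y z = F3 A.G A.K1 A.K2 A.K3 (A.T n) x y z :=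
  lay_eq hx hy hz

lemma f_eq' {n : ℕ} (h1 : 1 ≤ n) (h2 : n ≤ A.N0) {x y z : ℝ} (hx : A.G (A.b (n + 1)) ≤ x)
    (hy : A.G (A.b (n + 1)) ≤ y) (hz : A.G (A.b (n + 1)) ≤ z) :
    A.f n x y z = F3 A.G A.K1 A.K2 A.K3 (A.T n) x y z := by
  have := h.gm (h.bm n h1 h2)
  exact lay_eq (this.trans hx) (this.trans hy) (this.trans hz)

lemma g_eq {n : ℕ} (h1 : 1 ≤ n) (h2 : n ≤ A.N0) {x y z : ℝ} (hx : A.G (A.b (n + 1)) ≤ x)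
    (hy : A.G (A.b (n + 1)) ≤ y) (hz : A.G (A.b (n + 1)) ≤ z) :
    A.f (A.nx n) x y z = F3 A.G A.K1 A.K2 A.K3 (A.T (A.nx n)) x y z := by
  have := h.gm (h.bnx h1 h2)
  exact lay_eq (this.trans hx) (this.trans hy) (this.trans hz)

/-! ### the rows -/

lemma Oh_node {n k : ℕ} (hk : k ≤ A.K3) : A.Oh n (A.G k) = A.O n k := hat_node h.hgr hk _

lemma Oh_mono {n : ℕ} (h1 : 1 ≤ n) (h2 : n ≤ A.N0) {x y : ℝ} (hx : A.G (A.b (n + 1)) ≤ x)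
    (hxy : x ≤ y) : A.Oh n x ≤ A.Oh n y := by
  have hb := h.bK1 h2
  have h3 := h.h12
  have h4 := h.h23
  exact hat_mono_from h.hgr (by omega) (fun k p q => h.O1 n k h1 h2 p q) hx hxy

lemma Oh_slope {n : ℕ} (h1 : 1 ≤ n) (h2 : n ≤ A.N0) {x y : ℝ} (hx : A.G (A.b (n + 1)) ≤ x)
    (hxy : x ≤ y) (hy : y ≤ A.G A.K3) : A.Oh n y - A.Oh n x ≤ A.m * (y - x) := by
  have hb := h.bK1 h2
  have h3 := h.h12
  have h4 := h.h23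
  have := hat_mono_from (g := A.G) h.hgr (b := A.b (n + 1)) (K := A.K3) (by omega)
    (u := fun k => (A.m : ℝ) * A.G k - A.O n k) (fun k p q => by
      have := h.O2 n k h1 h2 p q
      linarith) hx hxy
  rw [hat_sub, hat_sub, hat_smul, hat_smul] at this
  have hx0 : A.G 0 ≤ x := (h.gm (Nat.zero_le _)).trans hx
  have e1 : hat A.G A.K3 (fun k => A.G k) x = x := by
    have := hat_self h.hgr A.K3 hx0
    rw [min_eq_left (hxy.trans hy)] at this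
    exact this
  have e2 : hat A.G A.K3 (fun k => A.G k) y = y := by
    have := hat_self h.hgr A.K3 (hx0.trans hxy)
    rw [min_eq_left hy] at this
    exact this
  rw [e1, e2] at this
  unfold GD.Oh
  linarith

lemma Oh_nonneg {n : ℕ} (h1 : 1 ≤ n) (h2 : n ≤ A.N0) {x : ℝ} (hx : A.G (A.b (n + 1)) ≤ x) :
    0 ≤ A.Oh n x := by
  have hb := h.bK1 h2
  have h3 := h.h12
  have h4 := h.h23
  refine le_trans ?_ (h.Oh_mono h1 h2 le_rfl hx)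
  rw [h.Oh_node (by omega)]
  exact h.O0 n _ h1 h2 le_rfl (by omega)

end GD.Ok

end Pool.Agent.Lib.MP_67d80e_pr_g3
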