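import Pool.Agent.Lib.MP_67d80e_pr_g3.Hat
import Pool.Agent.Lib.MP_67d80e_pr_all.IsoCor
import Pool.Agent.Lib.MP_67d80e_pr_all.Vec
import Pool.Agent.Lib.MP_67d80e_pr_all.VecChk

/-!
Lower bounds of edge boundaries by interpolation of rows: the kernel check and its correctness.
-/

set_option autoImplicit false

open scoped BigOperators
open Finset
open Pool.Agent.Lib.MP_67d80e_pr Pool.Agent.Lib.MP_67d80e_pr_all

namespace Pool.Agent.Lib.MP_67d80e_pr_g3

/-- the nodes: the fields `0, …, K3`, then unit steps -/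
def gN (vG K3 i : ℕ) : ℕ := if i ≤ K3 then fl vG i else fl vG K3 + (i - K3)

/-- the interpolated row `t` -/
noncomputable def rO (vG K3 Q vR t : ℕ) (x : ℝ) : ℝ :=
  hat (fun i => (gN vG K3 i : ℝ)) K3 (fun k => (fl vR (64 * t + k) : ℝ) / Q) x

/-! ### The check -/

/-- force the evaluation of the argument -/
def frc (x : ℕ) (f : ℕ → Bool) : Bool :=
  Nat.rec (motive := fun _ => Bool) (f 0) (fun n _ => f (Nat.succ n)) x

lemma frc_eq (x : ℕ) (f : ℕ → Bool) : frc x f = f x := by cases x <;> rfl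

/-- `R / Q ≤ 2 d G ^ (1 - 1 / d)` -/
def lwB (d Q R G : ℕ) : Bool :=
  Nat.ble (Nat.pow R d)
    (Nat.mul (Nat.pow (Nat.mul (Nat.mul 2 d) Q) d) (Nat.pow G (Nat.pred d)))

/-- the row `e` of edge boundaries is above the segment from `(g0, r0)` to `(g1, r1)`; here
`g1 = g0 + dl` and `q = Q * dl`, and only sizes from `f` on are considered -/
def segB (e q g0 dl r0 r1 f : ℕ) : Bool :=
  allB (fun i => Nat.ble (Nat.succ (Nat.add g0 i)) f ||
    Nat.ble (Nat.add (Nat.mul r0 (Nat.sub dl i)) (Nat.mul r1 i))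
      (Nat.mul q (fl e (Nat.add g0 i)))) (Nat.succ dl)

/-- one cell of a row -/
def cellB (d Q t f e g0 g1 r0 r1 : ℕ) : Bool :=
  Nat.ble r0 r1 &&
  (Nat.ble r1 (Nat.add r0 (Nat.mul (Nat.mul (Nat.mul 2 d) Q) (Nat.sub g1 g0))) &&
  (Nat.ble (Nat.add r1 (Nat.mul (Nat.mul (Nat.mul 2 d) Q) t))
    (Nat.mul (Nat.mul (Nat.mul 2 d) Q) g1) &&
  ((Nat.ble g1 400 &&
    frc (Nat.sub g1 g0) (fun dl => frc (Nat.mul Q dl) (fun q => segB e q g0 dl r0 r1 f))) ||
    (lwB d Q r0 g0 && lwB d Q r1 g1))))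

/-- the size beyond the last node -/
def endB (d Q e g r : ℕ) : Bool :=
  lwB d Q r g ||
  (lwB d Q r 401 && (Nat.ble g 400 &&
    allB (fun i => Nat.ble r (Nat.mul Q (fl e (Nat.add g i)))) (Nat.sub 401 g)))

/-- the first cell: the slack at the size `f` -/
def fstB (d Q t f g0 g1 r0 r1 : ℕ) : Bool :=
  Nat.ble (Nat.add (Nat.add (Nat.mul r0 (Nat.sub g1 f)) (Nat.mul r1 (Nat.sub f g0)))
      (Nat.mul (Nat.mul (Nat.mul (Nat.mul 2 d) Q) t) (Nat.sub g1 g0)))
    (Nat.mul (Nat.mul (Nat.mul (Nat.mul 2 d) Q) f) (Nat.sub g1 g0))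

/-- one row; `f` is the least size, `a` the first cell, `r` the values, `e` the edge boundaries -/
def rowB (d Q K3 vG t f a r e : ℕ) : Bool :=
  Nat.ble (fl vG a) f && (Nat.ble (Nat.succ f) (fl vG (Nat.succ a)) &&
  (fstB d Q t f (fl vG a) (fl vG (Nat.succ a)) (fl r a) (fl r (Nat.succ a)) &&
  (allB (fun k => Nat.ble (Nat.succ k) a ||
    frc (fl vG k) (fun g0 => frc (fl vG (Nat.succ k)) (fun g1 =>
      frc (fl r k) (fun r0 => frc (fl r (Nat.succ k)) (fun r1 =>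
        cellB d Q t f e g0 g1 r0 r1))))) K3 &&
  endB d Q e (fl vG K3) (fl r K3))))

/-- the check of all rows `1, …, N0` -/
def rowChk (d Q K1 K3 N0 vE vF vG vR vA : ℕ) : Bool :=
  Nat.ble 1 d && (Nat.ble 1 Q && (Nat.ble K1 K3 && (Nat.ble K3 63 &&
  (Nat.beq (fl vG 0) (Nat.succ (Nat.mul 2 d)) &&
  (allB (fun k => Nat.ble (Nat.succ (fl vG k)) (fl vG (Nat.succ k))) K3 &&
  (allB (fun i => Nat.ble (fl vA (Nat.succ i)) (fl vA (Nat.succ (Nat.succ i)))) (Nat.pred N0) &&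
  allB (fun i => Nat.ble (Nat.add (fl vA (Nat.succ i)) 2) K1 &&
    frc (fV vF (Nat.succ i)) (fun f => frc (fl vA (Nat.succ i)) (fun a =>
      frc (sg vR (Nat.mul 64 (Nat.succ i)) 64) (fun r =>
        frc (sg vE (Nat.mul 512 (bif Nat.ble (Nat.succ i) 24 then Nat.succ i else 24)) 401)
          (fun e => rowB d Q K3 vG (Nat.succ i) f a r e))))) N0))))))

/-- what the check gives -/
structure RowOk (d Q K1 K3 N0 vF vG vR vA : ℕ) : Prop where
  one_le_d : 1 ≤ d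
  Q_pos : 0 < Q
  K1_le : K1 ≤ K3
  K3_le : K3 ≤ 63
  g_zero : fl vG 0 = 2 * d + 1
  g_lt : ∀ i, gN vG K3 i < gN vG K3 (i + 1)
  a_le : ∀ t, 1 ≤ t → t ≤ N0 → fl vG (fl vA t) ≤ fV vF t
  lt_a : ∀ t, 1 ≤ t → t ≤ N0 → fV vF t < fl vG (fl vA t + 1)
  a_add : ∀ t, 1 ≤ t → t ≤ N0 → fl vA t + 2 ≤ K1
  a_mono : ∀ t, 1 ≤ t → t < N0 → fl vA t ≤ fl vA (t + 1)
  /-- the rows are lower bounds -/
  le_outE : ∀ T D : Finset (Site d), T.Nonempty → T ⊆ D → (∀ x ∈ T, nbrs x ⊆ D) → T.card ≤ N0 →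
    rO vG K3 Q vR T.card (D.card : ℝ) ≤ outE D
  /-- the degree bound -/
  le_deg : ∀ t, 1 ≤ t → t ≤ N0 → ∀ x : ℝ, (fV vF t : ℝ) ≤ x →
    rO vG K3 Q vR t x ≤ 2 * d * (x - t)
  r_mono : ∀ t, 1 ≤ t → t ≤ N0 → ∀ k, fl vA t ≤ k → k < K3 →
    fl vR (64 * t + k) ≤ fl vR (64 * t + (k + 1))
  r_lip : ∀ t, 1 ≤ t → t ≤ N0 → ∀ k, fl vA t ≤ k → k < K3 →
    fl vR (64 * t + (k + 1)) ≤ fl vR (64 * t + k) + 2 * d * Q * (fl vG (k + 1) - fl vG k)

/-! ### Correctness -/

lemma fl_sg {v L k i : ℕ} (hi : i < k) : fl (sg v L k) i = fl v (L + i) := by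
  rw [sg_eq, fl_pk (fun j _ => fl_lt v (L + j)) hi]

/-- the function of Loomis and Whitney -/
noncomputable def lwf (d : ℕ) (x : ℝ) : ℝ := 2 * d * x ^ (1 - 1 / (d : ℝ))

lemma lw_exp {d : ℕ} (hd : 1 ≤ d) : 0 ≤ 1 - 1 / (d : ℝ) ∧ 1 - 1 / (d : ℝ) ≤ 1 := by
  have h : (1 : ℝ) ≤ d := by exact_mod_cast hd
  have h1 : 1 / (d : ℝ) ≤ 1 := by rw [div_le_one (by linarith)]; exact h
  have h2 : 0 ≤ 1 / (d : ℝ) := by positivity
  constructor <;> linarith

lemma lwf_mono {d : ℕ} (hd : 1 ≤ d) {x y : ℝ} (hx : 0 ≤ x) (hxy : x ≤ y) : lwf d x ≤ lwf d y :=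
  mul_le_mul_of_nonneg_left (Real.rpow_le_rpow hx hxy (lw_exp hd).1) (by positivity)

lemma lwf_conc {d : ℕ} (hd : 1 ≤ d) {x y s : ℝ} (hx : 0 ≤ x) (hy : 0 ≤ y) (s0 : 0 ≤ s)
    (s1 : s ≤ 1) : (1 - s) * lwf d x + s * lwf d y ≤ lwf d ((1 - s) * x + s * y) := by
  have h := (Real.concaveOn_rpow (lw_exp hd).1 (lw_exp hd).2).2 (Set.mem_Ici.2 hx)
    (Set.mem_Ici.2 hy) (by linarith : 0 ≤ 1 - s) s0 (by ring)
  simp only [smul_eq_mul] at h
  unfold lwf
  have h2 := mul_le_mul_of_nonneg_left h (by positivity : (0 : ℝ) ≤ 2 * d)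
  linarith

lemma lwB_sound {d Q R G : ℕ} (hd : 1 ≤ d) (hQ : 1 ≤ Q) (h : lwB d Q R G = true) :
    (R : ℝ) / Q ≤ lwf d G := by
  have h1 : R ^ d ≤ (2 * d * Q) ^ d * G ^ (d - 1) := Nat.le_of_ble_eq_true h
  have hd0 : (d : ℝ) ≠ 0 := by
    have : (1 : ℝ) ≤ d := by exact_mod_cast hd
    linarith
  have hQ0 : (0 : ℝ) < Q := by exact_mod_cast hQ
  have h2 : ((R : ℝ) / Q) ^ d ≤ lwf d G ^ d := by
    unfold lwf
    rw [mul_pow, ← Real.rpow_natCast ((G : ℝ) ^ (1 - 1 / (d : ℝ))) d,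
      ← Real.rpow_mul (Nat.cast_nonneg G)]
    have e : (1 - 1 / (d : ℝ)) * d = ((d - 1 : ℕ) : ℝ) := by
      rw [Nat.cast_sub hd]
      field_simp
      push_cast
      ring
    rw [e, Real.rpow_natCast, div_pow, div_le_iff₀ (by positivity)]
    have h3 : ((R ^ d : ℕ) : ℝ) ≤ (((2 * d * Q) ^ d * G ^ (d - 1) : ℕ) : ℝ) := Nat.cast_le.2 h1
    push_cast at h3
    calc (R : ℝ) ^ d ≤ (2 * d * Q) ^ d * (G : ℝ) ^ (d - 1) := h3
      _ = _ := by rw [mul_pow]; ring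
  exact le_of_pow_le_pow_left₀ (by omega) (by unfold lwf; positivity) h2

lemma gN_of_le {vG K3 i : ℕ} (h : i ≤ K3) : gN vG K3 i = fl vG i := by rw [gN, if_pos h]

lemma gN_lt {vG K3 : ℕ} (h : ∀ k < K3, fl vG k < fl vG (k + 1)) (i : ℕ) :
    gN vG K3 i < gN vG K3 (i + 1) := by
  unfold gN
  rcases Nat.lt_trichotomy i K3 with h1 | h1 | h1
  · rw [if_pos h1.le, if_pos (by omega : i + 1 ≤ K3)]
    exact h i h1
  · subst h1
    rw [if_pos le_rfl, if_neg (by omega)]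
    omega
  · rw [if_neg (by omega), if_neg (by omega)]
    omega

/-- the cell of a number above the node `a` -/
lemma exists_cell {g : ℕ → ℝ} {a K : ℕ} (hK : a ≤ K) {x : ℝ} (h1 : g a ≤ x) (h2 : x ≤ g K) :
    a = K ∨ ∃ k, a ≤ k ∧ k < K ∧ g k ≤ x ∧ x ≤ g (k + 1) := by
  induction K, hK using Nat.le_induction with
  | base => exact Or.inl rfl
  | succ K hK ih =>
    right
    rcases le_total x (g K) with h3 | h3
    · rcases ih h3 with h4 | ⟨k, h4, h5, h6, h7⟩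
      · subst h4
        exact ⟨a, le_rfl, by omega, h1, h2⟩
      · exact ⟨k, h4, by omega, h6, h7⟩
    · exact ⟨K, hK, by omega, h3, h2⟩

/-- the facts about a row -/
structure OneRow (d Q K3 vG t f a r e : ℕ) : Prop where
  ga : fl vG a ≤ f
  gb : f < fl vG (a + 1)
  fst : fl r a * (fl vG (a + 1) - f) + fl r (a + 1) * (f - fl vG a) +
    2 * d * Q * t * (fl vG (a + 1) - fl vG a) ≤ 2 * d * Q * f * (fl vG (a + 1) - fl vG a)
  mono : ∀ k, a ≤ k → k < K3 → fl r k ≤ fl r (k + 1)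
  lip : ∀ k, a ≤ k → k < K3 → fl r (k + 1) ≤ fl r k + 2 * d * Q * (fl vG (k + 1) - fl vG k)
  deg : ∀ k, a ≤ k → k < K3 → fl r (k + 1) + 2 * d * Q * t ≤ 2 * d * Q * fl vG (k + 1)
  cell : ∀ k, a ≤ k → k < K3 → (fl vG (k + 1) ≤ 400 ∧ ∀ n, fl vG k ≤ n → n ≤ fl vG (k + 1) →
    f ≤ n → fl r k * (fl vG (k + 1) - n) + fl r (k + 1) * (n - fl vG k) ≤
      Q * (fl vG (k + 1) - fl vG k) * fl e n) ∨
    (lwB d Q (fl r k) (fl vG k) = true ∧ lwB d Q (fl r (k + 1)) (fl vG (k + 1)) = true)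
  fin : lwB d Q (fl r K3) (fl vG K3) = true ∨ (lwB d Q (fl r K3) 401 = true ∧ fl vG K3 ≤ 400 ∧
    ∀ n, fl vG K3 ≤ n → n ≤ 400 → fl r K3 ≤ Q * fl e n)

lemma rowB_sound {d Q K3 vG t f a r e : ℕ} (h : rowB d Q K3 vG t f a r e = true) :
    OneRow d Q K3 vG t f a r e := by
  simp only [rowB, Bool.and_eq_true, Bool.or_eq_true, allB_iff, Nat.ble_eq, frc_eq] at h
  obtain ⟨h1, h2, h3, h4, h5⟩ := h
  have hc : ∀ k, a ≤ k → k < K3 →
      cellB d Q t f e (fl vG k) (fl vG (k + 1)) (fl r k) (fl r (k + 1)) = true := by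
    intro k hk hk3
    rcases h4 k hk3 with h6 | h6
    · exfalso
      change k + 1 ≤ a at h6
      omega
    · exact h6
  have hc' := fun k hk hk3 => by
    have h6 := hc k hk hk3
    simp only [cellB, Bool.and_eq_true, Bool.or_eq_true, Nat.ble_eq, frc_eq] at h6
    exact h6
  refine ⟨h1, h2, Nat.le_of_ble_eq_true h3, fun k hk hk3 => (hc' k hk hk3).1,
    fun k hk hk3 => (hc' k hk hk3).2.1, fun k hk hk3 => (hc' k hk hk3).2.2.1, ?_, ?_⟩
  · intro k hk hk3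
    rcases (hc' k hk hk3).2.2.2 with ⟨h6, h7⟩ | h6
    · refine Or.inl ⟨h6, fun n hn1 hn2 hn3 => ?_⟩
      simp only [segB, allB_iff, Bool.or_eq_true, Nat.ble_eq] at h7
      have h8 := h7 (n - fl vG k) (by
        change n - fl vG k < (fl vG (k + 1) - fl vG k) + 1
        omega)
      have e1 : Nat.add (fl vG k) (n - fl vG k) = n := by
        change fl vG k + (n - fl vG k) = n
        omega
      rw [e1] at h8
      rcases h8 with h8 | h8
      · exfalso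
        change n + 1 ≤ f at h8
        omega
      · have e2 : fl vG (k + 1) - fl vG k - (n - fl vG k) = fl vG (k + 1) - n := by omega
        rw [← e2]
        exact h8
    · exact Or.inr h6
  · simp only [endB, Bool.and_eq_true, Bool.or_eq_true, allB_iff, Nat.ble_eq] at h5
    rcases h5 with h6 | ⟨h6, h7, h8⟩
    · exact Or.inl h6
    · refine Or.inr ⟨h6, h7, fun n hn1 hn2 => ?_⟩
      have h9 := h8 (n - fl vG K3) (by
        change n - fl vG K3 < 401 - fl vG K3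
        omega)
      have e1 : Nat.add (fl vG K3) (n - fl vG K3) = n := by
        change fl vG K3 + (n - fl vG K3) = n
        omega
      rw [e1] at h9
      exact h9

section
variable {d Q K3 vG t f a r e : ℕ}

/-- the nodes as real numbers -/
lemma gR_lt (hg : ∀ k < K3, fl vG k < fl vG (k + 1)) (i : ℕ) :
    (gN vG K3 i : ℝ) < (gN vG K3 (i + 1) : ℝ) := Nat.cast_lt.2 (gN_lt hg i)

/-- the interpolation in a cell -/
lemma hat_cell' (hg : ∀ k < K3, fl vG k < fl vG (k + 1)) {u : ℕ → ℝ} {k : ℕ} (hk : k < K3)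
    {x : ℝ} (h1 : (fl vG k : ℝ) ≤ x) (h2 : x ≤ fl vG (k + 1)) :
    hat (fun i => (gN vG K3 i : ℝ)) K3 u x =
      (u k * (fl vG (k + 1) - x) + u (k + 1) * (x - fl vG k)) /
        ((fl vG (k + 1) : ℝ) - fl vG k) := by
  have e1 : gN vG K3 k = fl vG k := gN_of_le hk.le
  have e2 : gN vG K3 (k + 1) = fl vG (k + 1) := gN_of_le hk
  have h3 : (fl vG k : ℝ) < fl vG (k + 1) := Nat.cast_lt.2 (hg k hk)
  have h0 : (fl vG (k + 1) : ℝ) - fl vG k ≠ 0 := by linarith
  rw [hat_cell (gR_lt hg) hk u (by simpa only [e1] using h1) (by simpa only [e2] using h2)]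
  simp only [e1, e2]
  field_simp
  ring

/-- the interpolation beyond the last node -/
lemma hat_cap' (hg : ∀ k < K3, fl vG k < fl vG (k + 1)) {u : ℕ → ℝ}
    {x : ℝ} (h : (fl vG K3 : ℝ) ≤ x) : hat (fun i => (gN vG K3 i : ℝ)) K3 u x = u K3 :=
  hat_cap (gR_lt hg) K3 u (by simpa only [gN_of_le (le_refl K3)] using h)

lemma OneRow.le_deg (h : OneRow d Q K3 vG t f a r e) (hQ : 1 ≤ Q) (ha : a < K3)
    (hg : ∀ k < K3, fl vG k < fl vG (k + 1)) {x : ℝ} (hx : (f : ℝ) ≤ x) :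
    hat (fun i => (gN vG K3 i : ℝ)) K3 (fun k => (fl r k : ℝ) / Q) x ≤ 2 * d * (x - t) := by
  have hQ0 : (0 : ℝ) < Q := by exact_mod_cast hQ
  have hga : (fl vG a : ℝ) ≤ f := Nat.cast_le.2 h.ga
  -- the values at the nodes
  have hnode : ∀ k, a ≤ k → k < K3 →
      (fl r (k + 1) : ℝ) / Q ≤ 2 * d * ((fl vG (k + 1) : ℝ) - t) := by
    intro k hk hk3
    have h1 : ((fl r (k + 1) + 2 * d * Q * t : ℕ) : ℝ) ≤ ((2 * d * Q * fl vG (k + 1) : ℕ) : ℝ) :=
      Nat.cast_le.2 (h.deg k hk hk3)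
    push_cast at h1
    rw [div_le_iff₀ hQ0]
    linarith
  rcases le_total x (fl vG K3) with h1 | h1
  · rcases exists_cell (g := fun i => (fl vG i : ℝ)) ha.le (hga.trans hx) h1 with h2 |
      ⟨k, hk1, hk2, hk3, hk4⟩
    · omega
    · rw [hat_cell' hg hk2 hk3 hk4]
      have h3 : (fl vG k : ℝ) < fl vG (k + 1) := Nat.cast_lt.2 (hg k hk2)
      rw [div_le_iff₀ (by linarith)]
      have hr := hnode k hk1 hk2
      rcases Nat.eq_or_lt_of_le hk1 with h4 | h4
      · subst h4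
        -- the first cell: affine between `f` and the end
        have h5 : ((fl r a * (fl vG (a + 1) - f) + fl r (a + 1) * (f - fl vG a) +
            2 * d * Q * t * (fl vG (a + 1) - fl vG a) : ℕ) : ℝ) ≤
            ((2 * d * Q * f * (fl vG (a + 1) - fl vG a) : ℕ) : ℝ) := Nat.cast_le.2 h.fst
        push_cast [Nat.cast_sub h.gb.le, Nat.cast_sub h.ga, Nat.cast_sub (hg a hk2).le] at h5
        have hfb : (f : ℝ) < fl vG (a + 1) := Nat.cast_lt.2 h.gb
        set g0 : ℝ := (fl vG a : ℝ)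
        set g1 : ℝ := (fl vG (a + 1) : ℝ)
        set u0 : ℝ := (fl r a : ℝ) / Q with hu0
        set u1 : ℝ := (fl r (a + 1) : ℝ) / Q with hu1
        have e0 : (fl r a : ℝ) = Q * u0 := by rw [hu0]; field_simp
        have e1 : (fl r (a + 1) : ℝ) = Q * u1 := by rw [hu1]; field_simp
        rw [e0, e1] at h5
        have h6 : u0 * (g1 - f) + u1 * (f - g0) ≤ 2 * d * (f - t) * (g1 - g0) := by
          have : Q * (u0 * (g1 - f) + u1 * (f - g0)) ≤ Q * (2 * d * (f - t) * (g1 - g0)) := by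
            linarith
          exact le_of_mul_le_mul_left this hQ0
        have h7 : 0 ≤ 2 * d * (g1 - t) - u1 := by linarith
        -- the difference is affine in `x`
        have h8 : 0 ≤ x - f := by linarith
        have h9 : 0 ≤ g1 - x := by linarith
        have h10 : 0 < g1 - f := by linarith
        have h11 : 0 < g1 - g0 := by linarith
        have key : (2 * d * (x - t) * (g1 - g0) - (u0 * (g1 - x) + u1 * (x - g0))) * (g1 - f) =
            (2 * d * (f - t) * (g1 - g0) - (u0 * (g1 - f) + u1 * (f - g0))) * (g1 - x) +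
            (2 * d * (g1 - t) - u1) * (g1 - g0) * (x - f) := by ring
        have h12 : 0 ≤ (2 * d * (x - t) * (g1 - g0) - (u0 * (g1 - x) + u1 * (x - g0))) *
            (g1 - f) := by
          rw [key]
          have p1 := mul_nonneg (sub_nonneg.2 h6) h9
          have p2 := mul_nonneg (mul_nonneg h7 h11.le) h8
          linarith
        have h13 := nonneg_of_mul_nonneg_left h12 h10
        linarith
      · obtain ⟨j, rfl⟩ : ∃ j, k = j + 1 := ⟨k - 1, by omega⟩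
        have hl := hnode j (by omega) (by omega)
        have p1 := mul_le_mul_of_nonneg_right hl (sub_nonneg.2 hk4)
        have p2 := mul_le_mul_of_nonneg_right hr (sub_nonneg.2 hk3)
        refine (add_le_add p1 p2).trans (le_of_eq ?_)
        ring
  · rw [hat_cap' hg h1]
    obtain ⟨j, rfl⟩ : ∃ j, K3 = j + 1 := ⟨K3 - 1, by omega⟩
    refine (hnode j (by omega) (by omega)).trans ?_
    exact mul_le_mul_of_nonneg_left (by linarith) (by positivity)

lemma OneRow.le_of (h : OneRow d Q K3 vG t f a r e) (hd : 1 ≤ d) (hQ : 1 ≤ Q) (ha : a < K3)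
    (hg : ∀ k < K3, fl vG k < fl vG (k + 1)) {n o : ℕ} (hn : f ≤ n)
    (hlw : lwf d n ≤ (o : ℝ)) (he : n ≤ 400 → fl e n ≤ o) :
    hat (fun i => (gN vG K3 i : ℝ)) K3 (fun k => (fl r k : ℝ) / Q) (n : ℝ) ≤ o := by
  have hQ0 : (0 : ℝ) < Q := by exact_mod_cast hQ
  have hga : (fl vG a : ℝ) ≤ n := Nat.cast_le.2 (h.ga.trans hn)
  rcases le_total (n : ℝ) (fl vG K3) with h1 | h1
  · rcases exists_cell (g := fun i => (fl vG i : ℝ)) ha.le hga h1 with h2 |
      ⟨k, hk1, hk2, hk3, hk4⟩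
    · omega
    · rw [hat_cell' hg hk2 hk3 hk4]
      have h3 : (fl vG k : ℝ) < fl vG (k + 1) := Nat.cast_lt.2 (hg k hk2)
      have k3 : fl vG k ≤ n := Nat.cast_le.1 hk3
      have k4 : n ≤ fl vG (k + 1) := Nat.cast_le.1 hk4
      rw [div_le_iff₀ (by linarith)]
      rcases h.cell k hk1 hk2 with ⟨h4, h5⟩ | ⟨h4, h5⟩
      · have h6 := (h5 n k3 k4 hn).trans (Nat.mul_le_mul_left _ (he (k4.trans h4)))
        have h7 : ((fl r k * (fl vG (k + 1) - n) + fl r (k + 1) * (n - fl vG k) : ℕ) : ℝ) ≤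
            ((Q * (fl vG (k + 1) - fl vG k) * o : ℕ) : ℝ) := Nat.cast_le.2 h6
        push_cast [Nat.cast_sub k4, Nat.cast_sub k3, Nat.cast_sub (k3.trans k4)] at h7
        have e : (fl r k : ℝ) / Q * (fl vG (k + 1) - n) + (fl r (k + 1) : ℝ) / Q * (n - fl vG k) =
            ((fl r k : ℝ) * (fl vG (k + 1) - n) + (fl r (k + 1) : ℝ) * (n - fl vG k)) / Q := by
          ring
        rw [e, div_le_iff₀ hQ0]
        linarith
      · have l0 := lwB_sound hd hQ h4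
        have l1 := lwB_sound hd hQ h5
        set g0 : ℝ := (fl vG k : ℝ)
        set g1 : ℝ := (fl vG (k + 1) : ℝ)
        have hpos : 0 < g1 - g0 := by linarith
        have s0 : 0 ≤ ((n : ℝ) - g0) / (g1 - g0) := div_nonneg (by linarith) hpos.le
        have s1 : ((n : ℝ) - g0) / (g1 - g0) ≤ 1 := by
          rw [div_le_one hpos]; linarith
        have hc := lwf_conc hd (Nat.cast_nonneg (fl vG k)) (Nat.cast_nonneg (fl vG (k + 1))) s0 s1
        have e : (1 - ((n : ℝ) - g0) / (g1 - g0)) * g0 + ((n : ℝ) - g0) / (g1 - g0) * g1 = n := by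
          field_simp
          ring
        rw [e] at hc
        have h6 : ((g1 - n) * lwf d g0 + (n - g0) * lwf d g1) ≤ lwf d n * (g1 - g0) := by
          have e2 : (1 - ((n : ℝ) - g0) / (g1 - g0)) * lwf d g0 +
              ((n : ℝ) - g0) / (g1 - g0) * lwf d g1 =
              ((g1 - n) * lwf d g0 + (n - g0) * lwf d g1) / (g1 - g0) := by
            field_simp
            ring
          rw [e2, div_le_iff₀ hpos] at hc
          exact hc
        have p1 := mul_le_mul_of_nonneg_right l0 (sub_nonneg.2 hk4)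
        have p2 := mul_le_mul_of_nonneg_right l1 (sub_nonneg.2 hk3)
        have p3 := mul_le_mul_of_nonneg_right hlw hpos.le
        refine (add_le_add p1 p2).trans ?_
        linarith
  · rw [hat_cap' hg h1]
    have k1 : fl vG K3 ≤ n := Nat.cast_le.1 h1
    rcases h.fin with h2 | ⟨h2, h3, h4⟩
    · exact ((lwB_sound hd hQ h2).trans (lwf_mono hd (Nat.cast_nonneg _) h1)).trans hlw
    · rcases Nat.lt_or_ge 400 n with h5 | h5
      · refine ((lwB_sound hd hQ h2).trans (lwf_mono hd (Nat.cast_nonneg _) ?_)).trans hlw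
        exact Nat.cast_le.2 h5
      · have h6 := (h4 n k1 h5).trans (Nat.mul_le_mul_left _ (he h5))
        rw [div_le_iff₀ hQ0]
        have h7 : ((fl r K3 : ℕ) : ℝ) ≤ ((Q * o : ℕ) : ℝ) := Nat.cast_le.2 h6
        push_cast at h7
        linarith

end

theorem rowChk_sound {d Q K1 K3 N0 vE vF vG vR vA : ℕ} (hO : IsO d (eV vE))
    (hF : IsF d (fV vF)) (h : rowChk d Q K1 K3 N0 vE vF vG vR vA = true) :
    RowOk d Q K1 K3 N0 vF vG vR vA := by
  simp only [rowChk, Bool.and_eq_true, allB_iff, Nat.ble_eq, frc_eq] at h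
  obtain ⟨hd, hQ, hK1, hK3, hg0, hg, hm, hr⟩ := h
  have hg' : ∀ k < K3, fl vG k < fl vG (k + 1) := fun k hk => hg k hk
  have hrow : ∀ t, 1 ≤ t → t ≤ N0 → fl vA t + 2 ≤ K1 ∧ OneRow d Q K3 vG t (fV vF t) (fl vA t)
      (sg vR (64 * t) 64) (sg vE (512 * (bif Nat.ble t 24 then t else 24)) 401) := by
    intro t ht1 ht2
    obtain ⟨i, rfl⟩ : ∃ i, t = i + 1 := ⟨t - 1, by omega⟩
    obtain ⟨h1, h2⟩ := hr i (by omega)
    exact ⟨h1, rowB_sound h2⟩
  have hrr : ∀ t k, k ≤ 63 → fl (sg vR (64 * t) 64) k = fl vR (64 * t + k) :=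
    fun t k hk => fl_sg (by omega)
  have hru : ∀ t (x : ℝ), rO vG K3 Q vR t x =
      hat (fun i => (gN vG K3 i : ℝ)) K3 (fun k => (fl (sg vR (64 * t) 64) k : ℝ) / Q) x := by
    intro t x
    unfold rO
    exact hat_congr K3 (fun k hk => by rw [hrr t k (by omega)]) x
  refine ⟨hd, hQ, hK1, hK3, Nat.eq_of_beq_eq_true hg0, gN_lt hg', fun t h1 h2 => (hrow t h1 h2).2.ga,
    fun t h1 h2 => (hrow t h1 h2).2.gb, fun t h1 h2 => (hrow t h1 h2).1, ?_, ?_, ?_, ?_, ?_⟩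
  · intro t ht1 ht2
    obtain ⟨i, rfl⟩ : ∃ i, t = i + 1 := ⟨t - 1, by omega⟩
    exact hm i (by change i < N0 - 1; omega)
  · intro T D hT hTD hn hN
    obtain ⟨h1, h2⟩ := hrow T.card (Finset.card_pos.2 hT) hN
    have hCl : Cl T D := ⟨hTD, hn⟩
    have hne : D.Nonempty := hT.mono hTD
    rw [hru]
    refine h2.le_of hd hQ (by omega) hg' (hF T D hCl) (outE_lw hd D hne) fun h400 => ?_
    have h3 := hO T D hCl
    rw [fl_sg (by omega)]
    have b1 : Nat.ble D.card 400 = true := by rw [Nat.ble_eq]; exact h400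
    rw [eV, b1] at h3
    rw [add_comm]
    exact h3
  · intro t ht1 ht2 x hx
    obtain ⟨h1, h2⟩ := hrow t ht1 ht2
    rw [hru]
    exact h2.le_deg hQ (by omega) hg' hx
  · intro t ht1 ht2 k hk1 hk2
    obtain ⟨h1, h2⟩ := hrow t ht1 ht2
    have h3 := h2.mono k hk1 hk2
    rwa [hrr t k (by omega), hrr t (k + 1) (by omega)] at h3
  · intro t ht1 ht2 k hk1 hk2
    obtain ⟨h1, h2⟩ := hrow t ht1 ht2
    have h3 := h2.lip k hk1 hk2
    rwa [hrr t k (by omega), hrr t (k + 1) (by omega)] at h3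

/-- large sets `T`: the last row -/
theorem RowOk.le_outE' {d Q K1 K3 N0 vF vG vR vA : ℕ} (h : RowOk d Q K1 K3 N0 vF vG vR vA)
    (hN : 1 ≤ N0) (T D : Finset (Site d)) (hT : T.Nonempty) (hTD : T ⊆ D)
    (hn : ∀ x ∈ T, nbrs x ⊆ D) :
    rO vG K3 Q vR (min T.card N0) (D.card : ℝ) ≤ outE D := by
  obtain ⟨T', h1, h2⟩ := Finset.exists_subset_card_eq (min_le_left T.card N0)
  have h3 : 0 < T.card := Finset.card_pos.2 hT
  have hne : T'.Nonempty := by
    rw [← Finset.card_pos, h2]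
    exact lt_min h3 hN
  rw [← h2]
  exact h.le_outE T' D hne (h1.trans hTD) (fun x hx => hn x (h1 hx))
    (by rw [h2]; exact min_le_right _ _)

end Pool.Agent.Lib.MP_67d80e_pr_g3
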