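import Pool.Agent.Lib.MP_67d80e_pr_g3.Dat
import Pool.Agent.Lib.MP_67d80e_pr_g3.V64
import Pool.Agent.Lib.MP_67d80e_pr_g3.Gd
import Pool.Agent.Lib.MP_67d80e_pr_g3.Row

/-!
The geometric part of the data, rows as packed vectors, bounds.
-/

set_option autoImplicit false

open scoped BigOperators
open Pool.Agent.Lib.MP_67d80e_pr_all

namespace Pool.Agent.Lib.MP_67d80e_pr_g3

lemma al_sound {p : ℕ → Bool} {k : ℕ} (h : al p k = true) : ∀ i < k, p i = true := by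
  induction k with
  | zero => intro i hi; omega
  | succ k ih =>
    unfold al at h
    rw [Bool.and_eq_true] at h
    intro i hi
    rcases Nat.lt_succ_iff_lt_or_eq.1 hi with h1 | h1
    · exact ih h.2 i h1
    · rw [h1]; exact h.1

lemma fa_sound {lo hi : ℕ} {p : ℕ → Bool} (h : fa lo hi p = true) :
    ∀ i, lo ≤ i → i < hi → p i = true := by
  intro i h1 h2
  have h3 := al_sound h (i - lo) (by
    have : Nat.sub hi lo = hi - lo := rfl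
    omega)
  have h4 : Nat.add lo (i - lo) = i := by
    have : Nat.add lo (i - lo) = lo + (i - lo) := rfl
    omega
  rw [h4] at h3
  exact h3

/-! ### bounds -/

lemma lt_mul {a b p q r : ℕ} (ha : a < 2 ^ p) (hb : b < 2 ^ q) (h : p + q ≤ r) : a * b < 2 ^ r := by
  calc a * b < 2 ^ p * 2 ^ q := Nat.mul_lt_mul'' ha hb
    _ = 2 ^ (p + q) := (pow_add _ _ _).symm
    _ ≤ 2 ^ r := Nat.pow_le_pow_right (by norm_num) h

lemma lt_add {a b p r : ℕ} (ha : a < 2 ^ p) (hb : b < 2 ^ p) (h : p + 1 ≤ r) :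
    a + b < 2 ^ r := by
  calc a + b < 2 ^ p + 2 ^ p := Nat.add_lt_add ha hb
    _ = 2 ^ (p + 1) := by rw [pow_succ]; ring
    _ ≤ 2 ^ r := Nat.pow_le_pow_right (by norm_num) h

lemma lt_up {a p r : ℕ} (ha : a < 2 ^ p) (h : p ≤ r) : a < 2 ^ r :=
  ha.trans_le (Nat.pow_le_pow_right (by norm_num) h)

lemma le64_get {f g : ℕ → ℕ} {k A C : ℕ} (h : le64 A C (u64 k) = true) (hA : A = p64 f k)
    (hC : C = p64 g k) (hf : ∀ i < k, f i < 2 ^ 63) (hg : ∀ i < k, g i < 2 ^ 63) :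
    ∀ i < k, g i ≤ f i := by
  rw [hA, hC] at h
  exact le64_sound hf hg h

lemma u64_mul (c k : ℕ) : c * u64 k = p64 (fun _ => c) k := by
  rw [u64_eq, p64_mul]
  exact p64_congr fun i _ => by ring

lemma beq_get {f : ℕ → ℕ} {k A c : ℕ} (h : Nat.beq A (Nat.mul c (u64 k)) = true)
    (hA : A = p64 f k) (hf : ∀ i < k, f i < 2 ^ 64) (hc : c < 2 ^ 64) : ∀ i < k, f i = c := by
  intro i hi
  have h1 : A = c * u64 k := Nat.eq_of_beq_eq_true h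
  rw [hA, u64_mul] at h1
  have h2 := w64_p64 (f := f) hf hi
  have h3 := w64_p64 (f := fun _ => c) (fun _ _ => hc) hi
  rw [h1] at h2
  rw [← h2, h3]

/-! ### the geometry -/

/-- position of a point in the grid -/
def PosB (D : Dat) (K x p r : ℕ) : Prop :=
  (p < K ∧ r ≤ D.g p ∧ x = D.x p + r) ∨ (p = K ∧ r = 0 ∧ D.x K ≤ x)

instance (D : Dat) (K x p r : ℕ) : Decidable (PosB D K x p r) := by
  unfold PosB
  infer_instance

/-- indices after a step -/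
def StpB (D : Dat) (K : ℕ) (js ls : ℕ → ℕ) : Prop :=
  ∀ j < K, (j ≤ js j ∧ js j < K ∧ (D.x (j + 1) + D.m ≤ D.x (js j + 1) + 1 ∨ js j + 1 = K)) ∧
    (j ≤ ls j ∧ ls j ≤ K ∧ (D.x (j + 1) + D.m ≤ D.x (ls j) + 1 ∨ ls j = K))

instance (D : Dat) (K : ℕ) (js ls : ℕ → ℕ) : Decidable (StpB D K js ls) := by
  unfold StpB
  infer_instance

/-- the static conditions -/
structure Dat.Geo (D : Dat) (d vE : ℕ) : Prop where
  hm : D.m = 2 * d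
  m0 : 1 ≤ D.m
  hN0 : 1 ≤ D.N0
  h12 : D.K1 ≤ D.K2
  h23 : D.K2 ≤ D.K3
  S0 : 0 < D.S
  A0 : fl D.vA 0 = 0
  gap : ∀ k < D.K3, D.x (k + 1) = D.x k + D.g k
  gK : D.g D.K3 = 1
  gpos : ∀ k ≤ D.K3, 0 < D.g k
  gb : ∀ k ≤ D.K2, D.g k < 512
  c1 : D.m ≤ D.g (D.K1 - 1)
  c2 : D.m ≤ D.g (D.K2 - 1)
  p1 : ∀ i ≤ D.K1, PosB D D.K1 (D.x i + D.m) (fl D.vp1 i) (fl D.vr1 i)
  p2 : ∀ i ≤ D.K2, PosB D D.K2 (D.x i + D.m) (fl D.vp2 i) (fl D.vr2 i)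
  p3 : ∀ i ≤ D.K3, PosB D D.K3 (D.x i + D.m) (fl D.vp3 i) (fl D.vr3 i)
  s1 : StpB D D.K1 (fun j => fl D.vc1 j) (fun j => fl D.vd1 j)
  s2 : StpB D D.K2 (fun j => fl D.vc2 j) (fun j => fl D.vd2 j)
  s3 : StpB D D.K3 (fun j => fl D.vc3 j) (fun j => fl D.vd3 j)
  ph : ∀ n ≤ D.N0, n = 0 ∨ PosB D D.K1 (n + D.m) (fl D.vph n) (fl D.vrh n)
  pl : ∀ n ≤ D.N0, n = 0 ∨ PosB D D.K1 (max (D.m + 1) n) (fl D.vpl n) (fl D.vrl n)
  E1 : D.E 1 = 0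
  E2 : ∀ n ≤ D.N0, 2 * D.E n ≤ n * D.A n
  E3 : ∀ n ≤ D.N0, n = 0 ∨ D.m * n < 2 * (D.E n + 1) + eV vE 0 n
  cE0 : ∀ n < D.N0, n = 0 ∨ D.t n D.K1 D.K1 D.K1 + D.η n * D.E n ≤
    D.t (n + 1) D.K1 D.K1 D.K1 + D.η (n + 1) * D.E (n + 1)
  cE1 : ∀ n < D.N0, n = 0 ∨ D.t n D.K1 D.K1 D.K1 + D.η (n + 1) * D.E n ≤
    D.t (n + 1) D.K1 D.K1 D.K1 + D.η (n + 1) * D.E (n + 1)

end Pool.Agent.Lib.MP_67d80e_pr_g3
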