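import Pool.Agent.Lib.MP_67d80e_pr_g3.Gd

/-!
The drift inequality in the whole box below the caps.
-/

set_option autoImplicit false

open scoped BigOperators
open Finset

namespace Pool.Agent.Lib.MP_67d80e_pr_g3

namespace GD.Ok

variable {A : GD} {c ε : ℝ} (h : A.Ok c ε)
include h

lemma U_conX {n : ℕ} (h1 : 1 ≤ n) (h2 : n ≤ A.N0) {e : ℝ} (he : e = 0 ∨ e = A.E n)
    {x x' y t : ℝ} (hx : A.G (A.b (n + 1)) ≤ x) (hx' : A.G (A.b (n + 1)) ≤ x') (t0 : 0 ≤ t)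
    (t1 : t ≤ 1) : (1 - t) * A.U n e x y + t * A.U n e x' y ≤
      A.U n e ((1 - t) * x + t * x') y := by
  have hE := h.hE n h1 h2
  have hA := h.hnm n h1 h2
  have hn : (0 : ℝ) ≤ n := Nat.cast_nonneg _
  have e0 : (0 : ℝ) ≤ A.E n := Nat.cast_nonneg _
  have hG := h.G_ge (A.b (n + 1))
  refine topU_conX h.lay1 ?_ ?_ hA (hG.trans hx) (hG.trans hx') t0 t1
  · rcases he with rfl | rfl
    · exact le_rfl
    · exact e0
  · rcases he with rfl | rfl
    · rw [mul_zero]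
      exact mul_nonneg hn (sub_nonneg.2 hA)
    · exact hE

lemma U_conY {n : ℕ} (h1 : 1 ≤ n) (h2 : n ≤ A.N0) {e : ℝ} (he : e = 0 ∨ e = A.E n)
    {x y y' t : ℝ} (hx : A.G (A.b (n + 1)) ≤ y) (hx' : A.G (A.b (n + 1)) ≤ y') (t0 : 0 ≤ t)
    (t1 : t ≤ 1) : (1 - t) * A.U n e x y + t * A.U n e x y' ≤
      A.U n e x ((1 - t) * y + t * y') := by
  have hE := h.hE n h1 h2
  have hA := h.hnm n h1 h2
  have hn : (0 : ℝ) ≤ n := Nat.cast_nonneg _
  have e0 : (0 : ℝ) ≤ A.E n := Nat.cast_nonneg _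
  have hG := h.G_ge (A.b (n + 1))
  refine topU_conY h.lay1 ?_ ?_ hA (hG.trans hx) (hG.trans hx') t0 t1
  · rcases he with rfl | rfl
    · exact le_rfl
    · exact e0
  · rcases he with rfl | rfl
    · rw [mul_zero]
      exact mul_nonneg hn (sub_nonneg.2 hA)
    · exact hE

/-- the drift inequality in the box below the caps -/
theorem inbox {n : ℕ} (h1 : 1 ≤ n) (h2 : n ≤ A.N0) {e : ℝ} (he : e = 0 ∨ e = A.E n)
    {x y z : ℕ} (hx : A.F n ≤ x) (hxy : x ≤ y) (hyz : y ≤ z) (hxK : x ≤ A.Gn A.K1)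
    (hyK : y ≤ A.Gn A.K2) (hzK : z ≤ A.Gn A.K3) : c ≤ A.D n e x y z := by
  have hb := h.bK1 h2
  have h12 := h.h12
  have h23 := h.h23
  have hgr := h.hgr
  have gm := h.gm
  have gmn := h.gmn
  have hm1 : (1 : ℝ) ≤ A.m := by exact_mod_cast h.hm
  have hFa := (h.hF n h1 h2).1
  set a := A.b (n + 1) with ha
  -- the cells
  obtain ⟨i, ai, iK, i1, i2, i3⟩ := cell_nat (hFa.trans hx) hxK (by omega) h.hG
  obtain ⟨j, aj, jK, j1, j2, j3⟩ := cell_nat (hFa.trans (hx.trans hxy)) hyK (by omega) h.hG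
  obtain ⟨l, al, lK, l1, l2, l3⟩ :=
    cell_nat (hFa.trans (hx.trans (hxy.trans hyz))) hzK (by omega) h.hG
  have hij : i ≤ j := by
    by_contra hcon
    have h5 : A.Gn (j + 1) ≤ A.Gn i := gmn (by omega)
    rcases j3 with h6 | h6
    · omega
    · omega
  have hjl : j ≤ l := by
    by_contra hcon
    have h5 : A.Gn (l + 1) ≤ A.Gn j := gmn (by omega)
    rcases l3 with h6 | h6
    · omega
    · omega
  obtain ⟨ξ, ξ0, ξ1, ex, ξ2⟩ := lin_rep (h.hG i) i1 i2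
  obtain ⟨υ, υ0, υ1, ey, υ2⟩ := lin_rep (h.hG j) j1 j2
  obtain ⟨ζ, ζ0, ζ1, ez, -⟩ := lin_rep (h.hG l) l1 l2
  have hGe : ∀ k, (A.Gn k : ℝ) = A.G k := fun k => rfl
  rw [hGe, hGe] at ex ey ez
  -- the points
  have gi := hgr i
  have gj := hgr j
  have gl := hgr l
  have gai : A.G a ≤ A.G i := gm ai
  have gaj : A.G a ≤ A.G j := gm aj
  have gal : A.G a ≤ A.G l := gm al
  have xa : A.G a ≤ (x : ℝ) := by
    unfold GD.G
    exact_mod_cast hFa.trans hx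
  have xy : (x : ℝ) ≤ y := by exact_mod_cast hxy
  have yz : (y : ℝ) ≤ z := by exact_mod_cast hyz
  have zK : (z : ℝ) ≤ A.G A.K3 := by
    unfold GD.G
    exact_mod_cast hzK
  have gii : ∀ e : Bool, A.G a ≤ pt e (A.G i) (A.G (i + 1)) := fun e => le_pt gai gi.le
  have gjj : ∀ e : Bool, A.G a ≤ pt e (A.G j) (A.G (j + 1)) := fun e => le_pt gaj gj.le
  have gll : ∀ e : Bool, A.G a ≤ pt e (A.G l) (A.G (l + 1)) := fun e => le_pt gal gl.le
  have pi : ∀ e : Bool, ∃ i', pt e (A.G i) (A.G (i + 1)) = A.G i' ∧ (i' = i ∨ i' = i + 1) := by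
    intro e; cases e
    · exact ⟨i, rfl, Or.inl rfl⟩
    · exact ⟨i + 1, rfl, Or.inr rfl⟩
  have pj : ∀ e : Bool, ∃ j', pt e (A.G j) (A.G (j + 1)) = A.G j' ∧ (j' = j ∨ j' = j + 1) := by
    intro e; cases e
    · exact ⟨j, rfl, Or.inl rfl⟩
    · exact ⟨j + 1, rfl, Or.inr rfl⟩
  have pl : ∀ e : Bool, ∃ l', pt e (A.G l) (A.G (l + 1)) = A.G l' ∧ (l' = l ∨ l' = l + 1) := by
    intro e; cases e
    · exact ⟨l, rfl, Or.inl rfl⟩
    · exact ⟨l + 1, rfl, Or.inr rfl⟩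
  -- the rows
  have On : ∀ k ≤ A.K3, A.Oh n (A.G k) = A.O n k := fun k hk => h.Oh_node hk
  have Ol : ∀ k < A.K3, ∀ t : ℝ, 0 ≤ t → t ≤ 1 → A.Oh n (lin t (A.G k) (A.G (k + 1))) =
      lin t (A.Oh n (A.G k)) (A.Oh n (A.G (k + 1))) := by
    intro k hk t t0 t1
    rw [On k hk.le, On (k + 1) hk]
    exact hat_lin hgr hk _ t0 t1
  unfold GD.D
  rw [ex, ey, ez]
  have hUx : ∀ x x' y t, A.G a ≤ x → A.G a ≤ x' → 0 ≤ t → t ≤ 1 →
      (1 - t) * A.U n e x y + t * A.U n e x' y ≤ A.U n e ((1 - t) * x + t * x') y :=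
    fun x x' y t p q r s => h.U_conX h1 h2 he p q r s
  have hUy : ∀ x y y' t, A.G a ≤ y → A.G a ≤ y' → 0 ≤ t → t ≤ 1 →
      (1 - t) * A.U n e x y + t * A.U n e x y' ≤ A.U n e x ((1 - t) * y + t * y') :=
    fun x y y' t p q r s => h.U_conY h1 h2 he p q r s
  refine box_lower (L := A.G a) (m := (A.m : ℝ)) (n := (n : ℝ)) (εx := ε) (εy := ε) (f := A.f n)
    (g := A.f (A.nx n)) (U := A.U n e) (O := A.Oh n) (x0 := A.G i) (x1 := A.G (i + 1))
    (y0 := A.G j) (y1 := A.G (j + 1)) (z0 := A.G l) (z1 := A.G (l + 1))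
    hm1 (h.layOk' h1 h2) (h.layNx h1 h2) hUx hUy
    gai gi.le gaj gj.le gal gl.le ξ0 ξ1 υ0 υ1 ζ0 ζ1 h.ε0 h.ε0
    (Ol i (by omega) ξ ξ0 ξ1) (Ol j (by omega) υ υ0 υ1) (Ol l lK ζ ζ0 ζ1)
    (sub_nonneg.2 (h.Oh_mono h1 h2 gai gi.le))
    (h.Oh_slope h1 h2 gai gi.le (gm (by omega)))
    (sub_nonneg.2 (h.Oh_mono h1 h2 gaj gj.le))
    (h.Oh_slope h1 h2 gaj gj.le (gm (by omega)))
    (sub_nonneg.2 (h.Oh_mono h1 h2 gal gl.le))
    (h.Oh_slope h1 h2 gal gl.le (gm (by omega)))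
    ?_ ?_ ?_ ?_ ?_ ?_ ?_ ?_ ?_ ?_
  · rw [← ex]
    exact h.Oh_nonneg h1 h2 xa
  · rw [← ex]
    exact h.O3 n x h1 h2 hx ((hxy.trans hyz).trans hzK)
  · rw [← ex, ← ey]
    exact h.Oh_mono h1 h2 xa xy
  · rw [← ex, ← ey]
    exact h.Oh_slope h1 h2 xa xy (yz.trans zK)
  · rw [← ey, ← ez]
    exact h.Oh_mono h1 h2 (xa.trans xy) yz
  · rw [← ey, ← ez]
    exact h.Oh_slope h1 h2 (xa.trans xy) yz zK
  · -- the function in the cell
    rw [h.f_eq' h1 h2 (by rw [← ex]; exact xa) (by rw [← ey]; exact xa.trans xy)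
      (by rw [← ez]; exact (xa.trans xy).trans yz), F3_cell hgr _ iK jK lK ξ0 ξ1 υ0 υ1 ζ0 ζ1]
    congr 1
    funext e k p
    rw [h.f_eq' h1 h2 (gii e) (gjj k) (gll p)]
  · -- the corners
    intro e' k p
    obtain ⟨i', ei, hi'⟩ := pi e'
    obtain ⟨j', ej, hj'⟩ := pj k
    obtain ⟨l', el, hl'⟩ := pl p
    have := h.cor n h1 h2 e he i' j' l' (by omega) (by omega) (by omega) (by omega) (by omega)
      (by omega) (by omega) (by omega) (by omega)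
    rw [ei, ej, el]
    unfold GD.D at this
    have e2 : (ε + ε) / 4 = ε / 2 := by ring
    rw [e2]
    exact this
  · -- the edges of the first variable
    refine ξ2.imp id (Or.imp id fun hgap => ?_)
    intro k p
    obtain ⟨j', ej, hj'⟩ := pj k
    obtain ⟨l', el, hl'⟩ := pl p
    have gaj' : A.G a ≤ A.G j' := gm (by omega)
    have gal' : A.G a ≤ A.G l' := gm (by omega)
    rw [ej, el]
    constructor
    · have gA1 : A.G a ≤ A.G (i + 1) + A.m := by linarith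
      have gA2 : A.G a ≤ A.G i + A.m := by linarith
      have gA3 : A.G a ≤ A.G (i + 1) + 1 := by linarith
      have gA4 : A.G a ≤ A.G i + 1 := by linarith
      have gA5 : A.G a ≤ A.G j' + A.m := by linarith
      have gA6 : A.G a ≤ A.G l' + A.m := by linarith
      rw [h.g_eq h1 h2 gA1 gA5 gA6, h.g_eq h1 h2 gA2 gA5 gA6, h.f_eq' h1 h2 gA3 gA5 gA6,
        h.f_eq' h1 h2 gA4 gA5 gA6, F3_viewYZ, F3_viewYZ, F3_viewYZ, F3_viewYZ, ← e2_sub, ← e2_sub]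
      exact e2_le hgr (b := a) (by omega) (by omega) (fun j'' l'' q r s t =>
        h.hx n h1 h2 i j'' l'' ai iK hgap q r s t) gA5 gA6
    · have gi1 : A.G a ≤ A.G (i + 1) := gai.trans gi.le
      have gA3 : A.G a ≤ A.G (i + 1) + 1 := by linarith
      have gA4 : A.G a ≤ A.G i + 1 := by linarith
      rw [h.g_eq h1 h2 gi1 gaj' gal', h.g_eq h1 h2 gai gaj' gal', h.f_eq' h1 h2 gA3 gaj' gal',
        h.f_eq' h1 h2 gA4 gaj' gal', F3_node hgr _ iK (by omega) (by omega),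
        F3_node hgr _ iK.le (by omega) (by omega), F3_nodeYZ hgr _ (by omega) (by omega),
        F3_nodeYZ hgr _ (by omega) (by omega)]
      exact h.ex n h1 h2 i j' l' ai iK hgap (by omega) (by omega) (by omega) (by omega) (by omega)
  · -- the edges of the second variable
    refine υ2.imp id (Or.imp id fun hgap => ?_)
    intro e' p
    obtain ⟨i', ei, hi'⟩ := pi e'
    obtain ⟨l', el, hl'⟩ := pl p
    have gai' : A.G a ≤ A.G i' := gm (by omega)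
    have gal' : A.G a ≤ A.G l' := gm (by omega)
    have gj1 : A.G a ≤ A.G (j + 1) := gaj.trans gj.le
    have gA1 : A.G a ≤ A.G i' + 1 := by linarith
    have gA3 : A.G a ≤ A.G (j + 1) + 1 := by linarith
    have gA4 : A.G a ≤ A.G j + 1 := by linarith
    rw [ei, el, h.f_eq' h1 h2 gA1 gj1 gal', h.f_eq' h1 h2 gA1 gaj gal',
      h.f_eq' h1 h2 gai' gA3 gal', h.f_eq' h1 h2 gai' gA4 gal',
      F3_nodeYZ hgr _ jK (by omega), F3_nodeYZ hgr _ jK.le (by omega),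
      F3_nodeXZ hgr _ (by omega) (by omega), F3_nodeXZ hgr _ (by omega) (by omega)]
    exact h.ey n h1 h2 i' j l' (by omega) (by omega) (by omega) aj jK hgap (by omega) (by omega)

end GD.Ok

end Pool.Agent.Lib.MP_67d80e_pr_g3
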