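import Mathlib

/-!
Piecewise linear interpolation in one variable.
-/

set_option autoImplicit false

open scoped BigOperators
open Finset

namespace Pool.Agent.Lib.MP_67d80e_pr_g3

/-- the weight of the step `i` -/
noncomputable def wt (g : ℕ → ℝ) (i : ℕ) (x : ℝ) : ℝ :=
  (min x (g (i + 1)) - min x (g i)) / (g (i + 1) - g i)

/-- interpolation of the values `u 0, …, u K` at the nodes `g 0 < … < g K`, constant outside -/
noncomputable def hat (g : ℕ → ℝ) (K : ℕ) (u : ℕ → ℝ) (x : ℝ) : ℝ :=
  u 0 + ∑ i ∈ range K, (u (i + 1) - u i) * wt g i x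

section
variable {g : ℕ → ℝ} (hg : ∀ i, g i < g (i + 1))
include hg

lemma g_mono : StrictMono g := strictMono_nat_of_lt_succ hg

lemma wt_nonneg (i : ℕ) (x : ℝ) : 0 ≤ wt g i x := by
  have h := hg i
  exact div_nonneg (sub_nonneg.2 (min_le_min le_rfl h.le)) (by linarith)

lemma wt_le_one (i : ℕ) (x : ℝ) : wt g i x ≤ 1 := by
  have h := hg i
  unfold wt
  rw [div_le_one (by linarith)]
  rcases le_total x (g i) with h1 | h1
  · rw [min_eq_left h1, min_eq_left (h1.trans h.le)]; linarith
  · rw [min_eq_right h1]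
    have := min_le_right x (g (i + 1))
    linarith

lemma wt_mono (i : ℕ) {x y : ℝ} (hxy : x ≤ y) : wt g i x ≤ wt g i y := by
  have h := hg i
  unfold wt
  refine div_le_div_of_nonneg_right ?_ (by linarith)
  rcases le_total x (g i) with h1 | h1
  · rw [min_eq_left h1, min_eq_left (h1.trans h.le)]
    have : min y (g i) ≤ min y (g (i + 1)) := min_le_min le_rfl h.le
    linarith
  · rw [min_eq_right h1, min_eq_right (h1.trans hxy)]
    have : min x (g (i + 1)) ≤ min y (g (i + 1)) := min_le_min hxy le_rfl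
    linarith

lemma wt_of_le (i : ℕ) {x : ℝ} (hx : x ≤ g i) : wt g i x = 0 := by
  unfold wt
  rw [min_eq_left hx, min_eq_left (hx.trans (hg i).le), sub_self, zero_div]

lemma wt_of_ge (i : ℕ) {x : ℝ} (hx : g (i + 1) ≤ x) : wt g i x = 1 := by
  unfold wt
  rw [min_eq_right hx, min_eq_right ((hg i).le.trans hx), div_self]
  have := hg i
  linarith

omit hg in
lemma wt_cell (i : ℕ) {x : ℝ} (h1 : g i ≤ x) (h2 : x ≤ g (i + 1)) :
    wt g i x = (x - g i) / (g (i + 1) - g i) := by
  unfold wt
  rw [min_eq_left h2, min_eq_right h1]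

omit hg in
lemma hat_sub (K : ℕ) (u v : ℕ → ℝ) (x : ℝ) :
    hat g K (fun i => u i - v i) x = hat g K u x - hat g K v x := by
  unfold hat
  have : ∑ i ∈ range K, (u (i + 1) - v (i + 1) - (u i - v i)) * wt g i x =
      ∑ i ∈ range K, (u (i + 1) - u i) * wt g i x -
      ∑ i ∈ range K, (v (i + 1) - v i) * wt g i x := by
    rw [← Finset.sum_sub_distrib]
    exact Finset.sum_congr rfl fun i _ => by ring
  rw [this]
  ring

omit hg in
lemma hat_add (K : ℕ) (u v : ℕ → ℝ) (x : ℝ) :
    hat g K (fun i => u i + v i) x = hat g K u x + hat g K v x := by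
  unfold hat
  have : ∑ i ∈ range K, (u (i + 1) + v (i + 1) - (u i + v i)) * wt g i x =
      ∑ i ∈ range K, (u (i + 1) - u i) * wt g i x +
      ∑ i ∈ range K, (v (i + 1) - v i) * wt g i x := by
    rw [← Finset.sum_add_distrib]
    exact Finset.sum_congr rfl fun i _ => by ring
  rw [this]
  ring

omit hg in
lemma hat_smul (K : ℕ) (c : ℝ) (u : ℕ → ℝ) (x : ℝ) :
    hat g K (fun i => c * u i) x = c * hat g K u x := by
  unfold hat
  have : ∑ i ∈ range K, (c * u (i + 1) - c * u i) * wt g i x =
      c * ∑ i ∈ range K, (u (i + 1) - u i) * wt g i x := by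
    rw [Finset.mul_sum]
    exact Finset.sum_congr rfl fun i _ => by ring
  rw [this]
  ring

omit hg in
lemma hat_div (g : ℕ → ℝ) (K : ℕ) (u v : ℕ → ℝ) (c x : ℝ) :
    (hat g K u x - hat g K v x) / c = hat g K (fun j => (u j - v j) / c) x := by
  have : (fun j => (u j - v j) / c) = fun j => c⁻¹ * (u j - v j) := by
    funext j; rw [div_eq_inv_mul]
  rw [this, hat_smul, hat_sub, div_eq_inv_mul]

omit hg in
lemma hat_const (g : ℕ → ℝ) (K : ℕ) (c x : ℝ) : hat g K (fun _ => c) x = c := by
  simp [hat]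

omit hg in
/-- two interpolations commute -/
lemma hat_comm (g g' : ℕ → ℝ) (K K' : ℕ) (u : ℕ → ℕ → ℝ) (x y : ℝ) :
    hat g K (fun i => hat g' K' (u i) y) x = hat g' K' (fun j => hat g K (fun i => u i j) x) y := by
  have h1 : ∀ v : ℕ → ℝ, hat g K v x = v 0 + ∑ i ∈ range K, (v (i + 1) - v i) * wt g i x :=
    fun v => rfl
  have h2 : ∀ K'' : ℕ, hat g' K'' (fun j => hat g K (fun i => u i j) x) y =
      hat g K (fun i => hat g' K'' (u i) y) x := by
    intro K''
    induction K'' with
    | zero => simp [hat]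
    | succ n ih =>
      have e : ∀ v : ℕ → ℝ, hat g' (n + 1) v y = hat g' n v y + (v (n + 1) - v n) * wt g' n y := by
        intro v
        unfold hat
        rw [Finset.sum_range_succ]
        ring
      rw [e, ih]
      have e2 : (fun i => hat g' (n + 1) (u i) y) =
          fun i => hat g' n (u i) y + wt g' n y * (u i (n + 1) - u i n) := by
        funext i
        rw [e]
        ring
      rw [e2, hat_add, hat_smul, hat_sub]
      ring
  rw [h2]

omit hg in
lemma hat_succ (K : ℕ) (u : ℕ → ℝ) (x : ℝ) :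
    hat g (K + 1) u x = hat g K u x + (u (K + 1) - u K) * wt g K x := by
  unfold hat
  rw [Finset.sum_range_succ]
  ring

lemma hat_cap (K : ℕ) (u : ℕ → ℝ) {x : ℝ} (hx : g K ≤ x) : hat g K u x = u K := by
  induction K with
  | zero => simp [hat]
  | succ K ih =>
    rw [hat_succ, ih ((hg K).le.trans hx), wt_of_ge hg K hx]
    ring

lemma hat_of_le (K k : ℕ) (hk : k ≤ K) (u : ℕ → ℝ) {x : ℝ} (hx : x ≤ g k) :
    hat g K u x = hat g k u x := by
  induction K, hk using Nat.le_induction with
  | base => rfl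
  | succ K hK ih =>
    rw [hat_succ, ih, wt_of_le hg K (hx.trans ((g_mono hg).monotone hK))]
    ring

/-- the part above the node `b` -/
lemma hat_shift {K b : ℕ} (hb : b ≤ K) (u : ℕ → ℝ) {x : ℝ} (hx : g b ≤ x) :
    hat g K u x = hat (fun i => g (b + i)) (K - b) (fun i => u (b + i)) x := by
  induction K, hb using Nat.le_induction with
  | base => rw [Nat.sub_self, hat_cap hg b u hx]; simp [hat]
  | succ K hK ih =>
    rw [hat_succ, ih, show K + 1 - b = K - b + 1 by omega, hat_succ]
    have e : b + (K - b) = K := by omega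
    have e' : b + (K - b + 1) = K + 1 := by omega
    have e2 : wt (fun i => g (b + i)) (K - b) x = wt g K x := by
      unfold wt
      simp only [e, e']
    rw [e2]
    simp only [e, e']

lemma hat_cell {K i : ℕ} (hi : i < K) (u : ℕ → ℝ) {x : ℝ} (h1 : g i ≤ x) (h2 : x ≤ g (i + 1)) :
    hat g K u x = u i + (u (i + 1) - u i) * ((x - g i) / (g (i + 1) - g i)) := by
  rw [hat_of_le hg K (i + 1) hi u h2, hat_succ, hat_cap hg i u h1, wt_cell i h1 h2]

lemma hat_node {K i : ℕ} (hi : i ≤ K) (u : ℕ → ℝ) : hat g K u (g i) = u i := by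
  rw [hat_of_le hg K i hi u le_rfl, hat_cap hg i u le_rfl]

omit hg in
lemma hat_congr (K : ℕ) {u v : ℕ → ℝ} (h : ∀ i ≤ K, u i = v i) (x : ℝ) :
    hat g K u x = hat g K v x := by
  unfold hat
  rw [h 0 (Nat.zero_le _)]
  congr 1
  refine Finset.sum_congr rfl fun i hi => ?_
  rw [Finset.mem_range] at hi
  rw [h i hi.le, h (i + 1) hi]

lemma hat_nonneg (K : ℕ) {u : ℕ → ℝ} (h : ∀ i ≤ K, 0 ≤ u i) (x : ℝ) : 0 ≤ hat g K u x := by
  induction K with
  | zero => simpa [hat] using h 0 le_rfl
  | succ K ih =>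
    rw [hat_succ]
    rcases le_total x (g K) with hx | hx
    · rw [wt_of_le hg K hx]
      have := ih fun i hi => h i (by omega)
      linarith
    · rw [hat_cap hg K u hx]
      have h1 := wt_nonneg hg K x
      have h2 := wt_le_one hg K x
      have h3 := h K (by omega)
      have h4 := h (K + 1) le_rfl
      nlinarith

lemma hat_le (K : ℕ) {u v : ℕ → ℝ} (h : ∀ i ≤ K, u i ≤ v i) (x : ℝ) :
    hat g K u x ≤ hat g K v x := by
  have := hat_nonneg hg K (u := fun i => v i - u i) (fun i hi => sub_nonneg.2 (h i hi)) x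
  rw [hat_sub] at this
  linarith

lemma hat_mono (K : ℕ) {u : ℕ → ℝ} (h : ∀ i < K, u i ≤ u (i + 1)) {x y : ℝ} (hxy : x ≤ y) :
    hat g K u x ≤ hat g K u y := by
  unfold hat
  gcongr with i hi
  · exact sub_nonneg.2 (h i (Finset.mem_range.1 hi))
  · exact wt_mono hg i hxy

lemma hat_anti (K : ℕ) {u : ℕ → ℝ} (h : ∀ i < K, u (i + 1) ≤ u i) {x y : ℝ} (hxy : x ≤ y) :
    hat g K u y ≤ hat g K u x := by
  have h1 := hat_mono hg K (u := fun i => (-1) * u i) (fun i hi => by
    have := h i hi
    linarith) hxy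
  rw [hat_smul, hat_smul] at h1
  linarith

/-- above the node `b` only the nodes above `b` matter -/
lemma hat_le_from {K b : ℕ} (hb : b ≤ K) {u v : ℕ → ℝ} (h : ∀ i, b ≤ i → i ≤ K → u i ≤ v i)
    {x : ℝ} (hx : g b ≤ x) : hat g K u x ≤ hat g K v x := by
  rw [hat_shift hg hb u hx, hat_shift hg hb v hx]
  exact hat_le (fun i => hg (b + i)) _ (fun i hi => h (b + i) (by omega) (by omega)) x

lemma hat_congr_from {K b : ℕ} (hb : b ≤ K) {u v : ℕ → ℝ} (h : ∀ i, b ≤ i → i ≤ K → u i = v i)
    {x : ℝ} (hx : g b ≤ x) : hat g K u x = hat g K v x :=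
  le_antisymm (hat_le_from hg hb (fun i h1 h2 => (h i h1 h2).le) hx)
    (hat_le_from hg hb (fun i h1 h2 => (h i h1 h2).ge) hx)

lemma hat_anti_from {K b : ℕ} (hb : b ≤ K) {u : ℕ → ℝ} (h : ∀ i, b ≤ i → i < K → u (i + 1) ≤ u i)
    {x y : ℝ} (hx : g b ≤ x) (hxy : x ≤ y) : hat g K u y ≤ hat g K u x := by
  rw [hat_shift hg hb u hx, hat_shift hg hb u (hx.trans hxy)]
  exact hat_anti (fun i => hg (b + i)) _ (fun i hi => h (b + i) (by omega) (by omega)) hxy

lemma hat_mono_from {K b : ℕ} (hb : b ≤ K) {u : ℕ → ℝ} (h : ∀ i, b ≤ i → i < K → u i ≤ u (i + 1))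
    {x y : ℝ} (hx : g b ≤ x) (hxy : x ≤ y) : hat g K u x ≤ hat g K u y := by
  rw [hat_shift hg hb u hx, hat_shift hg hb u (hx.trans hxy)]
  exact hat_mono (fun i => hg (b + i)) _ (fun i hi => h (b + i) (by omega) (by omega)) hxy

/-- interpolation of the identity -/
lemma hat_self (K : ℕ) {x : ℝ} (hx : g 0 ≤ x) : hat g K g x = min x (g K) := by
  induction K with
  | zero => rw [min_eq_right hx]; simp [hat]
  | succ K ih =>
    rw [hat_succ, ih]
    unfold wt
    have := hg K
    have h0 : g (K + 1) - g K ≠ 0 := by linarith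
    field_simp
    ring

/-- concavity of the interpolation -/
lemma hat_conc (K : ℕ) {u : ℕ → ℝ}
    (h : ∀ i, i + 1 < K → (u (i + 2) - u (i + 1)) / (g (i + 2) - g (i + 1)) ≤
      (u (i + 1) - u i) / (g (i + 1) - g i))
    (hl : ∀ i, i + 1 = K → u i ≤ u (i + 1)) {x y t : ℝ} (hx : g 0 ≤ x) (hy : g 0 ≤ y)
    (t0 : 0 ≤ t) (t1 : t ≤ 1) :
    (1 - t) * hat g K u x + t * hat g K u y ≤ hat g K u ((1 - t) * x + t * y) := by
  -- the minimum with a constant is concave
  have hmin : ∀ a : ℝ, (1 - t) * min x a + t * min y a ≤ min ((1 - t) * x + t * y) a := by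
    intro a
    have s1 : 0 ≤ 1 - t := by linarith
    refine le_min ?_ ?_
    · exact add_le_add (mul_le_mul_of_nonneg_left (min_le_left _ _) s1)
        (mul_le_mul_of_nonneg_left (min_le_left _ _) t0)
    · have p1 := mul_le_mul_of_nonneg_left (min_le_right x a) s1
      have p2 := mul_le_mul_of_nonneg_left (min_le_right y a) t0
      linarith
  have key : ∀ n : ℕ, n < K → ∀ s : ℝ, s ≤ (u (n + 1) - u n) / (g (n + 1) - g n) →
      (1 - t) * (hat g (n + 1) u x - s * min x (g (n + 1)))
        + t * (hat g (n + 1) u y - s * min y (g (n + 1))) ≤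
      hat g (n + 1) u ((1 - t) * x + t * y) - s * min ((1 - t) * x + t * y) (g (n + 1)) := by
    intro n
    induction n with
    | zero =>
      intro hn s hs
      simp only [zero_add] at hs ⊢
      have hxy : g 0 ≤ (1 - t) * x + t * y := by nlinarith
      have e : ∀ v : ℝ, g 0 ≤ v → hat g 1 u v - s * min v (g 1) =
          u 0 - (u 1 - u 0) / (g 1 - g 0) * g 0
            + ((u 1 - u 0) / (g 1 - g 0) - s) * min v (g 1) := by
        intro v hv
        rw [show hat g 1 u v = u 0 + (u 1 - u 0) * wt g 0 v by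
          unfold hat; simp]
        unfold wt
        rw [min_eq_right hv]
        simp only [zero_add]
        ring
      rw [e x hx, e y hy, e _ hxy]
      have := mul_le_mul_of_nonneg_left (hmin (g 1)) (sub_nonneg.2 hs)
      nlinarith
    | succ n ih =>
      intro hn s hs
      have h1 := ih (by omega) ((u (n + 2) - u (n + 1)) / (g (n + 2) - g (n + 1)))
        (h n (by omega))
      have e : ∀ v : ℝ, hat g (n + 1 + 1) u v - s * min v (g (n + 1 + 1)) =
          hat g (n + 1) u v - (u (n + 2) - u (n + 1)) / (g (n + 2) - g (n + 1)) *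
            min v (g (n + 1)) +
          ((u (n + 2) - u (n + 1)) / (g (n + 2) - g (n + 1)) - s) * min v (g (n + 2)) := by
        intro v
        rw [hat_succ]
        unfold wt
        ring
      rw [e x, e y, e _]
      have := mul_le_mul_of_nonneg_left (hmin (g (n + 2))) (sub_nonneg.2 hs)
      nlinarith
  rcases K with _ | n
  · simp only [hat, Finset.range_zero, Finset.sum_empty, add_zero]
    linarith
  · have := key n (by omega) 0 (div_nonneg (sub_nonneg.2 (hl n rfl)) (by
      have := hg n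
      linarith))
    simpa using this

omit hg in
/-- the slopes of a concave interpolation above a node -/
lemma slope_le {K k : ℕ} {u : ℕ → ℝ} {s : ℝ}
    (h : ∀ i, k ≤ i → i + 1 < K → (u (i + 2) - u (i + 1)) / (g (i + 2) - g (i + 1)) ≤
      (u (i + 1) - u i) / (g (i + 1) - g i))
    (hs : (u (k + 1) - u k) / (g (k + 1) - g k) ≤ s) :
    ∀ i, k ≤ i → i < K → (u (i + 1) - u i) / (g (i + 1) - g i) ≤ s := by
  intro i hi hiK
  induction i, hi using Nat.le_induction with
  | base => exact hs
  | succ i hi ih => exact (h i hi hiK).trans (ih (by omega))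

omit hg in
lemma le_slope {K k b : ℕ} {u : ℕ → ℝ} {s : ℝ}
    (h : ∀ i, b ≤ i → i + 1 < K → (u (i + 2) - u (i + 1)) / (g (i + 2) - g (i + 1)) ≤
      (u (i + 1) - u i) / (g (i + 1) - g i)) (hk : k < K)
    (hs : s ≤ (u (k + 1) - u k) / (g (k + 1) - g k)) :
    ∀ i, b ≤ i → i ≤ k → s ≤ (u (i + 1) - u i) / (g (i + 1) - g i) := by
  have key : ∀ j i, b ≤ i → i + j = k → s ≤ (u (i + 1) - u i) / (g (i + 1) - g i) := by
    intro j
    induction j with
    | zero =>
      intro i _ hi
      have : i = k := by omega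
      subst this
      exact hs
    | succ j ih =>
      intro i hi hij
      exact (ih (i + 1) (by omega) (by omega)).trans (h i hi (by omega))
  intro i hi hik
  exact key (k - i) i hi (by omega)

/-- an increment above the node `k` is at most the slope there times the length -/
lemma chord_le {K k : ℕ} (hk : k < K) {u : ℕ → ℝ} {s : ℝ} (s0 : 0 ≤ s)
    (h : ∀ i, k ≤ i → i < K → (u (i + 1) - u i) / (g (i + 1) - g i) ≤ s) {x y : ℝ}
    (hx : g k ≤ x) (hxy : x ≤ y) : hat g K u y - hat g K u x ≤ s * (y - x) := by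
  have h1 := hat_anti_from hg hk.le (u := fun i => u i - s * g i) (fun i hi hiK => by
    have h2 := h i hi hiK
    have h3 := hg i
    rw [div_le_iff₀ (by linarith)] at h2
    nlinarith) hx hxy
  rw [hat_sub, hat_sub, hat_smul, hat_smul] at h1
  have g0 : g 0 ≤ g k := (g_mono hg).monotone (Nat.zero_le _)
  rw [hat_self hg K (g0.trans hx), hat_self hg K (g0.trans (hx.trans hxy))] at h1
  have h4 : min y (g K) - min x (g K) ≤ y - x := by
    rcases le_total x (g K) with h5 | h5
    · rw [min_eq_left h5]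
      linarith [min_le_left y (g K)]
    · rw [min_eq_right h5, min_eq_right (h5.trans hxy)]
      linarith
  nlinarith

/-- an increment below the node `k + 1` is at least the slope there times the length -/
lemma le_chord {K k b : ℕ} (hbk : b ≤ k) (hk : k < K) {u : ℕ → ℝ} {s : ℝ}
    (h : ∀ i, b ≤ i → i ≤ k → s ≤ (u (i + 1) - u i) / (g (i + 1) - g i)) {x y : ℝ}
    (hx : g b ≤ x) (hxy : x ≤ y) (hy : y ≤ g (k + 1)) :
    s * (y - x) ≤ hat g K u y - hat g K u x := by
  rw [hat_of_le hg K (k + 1) hk u hy, hat_of_le hg K (k + 1) hk u (hxy.trans hy)]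
  have h1 := hat_mono_from hg (K := k + 1) (b := b) (by omega) (u := fun i => u i - s * g i)
    (fun i hi hiK => by
    have h2 := h i hi (by omega)
    have h3 := hg i
    rw [le_div_iff₀ (by linarith)] at h2
    nlinarith) hx hxy
  rw [hat_sub, hat_sub, hat_smul, hat_smul] at h1
  have g0 : g 0 ≤ g b := (g_mono hg).monotone (Nat.zero_le _)
  rw [hat_self hg (k + 1) (g0.trans hx), hat_self hg (k + 1) (g0.trans (hx.trans hxy)),
    min_eq_left hy, min_eq_left (hxy.trans hy)] at h1
  linarith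

end

end Pool.Agent.Lib.MP_67d80e_pr_g3
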