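import Pool.Agent.Lib.MP_67d80e_pr_g3.Eva

/-!
Bounds for the increments of the interpolation by the slopes at nodes.
-/

set_option autoImplicit false

open scoped BigOperators
open Finset

namespace Pool.Agent.Lib.MP_67d80e_pr_g3

/-- slope in the first index -/
noncomputable def sX (G : ℕ → ℝ) (T : ℕ → ℕ → ℕ → ℝ) (i j l : ℕ) : ℝ :=
  (T (i + 1) j l - T i j l) / (G (i + 1) - G i)

/-- slope in the second index -/
noncomputable def sY (G : ℕ → ℝ) (T : ℕ → ℕ → ℕ → ℝ) (i j l : ℕ) : ℝ :=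
  (T i (j + 1) l - T i j l) / (G (j + 1) - G j)

/-- slope in the third index -/
noncomputable def sZ (G : ℕ → ℝ) (T : ℕ → ℕ → ℕ → ℝ) (i j l : ℕ) : ℝ :=
  (T i j (l + 1) - T i j l) / (G (l + 1) - G l)

lemma anti_steps {u : ℕ → ℝ} {i K : ℕ} (h : ∀ k, i ≤ k → k < K → u (k + 1) ≤ u k) {i' : ℕ}
    (hi : i ≤ i') (hK : i' ≤ K) : u i' ≤ u i := by
  induction i', hi using Nat.le_induction with
  | base => exact le_rfl
  | succ n hn ih => exact (h n hn (by omega)).trans (ih (by omega))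

section
variable {G : ℕ → ℝ} {K1 K2 K3 b : ℕ} {T : ℕ → ℕ → ℕ → ℝ}
variable (hg : ∀ i, G i < G (i + 1)) (hT : TabOk G K1 K2 K3 b T)
include hg hT

lemma sX_nonneg {i j l : ℕ} (hi : b ≤ i) (hi' : i < K1) (hj : b ≤ j) (hj' : j ≤ K2) (hl : b ≤ l)
    (hl' : l ≤ K3) : 0 ≤ sX G T i j l :=
  div_nonneg (sub_nonneg.2 (hT.moX i j l hi hi' hj hj' hl hl')) (sub_nonneg.2 (hg i).le)

lemma sY_nonneg {i j l : ℕ} (hi : b ≤ i) (hi' : i ≤ K1) (hj : b ≤ j) (hj' : j < K2) (hl : b ≤ l)
    (hl' : l ≤ K3) : 0 ≤ sY G T i j l :=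
  div_nonneg (sub_nonneg.2 (hT.moY i j l hi hi' hj hj' hl hl')) (sub_nonneg.2 (hg j).le)

lemma sZ_nonneg {i j l : ℕ} (hi : b ≤ i) (hi' : i ≤ K1) (hj : b ≤ j) (hj' : j ≤ K2) (hl : b ≤ l)
    (hl' : l < K3) : 0 ≤ sZ G T i j l :=
  div_nonneg (sub_nonneg.2 (hT.moZ i j l hi hi' hj hj' hl hl')) (sub_nonneg.2 (hg l).le)

lemma sX_anti {i i' j j' l l' : ℕ} (hi : b ≤ i) (hii : i ≤ i') (hi' : i' < K1) (hj : b ≤ j)
    (hjj : j ≤ j') (hj' : j' ≤ K2) (hl : b ≤ l) (hll : l ≤ l') (hl' : l' ≤ K3) :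
    sX G T i' j' l' ≤ sX G T i j l := by
  have a1 : sX G T i' j' l' ≤ sX G T i j' l' :=
    anti_steps (u := fun k => sX G T k j' l') (K := K1 - 1) (fun k h1 h2 =>
      hT.coX k j' l' (by omega) (by omega) (by omega) hj' (by omega) hl') hii (by omega)
  have a2 : sX G T i j' l' ≤ sX G T i j l' :=
    anti_steps (u := fun k => sX G T i k l') (K := K2) (fun k h1 h2 => by
      have h := hT.suXY i k l' hi (by omega) (by omega) h2 (by omega) hl'
      exact div_le_div_of_nonneg_right (by linarith) (sub_nonneg.2 (hg i).le)) hjj (by omega)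
  have a3 : sX G T i j l' ≤ sX G T i j l :=
    anti_steps (u := fun k => sX G T i j k) (K := K3) (fun k h1 h2 => by
      have h := hT.suXZ i j k hi (by omega) hj (by omega) (by omega) h2
      exact div_le_div_of_nonneg_right (by linarith) (sub_nonneg.2 (hg i).le)) hll (by omega)
  exact a1.trans (a2.trans a3)

lemma sY_anti {i i' j j' l l' : ℕ} (hi : b ≤ i) (hii : i ≤ i') (hi' : i' ≤ K1) (hj : b ≤ j)
    (hjj : j ≤ j') (hj' : j' < K2) (hl : b ≤ l) (hll : l ≤ l') (hl' : l' ≤ K3) :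
    sY G T i' j' l' ≤ sY G T i j l := by
  have a1 : sY G T i' j' l' ≤ sY G T i' j l' :=
    anti_steps (u := fun k => sY G T i' k l') (K := K2 - 1) (fun k h1 h2 =>
      hT.coY i' k l' (by omega) hi' (by omega) (by omega) (by omega) hl') hjj (by omega)
  have a2 : sY G T i' j l' ≤ sY G T i j l' :=
    anti_steps (u := fun k => sY G T k j l') (K := K1) (fun k h1 h2 => by
      have h := hT.suXY k j l' (by omega) h2 hj (by omega) (by omega) hl'
      exact div_le_div_of_nonneg_right (by linarith) (sub_nonneg.2 (hg j).le)) hii (by omega)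
  have a3 : sY G T i j l' ≤ sY G T i j l :=
    anti_steps (u := fun k => sY G T i j k) (K := K3) (fun k h1 h2 => by
      have h := hT.suYZ i j k hi (by omega) hj (by omega) (by omega) h2
      exact div_le_div_of_nonneg_right (by linarith) (sub_nonneg.2 (hg j).le)) hll (by omega)
  exact a1.trans (a2.trans a3)

lemma sZ_anti {i i' j j' l l' : ℕ} (hi : b ≤ i) (hii : i ≤ i') (hi' : i' ≤ K1) (hj : b ≤ j)
    (hjj : j ≤ j') (hj' : j' ≤ K2) (hl : b ≤ l) (hll : l ≤ l') (hl' : l' < K3) :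
    sZ G T i' j' l' ≤ sZ G T i j l := by
  have a1 : sZ G T i' j' l' ≤ sZ G T i' j' l :=
    anti_steps (u := fun k => sZ G T i' j' k) (K := K3 - 1) (fun k h1 h2 =>
      hT.coZ i' j' k (by omega) hi' (by omega) hj' (by omega) (by omega)) hll (by omega)
  have a2 : sZ G T i' j' l ≤ sZ G T i j' l :=
    anti_steps (u := fun k => sZ G T k j' l) (K := K1) (fun k h1 h2 => by
      have h := hT.suXZ k j' l (by omega) h2 (by omega) hj' hl (by omega)
      exact div_le_div_of_nonneg_right (by linarith) (sub_nonneg.2 (hg l).le)) hii (by omega)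
  have a3 : sZ G T i j' l ≤ sZ G T i j l :=
    anti_steps (u := fun k => sZ G T i k l) (K := K2) (fun k h1 h2 => by
      have h := hT.suYZ i k l hi (by omega) (by omega) h2 hl (by omega)
      exact div_le_div_of_nonneg_right (by linarith) (sub_nonneg.2 (hg l).le)) hjj (by omega)
  exact a1.trans (a2.trans a3)

lemma incZ_upper {i j l : ℕ} (hi : b ≤ i) (hi' : i ≤ K1) (hj : b ≤ j) (hj' : j ≤ K2) (hl : b ≤ l)
    (hl' : l < K3) {x y z z' : ℝ} (hx : G i ≤ x) (hy : G j ≤ y) (hz : G l ≤ z) (hzz : z ≤ z') :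
    F3 G K1 K2 K3 T x y z' - F3 G K1 K2 K3 T x y z ≤ sZ G T i j l * (z' - z) := by
  rw [F3_viewZ, F3_viewZ]
  refine chord_le hg hl' (sZ_nonneg hg hT hi hi' hj hj' hl hl') (fun l' p q => ?_) hz hzz
  rw [e2_div]
  exact e2_le_const hg hi' hj' (fun i' j' r s t u =>
    sZ_anti hg hT hi r s hj t u hl p q) hx hy

lemma incY_upper {i j l : ℕ} (hi : b ≤ i) (hi' : i ≤ K1) (hj : b ≤ j) (hj' : j < K2) (hl : b ≤ l)
    (hl' : l ≤ K3) {x y y' z : ℝ} (hx : G i ≤ x) (hy : G j ≤ y) (hz : G l ≤ z) (hyy : y ≤ y') :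
    F3 G K1 K2 K3 T x y' z - F3 G K1 K2 K3 T x y z ≤ sY G T i j l * (y' - y) := by
  rw [F3_viewY, F3_viewY]
  refine chord_le hg hj' (sY_nonneg hg hT hi hi' hj hj' hl hl') (fun j' p q => ?_) hy hyy
  rw [e2_div]
  exact e2_le_const hg hi' hl' (fun i' l' r s t u =>
    sY_anti hg hT hi r s hj p q hl t u) hx hz

lemma incY_lower {i j l : ℕ} (hi : b ≤ i) (hi' : i ≤ K1) (hj : b ≤ j) (hj' : j < K2) (hl : b ≤ l)
    (hl' : l ≤ K3) {x y y' z : ℝ} (hx : G b ≤ x) (hy : G b ≤ y) (hz : G b ≤ z) (hyy : y ≤ y')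
    (hxi : x ≤ G i ∨ i = K1) (hyj : y' ≤ G (j + 1)) (hzl : z ≤ G l ∨ l = K3) :
    sY G T i j l * (y' - y) ≤ F3 G K1 K2 K3 T x y' z - F3 G K1 K2 K3 T x y z := by
  rw [F3_viewY, F3_viewY]
  refine le_chord hg hj hj' (fun j' p q => ?_) hy hyy hyj
  rw [e2_div]
  exact const_le_e2 hg hi hi' hl hl' (fun i' l' r s t u =>
    sY_anti hg hT r s hi' p q hj' t u hl') hx hz hxi hzl

lemma incX_lower {i j l : ℕ} (hi : b ≤ i) (hi' : i < K1) (hj : b ≤ j) (hj' : j ≤ K2) (hl : b ≤ l)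
    (hl' : l ≤ K3) {x x' y z : ℝ} (hx : G b ≤ x) (hy : G b ≤ y) (hz : G b ≤ z) (hxx : x ≤ x')
    (hxi : x' ≤ G (i + 1)) (hyj : y ≤ G j ∨ j = K2) (hzl : z ≤ G l ∨ l = K3) :
    sX G T i j l * (x' - x) ≤ F3 G K1 K2 K3 T x' y z - F3 G K1 K2 K3 T x y z := by
  unfold F3
  refine le_chord hg hi hi' (fun i' p q => ?_) hx hxx hxi
  rw [e2_div]
  exact const_le_e2 hg hj hj' hl hl' (fun j' l' r s t u =>
    sX_anti hg hT p q hi' r s hj' t u hl') hy hz hyj hzl

/-- the increment in the third variable, which vanishes at the last node of the second -/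
lemma incZ_taper {m : ℝ} (hm : 0 ≤ m) (hK2 : b < K2) (hK3 : K2 - 1 ≤ K3)
    (hgap : m ≤ G K2 - G (K2 - 1))
    (hc : ∀ i l, b ≤ i → i ≤ K1 → K2 - 1 ≤ l → l ≤ K3 → T i K2 l = T i K2 K2)
    {i j l : ℕ} (hi : b ≤ i) (hi' : i ≤ K1) (hj : b ≤ j) (hj' : j < K2) (hl : b ≤ l) (hl' : l < K3)
    {x y z : ℝ} (hx : G i ≤ x) (hy : G j ≤ y) (hz : G l ≤ z) (hyK : y ≤ G K2)
    (hyz : G (K2 - 1) < y → G (K2 - 1) ≤ z) :
    F3 G K1 K2 K3 T x y (z + m) - F3 G K1 K2 K3 T x y z ≤ min m (G K2 - y) * sZ G T i j l := by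
  have s0 := sZ_nonneg hg hT hi hi' hj hj'.le hl hl'
  have hk : K2 - 1 + 1 = K2 := by omega
  rcases le_or_gt y (G (K2 - 1)) with h | h
  · have := incZ_upper hg hT hi hi' hj hj'.le hl hl' hx hy hz (show z ≤ z + m by linarith)
    rw [min_eq_left (by linarith)]
    have e : z + m - z = m := by ring
    rw [e] at this
    linarith
  · set J := K2 - 1 with hJ
    have hJj : j ≤ J := by omega
    have hgJ := hg J
    rw [hk] at hgJ
    set t := (y - G J) / (G K2 - G J) with ht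
    have t0 : 0 ≤ t := div_nonneg (by linarith) (by linarith)
    have t1 : t ≤ 1 := by rw [ht, div_le_one (by linarith)]; linarith
    have ey : y = lin t (G J) (G (J + 1)) := by
      rw [hk, ht]
      unfold lin
      have h0 : G K2 - G J ≠ 0 := by linarith
      field_simp
      ring
    have hzJ := hyz h
    -- at the last node there is no increment
    have h2 : F3 G K1 K2 K3 T x (G (J + 1)) (z + m) = F3 G K1 K2 K3 T x (G (J + 1)) z := by
      rw [hk]
      have h3 := fun w (hw : G J ≤ w) => F3_indZ hg (a := b) (b := K2) (c := J) (K1 := K1)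
        (by omega) le_rfl (by omega) (T := T) (v := fun i _ => T i K2 K2) (fun i j l p q r s t u => by
          have : j = K2 := le_antisymm s r
          subst this
          exact hc i l p q t u) (x := x) (y := G K2) (z := w)
          (((g_mono hg).monotone hi).trans hx) le_rfl hw
      rw [h3 (z + m) (by linarith), h3 z hzJ]
    have h4 : F3 G K1 K2 K3 T x y (z + m) - F3 G K1 K2 K3 T x y z =
        (1 - t) * (F3 G K1 K2 K3 T x (G J) (z + m) - F3 G K1 K2 K3 T x (G J) z) := by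
      rw [ey, F3_linY hg T (by omega) t0 t1, F3_linY hg T (by omega) t0 t1, h2]
      unfold lin
      ring
    rw [h4]
    have h5 := incZ_upper hg hT hi hi' (hj.trans hJj) (by omega) hl hl' hx (y := G J) le_rfl hz
      (show z ≤ z + m by linarith)
    have h6 := sZ_anti hg hT hi le_rfl hi' hj hJj (by omega) hl le_rfl hl'
    have e : z + m - z = m := by ring
    rw [e] at h5
    have h7 : F3 G K1 K2 K3 T x (G J) (z + m) - F3 G K1 K2 K3 T x (G J) z ≤ m * sZ G T i j l := by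
      nlinarith
    have h8 : (1 - t) * m ≤ min m (G K2 - y) := by
      refine le_min (by nlinarith) ?_
      have e1 : (1 - t) * (G K2 - G J) = G K2 - y := by
        rw [ht]
        have h0 : G K2 - G J ≠ 0 := by linarith
        field_simp
        ring
      calc (1 - t) * m ≤ (1 - t) * (G K2 - G J) :=
            mul_le_mul_of_nonneg_left hgap (by linarith)
        _ = G K2 - y := e1
    calc (1 - t) * (F3 G K1 K2 K3 T x (G J) (z + m) - F3 G K1 K2 K3 T x (G J) z) ≤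
          (1 - t) * (m * sZ G T i j l) := mul_le_mul_of_nonneg_left h7 (by linarith)
      _ = (1 - t) * m * sZ G T i j l := by ring
      _ ≤ min m (G K2 - y) * sZ G T i j l := mul_le_mul_of_nonneg_right h8 s0

end

end Pool.Agent.Lib.MP_67d80e_pr_g3
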