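import Pool.Agent.Lib.MP_67d80e_pr_all.Chain0

/-!
Lower bounds from functions `f n x y z` of the sizes of four nested sets: `n` is the size of the
highest set, and for each `n` the function is monotone, concave in each variable and submodular.
The number of edges inside the highest set enters through a linear term.
-/

set_option autoImplicit false

open scoped BigOperators
open Pool.Agent.Lib.MP_67d80e_pr
open Pool.Agent.Lib.MP_67d80e_pr_all

namespace Pool.Agent.Lib.MP_67d80e_pr_g3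

/-- shape conditions for a function of three variables -/
structure Lay (L : ℝ) (f : ℝ → ℝ → ℝ → ℝ) : Prop where
  mono : ∀ x x' y y' z z', x ≤ x' → y ≤ y' → z ≤ z' → f x y z ≤ f x' y' z'
  conX : ∀ x x' y z t, L ≤ x → L ≤ x' → 0 ≤ t → t ≤ 1 →
    (1 - t) * f x y z + t * f x' y z ≤ f ((1 - t) * x + t * x') y z
  conY : ∀ x y y' z t, L ≤ y → L ≤ y' → 0 ≤ t → t ≤ 1 →
    (1 - t) * f x y z + t * f x y' z ≤ f x ((1 - t) * y + t * y') z
  conZ : ∀ x y z z' t, L ≤ z → L ≤ z' → 0 ≤ t → t ≤ 1 →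
    (1 - t) * f x y z + t * f x y z' ≤ f x y ((1 - t) * z + t * z')
  subXY : ∀ x x' y y' z, x ≤ x' → y ≤ y' → f x' y' z + f x y z ≤ f x' y z + f x y' z
  subXZ : ∀ x x' y z z', x ≤ x' → z ≤ z' → f x' y z' + f x y z ≤ f x' y z + f x y z'
  subYZ : ∀ x y y' z z', y ≤ y' → z ≤ z' → f x y' z' + f x y z ≤ f x y' z + f x y z'

/-- the increments of the second function are at most those of the first -/
structure Nxt (L : ℝ) (f g : ℝ → ℝ → ℝ → ℝ) : Prop where
  incY : ∀ x y y' z, L ≤ x → L ≤ y → L ≤ z → y ≤ y' → g x y' z - g x y z ≤ f x y' z - f x y z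
  incZ : ∀ x y z z', L ≤ x → L ≤ y → L ≤ z → z ≤ z' → g x y z' - g x y z ≤ f x y z' - f x y z

lemma Nxt.rfl' (L : ℝ) (f : ℝ → ℝ → ℝ → ℝ) : Nxt L f f :=
  ⟨fun _ _ _ _ _ _ _ _ => le_rfl, fun _ _ _ _ _ _ _ _ => le_rfl⟩

lemma Lay.of_le {L L' : ℝ} {f : ℝ → ℝ → ℝ → ℝ} (h : Lay L f) (hL : L ≤ L') : Lay L' f where
  mono := h.mono
  conX := fun x x' y z t hx hx' => h.conX x x' y z t (hL.trans hx) (hL.trans hx')
  conY := fun x y y' z t hx hx' => h.conY x y y' z t (hL.trans hx) (hL.trans hx')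
  conZ := fun x y z z' t hx hx' => h.conZ x y z z' t (hL.trans hx) (hL.trans hx')
  subXY := h.subXY
  subXZ := h.subXZ
  subYZ := h.subYZ

section
variable {L : ℝ} {f g : ℝ → ℝ → ℝ → ℝ}

/-- concavity along the diagonal of the last two variables -/
lemma Lay.diagYZ (h : Lay L f) {x y z m t : ℝ} (hy : L ≤ y) (hz : L ≤ z) (hm : 0 ≤ m)
    (t0 : 0 ≤ t) (t1 : t ≤ 1) :
    (1 - t) * f x y z + t * f x (y + m) (z + m) ≤ f x (y + t * m) (z + t * m) := by
  have a1 := h.conY x y (y + m) (z + t * m) t hy (by linarith) t0 t1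
  have a2 := h.conZ x y z (z + m) t hz (by linarith) t0 t1
  have a3 := h.conZ x (y + m) z (z + m) t hz (by linarith) t0 t1
  have a4 := h.subYZ x y (y + m) z (z + m) (by linarith) (by linarith)
  have e1 : (1 - t) * y + t * (y + m) = y + t * m := by ring
  have e2 : (1 - t) * z + t * (z + m) = z + t * m := by ring
  rw [e1] at a1
  rw [e2] at a2 a3
  have b1 := mul_le_mul_of_nonneg_left a2 (sub_nonneg.2 t1)
  have b2 := mul_le_mul_of_nonneg_left a3 t0
  have b3 := mul_le_mul_of_nonneg_left a4 (mul_nonneg t0 (sub_nonneg.2 t1))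
  nlinarith

/-- the minorant over the triangle of the last two variables -/
lemma Lay.triYZ (h : Lay L f) {x y z m r s : ℝ} (hy : L ≤ y) (hz : L ≤ z) (hm : 0 < m)
    (s0 : 0 ≤ s) (hs : s ≤ r) (hr : r ≤ m) :
    f x y z + r / m * (f x (y + m) (z + m) - f x y z)
      - (r - s) / m * (f x (y + m) (z + m) - f x (y + m) z) ≤ f x (y + r) (z + s) := by
  rcases (s0.trans hs).eq_or_lt with h0 | h0
  · subst h0
    have : s = 0 := le_antisymm hs s0
    subst this
    simp
  · have t0 : 0 ≤ r / m := by positivity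
    have t1 : r / m ≤ 1 := by rw [div_le_one hm]; exact hr
    have u0 : 0 ≤ s / r := by positivity
    have u1 : s / r ≤ 1 := by rw [div_le_one h0]; exact hs
    have a1 := h.conZ x (y + r) z (z + r) (s / r) hz (by linarith) u0 u1
    have a2 := h.conY x y (y + m) z (r / m) hy (by linarith) t0 t1
    have a3 := h.diagYZ (x := x) (m := m) hy hz hm.le t0 t1
    have e1 : (1 - s / r) * z + s / r * (z + r) = z + s := by field_simp; ring
    have e2 : (1 - r / m) * y + r / m * (y + m) = y + r := by field_simp; ring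
    have e3 : r / m * m = r := by field_simp
    rw [e1] at a1
    rw [e2] at a2
    rw [e3] at a3
    have b1 := mul_le_mul_of_nonneg_left a2 (sub_nonneg.2 u1)
    have b2 := mul_le_mul_of_nonneg_left a3 u0
    have e4 : (r - s) / m = r / m * (1 - s / r) := by field_simp
    rw [e4]
    nlinarith

/-- the minorant over the tetrahedron -/
lemma Lay.tetra (h : Lay L f) {x y z m r s t : ℝ} (hx : L ≤ x) (hy : L ≤ y) (hz : L ≤ z)
    (hm : 0 < m) (t0 : 0 ≤ t) (ht : t ≤ s) (hs : s ≤ r) (hr : r ≤ m) :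
    f x y z + r / m * (f (x + m) (y + m) (z + m) - f x y z)
      - (r - s) / m * (f (x + m) (y + m) (z + m) - f (x + m) y z)
      - (s - t) / m * (f (x + r) (y + m) (z + m) - f (x + r) (y + m) z)
      ≤ f (x + r) (y + s) (z + t) := by
  have s0 : 0 ≤ s := t0.trans ht
  have r0 : 0 ≤ r := s0.trans hs
  have a0 := h.triYZ (x := x + r) (m := m) hy hz hm t0 ht (hs.trans hr)
  have p0 : 0 ≤ r / m := by positivity
  have p1 : r / m ≤ 1 := by rw [div_le_one hm]; exact hr
  have q0 : 0 ≤ s / m := by positivity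
  have q1 : s / m ≤ 1 := by rw [div_le_one hm]; exact hs.trans hr
  have e : (1 - r / m) * x + r / m * (x + m) = x + r := by field_simp; ring
  have a1 := h.conX x (x + m) y z (r / m) hx (by linarith) p0 p1
  have a2 := h.conX x (x + m) (y + m) (z + m) (r / m) hx (by linarith) p0 p1
  rw [e] at a1 a2
  -- submodularity between the first variable and the diagonal
  have a3 : f (x + m) (y + m) (z + m) + f x y z ≤ f (x + m) y z + f x (y + m) (z + m) := by
    have b1 := h.subXY x (x + m) y (y + m) z (by linarith) (by linarith)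
    have b2 := h.subXZ x (x + m) (y + m) z (z + m) (by linarith) (by linarith)
    linarith
  have c1 := mul_le_mul_of_nonneg_left a1 (sub_nonneg.2 q1)
  have c2 := mul_le_mul_of_nonneg_left a2 q0
  have c3 := mul_le_mul_of_nonneg_left a3 (mul_nonneg q0 (sub_nonneg.2 p1))
  have e5 : (r - s) / m = r / m - s / m := by ring
  rw [e5]
  nlinarith

lemma Lay.incZ_le (hf : Lay L f) (hn : Nxt L f g) {x x' y y' z z' : ℝ} (h0x : L ≤ x)
    (h0y : L ≤ y) (h0z : L ≤ z) (hx : x ≤ x') (hy : y ≤ y')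
    (hz : z ≤ z') : g x' y' z' - g x' y' z ≤ f x y z' - f x y z := by
  have a1 := hn.incZ x' y' z z' (h0x.trans hx) (h0y.trans hy) h0z hz
  have a2 := hf.subXZ x x' y' z z' hx hz
  have a3 := hf.subYZ x y y' z z' hy hz
  linarith

lemma Lay.incY_le (hf : Lay L f) (hn : Nxt L f g) {x x' y y' z z' : ℝ} (h0x : L ≤ x)
    (h0y : L ≤ y) (h0z : L ≤ z) (hx : x ≤ x') (hy : y ≤ y')
    (hz : z ≤ z') : g x' y' z' - g x' y z' ≤ f x y' z - f x y z := by
  have a1 := hn.incY x' y y' z' (h0x.trans hx) h0y (h0z.trans hz) hy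
  have a2 := hf.subXY x x' y y' z' hx hy
  have a3 := hf.subYZ x y y' z z' hy hz
  linarith

end

/-- the expected change of the function -/
noncomputable def drift (m : ℝ) (U O1 O2 O3 V0 V1 W0 W1 X0 X1 P n x y z : ℝ) : ℝ :=
  U + (x - n) * V0 + O1 / m * (V1 - V0 - (W1 - W0)) + (y - x) * W0
    + O2 / m * (W1 - W0 - (X1 - X0)) + (z - y) * X0 + O3 / m * (X1 - X0) - z * P

end Pool.Agent.Lib.MP_67d80e_pr_g3
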