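import Pool.Agent.Lib.MP_67d80e_pr_g3.Hat
import Pool.Agent.Lib.MP_67d80e_pr_g3.Lay

/-!
Interpolation in three variables on prefixes of one grid; only the nodes above `b` are used.
-/

set_option autoImplicit false

open scoped BigOperators
open Finset

namespace Pool.Agent.Lib.MP_67d80e_pr_g3

/-- interpolation in two variables -/
noncomputable def e2 (G : ℕ → ℝ) (K K' : ℕ) (u : ℕ → ℕ → ℝ) (x y : ℝ) : ℝ :=
  hat G K (fun i => hat G K' (u i) y) x

/-- interpolation in three variables -/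
noncomputable def F3 (G : ℕ → ℝ) (K1 K2 K3 : ℕ) (T : ℕ → ℕ → ℕ → ℝ) (x y z : ℝ) : ℝ :=
  hat G K1 (fun i => e2 G K2 K3 (T i) y z) x

section
variable {G : ℕ → ℝ} {K K' : ℕ}

lemma e2_sub (u v : ℕ → ℕ → ℝ) (x y : ℝ) :
    e2 G K K' (fun i j => u i j - v i j) x y = e2 G K K' u x y - e2 G K K' v x y := by
  unfold e2
  simp only [hat_sub]

lemma e2_smul (c : ℝ) (u : ℕ → ℕ → ℝ) (x y : ℝ) :
    e2 G K K' (fun i j => c * u i j) x y = c * e2 G K K' u x y := by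
  unfold e2
  simp only [hat_smul]

lemma e2_div (u v : ℕ → ℕ → ℝ) (c x y : ℝ) :
    (e2 G K K' u x y - e2 G K K' v x y) / c = e2 G K K' (fun i j => (u i j - v i j) / c) x y := by
  have : (fun i j => (u i j - v i j) / c) = fun i j => c⁻¹ * (u i j - v i j) := by
    funext i j; rw [div_eq_inv_mul]
  rw [this, e2_smul, e2_sub, div_eq_inv_mul]

lemma e2_comm (u : ℕ → ℕ → ℝ) (x y : ℝ) :
    e2 G K K' u x y = e2 G K' K (fun j i => u i j) y x := hat_comm G G K K' u x y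

variable (hg : ∀ i, G i < G (i + 1))
include hg

lemma e2_le {b : ℕ} (hb : b ≤ K) (hb' : b ≤ K') {u v : ℕ → ℕ → ℝ}
    (h : ∀ i j, b ≤ i → i ≤ K → b ≤ j → j ≤ K' → u i j ≤ v i j) {x y : ℝ} (hx : G b ≤ x)
    (hy : G b ≤ y) : e2 G K K' u x y ≤ e2 G K K' v x y :=
  hat_le_from hg hb (fun i h1 h2 => hat_le_from hg hb' (fun j h3 h4 => h i j h1 h2 h3 h4) hy) hx

lemma e2_sub_mod {b : ℕ} (hb : b ≤ K) (hb' : b ≤ K') {u : ℕ → ℕ → ℝ}
    (h : ∀ i j, b ≤ i → i < K → b ≤ j → j < K' →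
      u (i + 1) (j + 1) + u i j ≤ u (i + 1) j + u i (j + 1)) {x x' y y' : ℝ} (hx : G b ≤ x)
    (hxx : x ≤ x') (hy : G b ≤ y) (hyy : y ≤ y') :
    e2 G K K' u x' y' + e2 G K K' u x y ≤ e2 G K K' u x' y + e2 G K K' u x y' := by
  have h1 := hat_anti_from hg hb (u := fun i => hat G K' (u i) y' - hat G K' (u i) y)
    (fun i h1 h2 => by
      have := hat_mono_from hg hb' (u := fun j => u i j - u (i + 1) j) (fun j h3 h4 => by
        have := h i j h1 h2 h3 h4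
        linarith) hy hyy
      rw [hat_sub, hat_sub] at this
      linarith) hx hxx
  rw [hat_sub, hat_sub] at h1
  unfold e2
  linarith

lemma hat_conc_from {b : ℕ} (hb : b ≤ K) {u : ℕ → ℝ}
    (h : ∀ i, b ≤ i → i + 1 < K → (u (i + 2) - u (i + 1)) / (G (i + 2) - G (i + 1)) ≤
      (u (i + 1) - u i) / (G (i + 1) - G i))
    (hl : ∀ i, b ≤ i → i < K → u i ≤ u (i + 1)) {x y t : ℝ} (hx : G b ≤ x) (hy : G b ≤ y)
    (t0 : 0 ≤ t) (t1 : t ≤ 1) :
    (1 - t) * hat G K u x + t * hat G K u y ≤ hat G K u ((1 - t) * x + t * y) := by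
  have hxy : G b ≤ (1 - t) * x + t * y := by nlinarith
  rw [hat_shift hg hb u hx, hat_shift hg hb u hy, hat_shift hg hb u hxy]
  refine hat_conc (fun i => hg (b + i)) _ (fun i hi => ?_) (fun i hi => ?_) hx hy t0 t1
  · exact h (b + i) (by omega) (by omega)
  · exact hl (b + i) (by omega) (by omega)

end

/-- conditions on the values at the nodes above `b` -/
structure TabOk (G : ℕ → ℝ) (K1 K2 K3 b : ℕ) (T : ℕ → ℕ → ℕ → ℝ) : Prop where
  moX : ∀ i j l, b ≤ i → i < K1 → b ≤ j → j ≤ K2 → b ≤ l → l ≤ K3 → T i j l ≤ T (i + 1) j l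
  moY : ∀ i j l, b ≤ i → i ≤ K1 → b ≤ j → j < K2 → b ≤ l → l ≤ K3 → T i j l ≤ T i (j + 1) l
  moZ : ∀ i j l, b ≤ i → i ≤ K1 → b ≤ j → j ≤ K2 → b ≤ l → l < K3 → T i j l ≤ T i j (l + 1)
  coX : ∀ i j l, b ≤ i → i + 1 < K1 → b ≤ j → j ≤ K2 → b ≤ l → l ≤ K3 →
    (T (i + 2) j l - T (i + 1) j l) / (G (i + 2) - G (i + 1)) ≤
      (T (i + 1) j l - T i j l) / (G (i + 1) - G i)
  coY : ∀ i j l, b ≤ i → i ≤ K1 → b ≤ j → j + 1 < K2 → b ≤ l → l ≤ K3 →
    (T i (j + 2) l - T i (j + 1) l) / (G (j + 2) - G (j + 1)) ≤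
      (T i (j + 1) l - T i j l) / (G (j + 1) - G j)
  coZ : ∀ i j l, b ≤ i → i ≤ K1 → b ≤ j → j ≤ K2 → b ≤ l → l + 1 < K3 →
    (T i j (l + 2) - T i j (l + 1)) / (G (l + 2) - G (l + 1)) ≤
      (T i j (l + 1) - T i j l) / (G (l + 1) - G l)
  suXY : ∀ i j l, b ≤ i → i < K1 → b ≤ j → j < K2 → b ≤ l → l ≤ K3 →
    T (i + 1) (j + 1) l + T i j l ≤ T (i + 1) j l + T i (j + 1) l
  suXZ : ∀ i j l, b ≤ i → i < K1 → b ≤ j → j ≤ K2 → b ≤ l → l < K3 →
    T (i + 1) j (l + 1) + T i j l ≤ T (i + 1) j l + T i j (l + 1)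
  suYZ : ∀ i j l, b ≤ i → i ≤ K1 → b ≤ j → j < K2 → b ≤ l → l < K3 →
    T i (j + 1) (l + 1) + T i j l ≤ T i (j + 1) l + T i j (l + 1)

section
variable {G : ℕ → ℝ} {K1 K2 K3 b : ℕ} {T : ℕ → ℕ → ℕ → ℝ}

lemma F3_viewY (x y z : ℝ) : F3 G K1 K2 K3 T x y z =
    hat G K2 (fun j => e2 G K1 K3 (fun i l => T i j l) x z) y := by
  unfold F3 e2
  exact hat_comm G G K1 K2 (fun i j => hat G K3 (T i j) z) x y

lemma F3_viewZ (x y z : ℝ) : F3 G K1 K2 K3 T x y z =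
    hat G K3 (fun l => e2 G K1 K2 (fun i j => T i j l) x y) z := by
  unfold F3
  have : (fun i => e2 G K2 K3 (T i) y z) =
      fun i => hat G K3 (fun l => hat G K2 (fun j => T i j l) y) z := by
    funext i
    exact hat_comm G G K2 K3 (T i) y z
  rw [this]
  exact hat_comm G G K1 K3 (fun i l => hat G K2 (fun j => T i j l) y) x z

lemma F3_viewXZ (x y z : ℝ) : F3 G K1 K2 K3 T x y z =
    e2 G K1 K3 (fun i l => hat G K2 (fun j => T i j l) y) x z := by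
  unfold F3
  have : (fun i => e2 G K2 K3 (T i) y z) =
      fun i => hat G K3 (fun l => hat G K2 (fun j => T i j l) y) z := by
    funext i
    exact hat_comm G G K2 K3 (T i) y z
  rw [this]
  rfl

lemma F3_viewYZ (x y z : ℝ) : F3 G K1 K2 K3 T x y z =
    e2 G K2 K3 (fun j l => hat G K1 (fun i => T i j l) x) y z := by
  rw [F3_viewY]
  unfold e2
  have : (fun j => hat G K1 (fun i => hat G K3 (fun l => T i j l) z) x) =
      fun j => hat G K3 (fun l => hat G K1 (fun i => T i j l) x) z := by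
    funext j
    exact hat_comm G G K1 K3 (fun i l => T i j l) x z
  rw [this]

variable (hg : ∀ i, G i < G (i + 1)) (h1 : b ≤ K1) (h2 : b ≤ K2) (h3 : b ≤ K3)
include hg h1 h2 h3

lemma F3_le {T' : ℕ → ℕ → ℕ → ℝ} (h : ∀ i j l, b ≤ i → i ≤ K1 → b ≤ j → j ≤ K2 → b ≤ l → l ≤ K3 →
    T i j l ≤ T' i j l) {x y z : ℝ} (hx : G b ≤ x) (hy : G b ≤ y) (hz : G b ≤ z) :
    F3 G K1 K2 K3 T x y z ≤ F3 G K1 K2 K3 T' x y z :=
  hat_le_from hg h1 (fun i p q => e2_le hg h2 h3 (fun j l r s t u => h i j l p q r s t u) hy hz) hx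

lemma TabOk.mono (hT : TabOk G K1 K2 K3 b T) {x x' y y' z z' : ℝ} (hx : G b ≤ x) (hy : G b ≤ y)
    (hz : G b ≤ z) (hxx : x ≤ x') (hyy : y ≤ y') (hzz : z ≤ z') :
    F3 G K1 K2 K3 T x y z ≤ F3 G K1 K2 K3 T x' y' z' := by
  have a1 : F3 G K1 K2 K3 T x y z ≤ F3 G K1 K2 K3 T x y z' := by
    rw [F3_viewZ, F3_viewZ]
    exact hat_mono_from hg h3 (fun l p q => e2_le hg h1 h2 (fun i j r s t u =>
      hT.moZ i j l r s t u p q) hx hy) hz hzz
  have a2 : F3 G K1 K2 K3 T x y z' ≤ F3 G K1 K2 K3 T x y' z' := by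
    rw [F3_viewY, F3_viewY]
    exact hat_mono_from hg h2 (fun j p q => e2_le hg h1 h3 (fun i l r s t u =>
      hT.moY i j l r s p q t u) hx (hz.trans hzz)) hy hyy
  have a3 : F3 G K1 K2 K3 T x y' z' ≤ F3 G K1 K2 K3 T x' y' z' :=
    hat_mono_from hg h1 (fun i p q => e2_le hg h2 h3 (fun j l r s t u =>
      hT.moX i j l p q r s t u) (hy.trans hyy) (hz.trans hzz)) hx hxx
  exact a1.trans (a2.trans a3)

lemma TabOk.conX (hT : TabOk G K1 K2 K3 b T) {x x' y z t : ℝ} (hx : G b ≤ x) (hx' : G b ≤ x')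
    (hy : G b ≤ y) (hz : G b ≤ z) (t0 : 0 ≤ t) (t1 : t ≤ 1) :
    (1 - t) * F3 G K1 K2 K3 T x y z + t * F3 G K1 K2 K3 T x' y z ≤
      F3 G K1 K2 K3 T ((1 - t) * x + t * x') y z := by
  unfold F3
  refine hat_conc_from hg h1 (fun i p q => ?_) (fun i p q => ?_) hx hx' t0 t1
  · rw [e2_div, e2_div]
    exact e2_le hg h2 h3 (fun j l r s t u => hT.coX i j l p q r s t u) hy hz
  · exact e2_le hg h2 h3 (fun j l r s t u => hT.moX i j l p q r s t u) hy hz

lemma TabOk.conY (hT : TabOk G K1 K2 K3 b T) {x y y' z t : ℝ} (hx : G b ≤ x) (hy : G b ≤ y)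
    (hy' : G b ≤ y') (hz : G b ≤ z) (t0 : 0 ≤ t) (t1 : t ≤ 1) :
    (1 - t) * F3 G K1 K2 K3 T x y z + t * F3 G K1 K2 K3 T x y' z ≤
      F3 G K1 K2 K3 T x ((1 - t) * y + t * y') z := by
  rw [F3_viewY, F3_viewY, F3_viewY]
  refine hat_conc_from hg h2 (fun j p q => ?_) (fun j p q => ?_) hy hy' t0 t1
  · rw [e2_div, e2_div]
    exact e2_le hg h1 h3 (fun i l r s t u => hT.coY i j l r s p q t u) hx hz
  · exact e2_le hg h1 h3 (fun i l r s t u => hT.moY i j l r s p q t u) hx hz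

lemma TabOk.conZ (hT : TabOk G K1 K2 K3 b T) {x y z z' t : ℝ} (hx : G b ≤ x) (hy : G b ≤ y)
    (hz : G b ≤ z) (hz' : G b ≤ z') (t0 : 0 ≤ t) (t1 : t ≤ 1) :
    (1 - t) * F3 G K1 K2 K3 T x y z + t * F3 G K1 K2 K3 T x y z' ≤
      F3 G K1 K2 K3 T x y ((1 - t) * z + t * z') := by
  rw [F3_viewZ, F3_viewZ, F3_viewZ]
  refine hat_conc_from hg h3 (fun l p q => ?_) (fun l p q => ?_) hz hz' t0 t1
  · rw [e2_div, e2_div]
    exact e2_le hg h1 h2 (fun i j r s t u => hT.coZ i j l r s t u p q) hx hy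
  · exact e2_le hg h1 h2 (fun i j r s t u => hT.moZ i j l r s t u p q) hx hy

lemma TabOk.subXY (hT : TabOk G K1 K2 K3 b T) {x x' y y' z : ℝ} (hx : G b ≤ x) (hy : G b ≤ y)
    (hz : G b ≤ z) (hxx : x ≤ x') (hyy : y ≤ y') :
    F3 G K1 K2 K3 T x' y' z + F3 G K1 K2 K3 T x y z ≤
      F3 G K1 K2 K3 T x' y z + F3 G K1 K2 K3 T x y' z := by
  have e : ∀ x y, F3 G K1 K2 K3 T x y z = e2 G K1 K2 (fun i j => hat G K3 (T i j) z) x y :=
    fun x y => rfl
  rw [e, e, e, e]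
  refine e2_sub_mod hg h1 h2 (fun i j p q r s => ?_) hx hxx hy hyy
  rw [← hat_add, ← hat_add]
  exact hat_le_from hg h3 (fun l t u => hT.suXY i j l p q r s t u) hz

lemma TabOk.subXZ (hT : TabOk G K1 K2 K3 b T) {x x' y z z' : ℝ} (hx : G b ≤ x) (hy : G b ≤ y)
    (hz : G b ≤ z) (hxx : x ≤ x') (hzz : z ≤ z') :
    F3 G K1 K2 K3 T x' y z' + F3 G K1 K2 K3 T x y z ≤
      F3 G K1 K2 K3 T x' y z + F3 G K1 K2 K3 T x y z' := by
  rw [F3_viewXZ, F3_viewXZ, F3_viewXZ, F3_viewXZ]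
  refine e2_sub_mod hg h1 h3 (fun i l p q r s => ?_) hx hxx hz hzz
  rw [← hat_add, ← hat_add]
  exact hat_le_from hg h2 (fun j t u => hT.suXZ i j l p q t u r s) hy

lemma TabOk.subYZ (hT : TabOk G K1 K2 K3 b T) {x y y' z z' : ℝ} (hx : G b ≤ x) (hy : G b ≤ y)
    (hz : G b ≤ z) (hyy : y ≤ y') (hzz : z ≤ z') :
    F3 G K1 K2 K3 T x y' z' + F3 G K1 K2 K3 T x y z ≤
      F3 G K1 K2 K3 T x y' z + F3 G K1 K2 K3 T x y z' := by
  rw [F3_viewYZ, F3_viewYZ, F3_viewYZ, F3_viewYZ]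
  refine e2_sub_mod hg h2 h3 (fun j l p q r s => ?_) hy hyy hz hzz
  rw [← hat_add, ← hat_add]
  exact hat_le_from hg h1 (fun i t u => hT.suYZ i j l t u p q r s) hx

end

/-- the layer function: constant below the node `b` -/
noncomputable def lay (G : ℕ → ℝ) (K1 K2 K3 b : ℕ) (T : ℕ → ℕ → ℕ → ℝ) (x y z : ℝ) : ℝ :=
  F3 G K1 K2 K3 T (max x (G b)) (max y (G b)) (max z (G b))

section
variable {G : ℕ → ℝ} {K1 K2 K3 b : ℕ} {T : ℕ → ℕ → ℕ → ℝ}

lemma lay_eq {x y z : ℝ} (hx : G b ≤ x) (hy : G b ≤ y) (hz : G b ≤ z) :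
    lay G K1 K2 K3 b T x y z = F3 G K1 K2 K3 T x y z := by
  unfold lay
  rw [max_eq_left hx, max_eq_left hy, max_eq_left hz]

lemma max_comb {L x x' t : ℝ} (hx : L ≤ x) (hx' : L ≤ x') (t0 : 0 ≤ t) (t1 : t ≤ 1) :
    L ≤ (1 - t) * x + t * x' := by nlinarith

theorem TabOk.lay_ok (hg : ∀ i, G i < G (i + 1)) (h1 : b ≤ K1) (h2 : b ≤ K2) (h3 : b ≤ K3)
    (hT : TabOk G K1 K2 K3 b T) : Lay (G b) (lay G K1 K2 K3 b T) where
  mono := fun x x' y y' z z' hx hy hz =>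
    hT.mono hg h1 h2 h3 (le_max_right _ _) (le_max_right _ _) (le_max_right _ _)
      (max_le_max hx le_rfl) (max_le_max hy le_rfl) (max_le_max hz le_rfl)
  conX := fun x x' y z t hx hx' t0 t1 => by
    unfold lay
    rw [max_eq_left hx, max_eq_left hx', max_eq_left (max_comb hx hx' t0 t1)]
    exact hT.conX hg h1 h2 h3 hx hx' (le_max_right _ _) (le_max_right _ _) t0 t1
  conY := fun x y y' z t hx hx' t0 t1 => by
    unfold lay
    rw [max_eq_left hx, max_eq_left hx', max_eq_left (max_comb hx hx' t0 t1)]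
    exact hT.conY hg h1 h2 h3 (le_max_right _ _) hx hx' (le_max_right _ _) t0 t1
  conZ := fun x y z z' t hx hx' t0 t1 => by
    unfold lay
    rw [max_eq_left hx, max_eq_left hx', max_eq_left (max_comb hx hx' t0 t1)]
    exact hT.conZ hg h1 h2 h3 (le_max_right _ _) (le_max_right _ _) hx hx' t0 t1
  subXY := fun x x' y y' z hx hy =>
    hT.subXY hg h1 h2 h3 (le_max_right _ _) (le_max_right _ _) (le_max_right _ _)
      (max_le_max hx le_rfl) (max_le_max hy le_rfl)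
  subXZ := fun x x' y z z' hx hz =>
    hT.subXZ hg h1 h2 h3 (le_max_right _ _) (le_max_right _ _) (le_max_right _ _)
      (max_le_max hx le_rfl) (max_le_max hz le_rfl)
  subYZ := fun x y y' z z' hy hz =>
    hT.subYZ hg h1 h2 h3 (le_max_right _ _) (le_max_right _ _) (le_max_right _ _)
      (max_le_max hy le_rfl) (max_le_max hz le_rfl)

/-- comparison of the increments of two layers -/
structure NxtOk (K1 K2 K3 a : ℕ) (T T' : ℕ → ℕ → ℕ → ℝ) : Prop where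
  nY : ∀ i j l, a ≤ i → i ≤ K1 → a ≤ j → j < K2 → a ≤ l → l ≤ K3 →
    T' i (j + 1) l + T i j l ≤ T' i j l + T i (j + 1) l
  nZ : ∀ i j l, a ≤ i → i ≤ K1 → a ≤ j → j ≤ K2 → a ≤ l → l < K3 →
    T' i j (l + 1) + T i j l ≤ T' i j l + T i j (l + 1)

theorem NxtOk.nxt {a b' : ℕ} {T' : ℕ → ℕ → ℕ → ℝ} (hg : ∀ i, G i < G (i + 1)) (h1 : a ≤ K1)
    (h2 : a ≤ K2) (h3 : a ≤ K3) (hb : b ≤ a) (hb' : b' ≤ a) (h : NxtOk K1 K2 K3 a T T') :
    Nxt (G a) (lay G K1 K2 K3 b T) (lay G K1 K2 K3 b' T') := by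
  have gm := (g_mono hg).monotone
  constructor
  · intro x y y' z hx hy hz hyy
    rw [lay_eq ((gm hb).trans hx) ((gm hb).trans hy) ((gm hb).trans hz),
      lay_eq ((gm hb).trans hx) ((gm hb).trans (hy.trans hyy)) ((gm hb).trans hz),
      lay_eq ((gm hb').trans hx) ((gm hb').trans hy) ((gm hb').trans hz),
      lay_eq ((gm hb').trans hx) ((gm hb').trans (hy.trans hyy)) ((gm hb').trans hz)]
    simp only [F3_viewY]
    have := hat_mono_from hg h2 (u := fun j => e2 G K1 K3 (fun i l => T i j l) x z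
      - e2 G K1 K3 (fun i l => T' i j l) x z) (fun j p q => by
        rw [← e2_sub, ← e2_sub]
        exact e2_le hg h1 h3 (fun i l r s t u => by
          have := h.nY i j l r s p q t u
          linarith) hx hz) hy hyy
    rw [hat_sub, hat_sub] at this
    linarith
  · intro x y z z' hx hy hz hzz
    rw [lay_eq ((gm hb).trans hx) ((gm hb).trans hy) ((gm hb).trans hz),
      lay_eq ((gm hb).trans hx) ((gm hb).trans hy) ((gm hb).trans (hz.trans hzz)),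
      lay_eq ((gm hb').trans hx) ((gm hb').trans hy) ((gm hb').trans hz),
      lay_eq ((gm hb').trans hx) ((gm hb').trans hy) ((gm hb').trans (hz.trans hzz))]
    simp only [F3_viewZ]
    have := hat_mono_from hg h3 (u := fun l => e2 G K1 K2 (fun i j => T i j l) x y
      - e2 G K1 K2 (fun i j => T' i j l) x y) (fun l p q => by
        rw [← e2_sub, ← e2_sub]
        exact e2_le hg h1 h2 (fun i j r s t u => by
          have := h.nZ i j l r s t u p q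
          linarith) hx hy) hz hzz
    rw [hat_sub, hat_sub] at this
    linarith

end

end Pool.Agent.Lib.MP_67d80e_pr_g3
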